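import Pool.Agent.Lib.MP_f10cd3_gt.S.Lip
import Pool.Agent.Lib.MP_f10cd3_gt.G.Kap

/-! Row L1a: the atlas of `M`. -/

set_option autoImplicit false

namespace F10S

open MPf10cd3 F10G
open scoped Manifold ContDiff

private theorem L1a_trans {M : Type} [TopologicalSpace M] [ChartedSpace ℂ M]
    [IsManifold 𝓘(ℂ, ℂ) 1 M] {e e' : OpenPartialHomeomorph M ℂ} (he : e ∈ atlas ℂ M)
    (he' : e' ∈ atlas ℂ M) : ContDiffOn ℂ 1 (e.symm ≫ₕ e') (e.symm ≫ₕ e').source := by
  have h1 : e.symm ≫ₕ e' ∈ contDiffGroupoid 1 𝓘(ℂ, ℂ) := HasGroupoid.compatible he he'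
  have h2 := contMDiffOn_of_mem_contDiffGroupoid h1
  exact contMDiffOn_iff_contDiffOn.1 h2

/-- Row L1a. `A` = the inverses of the charts of the atlas with the functions `u` of `h`;
uniformity by compactness; `compat`: `F = e' ∘ e.symm`, `contDiffGroupoid`. -/
theorem exists_atlas {M : Type} [MetricSpace M] [CompactSpace M] [ChartedSpace ℂ M]
    [IsManifold 𝓘(ℂ, ℂ) 1 M] {κ : ℝ} (h : IsConfMetric κ M) : ∃ A : Set (PC M), IsAtlas κ A ∧
      ∀ e ∈ atlas ℂ M, ∃ c ∈ A, c.U = e.target ∧ ∀ z, c.φ z = e.symm z := by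
  classical
  choose u hu1 hu2 hu3 using h
  let ch : ∀ e ∈ atlas ℂ M, PC M := fun e he => ⟨e.target, e.symm, u e he⟩
  refine ⟨{c | ∃ (e : OpenPartialHomeomorph M ℂ) (he : e ∈ atlas ℂ M), c = ch e he}, ⟨?_, ?_, ?_⟩, ?_⟩
  · rintro c ⟨e, he, rfl⟩
    refine ⟨e.open_target, (hu1 e he).of_le (WithTop.coe_le_coe.mpr le_top), ?_, e.continuousOn_symm, ?_, hu2 e he, hu3 e he⟩
    · exact e.symm.injOn
    · intro W hW hWo
      exact e.symm.isOpen_image_of_subset_source hWo hW
  · rintro c ⟨e, he, rfl⟩ c' ⟨e', he', rfl⟩ z hz z' hz' hzz'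
    change z ∈ e.target at hz
    change z' ∈ e'.target at hz'
    change e.symm z = e'.symm z' at hzz'
    have hsrc : z ∈ (e.symm ≫ₕ e').source := by
      rw [OpenPartialHomeomorph.trans_source]
      refine ⟨hz, ?_⟩
      show e.symm z ∈ e'.source
      rw [hzz']
      exact e'.map_target hz'
    have hd := L1a_trans he he'
    refine ⟨e.symm ≫ₕ e', ?_, ?_⟩
    · show e' (e.symm z) = z'
      rw [hzz', e'.right_inv hz']
    · have hopen := (e.symm ≫ₕ e').open_source
      filter_upwards [hopen.mem_nhds hsrc] with w hw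
      refine ⟨?_, ?_, ?_⟩
      · exact ((hd.contDiffAt (hopen.mem_nhds hw)).differentiableAt (by norm_num))
      · rw [OpenPartialHomeomorph.trans_source] at hw
        exact e'.map_source hw.2
      · rw [OpenPartialHomeomorph.trans_source] at hw
        exact e'.left_inv hw.2
  · have key : ∃ ρ : ℝ, 0 < ρ ∧ ∃ B : ℝ, ∀ y ∈ (Set.univ : Set M), ∃ c ∈ {c | ∃ (e : OpenPartialHomeomorph M ℂ)
        (he : e ∈ atlas ℂ M), c = ch e he}, ∃ z : ℂ, c.φ z = y ∧
        Metric.closedBall z ρ ⊆ c.U ∧ ∀ w ∈ Metric.closedBall z ρ, |c.u w| ≤ B := by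
      refine isCompact_univ.induction_on ⟨1, one_pos, 0, fun y hy => absurd hy (Set.notMem_empty y)⟩
        ?_ ?_ ?_
      · rintro s t hst ⟨ρ, hρ, B, hB⟩
        exact ⟨ρ, hρ, B, fun y hy => hB y (hst hy)⟩
      · rintro s t ⟨ρ, hρ, B, hB⟩ ⟨ρ', hρ', B', hB'⟩
        refine ⟨min ρ ρ', lt_min hρ hρ', max B B', fun y hy => ?_⟩
        rcases hy with hy | hy
        · obtain ⟨c, hc, z, h1, h2, h3⟩ := hB y hy
          refine ⟨c, hc, z, h1, (Metric.closedBall_subset_closedBall (min_le_left _ _)).trans h2,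
            fun w hw => ?_⟩
          exact (h3 w (Metric.closedBall_subset_closedBall (min_le_left _ _) hw)).trans
            (le_max_left _ _)
        · obtain ⟨c, hc, z, h1, h2, h3⟩ := hB' y hy
          refine ⟨c, hc, z, h1, (Metric.closedBall_subset_closedBall (min_le_right _ _)).trans h2,
            fun w hw => ?_⟩
          exact (h3 w (Metric.closedBall_subset_closedBall (min_le_right _ _) hw)).trans
            (le_max_right _ _)
      · intro y0 _
        have he : chartAt ℂ y0 ∈ atlas ℂ M := chart_mem_atlas ℂ y0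
        set e := chartAt ℂ y0 with hee
        have hy0 : y0 ∈ e.source := mem_chart_source ℂ y0
        have hz0 : e y0 ∈ e.target := e.map_source hy0
        obtain ⟨r, hr, hsub⟩ := Metric.isOpen_iff.1 e.open_target (e y0) hz0
        have hsub2 : Metric.closedBall (e y0) (r / 2) ⊆ e.target :=
          (Metric.closedBall_subset_ball (by linarith)).trans hsub
        have hcomp : IsCompact (Metric.closedBall (e y0) (r / 2)) := isCompact_closedBall _ _
        have hcont : ContinuousOn (u e he) (Metric.closedBall (e y0) (r / 2)) :=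
          (hu1 e he).continuousOn.mono hsub2
        obtain ⟨B, hB⟩ := hcomp.exists_bound_of_continuousOn hcont
        have hN : e.source ∩ e ⁻¹' Metric.ball (e y0) (r / 4) ∈ nhds y0 := by
          apply Filter.inter_mem (e.open_source.mem_nhds hy0)
          exact (e.continuousAt hy0).preimage_mem_nhds (Metric.ball_mem_nhds _ (by linarith))
        refine ⟨_, mem_nhdsWithin_of_mem_nhds hN, r / 4, by linarith, B, ?_⟩
        rintro y ⟨hy1, hy2⟩
        have hin : Metric.closedBall (e y) (r / 4) ⊆ Metric.closedBall (e y0) (r / 2) := by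
          intro w hw
          rw [Metric.mem_closedBall] at hw ⊢
          have h2 : dist (e y) (e y0) < r / 4 := hy2
          linarith [dist_triangle w (e y) (e y0)]
        refine ⟨ch e he, ⟨e, he, rfl⟩, e y, e.left_inv hy1, hin.trans hsub2, fun w hw => ?_⟩
        have := hB w (hin hw)
        rwa [Real.norm_eq_abs] at this
    obtain ⟨ρ, hρ, B, hB⟩ := key
    exact ⟨ρ, hρ, B, fun y => hB y (Set.mem_univ y)⟩
  · intro e he
    exact ⟨ch e he, ⟨e, he, rfl⟩, rfl, fun z => rfl⟩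

variable {Γ X M : Type} [Group Γ] [MetricSpace X] [MulAction Γ X] [MetricSpace M] {π : X → M}

/-- `π` is an isometry on balls of radius `ι / 4` and maps them onto balls -/
theorem cover_iso (hc : IsCover Γ π) {ι : ℝ}
    (hι : ∀ γ : Γ, γ ≠ 1 → ∀ x : X, ι ≤ dist x (γ • x)) {x y z : X} (hy : dist x y < ι / 4)
    (hz : dist x z < ι / 4) : dist (π y) (π z) = dist y z := by
  obtain ⟨γ, hγ⟩ := hc.lift y z
  have h1 : dist y z < ι / 2 := by
    have := dist_triangle_left y z x
    linarith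
  have h2 := hc.le y z
  by_cases h : γ = 1
  · rw [h, one_smul] at hγ
    exact hγ.symm
  · have h3 := hι γ h z
    have h4 := dist_triangle_left z (γ • z) y
    rw [hγ] at h4
    linarith

theorem L1b_eq (hc : IsCover Γ π) {ι : ℝ}
    (hι : ∀ γ : Γ, γ ≠ 1 → ∀ x : X, ι ≤ dist x (γ • x)) {x y z : X} (hy : dist x y < ι / 4)
    (hz : dist x z < ι / 4) (h : π y = π z) : y = z := by
  have := cover_iso hc hι hy hz
  rw [h, dist_self] at this
  exact dist_eq_zero.1 this.symm

theorem L1b_continuous (hc : IsCover Γ π) : Continuous π :=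
  LipschitzWith.continuous (K := 1) (LipschitzWith.of_dist_le_mul fun x y => by
    simpa using hc.le x y)

theorem L1b_chart (hc : IsCover Γ π) {ι : ℝ} (h0 : 0 < ι)
    (hι : ∀ γ : Γ, γ ≠ 1 → ∀ x : X, ι ≤ dist x (γ • x)) {κ : ℝ} {c : PC M} (hpc : IsPC κ c)
    (x : X) {z0 : ℂ} (hz0 : c.φ z0 = π x) {ρ B : ℝ} (hρ : 0 < ρ)
    (hsub : Metric.closedBall z0 ρ ⊆ c.U) (hB : ∀ w ∈ Metric.closedBall z0 ρ, |c.u w| ≤ B) :
    ∃ c' : PC X, IsPC κ c' ∧ c'.U = Metric.ball z0 (min ρ (ι / (8 * Real.exp B))) ∧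
      c'.u = c.u ∧ (∀ z, π (c'.φ z) = c.φ z) ∧ c'.φ z0 = x := by
  set ρ1 : ℝ := min ρ (ι / (8 * Real.exp B)) with hρ1
  have hexp := Real.exp_pos B
  have hρ1ρ : ρ1 ≤ ρ := min_le_left _ _
  have hρ1' : ρ1 * (8 * Real.exp B) ≤ ι := by
    rw [← le_div_iff₀ (by positivity)]
    exact min_le_right _ _
  have hL : ∀ y : M, ∃ x' : X, π x' = y ∧ dist x x' = dist (π x) y := by
    intro y
    obtain ⟨x1, hx1⟩ := hc.surj y
    obtain ⟨γ, hγ⟩ := hc.lift x x1
    exact ⟨γ • x1, by rw [hc.inv, hx1], by rw [hγ, hx1]⟩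
  choose L hLπ hLd using hL
  have hnear : ∀ z ∈ Metric.ball z0 ρ1, dist x (L (c.φ z)) < ι / 4 := by
    intro z hz
    rw [hLd, ← hz0]
    rw [Metric.mem_ball] at hz
    have h1 := chart_lip hpc hsub hB (z := z0) (w := z)
      (Metric.mem_closedBall_self hρ.le)
      (by rw [Metric.mem_closedBall]; linarith)
    rw [← dist_eq_norm, dist_comm z0 z] at h1
    have h2 : Real.exp B * dist z z0 ≤ Real.exp B * ρ1 :=
      mul_le_mul_of_nonneg_left hz.le hexp.le
    have h3 : Real.exp B * ρ1 = (ρ1 * (8 * Real.exp B)) / 8 := by ring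
    linarith
  have hdist : ∀ z ∈ Metric.ball z0 ρ1, ∀ w ∈ Metric.ball z0 ρ1,
      dist (L (c.φ z)) (L (c.φ w)) = dist (c.φ z) (c.φ w) := by
    intro z hz w hw
    have := cover_iso hc hι (hnear z hz) (hnear w hw)
    rw [hLπ, hLπ] at this
    exact this.symm
  have hsub1 : Metric.ball z0 ρ1 ⊆ c.U := fun z hz => hsub
    (Metric.closedBall_subset_closedBall hρ1ρ (Metric.ball_subset_closedBall hz))
  refine ⟨⟨Metric.ball z0 ρ1, fun z => L (c.φ z), c.u⟩, ?_, rfl, rfl, fun z => hLπ _, ?_⟩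
  · refine
      { isOpen := Metric.isOpen_ball
        smooth := hpc.smooth.mono hsub1
        inj := ?_
        cont := ?_
        opn := ?_
        metric := ?_
        curv := fun z hz => hpc.curv z (hsub1 hz) }
    · intro z hz w hw h
      have h1 : L (c.φ z) = L (c.φ w) := h
      have h2 : c.φ z = c.φ w := by rw [← hLπ (c.φ z), h1, hLπ]
      exact hpc.inj (hsub1 hz) (hsub1 hw) h2
    · intro z hz
      have h1 := (hpc.cont.mono hsub1) z hz
      rw [ContinuousWithinAt, tendsto_iff_dist_tendsto_zero] at h1 ⊢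
      refine h1.congr' ?_
      filter_upwards [self_mem_nhdsWithin] with w hw
      exact (hdist w hw z hz).symm
    · intro W hW hWo
      have h1 : IsOpen (c.φ '' W) := hpc.opn W (hW.trans hsub1) hWo
      have h2 : (fun z => L (c.φ z)) '' W = Metric.ball x (ι / 4) ∩ π ⁻¹' (c.φ '' W) := by
        ext x'
        constructor
        · rintro ⟨z, hz, rfl⟩
          refine ⟨?_, ?_⟩
          · rw [Metric.mem_ball, dist_comm]
            exact hnear z (hW hz)
          · exact ⟨z, hz, (hLπ _).symm⟩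
        · rintro ⟨h3, z, hz, h4⟩
          refine ⟨z, hz, ?_⟩
          rw [Metric.mem_ball, dist_comm] at h3
          exact L1b_eq hc hι (hnear z (hW hz)) h3 ((hLπ _).trans h4)
      show IsOpen ((fun z => L (c.φ z)) '' W)
      rw [h2]
      exact Metric.isOpen_ball.inter (h1.preimage (L1b_continuous hc))
    · intro z1 hz1 ε hε
      obtain ⟨η, hη, h⟩ := hpc.metric z1 (hsub1 hz1) ε hε
      refine ⟨η, hη, fun z hz w hw h1 h2 => ?_⟩
      show |dist (L (c.φ z)) (L (c.φ w)) - Real.exp (c.u z1) * ‖z - w‖| ≤ ε * ‖z - w‖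
      rw [hdist z hz w hw]
      exact h z (hsub1 hz) w (hsub1 hw) h1 h2
  · show L (c.φ z0) = x
    have h1 := hLd (c.φ z0)
    rw [hz0, dist_self] at h1
    rw [hz0]
    exact (dist_eq_zero.1 h1).symm

/-- Row L1b. `A'` = all parametrised charts `c'` of `X` with `IsPC κ c'` which lift a chart of `A`:
`c'.U ⊆ c.U`, `c'.u = c.u`, `π (c'.φ z) = c.φ z`.  Existence and uniformity: `chart_lip`,
the chart `c` on a ball of radius `min ρ (ι / (8 e^B))` takes values in a ball of radius `ι / 4`. -/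
theorem atlas_lift (hc : IsCover Γ π) {κ : ℝ} {A : Set (PC M)} (hA : IsAtlas κ A) :
    ∃ A' : Set (PC X), IsAtlas κ A' := by
  obtain ⟨ι, h0, hι⟩ := hc.free
  refine ⟨{c' | IsPC κ c' ∧ ∃ c ∈ A, c'.U ⊆ c.U ∧ c'.u = c.u ∧ ∀ z, π (c'.φ z) = c.φ z}, ?_⟩
  refine { pc := fun c' hc' => hc'.1, compat := ?_, unif := ?_ }
  · rintro c1' ⟨hp1, c1, hc1, hU1, hu1, hπ1⟩ c2' ⟨hp2, c2, hc2, hU2, hu2, hπ2⟩ z hz z' hz' h
    have h1 : c1.φ z = c2.φ z' := by rw [← hπ1, ← hπ2, h]
    obtain ⟨F, hF, hev⟩ := hA.compat c1 hc1 c2 hc2 z (hU1 hz) z' (hU2 hz') h1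
    refine ⟨F, hF, ?_⟩
    have hFc : ContinuousAt F z := (hev.self_of_nhds).1.continuousAt
    have hev2 : ∀ᶠ w in nhds z, F w ∈ c2'.U :=
      hFc.eventually (by rw [hF]; exact hp2.isOpen.mem_nhds hz')
    have hcont1 : ContinuousAt c1'.φ z := hp1.cont.continuousAt (hp1.isOpen.mem_nhds hz)
    have hcont2 : ContinuousAt (fun w => c2'.φ (F w)) z := by
      have h2 : ContinuousAt c2'.φ (F z) := by
        rw [hF]
        exact hp2.cont.continuousAt (hp2.isOpen.mem_nhds hz')
      exact ContinuousAt.comp (g := c2'.φ) h2 hFc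
    have hev3 : ∀ᶠ w in nhds z, dist (c1'.φ w) (c1'.φ z) < ι / 4 :=
      Metric.tendsto_nhds.1 hcont1 (ι / 4) (by linarith)
    have hev4 : ∀ᶠ w in nhds z, dist (c2'.φ (F w)) (c2'.φ (F z)) < ι / 4 :=
      Metric.tendsto_nhds.1 hcont2 (ι / 4) (by linarith)
    filter_upwards [hev, hev2, hev3, hev4] with w hw1 hw2 hw3 hw4
    refine ⟨hw1.1, hw2, ?_⟩
    rw [hF, ← h, dist_comm] at hw4
    rw [dist_comm] at hw3
    refine L1b_eq hc hι hw4 hw3 ?_
    rw [hπ2, hπ1, hw1.2.2]
  · obtain ⟨ρ, hρ, B, hB⟩ := hA.unif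
    have hexp := Real.exp_pos B
    have hρ1 : 0 < min ρ (ι / (8 * Real.exp B)) := lt_min hρ (by positivity)
    refine ⟨min ρ (ι / (8 * Real.exp B)) / 2, by linarith, B, fun x => ?_⟩
    obtain ⟨c, hcA, z0, hz0, hsub, hb⟩ := hB (π x)
    obtain ⟨c', hpc', hU', hu', hπ', hx⟩ := L1b_chart hc h0 hι (hA.pc c hcA) x hz0 hρ hsub hb
    have hUU : c'.U ⊆ c.U := by
      rw [hU']
      exact fun z hz => hsub (Metric.closedBall_subset_closedBall (min_le_left _ _)
        (Metric.ball_subset_closedBall hz))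
    refine ⟨c', ⟨hpc', c, hcA, hUU, hu', hπ'⟩, z0, hx, ?_, ?_⟩
    · rw [hU']
      exact Metric.closedBall_subset_ball (by linarith)
    · intro w hw
      rw [hu']
      refine hb w (Metric.closedBall_subset_closedBall ?_ hw)
      have := min_le_left ρ (ι / (8 * Real.exp B))
      linarith

end F10S
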