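import Pool.Agent.Lib.MP_f10cd3_gt.S.Lip

/-! Row P3: the exponential map is Lipschitz. -/

set_option autoImplicit false

namespace F10S

open MPf10cd3 F10G

variable {Y : Type} [MetricSpace Y] {κ : ℝ} {A : Set (PC Y)} {x : Y} {S : ℝ} {E : ℂ → Y}

theorem P3_aux (hA : IsAtlas κ A) {v0 h : ℂ} {c : PC Y} (hc : c ∈ A) {Z : ℂ → ℂ}
    (hZ : ContDiffAt ℝ 1 Z v0) (hev : ∀ᶠ v in nhds v0, Z v ∈ c.U ∧ c.φ (Z v) = E v) {K : ℝ}
    (hK : Real.exp (c.u (Z v0)) * ‖fderiv ℝ Z v0 h‖ ≤ K) {ε : ℝ} (hε : 0 < ε) :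
    ∃ η : ℝ, 0 < η ∧ ∀ r : ℝ, |r| < η → dist (E (v0 + r • h)) (E v0) ≤ (K + ε) * |r| := by
  obtain ⟨hz0, hφ0⟩ := hev.self_of_nhds
  set B : ℝ := Real.exp (c.u (Z v0)) with hB
  set D : ℝ := ‖fderiv ℝ Z v0 h‖ with hD
  have hB0 : 0 < B := Real.exp_pos _
  have hD0 : 0 ≤ D := norm_nonneg _
  set e1 : ℝ := min 1 (ε / (D + B + 1)) with he1
  have hs0 : 0 < D + B + 1 := by linarith
  have he10 : 0 < e1 := lt_min one_pos (div_pos hε hs0)
  have he11 : e1 ≤ 1 := min_le_left _ _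
  have he12 : e1 * (D + B + 1) ≤ ε := by
    have h1 : e1 ≤ ε / (D + B + 1) := min_le_right _ _
    exact (le_div_iff₀ hs0).1 h1
  obtain ⟨η1, hη1, hm⟩ := (hA.pc c hc).metric (Z v0) hz0 e1 he10
  -- the curve
  have hdiff : HasFDerivAt Z (fderiv ℝ Z v0) v0 :=
    (hZ.differentiableAt (by norm_num)).hasFDerivAt
  have hline : HasDerivAt (fun r : ℝ => v0 + r • h) h 0 := by
    have h1 := ((hasDerivAt_id (0 : ℝ)).smul_const h).const_add v0
    rw [one_smul] at h1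
    exact h1
  have hline0 : v0 + (0 : ℝ) • h = v0 := by rw [zero_smul, add_zero]
  have hcomp : HasDerivAt (fun r : ℝ => Z (v0 + r • h)) (fderiv ℝ Z v0 h) 0 := by
    have h1 : HasFDerivAt Z (fderiv ℝ Z v0) (v0 + (0 : ℝ) • h) := by rw [hline0]; exact hdiff
    exact h1.comp_hasDerivAt (0 : ℝ) hline
  have ho := hcomp.isLittleO.def he10
  have hcontl : ContinuousAt (fun r : ℝ => v0 + r • h) 0 := hline.continuousAt
  have hev' : ∀ᶠ r : ℝ in nhds 0, Z (v0 + r • h) ∈ c.U ∧ c.φ (Z (v0 + r • h)) = E (v0 + r • h) := by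
    have h1 : Filter.Tendsto (fun r : ℝ => v0 + r • h) (nhds 0) (nhds v0) := by
      have h2 := hcontl.tendsto
      rw [hline0] at h2
      exact h2
    exact h1.eventually hev
  have hball : ∀ᶠ r : ℝ in nhds 0, ‖Z (v0 + r • h) - Z v0‖ < η1 := by
    have h1 := hcomp.continuousAt.tendsto
    rw [hline0] at h1
    have h2 := h1.eventually (Metric.ball_mem_nhds (Z v0) hη1)
    filter_upwards [h2] with r hr
    rw [← dist_eq_norm]
    exact hr
  obtain ⟨η, hη, hall⟩ := Metric.eventually_nhds_iff.1 (ho.and (hev'.and hball))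
  refine ⟨η, hη, fun r hr => ?_⟩
  have hr' : dist r 0 < η := by rw [Real.dist_eq, sub_zero]; exact hr
  obtain ⟨h1, ⟨h2, h3⟩, h4⟩ := hall hr'
  rw [hline0, sub_zero, Real.norm_eq_abs] at h1
  have h5 : ‖Z (v0 + r • h) - Z v0‖ ≤ (D + e1) * |r| := by
    calc ‖Z (v0 + r • h) - Z v0‖
        = ‖(Z (v0 + r • h) - Z v0 - r • fderiv ℝ Z v0 h) + r • fderiv ℝ Z v0 h‖ := by
          rw [sub_add_cancel]
      _ ≤ ‖Z (v0 + r • h) - Z v0 - r • fderiv ℝ Z v0 h‖ + ‖r • fderiv ℝ Z v0 h‖ := norm_add_le _ _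
      _ ≤ e1 * |r| + |r| * D := by
          rw [norm_smul, Real.norm_eq_abs]
          linarith
      _ = (D + e1) * |r| := by ring
  have h6 := hm (Z (v0 + r • h)) h2 (Z v0) hz0 h4 (by rw [sub_self, norm_zero]; exact hη1)
  have h7 := (abs_le.1 h6).2
  rw [h3, hφ0] at h7
  have h8 : dist (E (v0 + r • h)) (E v0) ≤ (B + e1) * ‖Z (v0 + r • h) - Z v0‖ := by linarith
  have h9 : (B + e1) * ‖Z (v0 + r • h) - Z v0‖ ≤ (B + e1) * ((D + e1) * |r|) :=
    mul_le_mul_of_nonneg_left h5 (by linarith)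
  have h10 : (B + e1) * (D + e1) ≤ K + ε := by nlinarith
  have h11 : (B + e1) * ((D + e1) * |r|) ≤ (K + ε) * |r| := by
    rw [← mul_assoc]
    exact mul_le_mul_of_nonneg_right h10 (abs_nonneg r)
  linarith

/-- Row P3. `lip_of_local` on the segment: near `v0` the map `E` is `φ ∘ Z`, `Z` is strictly
differentiable and `φ` is infinitesimally `e^u |dz|`. -/
theorem IsExpMap.lip (hA : IsAtlas κ A) (hE : IsExpMap A x S E) {v w : ℂ} (hv : ‖v‖ < S)
    (hw : ‖w‖ < S) : dist (E v) (E w) ≤ 21 / 20 * ‖v - w‖ := by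
  have h := lip_of_local (f := fun t : ℝ => E (v + t • (w - v))) (K := 21 / 20 * ‖w - v‖) ?_
  · simp only [zero_smul, add_zero, one_smul, add_sub_cancel] at h
    rw [norm_sub_rev v w]
    exact h
  · intro t ht ε hε
    have hv0 : ‖v + t • (w - v)‖ < S := by
      have h1 : v + t • (w - v) ∈ Metric.ball (0 : ℂ) S := by
        apply (convex_ball (0 : ℂ) S).add_smul_sub_mem (x := v) (y := w)
        · rw [mem_ball_zero_iff]; exact hv
        · rw [mem_ball_zero_iff]; exact hw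
        · exact ht
      rwa [mem_ball_zero_iff] at h1
    obtain ⟨c, hc, Z, hZ, hev⟩ := hE.loc _ hv0
    obtain ⟨η, hη, hall⟩ := P3_aux (E := E) hA hc hZ (hev.mono fun v h => ⟨h.1, h.2.1⟩)
      (hev.self_of_nhds.2.2.1 (w - v)) hε
    refine ⟨η, hη, fun s _ hs => ?_⟩
    have h1 := hall (s - t) hs
    have h2 : v + t • (w - v) + (s - t) • (w - v) = v + s • (w - v) := by
      rw [sub_smul]
      abel
    rw [h2] at h1
    exact h1

/-- Row P3. the same on the segment from `0` to `v` with the radial bound -/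
theorem IsExpMap.radial (hA : IsAtlas κ A) (hE : IsExpMap A x S E) {v : ℂ} (hv : ‖v‖ < S) :
    dist x (E v) ≤ ‖v‖ := by
  have hS : 0 < S := (norm_nonneg v).trans_lt hv
  have key : ∀ τ : ℝ, 0 < τ → τ ≤ 1 → dist (E (τ • v)) (E v) ≤ (1 - τ) * ‖v‖ := by
    intro τ h0 h1
    have h := lip_of_local (f := fun t : ℝ => E ((τ + t * (1 - τ)) • v)) (K := (1 - τ) * ‖v‖) ?_
    · have e0 : τ + 0 * (1 - τ) = τ := by ring
      have e1 : τ + 1 * (1 - τ) = 1 := by ring
      simp only [e0, e1, one_smul] at h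
      exact h
    · intro t ht ε hε
      set a : ℝ := τ + t * (1 - τ) with ha
      have ha0 : 0 < a := by nlinarith [ht.1, mul_nonneg ht.1 (sub_nonneg.2 h1)]
      have ha1 : a ≤ 1 := by nlinarith [ht.2, mul_nonneg (sub_nonneg.2 ht.2) (sub_nonneg.2 h1)]
      have hn : ‖a • v‖ = a * ‖v‖ := by rw [norm_smul, Real.norm_eq_abs, abs_of_pos ha0]
      have hv0 : ‖a • v‖ < S := by
        rw [hn]
        nlinarith [norm_nonneg v]
      obtain ⟨c, hc, Z, hZ, hev⟩ := hE.loc _ hv0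
      have hrad := hev.self_of_nhds.2.2.2.1
      have hK : Real.exp (c.u (Z (a • v))) * ‖fderiv ℝ Z (a • v) ((1 - τ) • v)‖ ≤ (1 - τ) * ‖v‖ := by
        rw [map_smul, norm_smul, Real.norm_eq_abs, abs_of_pos ha0, hn] at hrad
        rw [map_smul, norm_smul, Real.norm_eq_abs, abs_of_nonneg (sub_nonneg.2 h1)]
        have h2 : Real.exp (c.u (Z (a • v))) * ‖fderiv ℝ Z (a • v) v‖ ≤ ‖v‖ := by
          have h3 : a * (Real.exp (c.u (Z (a • v))) * ‖fderiv ℝ Z (a • v) v‖) ≤ a * ‖v‖ := by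
            linarith
          exact le_of_mul_le_mul_left h3 ha0
        calc Real.exp (c.u (Z (a • v))) * ((1 - τ) * ‖fderiv ℝ Z (a • v) v‖)
            = (1 - τ) * (Real.exp (c.u (Z (a • v))) * ‖fderiv ℝ Z (a • v) v‖) := by ring
          _ ≤ (1 - τ) * ‖v‖ := mul_le_mul_of_nonneg_left h2 (sub_nonneg.2 h1)
      obtain ⟨η, hη, hall⟩ := P3_aux (E := E) hA hc hZ (hev.mono fun v h => ⟨h.1, h.2.1⟩) hK hε
      refine ⟨η, hη, fun s _ hs => ?_⟩
      have h3 := hall (s - t) hs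
      have h4 : a • v + (s - t) • (1 - τ) • v = (τ + s * (1 - τ)) • v := by
        rw [smul_smul, ← add_smul, ha]
        congr 1
        ring
      rw [h4] at h3
      exact h3
  refine le_of_forall_pos_le_add fun ε hε => ?_
  set τ : ℝ := min 1 (ε / (21 / 20 * ‖v‖ + 1)) with hτ
  have hp : 0 < 21 / 20 * ‖v‖ + 1 := by positivity
  have hτ0 : 0 < τ := lt_min one_pos (div_pos hε hp)
  have hτ1 : τ ≤ 1 := min_le_left _ _
  have hτ2 : τ * (21 / 20 * ‖v‖ + 1) ≤ ε := by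
    have h1 : τ ≤ ε / (21 / 20 * ‖v‖ + 1) := min_le_right _ _
    exact (le_div_iff₀ hp).1 h1
  have hn : ‖τ • v‖ = τ * ‖v‖ := by rw [norm_smul, Real.norm_eq_abs, abs_of_pos hτ0]
  have h1 : dist (E 0) (E (τ • v)) ≤ 21 / 20 * (τ * ‖v‖) := by
    have h2 := hE.lip hA (v := 0) (w := τ • v) (by rw [norm_zero]; exact hS)
      (by rw [hn]; nlinarith [norm_nonneg v])
    rw [zero_sub, norm_neg, hn] at h2
    exact h2
  rw [hE.zero] at h1
  have h2 := key τ hτ0 hτ1
  have h3 : dist x (E v) ≤ dist x (E (τ • v)) + dist (E (τ • v)) (E v) := dist_triangle _ _ _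
  nlinarith [norm_nonneg v, mul_nonneg hτ0.le (norm_nonneg v)]

/-- a curve whose norm grows slowly -/
theorem P4_growth {v : ℝ → ℂ} {v' : ℝ → ℂ} {C : ℝ} (hC : 0 ≤ C)
    (hv : ∀ t ∈ Set.Icc (0 : ℝ) 1, HasDerivAt v (v' t) t)
    (hb : ∀ t ∈ Set.Icc (0 : ℝ) 1, |(v' t * (starRingEnd ℂ) (v t)).re| ≤ ‖v t‖ * C) :
    ‖v 1‖ ≤ ‖v 0‖ + C := by
  refine le_of_forall_pos_le_add fun δ hδ => ?_
  set q : ℝ → ℝ := fun t => Real.sqrt (‖v t‖ ^ 2 + δ ^ 2) with hq
  have hpos : ∀ t, 0 < ‖v t‖ ^ 2 + δ ^ 2 := fun t => by positivity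
  have hder : ∀ t ∈ Set.Icc (0 : ℝ) 1, HasDerivAt q
      (2 * inner ℝ (v t) (v' t) / (2 * Real.sqrt (‖v t‖ ^ 2 + δ ^ 2))) t := by
    intro t ht
    have h1 : HasDerivAt (fun t => ‖v t‖ ^ 2 + δ ^ 2) (2 * inner ℝ (v t) (v' t)) t := by
      have h2 := (hv t ht).norm_sq
      have h3 := h2.add_const (δ ^ 2)
      exact h3
    exact h1.sqrt (hpos t).ne'
  have hle : ∀ t ∈ Set.Icc (0 : ℝ) 1,
      2 * inner ℝ (v t) (v' t) / (2 * Real.sqrt (‖v t‖ ^ 2 + δ ^ 2)) ≤ C := by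
    intro t ht
    have hs : 0 < Real.sqrt (‖v t‖ ^ 2 + δ ^ 2) := Real.sqrt_pos.mpr (hpos t)
    rw [div_le_iff₀ (by positivity)]
    have h1 : inner ℝ (v t) (v' t) = (v' t * (starRingEnd ℂ) (v t)).re := by
      rw [Complex.inner, mul_comm]
    have h2 : inner ℝ (v t) (v' t) ≤ ‖v t‖ * C := by
      rw [h1]
      exact (le_abs_self _).trans (hb t ht)
    have h3 : ‖v t‖ ≤ Real.sqrt (‖v t‖ ^ 2 + δ ^ 2) := by
      apply Real.le_sqrt_of_sq_le
      nlinarith [sq_nonneg δ]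
    have h4 : ‖v t‖ * C ≤ Real.sqrt (‖v t‖ ^ 2 + δ ^ 2) * C := mul_le_mul_of_nonneg_right h3 hC
    linarith
  have h1 : q 1 - q 0 ≤ C * (1 - 0) := by
    refine Convex.image_sub_le_mul_sub_of_deriv_le (convex_Icc (0 : ℝ) 1)
      (fun t ht => (hder t ht).continuousAt.continuousWithinAt) ?_ ?_ 0 (by simp) 1 (by simp)
      zero_le_one
    · intro t ht
      exact (hder t (interior_subset ht)).differentiableAt.differentiableWithinAt
    · intro t ht
      rw [(hder t (interior_subset ht)).deriv]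
      exact hle t (interior_subset ht)
  have h2 : ‖v 1‖ ≤ q 1 := by
    apply Real.le_sqrt_of_sq_le
    nlinarith [sq_nonneg δ]
  have h3 : q 0 ≤ ‖v 0‖ + δ := by
    rw [hq]
    apply Real.sqrt_le_iff.mpr
    constructor
    · positivity
    · nlinarith [norm_nonneg (v 0)]
  linarith

/-- Row P4. Inverse function theorem for `Z` at `v0` (the derivative is injective): local inverse
`G`.  For `y = φ z` near `E v0 = φ z0` put `v = G z`.  On the segment from `z0` to `z`,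
`g τ = ‖G (z0 + τ (z - z0))‖` satisfies `|(g²)'| ≤ 2 g sup e^u ‖z - z0‖` (apply the third property
to `h = G'(z - z0)`), and `e^{u(z0)} ‖z - z0‖ ≤ (1 + ε) d(φ z0, φ z)`. -/
theorem IsExpMap.near (hA : IsAtlas κ A) (hE : IsExpMap A x S E) {v0 : ℂ} (hv : ‖v0‖ < S)
    {ε : ℝ} (hε : 0 < ε) : ∃ η : ℝ, 0 < η ∧ ∀ y : Y, dist (E v0) y < η →
      ∃ v : ℂ, ‖v‖ < S ∧ E v = y ∧ ‖v‖ ≤ ‖v0‖ + (1 + ε) * dist (E v0) y := by
  obtain ⟨c, hcA, Z, hZ, hev⟩ := hE.loc v0 hv
  have hc := hA.pc c hcA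
  obtain ⟨hz0, hφ0, -, -, -, hinj0⟩ := hev.self_of_nhds
  set z0 := Z v0 with hz0def
  -- the derivative is invertible
  have hinj : Function.Injective (fderiv ℝ Z v0) := by
    rw [injective_iff_map_eq_zero]
    intro h hh
    have h1 := hinj0 h
    rw [hh, norm_zero, mul_zero] at h1
    have h2 : ‖h‖ ≤ 0 := by linarith
    exact norm_le_zero_iff.mp h2
  have hsurj : Function.Surjective (fderiv ℝ Z v0) :=
    (LinearMap.injective_iff_surjective (f := (fderiv ℝ Z v0 : ℂ →ₗ[ℝ] ℂ))).mp hinj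
  let L : ℂ ≃L[ℝ] ℂ := ContinuousLinearEquiv.ofBijective (fderiv ℝ Z v0)
    (LinearMap.ker_eq_bot.mpr hinj) (LinearMap.range_eq_top.mpr hsurj)
  have hL : (L : ℂ →L[ℝ] ℂ) = fderiv ℝ Z v0 := ContinuousLinearEquiv.coe_ofBijective _ _ _
  have hZd : HasFDerivAt Z (L : ℂ →L[ℝ] ℂ) v0 := by
    rw [hL]
    exact (hZ.differentiableAt one_ne_zero).hasFDerivAt
  set G := hZ.localInverse hZd one_ne_zero with hG
  have hGC : ContDiffAt ℝ 1 G z0 := hZ.to_localInverse hZd one_ne_zero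
  have hG0 : G z0 = v0 := hZ.localInverse_apply_image hZd one_ne_zero
  have hGr : ∀ᶠ z in nhds z0, Z (G z) = z :=
    (hZ.hasStrictFDerivAt' hZd one_ne_zero).eventually_right_inverse
  have hGt : Filter.Tendsto G (nhds z0) (nhds v0) := by
    have := hGC.continuousAt.tendsto
    rwa [hG0] at this
  have hGd : ∀ᶠ z in nhds z0, DifferentiableAt ℝ G z := by
    filter_upwards [hGC.eventually (by simp)] with z hz
    exact hz.differentiableAt one_ne_zero
  have hZd' : ∀ᶠ v in nhds v0, DifferentiableAt ℝ Z v := by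
    filter_upwards [hZ.eventually (by simp)] with v hv
    exact hv.differentiableAt one_ne_zero
  have hS : ∀ᶠ v in nhds v0, ‖v‖ < S := continuous_norm.continuousAt.eventually (gt_mem_nhds hv)
  set ε1 : ℝ := min 1 (ε / 3) with hε1
  have he0 : 0 < ε1 := lt_min one_pos (by positivity)
  have he1 : ε1 ≤ 1 := min_le_left _ _
  have he2 : ε1 ≤ ε / 3 := min_le_right _ _
  have hexp0 : 0 < Real.exp (c.u z0) := Real.exp_pos _
  -- continuity of the conformal factor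
  have hu : ∀ᶠ z in nhds z0, Real.exp (c.u z) < (1 + ε1) * Real.exp (c.u z0) := by
    have h1 : ContinuousAt (fun z => Real.exp (c.u z)) z0 :=
      Real.continuous_exp.continuousAt.comp
        ((hc.smooth.continuousOn).continuousAt (hc.isOpen.mem_nhds hz0))
    exact h1.eventually (gt_mem_nhds (by nlinarith))
  obtain ⟨η1, hη1, hm⟩ := hc.metric z0 hz0 (Real.exp (c.u z0) * (ε1 / (1 + ε1)))
    (by positivity)
  have hU : ∀ᶠ z in nhds z0, z ∈ c.U := hc.isOpen.mem_nhds hz0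
  obtain ⟨r, hr, hall⟩ := Metric.eventually_nhds_iff_ball.mp
    (hGr.and (hGd.and ((hGt.eventually (hev.and (hZd'.and hS))).and (hu.and hU))))
  set r' := min r η1 with hr'
  have hr'0 : 0 < r' := lt_min hr hη1
  -- the image of the ball
  have hsub : Metric.ball z0 r' ⊆ c.U := fun z hz =>
    (hall z (Metric.ball_subset_ball (min_le_left _ _) hz)).2.2.2.2
  have hopen := hc.opn (Metric.ball z0 r') hsub Metric.isOpen_ball
  obtain ⟨η, hη, hball⟩ := Metric.isOpen_iff.mp hopen (E v0)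
    ⟨z0, Metric.mem_ball_self hr'0, hφ0⟩
  refine ⟨η, hη, fun y hy => ?_⟩
  obtain ⟨z, hz, hzy⟩ := hball (Metric.mem_ball'.mpr hy)
  have hzr := Metric.ball_subset_ball (min_le_left r η1) hz
  obtain ⟨f1, f2, ⟨⟨g1, g2, -⟩, -, g3⟩, f3, f4⟩ := hall z hzr
  refine ⟨G z, g3, ?_, ?_⟩
  · rw [← g2, f1, hzy]
  · -- the growth along the segment
    have hseg : ∀ t ∈ Set.Icc (0 : ℝ) 1, z0 + t • (z - z0) ∈ Metric.ball z0 r := by
      intro t ht
      have h1 := (convex_ball z0 r) (Metric.mem_ball_self hr) hzr (sub_nonneg.mpr ht.2) ht.1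
        (by ring)
      have h2 : z0 + t • (z - z0) = (1 - t) • z0 + t • z := by
        rw [smul_sub, sub_smul, one_smul]
        ring
      rw [h2]
      exact h1
    have hline : ∀ t : ℝ, HasDerivAt (fun t : ℝ => z0 + t • (z - z0)) (z - z0) t := by
      intro t
      have h1 := ((hasDerivAt_id t).smul_const (z - z0)).const_add z0
      rw [one_smul] at h1
      exact h1
    have key := P4_growth (v := fun t : ℝ => G (z0 + t • (z - z0)))
      (v' := fun t : ℝ => fderiv ℝ G (z0 + t • (z - z0)) (z - z0))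
      (C := (1 + ε1) * Real.exp (c.u z0) * ‖z - z0‖) (by positivity) (by
        intro t ht
        exact (hall _ (hseg t ht)).2.1.hasFDerivAt.comp_hasDerivAt t (hline t)) (by
        intro t ht
        obtain ⟨a1, a2, ⟨⟨-, -, -, -, b1, -⟩, b2, -⟩, a3, -⟩ := hall _ (hseg t ht)
        set ζ := z0 + t • (z - z0) with hζ
        have h1 := b1 (fderiv ℝ G ζ (z - z0))
        have hnear : ∀ᶠ w in nhds ζ, Z (G w) = w := by
          filter_upwards [Metric.isOpen_ball.mem_nhds (hseg t ht)] with w hw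
          exact (hall w hw).1
        have h2 : HasFDerivAt (fun w => Z (G w)) ((fderiv ℝ Z (G ζ)).comp (fderiv ℝ G ζ)) ζ :=
          b2.hasFDerivAt.comp ζ a2.hasFDerivAt
        have h3 : HasFDerivAt (fun w => Z (G w)) (ContinuousLinearMap.id ℝ ℂ) ζ :=
          (hasFDerivAt_id ζ).congr_of_eventuallyEq hnear
        have h4 := congrArg (fun f : ℂ →L[ℝ] ℂ => f (z - z0)) (h2.unique h3)
        have h5 : fderiv ℝ Z (G ζ) (fderiv ℝ G ζ (z - z0)) = z - z0 := h4
        rw [h5, a1] at h1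
        refine h1.trans (mul_le_mul_of_nonneg_left ?_ (norm_nonneg _))
        exact mul_le_mul_of_nonneg_right a3.le (norm_nonneg _))
    simp only [one_smul, zero_smul, add_zero, add_sub_cancel] at key
    rw [hG0] at key
    refine key.trans (add_le_add_right ?_ _)
    have h1 := hm z0 hz0 z f4 (by simpa using hη1)
      (by
        rw [← dist_eq_norm]
        exact lt_of_lt_of_le hz (min_le_right _ _))
    rw [hφ0, hzy] at h1
    have h2 := (abs_le.mp h1).1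
    rw [norm_sub_rev z0 z] at h2
    have h3 : Real.exp (c.u z0) * ‖z - z0‖ ≤ (1 + ε1) * dist (E v0) y := by
      have h4 : Real.exp (c.u z0) * (ε1 / (1 + ε1)) * ‖z - z0‖ =
          Real.exp (c.u z0) * ‖z - z0‖ - Real.exp (c.u z0) * ‖z - z0‖ / (1 + ε1) := by
        field_simp
        ring
      rw [h4] at h2
      have h5 : Real.exp (c.u z0) * ‖z - z0‖ / (1 + ε1) ≤ dist (E v0) y := by linarith
      rw [div_le_iff₀ (by positivity)] at h5
      linarith
    have hd0 : 0 ≤ dist (E v0) y := dist_nonneg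
    calc (1 + ε1) * Real.exp (c.u z0) * ‖z - z0‖
        = (1 + ε1) * (Real.exp (c.u z0) * ‖z - z0‖) := by ring
      _ ≤ (1 + ε1) * ((1 + ε1) * dist (E v0) y) := mul_le_mul_of_nonneg_left h3 (by positivity)
      _ = (1 + ε1) ^ 2 * dist (E v0) y := by ring
      _ ≤ (1 + ε) * dist (E v0) y := mul_le_mul_of_nonneg_right (by nlinarith) hd0

theorem IsExpMap.p5_cont (hA : IsAtlas κ A) (hE : IsExpMap A x S E) {r : ℝ} (hr : r < S) :
    ContinuousOn E (Metric.closedBall 0 r) := by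
  rw [Metric.continuousOn_iff]
  intro v hv ε hε
  refine ⟨ε / 2, by positivity, fun w hw hwv => ?_⟩
  rw [mem_closedBall_zero_iff] at hv hw
  have h1 := hE.lip hA (lt_of_le_of_lt hw hr) (lt_of_le_of_lt hv hr)
  rw [dist_eq_norm] at hwv
  linarith

/-- the continuity argument -/
theorem IsExpMap.p5_eps (hG : IsGeod Y) (hA : IsAtlas κ A) (hE : IsExpMap A x S E) {y : Y}
    {ε : ℝ} (hε : 0 < ε) (hy : (1 + ε) * dist x y < S) :
    ∃ v : ℂ, ‖v‖ ≤ (1 + ε) * dist x y ∧ E v = y := by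
  obtain ⟨γ, hγ0, hγ1, hγ⟩ := hG x y
  obtain ⟨D, hD⟩ : ∃ D : ℝ, D = dist x y := ⟨_, rfl⟩
  rw [← hD] at hγ hy ⊢
  have hD0 : 0 ≤ D := by rw [hD]; exact dist_nonneg
  have hS : 0 < S := lt_of_le_of_lt (by positivity) hy
  have hγc : ContinuousOn γ (Set.Icc (0 : ℝ) 1) := by
    rw [Metric.continuousOn_iff]
    intro t ht ε' hε'
    refine ⟨ε' / (D + 1), by positivity, fun s hs hst => ?_⟩
    rw [hγ s hs t ht]
    rw [Real.dist_eq, lt_div_iff₀ (by positivity)] at hst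
    nlinarith [abs_nonneg (s - t)]
  have hEc := hE.p5_cont hA hy
  let K : Set (ℝ × ℂ) := Set.Icc (0 : ℝ) 1 ×ˢ Metric.closedBall (0 : ℂ) ((1 + ε) * D)
  have hK : IsCompact K := isCompact_Icc.prod (isCompact_closedBall _ _)
  have hdc : ContinuousOn (fun p : ℝ × ℂ => dist (E p.2) (γ p.1)) K := by
    have h1 : ContinuousOn (fun p : ℝ × ℂ => E p.2) K :=
      hEc.comp continuous_snd.continuousOn fun p hp => hp.2
    have h2 : ContinuousOn (fun p : ℝ × ℂ => γ p.1) K :=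
      hγc.comp continuous_fst.continuousOn fun p hp => hp.1
    exact continuous_dist.comp_continuousOn (h1.prodMk h2)
  let C : Set (ℝ × ℂ) := (K ∩ (fun p : ℝ × ℂ => dist (E p.2) (γ p.1)) ⁻¹' {0}) ∩
    {p | ‖p.2‖ ≤ (1 + ε) * (p.1 * D)}
  have hC : IsCompact C := by
    have h1 : IsClosed (K ∩ (fun p : ℝ × ℂ => dist (E p.2) (γ p.1)) ⁻¹' {0}) :=
      hdc.preimage_isClosed_of_isClosed hK.isClosed isClosed_singleton
    have h2 : IsClosed {p : ℝ × ℂ | ‖p.2‖ ≤ (1 + ε) * (p.1 * D)} :=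
      isClosed_le (by fun_prop) (by fun_prop)
    exact (hK.of_isClosed_subset h1 Set.inter_subset_left).inter_right h2
  let T : Set ℝ := Prod.fst '' C
  have hT : IsClosed T := (hC.image continuous_fst).isClosed
  have hTm : ∀ t, t ∈ T ↔ t ∈ Set.Icc (0 : ℝ) 1 ∧ ∃ v : ℂ, ‖v‖ ≤ (1 + ε) * (t * D) ∧
      E v = γ t := by
    intro t
    constructor
    · rintro ⟨⟨t', v⟩, ⟨⟨hp1, hp2⟩, hp3⟩, rfl⟩
      exact ⟨hp1.1, v, hp3, dist_eq_zero.1 hp2⟩
    · rintro ⟨ht, v, hv, hEv⟩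
      refine ⟨(t, v), ⟨⟨⟨ht, ?_⟩, ?_⟩, hv⟩, rfl⟩
      · show v ∈ Metric.closedBall (0 : ℂ) ((1 + ε) * D)
        rw [mem_closedBall_zero_iff]
        have h1 : t * D ≤ D := by nlinarith [ht.2]
        have h2 : (1 + ε) * (t * D) ≤ (1 + ε) * D := mul_le_mul_of_nonneg_left h1 (by positivity)
        exact hv.trans h2
      · show dist (E v) (γ t) = 0
        rw [hEv, dist_self]
  have h0 : (0 : ℝ) ∈ T := by
    rw [hTm]
    refine ⟨⟨le_rfl, zero_le_one⟩, 0, ?_, ?_⟩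
    · simp
    · rw [hE.zero, hγ0]
  have hall : Set.Icc (0 : ℝ) 1 ⊆ T := by
    refine IsClosed.Icc_subset_of_forall_exists_gt (hT.inter isClosed_Icc) h0 ?_
    rintro t ⟨ht, ht1⟩ s hs
    rw [hTm] at ht
    obtain ⟨ht01, v0, hv0, hEv0⟩ := ht
    have hst : t < s := hs
    have hv0S : ‖v0‖ < S := by
      have h1 : t * D ≤ D := by nlinarith [ht01.2]
      have h2 : (1 + ε) * (t * D) ≤ (1 + ε) * D := mul_le_mul_of_nonneg_left h1 (by positivity)
      linarith
    obtain ⟨η, hη, hnear⟩ := hE.near hA hv0S hε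
    obtain ⟨r, hr⟩ : ∃ r : ℝ, r = min (min s 1) (t + η / (2 * (D + 1))) := ⟨_, rfl⟩
    have hrt : t < r := by
      rw [hr]
      exact lt_min (lt_min hst ht1.2) (by linarith [show 0 < η / (2 * (D + 1)) by positivity])
    have hrs : r ≤ s := by
      rw [hr]
      exact (min_le_left _ _).trans (min_le_left _ _)
    have hr1 : r ≤ 1 := by
      rw [hr]
      exact (min_le_left _ _).trans (min_le_right _ _)
    have hrη : r - t ≤ η / (2 * (D + 1)) := by
      have : r ≤ t + η / (2 * (D + 1)) := by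
        rw [hr]
        exact min_le_right _ _
      linarith
    have hr01 : r ∈ Set.Icc (0 : ℝ) 1 := ⟨ht01.1.trans hrt.le, hr1⟩
    have hd : dist (E v0) (γ r) = D * (r - t) := by
      rw [hEv0, hγ t ht01 r hr01, abs_sub_comm, abs_of_pos (by linarith)]
    have hdη : dist (E v0) (γ r) < η := by
      rw [hd]
      rw [le_div_iff₀ (by positivity)] at hrη
      nlinarith
    obtain ⟨v, hvS, hEv, hvle⟩ := hnear _ hdη
    refine ⟨r, ?_, hrt, hrs⟩
    rw [hTm]
    refine ⟨hr01, v, ?_, hEv⟩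
    rw [hd] at hvle
    calc ‖v‖ ≤ ‖v0‖ + (1 + ε) * (D * (r - t)) := hvle
      _ ≤ (1 + ε) * (t * D) + (1 + ε) * (D * (r - t)) := by linarith
      _ = (1 + ε) * (r * D) := by ring
  have h1 : (1 : ℝ) ∈ T := hall ⟨zero_le_one, le_rfl⟩
  rw [hTm] at h1
  obtain ⟨_, v, hv, hEv⟩ := h1
  refine ⟨v, ?_, ?_⟩
  · rwa [one_mul] at hv
  · rw [hEv, hγ1]

/-- Row P5. `γ` a geodesic from `x` to `y`, `ε > 0` with `(1+ε) d(x,y) < S`: the set of `t` such that
`γ t = E v` for some `‖v‖ ≤ (1 + ε) t d(x,y)` is closed (compactness) and open to the right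
(`near`), so it is `[0, 1]`.  Then `ε → 0`, and `radial`. -/
theorem IsExpMap.reach (hG : IsGeod Y) (hA : IsAtlas κ A) (hE : IsExpMap A x S E) {y : Y}
    (hy : dist x y < S) : ∃ v : ℂ, ‖v‖ = dist x y ∧ E v = y := by
  by_cases h0 : dist x y = 0
  · refine ⟨0, by rw [h0, norm_zero], ?_⟩
    rw [hE.zero]
    exact dist_eq_zero.1 h0
  have hpos : 0 < dist x y := lt_of_le_of_ne dist_nonneg (Ne.symm h0)
  obtain ⟨r, hr1, hr2⟩ := exists_between hy
  have hEc := hE.p5_cont hA hr2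
  have hcomp : IsCompact (Metric.closedBall (0 : ℂ) r ∩ E ⁻¹' {y}) := by
    have h1 : IsClosed (Metric.closedBall (0 : ℂ) r ∩ E ⁻¹' {y}) :=
      hEc.preimage_isClosed_of_isClosed Metric.isClosed_closedBall isClosed_singleton
    exact (isCompact_closedBall (0 : ℂ) r).of_isClosed_subset h1 Set.inter_subset_left
  have key : ∀ s : ℝ, dist x y < s → s ≤ r → ∃ v : ℂ, ‖v‖ ≤ s ∧ E v = y := by
    intro s hs hsr
    have h1 : (1 + (s / dist x y - 1)) * dist x y = s := by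
      field_simp
      ring
    obtain ⟨v, hv, hEv⟩ := hE.p5_eps hG hA (ε := s / dist x y - 1) (y := y)
      (by rw [sub_pos, lt_div_iff₀ hpos, one_mul]; exact hs) (by rw [h1]; linarith)
    rw [h1] at hv
    exact ⟨v, hv, hEv⟩
  have hne : (Metric.closedBall (0 : ℂ) r ∩ E ⁻¹' {y}).Nonempty := by
    obtain ⟨v, hv, hEv⟩ := key r hr1 le_rfl
    exact ⟨v, mem_closedBall_zero_iff.2 hv, hEv⟩
  obtain ⟨v, ⟨hv1, hv2⟩, hmin⟩ := hcomp.exists_isMinOn hne (f := fun v : ℂ => ‖v‖)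
    continuous_norm.continuousOn
  have hvr : ‖v‖ ≤ r := mem_closedBall_zero_iff.1 hv1
  have hEv : E v = y := hv2
  refine ⟨v, le_antisymm ?_ ?_, hEv⟩
  · by_contra hlt
    push Not at hlt
    obtain ⟨s, hs1, hs2⟩ := exists_between hlt
    obtain ⟨w, hw, hEw⟩ := key s hs1 (hs2.le.trans hvr)
    have h1 : ‖v‖ ≤ ‖w‖ := hmin ⟨mem_closedBall_zero_iff.2 (by linarith), hEw⟩
    linarith
  · have h1 := hE.radial hA (lt_of_le_of_lt hvr hr2)
    rwa [hEv] at h1

end F10S
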