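import Pool.Agent.Lib.MP_f10cd3_gt.S.Flow
import Pool.Agent.Lib.MP_f10cd3_gt.S.ExpA

/-! Row VAR (helper93). -/

set_option autoImplicit false

open scoped Topology ContDiff
open Filter

namespace F10S

/-- differentiation of a family of solutions with respect to a parameter, general form -/
theorem hasDerivAt_fderiv_family {E G : Type} [NormedAddCommGroup E] [NormedSpace ℝ E]
    [NormedAddCommGroup G] [NormedSpace ℝ G]
    {ζ : ℝ → E → G} {V : G → G} {t : ℝ} {v : E}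
    (hζ : ContDiffAt ℝ 1 (fun q : ℝ × E => ζ q.1 q.2) (t, v))
    (hV : ContDiffAt ℝ 1 V (ζ t v))
    (hd : ∀ᶠ q : ℝ × E in 𝓝 (t, v), HasDerivAt (fun s => ζ s q.2) (V (ζ q.1 q.2)) q.1) (k : E) :
    HasDerivAt (fun s => fderiv ℝ (ζ s) v k)
      (fderiv ℝ V (ζ t v) (fderiv ℝ (ζ t) v k)) t := by
  -- differentiability of `ζ s` at `v` for `s` near `t`
  have hdiff : ∀ᶠ s in 𝓝 t, DifferentiableAt ℝ (ζ s) v := by
    have h1 : ∀ᶠ q : ℝ × E in 𝓝 (t, v), ContDiffAt ℝ 1 (fun q : ℝ × E => ζ q.1 q.2) q :=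
      hζ.eventually (by simp)
    have h2 : Tendsto (fun s : ℝ => (s, v)) (𝓝 t) (𝓝 (t, v)) :=
      (continuous_id.prodMk continuous_const).tendsto' _ _ rfl
    filter_upwards [h2.eventually h1] with s hs
    have h3 : DifferentiableAt ℝ (fun q : ℝ × E => ζ q.1 q.2) (s, v) :=
      hs.differentiableAt (by simp)
    exact h3.comp v (by fun_prop : DifferentiableAt ℝ (fun w : E => ((s, w) : ℝ × E)) v)
  -- the function `H = V ∘ ζ` is strictly differentiable at `(t, v)`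
  have hH : ContDiffAt ℝ 1 (fun q : ℝ × E => V (ζ q.1 q.2)) (t, v) :=
    ContDiffAt.comp (t, v) (by simpa using hV) hζ
  have hstr := hH.hasStrictFDerivAt (by simp)
  set L := fderiv ℝ (fun q : ℝ × E => V (ζ q.1 q.2)) (t, v) with hLdef
  have hζd : DifferentiableAt ℝ (fun q : ℝ × E => ζ q.1 q.2) (t, v) :=
    hζ.differentiableAt (by simp)
  have hLk : L ((0 : ℝ), k) = fderiv ℝ V (ζ t v) (fderiv ℝ (ζ t) v k) := by
    have e1 : L = (fderiv ℝ V (ζ t v)).comp (fderiv ℝ (fun q : ℝ × E => ζ q.1 q.2) (t, v)) := by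
      have := fderiv_comp (𝕜 := ℝ) (g := V) (f := fun q : ℝ × E => ζ q.1 q.2) (t, v)
        (by simpa using hV.differentiableAt (by simp)) hζd
      simpa [hLdef, Function.comp_def] using this
    have e2 : fderiv ℝ (ζ t) v = (fderiv ℝ (fun q : ℝ × E => ζ q.1 q.2) (t, v)).comp
        (ContinuousLinearMap.inr ℝ ℝ E) := by
      have h5 : HasFDerivAt (fun w : E => ((t, w) : ℝ × E)) (ContinuousLinearMap.inr ℝ ℝ E) v := by
        exact (hasFDerivAt_const (𝕜 := ℝ) t v).prodMk (hasFDerivAt_id (𝕜 := ℝ) v)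
      exact (hζd.hasFDerivAt.comp v h5).fderiv
    rw [e1, e2]; simp
  rw [← hLk]
  rw [hasDerivAt_iff_isLittleO, Asymptotics.isLittleO_iff]
  intro ε hε
  -- choose the smaller constant
  set ε' : ℝ := ε / (‖k‖ + 1) with hε'
  have hk1 : 0 < ‖k‖ + 1 := by positivity
  have hε'0 : 0 < ε' := div_pos hε hk1
  have hst := (hstr.isLittleO.def hε'0)
  -- neighbourhoods
  have hall : ∀ᶠ p : (ℝ × E) × (ℝ × E) in 𝓝 ((t, v), (t, v)),
      ‖V (ζ p.1.1 p.1.2) - V (ζ p.2.1 p.2.2) - L (p.1 - p.2)‖ ≤ ε' * ‖p.1 - p.2‖ := by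
    simpa using hst
  have hmap : Tendsto (fun q : ℝ × ℝ => (((q.1, v + q.2 • k) : ℝ × E), ((q.1, v) : ℝ × E)))
      (𝓝 (t, 0)) (𝓝 ((t, v), (t, v))) := by
    have : Continuous (fun q : ℝ × ℝ => (((q.1, v + q.2 • k) : ℝ × E), ((q.1, v) : ℝ × E))) := by
      fun_prop
    exact this.tendsto' _ _ (by simp)
  have hmap1 : Tendsto (fun q : ℝ × ℝ => ((q.1, v + q.2 • k) : ℝ × E))
      (𝓝 (t, 0)) (𝓝 (t, v)) := by
    have : Continuous (fun q : ℝ × ℝ => ((q.1, v + q.2 • k) : ℝ × E)) := by fun_prop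
    exact this.tendsto' _ _ (by simp)
  have hmap2 : Tendsto (fun q : ℝ × ℝ => ((q.1, v) : ℝ × E))
      (𝓝 (t, 0)) (𝓝 (t, v)) := by
    have : Continuous (fun q : ℝ × ℝ => ((q.1, v) : ℝ × E)) := by fun_prop
    exact this.tendsto' _ _ (by simp)
  have hA := hmap.eventually hall
  have hB := hmap1.eventually hd
  have hC := hmap2.eventually hd
  have hD := hA.and (hB.and hC)
  obtain ⟨δ, hδ, hball⟩ := Metric.eventually_nhds_iff.1 hD
  have hev : ∀ᶠ s in 𝓝 t, dist s t < δ := by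
    exact Metric.ball_mem_nhds t hδ
  have hdt : DifferentiableAt ℝ (ζ t) v := hdiff.self_of_nhds
  filter_upwards [hev, hdiff] with s hs hds
  -- the estimate for each small `r`
  have key : ∀ r : ℝ, |r| < δ →
      ‖(ζ s (v + r • k) - ζ s v) - (ζ t (v + r • k) - ζ t v) - (r * (s - t)) • L (0, k)‖
        ≤ ε' * (|r| * ‖k‖) * |s - t| := by
    intro r hr
    have hmv := Convex.norm_image_sub_le_of_norm_hasDerivWithin_le
      (f := fun σ => (ζ σ (v + r • k) - ζ σ v) - (r * (σ - t)) • L (0, k))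
      (f' := fun σ => (V (ζ σ (v + r • k)) - V (ζ σ v)) - r • L (0, k))
      (s := Metric.ball t δ) (C := ε' * (|r| * ‖k‖)) (x := t) (y := s) ?_ ?_
      (convex_ball t δ) (Metric.mem_ball_self hδ) hs
    · have e : (fun σ => (ζ σ (v + r • k) - ζ σ v) - (r * (σ - t)) • L (0, k)) s
          - (fun σ => (ζ σ (v + r • k) - ζ σ v) - (r * (σ - t)) • L (0, k)) t
          = (ζ s (v + r • k) - ζ s v) - (ζ t (v + r • k) - ζ t v) - (r * (s - t)) • L (0, k) := by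
        simp only [sub_self, mul_zero, zero_smul, sub_zero]
        abel
      rw [e] at hmv
      simpa [Real.norm_eq_abs] using hmv
    · intro σ hσ
      have hq : dist ((σ, r) : ℝ × ℝ) (t, 0) < δ := by
        rw [Prod.dist_eq]; simp only [Real.dist_eq, sub_zero]
        exact max_lt (by simpa [Real.dist_eq] using hσ) hr
      obtain ⟨_, hb, hc⟩ := hball hq
      have h3 : HasDerivAt (fun σ => (r * (σ - t)) • L (0, k)) (r • L (0, k)) σ := by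
        have : HasDerivAt (fun σ : ℝ => r * (σ - t)) r σ := by
          simpa using ((hasDerivAt_id σ).sub_const t).const_mul r
        exact this.smul_const _
      exact ((hb.sub hc).sub h3).hasDerivWithinAt
    · intro σ hσ
      have hq : dist ((σ, r) : ℝ × ℝ) (t, 0) < δ := by
        rw [Prod.dist_eq]; simp only [Real.dist_eq, sub_zero]
        exact max_lt (by simpa [Real.dist_eq] using hσ) hr
      obtain ⟨ha, _, _⟩ := hball hq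
      have e1 : (((σ, v + r • k) : ℝ × E) - ((σ, v) : ℝ × E)) = r • ((0 : ℝ), k) := by
        simp
      simp only at ha
      rw [e1, map_smul] at ha
      refine ha.trans ?_
      rw [norm_smul, Real.norm_eq_abs]
      have : ‖((0 : ℝ), k)‖ = ‖k‖ := by simp [Prod.norm_def]
      rw [this]
  -- pass to the limit `r → 0`
  have hlim : ∀ σ : ℝ, DifferentiableAt ℝ (ζ σ) v →
      Tendsto (fun r : ℝ => r⁻¹ • (ζ σ (v + r • k) - ζ σ v)) (𝓝[≠] 0) (𝓝 (fderiv ℝ (ζ σ) v k)) := by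
    intro σ hσ
    have := (hσ.hasFDerivAt.hasLineDerivAt k).tendsto_slope_zero
    simpa using this
  have hT : Tendsto (fun r : ℝ => ‖r⁻¹ • (ζ s (v + r • k) - ζ s v)
      - r⁻¹ • (ζ t (v + r • k) - ζ t v) - (s - t) • L (0, k)‖) (𝓝[≠] 0)
      (𝓝 ‖fderiv ℝ (ζ s) v k - fderiv ℝ (ζ t) v k - (s - t) • L (0, k)‖) :=
    (((hlim s hds).sub (hlim t hdt)).sub tendsto_const_nhds).norm
  have hbound : ∀ᶠ r : ℝ in 𝓝[≠] 0, ‖r⁻¹ • (ζ s (v + r • k) - ζ s v)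
      - r⁻¹ • (ζ t (v + r • k) - ζ t v) - (s - t) • L (0, k)‖ ≤ ε' * ‖k‖ * |s - t| := by
    have h1 : ∀ᶠ r : ℝ in 𝓝[≠] 0, |r| < δ := by
      have : ∀ᶠ r : ℝ in 𝓝 0, |r| < δ := by
        have := Metric.ball_mem_nhds (0 : ℝ) hδ
        filter_upwards [this] with r hr
        simpa [Real.dist_eq] using hr
      exact this.filter_mono nhdsWithin_le_nhds
    filter_upwards [h1, self_mem_nhdsWithin] with r hr hr0
    have hr0' : r ≠ 0 := hr0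
    have hk := key r hr
    have e : r⁻¹ • (ζ s (v + r • k) - ζ s v) - r⁻¹ • (ζ t (v + r • k) - ζ t v)
        - (s - t) • L (0, k) = r⁻¹ • ((ζ s (v + r • k) - ζ s v) - (ζ t (v + r • k) - ζ t v)
          - (r * (s - t)) • L (0, k)) := by
      have h7 : (s - t) • L (0, k) = r⁻¹ • ((r * (s - t)) • L (0, k)) := by
        rw [smul_smul, ← mul_assoc, inv_mul_cancel₀ hr0', one_mul]
      rw [h7, ← smul_sub, ← smul_sub]
    rw [e, norm_smul, norm_inv, Real.norm_eq_abs]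
    have hra : 0 < |r| := abs_pos.2 hr0'
    rw [inv_mul_le_iff₀ hra]
    calc _ ≤ ε' * (|r| * ‖k‖) * |s - t| := hk
      _ = |r| * (ε' * ‖k‖ * |s - t|) := by ring
  have hfin := le_of_tendsto hT hbound
  have e9 : ‖s - t‖ = |s - t| := rfl
  rw [e9]
  refine hfin.trans ?_
  have : ε' * ‖k‖ ≤ ε := by
    rw [hε', div_mul_eq_mul_div, div_le_iff₀ hk1]
    nlinarith [norm_nonneg k]
  exact mul_le_mul_of_nonneg_right this (abs_nonneg _)

open MPf10cd3 F10G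

variable {Y : Type} [MetricSpace Y] {κ : ℝ} {A : Set (PC Y)}

/-- Row VAR. `ζ` is `C¹` and `∂ζ/∂t = geoF (ζ)`, so the derivative in the direction `k` of `v`
satisfies the linearised equation: differentiate `ζ t v = ζ t0 v + ∫ geoF (ζ s v) ds` under the
integral. -/
theorem var_eq {c : PC Y} (hc : IsPC κ c) {γ : ℝ → ℂ → Y} {t : ℝ} {v : ℂ} {ζ : ℝ → ℂ → ℂ × ℂ}
    (h : FDat c γ t v ζ) (k : ℂ) :
    HasDerivAt (fun s => fderiv ℝ (ζ s) v k)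
      (fderiv ℝ (geoF c.u) (ζ t v) (fderiv ℝ (ζ t) v k)) t := by
  obtain ⟨h1, h2⟩ := h
  refine hasDerivAt_fderiv_family h1 ?_ (h2.mono fun q hq => hq.2.2.1) k
  have hU : (ζ t v).1 ∈ c.U := h2.self_of_nhds.1
  have hs : ContDiffOn ℝ 4 (geoF c.u) (c.U ×ˢ Set.univ) := geoF_smooth hc.isOpen hc.smooth
  have hn : c.U ×ˢ (Set.univ : Set ℂ) ∈ 𝓝 (ζ t v) :=
    (hc.isOpen.prod isOpen_univ).mem_nhds ⟨hU, Set.mem_univ _⟩
  exact (hs.contDiffAt hn).of_le (by norm_num)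

section EB

theorem EB_near {c : PC Y} {γ : ℝ → ℂ → Y} {t : ℝ} {v : ℂ} {ζ : ℝ → ℂ → ℂ × ℂ}
    (h : FDat c γ t v ζ) : ∀ᶠ q : ℝ × ℂ in nhds (t, v), FDat c γ q.1 q.2 ζ := by
  have h1 : ∀ᶠ q : ℝ × ℂ in nhds (t, v), ContDiffAt ℝ 1 (fun q : ℝ × ℂ => ζ q.1 q.2) q :=
    h.1.eventually (by simp)
  have h2 := h.2.eventually_nhds
  filter_upwards [h1, h2] with q h1 h2
  exact ⟨h1, h2⟩

theorem EB_near_t {c : PC Y} {γ : ℝ → ℂ → Y} {t : ℝ} {v : ℂ} {ζ : ℝ → ℂ → ℂ × ℂ}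
    (h : FDat c γ t v ζ) : ∀ᶠ s in nhds t, FDat c γ s v ζ :=
  ((by fun_prop : Continuous fun s : ℝ => (s, v)).tendsto t).eventually (EB_near h)

theorem EB_near_v {c : PC Y} {γ : ℝ → ℂ → Y} {t : ℝ} {v : ℂ} {ζ : ℝ → ℂ → ℂ × ℂ}
    (h : FDat c γ t v ζ) : ∀ᶠ w in nhds v, FDat c γ t w ζ :=
  ((by fun_prop : Continuous fun w : ℂ => (t, w)).tendsto v).eventually (EB_near h)

theorem EB_contDiff {c : PC Y} {γ : ℝ → ℂ → Y} {t : ℝ} {v : ℂ} {ζ : ℝ → ℂ → ℂ × ℂ}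
    (h : FDat c γ t v ζ) : ContDiffAt ℝ 1 (ζ t) v := by
  have h1 : ContDiffAt ℝ 1 (fun w : ℂ => (t, w)) v := by fun_prop
  exact ContDiffAt.comp (g := fun q : ℝ × ℂ => ζ q.1 q.2) (f := fun w : ℂ => (t, w)) v h.1 h1

open Classical in
/-- the quotient `(dz/dv k) / z'` in any chart -/
noncomputable def EB_W (A : Set (PC Y)) (γ : ℝ → ℂ → Y) (v k : ℂ) (s : ℝ) : ℂ :=
  if h : ∃ c ∈ A, ∃ ζ : ℝ → ℂ → ℂ × ℂ, FDat c γ s v ζ then
    (fderiv ℝ (h.choose_spec.2.choose s) v k).1 / (h.choose_spec.2.choose s v).2 else 0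

theorem EB_W_eq (hA : IsAtlas κ A) {c : PC Y} (hc : c ∈ A) {γ : ℝ → ℂ → Y} {s : ℝ} {v : ℂ}
    {ζ : ℝ → ℂ → ℂ × ℂ} (h : FDat c γ s v ζ) (k : ℂ) :
    EB_W A γ v k s = (fderiv ℝ (ζ s) v k).1 / (ζ s v).2 := by
  have hex : ∃ c ∈ A, ∃ ζ : ℝ → ℂ → ℂ × ℂ, FDat c γ s v ζ := ⟨c, hc, ζ, h⟩
  rw [EB_W, dif_pos hex]
  exact W_inv hA hex.choose_spec.1 hc hex.choose_spec.2.choose_spec h k

theorem EB_p_ne {c : PC Y} {γ : ℝ → ℂ → Y} {t : ℝ} {v : ℂ} {ζ : ℝ → ℂ → ℂ × ℂ}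
    (h : FDat c γ t v ζ) (hv : v ≠ 0) : (ζ t v).2 ≠ 0 := by
  intro h0
  have h1 := h.2.self_of_nhds.2.2.2
  simp only at h1
  rw [h0, norm_zero, mul_zero] at h1
  exact hv (norm_eq_zero.mp h1.symm)

theorem EB_contU {c : PC Y} (hc : IsPC κ c) {z : ℂ} (hz : z ∈ c.U) : ContDiffAt ℝ 2 c.u z :=
  (hc.smooth.contDiffAt (hc.isOpen.mem_nhds hz)).of_le (by norm_num)

theorem EB_hasDeriv (hA : IsAtlas κ A) {c : PC Y} (hc : c ∈ A) {γ : ℝ → ℂ → Y} {t : ℝ} {v : ℂ}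
    (hv : v ≠ 0) {ζ : ℝ → ℂ → ℂ × ℂ} (h : FDat c γ t v ζ) (k : ℂ) :
    HasDerivAt (EB_W A γ v k) ((fderiv ℝ (ζ t) v k).2 / (ζ t v).2 +
      2 * uz c.u (ζ t v).1 * (fderiv ℝ (ζ t) v k).1) t := by
  obtain ⟨h1, -, h3, -⟩ := h.2.self_of_nhds
  have hj := (jac (ζ := fun s => ζ s v) (η := fun s => fderiv ℝ (ζ s) v k)
    (EB_contU (hA.pc c hc) h1) h3 (var_eq (hA.pc c hc) h k) (EB_p_ne h hv)).1
  refine hj.congr_of_eventuallyEq ?_
  filter_upwards [EB_near_t h] with s hs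
  exact EB_W_eq hA hc hs k

theorem EB_deriv2 (hA : IsAtlas κ A) {c : PC Y} (hc : c ∈ A) {γ : ℝ → ℂ → Y} {t : ℝ} {v : ℂ}
    (hv : v ≠ 0) {ζ : ℝ → ℂ → ℂ × ℂ} (h : FDat c γ t v ζ) (k : ℂ) :
    HasDerivAt (deriv (EB_W A γ v k))
      (Complex.I * ((lap c.u (ζ t v).1 * ‖(ζ t v).2‖ ^ 2 * (EB_W A γ v k t).im : ℝ) : ℂ)) t := by
  obtain ⟨h1, -, h3, -⟩ := h.2.self_of_nhds
  have hj := (jac (ζ := fun s => ζ s v) (η := fun s => fderiv ℝ (ζ s) v k)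
    (EB_contU (hA.pc c hc) h1) h3 (var_eq (hA.pc c hc) h k) (EB_p_ne h hv)).2
  rw [EB_W_eq hA hc h k]
  refine hj.congr_of_eventuallyEq ?_
  filter_upwards [EB_near_t h] with s hs
  exact (EB_hasDeriv hA hc hv hs k).deriv

theorem EB_main (hκ : 0 < κ) (hA : IsAtlas κ A) {S : ℝ} (hS : √κ * S ≤ 13 / 25) {x : Y}
    {γ : ℝ → ℂ → Y} {v : ℂ} (hv : v ≠ 0) (hvS : ‖v‖ < S)
    (hγ : ∀ t ∈ Set.Icc (0 : ℝ) 1, GoodAt A γ t v) (h0 : InitAt A γ x v) (k : ℂ) :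
    (EB_W A γ v k 1).re = (k / v).re ∧ |(EB_W A γ v k 1).im| ≤ 21 / 20 * |(k / v).im| ∧
      4 / 5 * |(k / v).im| ≤ |(EB_W A γ v k 1).im| := by
  obtain ⟨c, hc, z0, hz0, -, ζ, hF, hev⟩ := h0
  have ha : ((Real.exp (-c.u z0) : ℝ) : ℂ) ≠ 0 := by
    exact_mod_cast (Real.exp_pos _).ne'
  have hfd : fderiv ℝ (ζ 0) v k = (0, (Real.exp (-c.u z0) : ℝ) * k) := by
    have h1 : ζ 0 =ᶠ[nhds v] fun w => (z0, ((Real.exp (-c.u z0) : ℝ) : ℂ) * w) := hev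
    rw [h1.fderiv_eq]
    have h2 : HasFDerivAt (fun w : ℂ => (z0, ((Real.exp (-c.u z0) : ℝ) : ℂ) * w))
        ((0 : ℂ →L[ℝ] ℂ).prod (((Real.exp (-c.u z0) : ℝ) : ℂ) • ContinuousLinearMap.id ℝ ℂ)) v :=
      (hasFDerivAt_const z0 v).prodMk ((hasFDerivAt_id v).const_mul _)
    rw [h2.fderiv]
    simp
  have hval := hev.self_of_nhds
  refine scalar_jac (W := EB_W A γ v k) (V := deriv (EB_W A γ v k)) (b := k / v)
    (K0 := 169 / 625) le_rfl ?_ ?_ ?_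
  · intro t ht
    obtain ⟨c', hc', ζ', hF'⟩ := hγ t ht
    refine ⟨(EB_hasDeriv hA hc' hv hF' k).differentiableAt.hasDerivAt,
      lap c'.u (ζ' t v).1 * ‖(ζ' t v).2‖ ^ 2, ?_, EB_deriv2 hA hc' hv hF' k⟩
    obtain ⟨h1, -, -, h4⟩ := hF'.2.self_of_nhds
    simp only at h1 h4
    have h5 := (hA.pc c' hc').curv _ h1
    rw [abs_mul, abs_of_nonneg (sq_nonneg ‖(ζ' t v).2‖)]
    have h6 : κ * Real.exp (2 * c'.u (ζ' t v).1) * ‖(ζ' t v).2‖ ^ 2 = κ * ‖v‖ ^ 2 := by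
      rw [← h4, mul_pow, ← Real.exp_nat_mul]
      push_cast
      ring
    have h7 : κ * ‖v‖ ^ 2 = (√κ * ‖v‖) ^ 2 := by
      rw [mul_pow, Real.sq_sqrt hκ.le]
    have h8 : √κ * ‖v‖ ≤ 13 / 25 :=
      (mul_le_mul_of_nonneg_left hvS.le (Real.sqrt_nonneg _)).trans hS
    have h9 : 0 ≤ √κ * ‖v‖ := by positivity
    calc |lap c'.u (ζ' t v).1| * ‖(ζ' t v).2‖ ^ 2
        ≤ κ * Real.exp (2 * c'.u (ζ' t v).1) * ‖(ζ' t v).2‖ ^ 2 := by gcongr
      _ = (√κ * ‖v‖) ^ 2 := by rw [h6, h7]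
      _ ≤ (13 / 25) ^ 2 := by gcongr
      _ = 169 / 625 := by norm_num
  · rw [EB_W_eq hA hc hF k, hfd]
    simp
  · rw [(EB_hasDeriv hA hc hv hF k).deriv, hfd, hval]
    simp only [mul_zero, add_zero]
    exact mul_div_mul_left _ _ ha

/-- the length of the derivative for `v ≠ 0` -/
theorem EB_len (hκ : 0 < κ) (hA : IsAtlas κ A) {S : ℝ} (hS : √κ * S ≤ 13 / 25) {x : Y}
    {γ : ℝ → ℂ → Y} {v : ℂ} (hv : v ≠ 0) (hvS : ‖v‖ < S)
    (hγ : ∀ t ∈ Set.Icc (0 : ℝ) 1, GoodAt A γ t v) (h0 : InitAt A γ x v)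
    {c : PC Y} (hc : c ∈ A) {ζ : ℝ → ℂ → ℂ × ℂ} (hF : FDat c γ 1 v ζ) (k : ℂ) :
    ∃ W : ℂ, Real.exp (c.u (ζ 1 v).1) * ‖fderiv ℝ (fun w => (ζ 1 w).1) v k‖ = ‖v‖ * ‖W‖ ∧
      W.re = (k / v).re ∧ |W.im| ≤ 21 / 20 * |(k / v).im| ∧ 4 / 5 * |(k / v).im| ≤ |W.im| := by
  refine ⟨EB_W A γ v k 1, ?_, EB_main hκ hA hS hv hvS hγ h0 k⟩
  have h1 : fderiv ℝ (fun w => (ζ 1 w).1) v k = (fderiv ℝ (ζ 1) v k).1 := by
    have h2 := ((EB_contDiff hF).differentiableAt (by norm_num)).hasFDerivAt.fst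
    rw [h2.fderiv]
    rfl
  have h4 := hF.2.self_of_nhds.2.2.2
  simp only at h4
  have hp := EB_p_ne hF hv
  rw [h1, EB_W_eq hA hc hF k, norm_div, ← h4]
  have hp' : ‖(ζ 1 v).2‖ ≠ 0 := norm_ne_zero_iff.mpr hp
  field_simp

theorem EB_ineq (hκ : 0 < κ) (hA : IsAtlas κ A) {S : ℝ} (hS : √κ * S ≤ 13 / 25) {x : Y}
    {γ : ℝ → ℂ → Y} {v : ℂ} (hv : v ≠ 0) (hvS : ‖v‖ < S)
    (hγ : ∀ t ∈ Set.Icc (0 : ℝ) 1, GoodAt A γ t v) (h0 : InitAt A γ x v)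
    {c : PC Y} (hc : c ∈ A) {ζ : ℝ → ℂ → ℂ × ℂ} (hF : FDat c γ 1 v ζ) :
    (∀ h : ℂ, Real.exp (c.u (ζ 1 v).1) * ‖fderiv ℝ (fun w => (ζ 1 w).1) v h‖ ≤ 21 / 20 * ‖h‖) ∧
      Real.exp (c.u (ζ 1 v).1) * ‖fderiv ℝ (fun w => (ζ 1 w).1) v v‖ ≤ ‖v‖ ∧
      (∀ h : ℂ, |(h * (starRingEnd ℂ) v).re| ≤
        ‖v‖ * (Real.exp (c.u (ζ 1 v).1) * ‖fderiv ℝ (fun w => (ζ 1 w).1) v h‖)) ∧
      ∀ h : ℂ, 4 / 5 * ‖h‖ ≤ Real.exp (c.u (ζ 1 v).1) * ‖fderiv ℝ (fun w => (ζ 1 w).1) v h‖ := by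
  have hn : 0 < ‖v‖ := norm_pos_iff.mpr hv
  have key : ∀ b : ℂ, ‖b‖ ^ 2 = b.re ^ 2 + b.im ^ 2 := by
    intro b
    rw [Complex.sq_norm, Complex.normSq_apply]
    ring
  refine ⟨fun k => ?_, ?_, fun k => ?_, fun k => ?_⟩
  · obtain ⟨W, h1, h2, h3, -⟩ := EB_len hκ hA hS hv hvS hγ h0 hc hF k
    rw [h1]
    have h5 : ‖W‖ ≤ 21 / 20 * ‖k / v‖ := by
      refine abs_le_of_sq_le_sq' ?_ (by positivity) |>.2
      have e1 := key W
      have e2 := key (k / v)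
      have e3 : W.im ^ 2 ≤ (21 / 20 * |(k / v).im|) ^ 2 := by
        rw [← sq_abs W.im]
        gcongr
      rw [mul_pow, sq_abs] at e3
      rw [e1, mul_pow, e2, h2]
      nlinarith [sq_nonneg (k / v).re]
    rw [norm_div] at h5
    calc ‖v‖ * ‖W‖ ≤ ‖v‖ * (21 / 20 * (‖k‖ / ‖v‖)) := by gcongr
      _ = 21 / 20 * ‖k‖ := by field_simp
  · obtain ⟨W, h1, h2, h3, -⟩ := EB_len hκ hA hS hv hvS hγ h0 hc hF v
    rw [h1]
    rw [div_self hv] at h2 h3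
    simp only [Complex.one_re, Complex.one_im, abs_zero, mul_zero] at h2 h3
    have h4 : W.im = 0 := abs_eq_zero.mp (le_antisymm h3 (abs_nonneg _))
    have h5 : W = 1 := Complex.ext (by rw [h2, Complex.one_re]) (by rw [h4, Complex.one_im])
    rw [h5, norm_one, mul_one]
  · obtain ⟨W, h1, h2, -, -⟩ := EB_len hκ hA hS hv hvS hγ h0 hc hF k
    rw [h1]
    have h5 : (k * (starRingEnd ℂ) v).re = ‖v‖ ^ 2 * (k / v).re := by
      have h6 : k * (starRingEnd ℂ) v = ((‖v‖ ^ 2 : ℝ) : ℂ) * (k / v) := by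
        rw [← Complex.normSq_eq_norm_sq, Complex.normSq_eq_conj_mul_self]
        field_simp
      rw [h6, Complex.re_ofReal_mul]
    rw [h5, abs_mul, abs_of_nonneg (sq_nonneg ‖v‖), ← h2]
    have := Complex.abs_re_le_norm W
    calc ‖v‖ ^ 2 * |W.re| ≤ ‖v‖ ^ 2 * ‖W‖ := by gcongr
      _ = ‖v‖ * (‖v‖ * ‖W‖) := by ring
  · obtain ⟨W, h1, h2, -, h3⟩ := EB_len hκ hA hS hv hvS hγ h0 hc hF k
    rw [h1]
    have h5 : 4 / 5 * ‖k / v‖ ≤ ‖W‖ := by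
      refine abs_le_of_sq_le_sq' ?_ (by positivity) |>.2
      have e1 := key W
      have e2 := key (k / v)
      have e3 : (4 / 5 * |(k / v).im|) ^ 2 ≤ W.im ^ 2 := by
        rw [← sq_abs W.im]
        gcongr
      rw [mul_pow, sq_abs] at e3
      rw [e1, mul_pow, e2, h2]
      nlinarith [sq_nonneg (k / v).re]
    rw [norm_div] at h5
    calc 4 / 5 * ‖k‖ = ‖v‖ * (4 / 5 * (‖k‖ / ‖v‖)) := by field_simp
      _ ≤ ‖v‖ * ‖W‖ := by gcongr

/-- the constant geodesics -/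
theorem EB_zero {γ : ℝ → ℂ → Y} (hγ : ∀ t ∈ Set.Icc (0 : ℝ) 1, GoodAt A γ t 0) :
    γ 1 0 = γ 0 0 := by
  have hloc : ∀ t ∈ Set.Icc (0 : ℝ) 1, ∀ᶠ s in nhds t, γ s 0 = γ t 0 := by
    intro t ht
    obtain ⟨c, hc, ζ, hF⟩ := hγ t ht
    obtain ⟨ε, hε, hb⟩ := Metric.eventually_nhds_iff_ball.mp (EB_near_t hF)
    have hd : ∀ s ∈ Metric.ball t ε, HasDerivAt (fun s => ζ s 0) 0 s := by
      intro s hs
      obtain ⟨-, -, h3, h4⟩ := (hb s hs).2.self_of_nhds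
      simp only at h3 h4
      rw [norm_zero] at h4
      have h5 : (ζ s 0).2 = 0 := by
        rcases mul_eq_zero.mp h4 with h6 | h6
        · exact absurd h6 (Real.exp_pos _).ne'
        · exact norm_eq_zero.mp h6
      have h6 : geoF c.u (ζ s 0) = 0 := by
        rw [geoF, h5]
        simp
      rwa [h6] at h3
    filter_upwards [Metric.ball_mem_nhds t hε] with s hs
    have h1 : ζ s 0 = ζ t 0 := by
      refine Metric.isOpen_ball.is_const_of_deriv_eq_zero (convex_ball t ε).isPreconnected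
        (f := fun s => ζ s 0) (fun y hy => (hd y hy).differentiableAt.differentiableWithinAt)
        (fun y hy => (hd y hy).deriv) hs (Metric.mem_ball_self hε)
    rw [← (hb s hs).2.self_of_nhds.2.1, ← hF.2.self_of_nhds.2.1]
    simp only
    rw [h1]
  have hp : PreconnectedSpace (Set.Icc (0 : ℝ) 1) := Subtype.preconnectedSpace isPreconnected_Icc
  have hl : IsLocallyConstant (fun t : Set.Icc (0 : ℝ) 1 => γ t 0) := by
    rw [IsLocallyConstant.iff_eventually_eq]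
    intro t
    exact (continuous_subtype_val.tendsto t).eventually (hloc t.1 t.2)
  exact hl.apply_eq_of_preconnectedSpace ⟨1, by norm_num, le_rfl⟩ ⟨0, le_rfl, by norm_num⟩

end EB

/-- Row EB. For `v ≠ 0` let `W t = (dz/dv h)/z'` in any chart (`W_inv`); by `var_eq`, `jac` and
`scalar_jac` (with `b = h / v`, `|k| ≤ κ ‖v‖²`) `W 1 = Re (h/v) + i j`, and
`e^u |dz/dv h| = ‖v‖ |W 1|`.  For `v = 0` by continuity of the derivative. -/
theorem expMap_of_flow (hκ : 0 < κ) (hA : IsAtlas κ A) {S : ℝ} (hS : √κ * S ≤ 13 / 25) {x : Y}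
    {γ : ℝ → ℂ → Y} (hγ : ∀ v : ℂ, ‖v‖ < S → ∀ t ∈ Set.Icc (0 : ℝ) 1, GoodAt A γ t v)
    (h0 : ∀ v : ℂ, ‖v‖ < S → InitAt A γ x v) (hS0 : 0 < S) : IsExpMap A x S (γ 1) := by
  refine ⟨?_, fun v0 hv0 => ?_⟩
  · rw [EB_zero (hγ 0 (by simpa using hS0))]
    obtain ⟨c, hc, z0, hz0, hx, ζ, hF, hev⟩ := h0 0 (by simpa using hS0)
    rw [← hx, ← hF.2.self_of_nhds.2.1]
    simp only
    rw [hev.self_of_nhds]
  · obtain ⟨c, hc, ζ, hF⟩ := hγ v0 hv0 1 ⟨by norm_num, le_rfl⟩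
    refine ⟨c, hc, fun v => (ζ 1 v).1, (EB_contDiff hF).fst, ?_⟩
    have hQ : ∀ᶠ v in nhds v0, FDat c γ 1 v ζ ∧ ‖v‖ < S :=
      (EB_near_v hF).and (continuous_norm.continuousAt.eventually_lt continuousAt_const hv0)
    filter_upwards [hQ.eventually_nhds] with v hv
    obtain ⟨hFv, hvS⟩ := hv.self_of_nhds
    obtain ⟨h1, h2, -, -⟩ := hFv.2.self_of_nhds
    simp only at h1 h2
    refine ⟨h1, h2, ?_⟩
    by_cases hv0 : v = 0
    · subst hv0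
      have hcont : ∀ h : ℂ, Filter.Tendsto (fun w => Real.exp (c.u (ζ 1 w).1) *
          ‖fderiv ℝ (fun w => (ζ 1 w).1) w h‖) (nhdsWithin 0 {0}ᶜ)
          (nhds (Real.exp (c.u (ζ 1 0).1) * ‖fderiv ℝ (fun w => (ζ 1 w).1) 0 h‖)) := by
        intro h
        have hZ : ContDiffAt ℝ 1 (fun w => (ζ 1 w).1) 0 := (EB_contDiff hFv).fst
        have c1 : ContinuousAt (fun w => c.u (ζ 1 w).1) 0 :=
          ContinuousAt.comp (g := c.u) (f := fun w => (ζ 1 w).1)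
            (EB_contU (hA.pc c hc) h1).continuousAt hZ.continuousAt
        have c2 : ContinuousAt (fun w => fderiv ℝ (fun w => (ζ 1 w).1) w) 0 :=
          (hZ.fderiv_right (m := 0) (by norm_num)).continuousAt
        have c3 : ContinuousAt (fun w => fderiv ℝ (fun w => (ζ 1 w).1) w h) 0 :=
          c2.clm_apply continuousAt_const
        have c4 : ContinuousAt (fun w => Real.exp (c.u (ζ 1 w).1) *
            ‖fderiv ℝ (fun w => (ζ 1 w).1) w h‖) 0 :=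
          (Real.continuous_exp.continuousAt.comp c1).mul c3.norm
        exact c4.tendsto.mono_left nhdsWithin_le_nhds
      have hev : ∀ᶠ w in nhdsWithin (0 : ℂ) {0}ᶜ, w ≠ 0 ∧ FDat c γ 1 w ζ ∧ ‖w‖ < S :=
        (eventually_mem_nhdsWithin.mono fun w hw => hw).and (hv.filter_mono nhdsWithin_le_nhds)
      refine ⟨fun h => ?_, by simp, fun h => by simp, fun h => ?_⟩
      · refine le_of_tendsto (hcont h) (hev.mono fun w hw => ?_)
        exact (EB_ineq hκ hA hS hw.1 hw.2.2 (hγ w hw.2.2) (h0 w hw.2.2) hc hw.2.1).1 h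
      · refine ge_of_tendsto (hcont h) (hev.mono fun w hw => ?_)
        exact (EB_ineq hκ hA hS hw.1 hw.2.2 (hγ w hw.2.2) (h0 w hw.2.2) hc hw.2.1).2.2.2 h
    · exact EB_ineq hκ hA hS hv0 hvS (hγ v hvS) (h0 v hvS) hc hFv

/-- Row HE. assembly -/
theorem hasExp_of_atlas (hκ : 0 < κ) (hG : IsGeod Y) (hA : IsAtlas κ A) : HasExp κ Y := by
  intro x
  have hk : 0 < √κ := Real.sqrt_pos.2 hκ
  have hkey : ∀ s : ℝ, √κ * s < 13 / 25 → s < 13 / 25 / √κ := by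
    intro s hs
    rw [lt_div_iff₀ hk, mul_comm]
    exact hs
  obtain ⟨γ, hγ, h0⟩ := exists_flow hA x (13 / 25 / √κ)
  have hE : IsExpMap A x (13 / 25 / √κ) (γ 1) :=
    expMap_of_flow hκ hA (by rw [mul_div_cancel₀ _ hk.ne']) hγ h0 (by positivity)
  exact ⟨γ 1, fun v w hv hw => hE.lip hA (hkey _ hv) (hkey _ hw),
    fun y hy => hE.reach hG hA (hkey _ hy)⟩

end F10S
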