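import Pool.Agent.Lib.MP_f10cd3_gt.S.Defs

/-! Row P1: three vectors in the plane; `HasExp` implies `NoThree`. -/

set_option autoImplicit false

namespace F10S

open MPf10cd3 F10G

variable {Y : Type} [MetricSpace Y]

/-- otherwise `0 ≤ |v1 + v2 + v3|² < 3 ∑ |v_i|² - 9 A² ≤ 0` -/
theorem three_vec {v1 v2 v3 : ℂ} {A : ℝ} (h1 : ‖v1‖ ≤ A) (h2 : ‖v2‖ ≤ A) (h3 : ‖v3‖ ≤ A) :
    ‖v1 - v2‖ ≤ √3 * A ∨ ‖v2 - v3‖ ≤ √3 * A ∨ ‖v3 - v1‖ ≤ √3 * A := by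
  by_contra hcon
  push Not at hcon
  obtain ⟨k1, k2, k3⟩ := hcon
  have hA : 0 ≤ A := (norm_nonneg v1).trans h1
  have hs : 0 ≤ √3 * A := mul_nonneg (Real.sqrt_nonneg _) hA
  have e : ‖v1 - v2‖ ^ 2 + ‖v2 - v3‖ ^ 2 + ‖v3 - v1‖ ^ 2 + ‖v1 + v2 + v3‖ ^ 2 =
      3 * (‖v1‖ ^ 2 + ‖v2‖ ^ 2 + ‖v3‖ ^ 2) := by
    simp only [Complex.sq_norm, Complex.normSq_apply, Complex.sub_re, Complex.sub_im,
      Complex.add_re, Complex.add_im]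
    ring
  have e3 : (√3 * A) ^ 2 = 3 * A ^ 2 := by
    rw [mul_pow, Real.sq_sqrt (by norm_num)]
  have q1 := pow_lt_pow_left₀ k1 hs two_ne_zero
  have q2 := pow_lt_pow_left₀ k2 hs two_ne_zero
  have q3 := pow_lt_pow_left₀ k3 hs two_ne_zero
  have p1 := pow_le_pow_left₀ (norm_nonneg v1) h1 2
  have p2 := pow_le_pow_left₀ (norm_nonneg v2) h2 2
  have p3 := pow_le_pow_left₀ (norm_nonneg v3) h3 2
  have p4 := sq_nonneg ‖v1 + v2 + v3‖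
  rw [e3] at q1 q2 q3
  linarith

/-- the final contradiction -/
theorem P1_contra {p q : Y} {v w : ℂ} {A τ : ℝ} (hA : 0 < A) (hτ : 12 * τ ≤ A)
    (h : dist p q ≤ 21 / 20 * ‖v - w‖) (hvw : ‖v - w‖ ≤ √3 * A) (h2 : 2 * (A - τ) ≤ dist p q) :
    False := by
  have h3 : √3 < 87 / 50 := by
    rw [Real.sqrt_lt' (by norm_num)]
    norm_num
  have h4 : √3 * A < 87 / 50 * A := mul_lt_mul_of_pos_right h3 hA
  linarith

/-- `p_i = E v_i`, `‖v_i‖ = d(x, p_i) ≤ A`, `21/20 * √3 < 2 * 11/12` -/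
theorem noThree_of_exp {κ : ℝ} (hκ : 0 < κ) (h : HasExp κ Y) : NoThree κ Y := by
  intro x p1 p2 p3 A τ _ hτ hA hp1 hp1A _ hp2A _ hp3A h12 h23 h31
  obtain ⟨E, hE, hr⟩ := h x
  have hA0 : 0 < A := hp1.trans_le hp1A
  have hs : 0 ≤ √κ := Real.sqrt_nonneg _
  have key : ∀ p : Y, dist x p ≤ A → √κ * dist x p < 13 / 25 := by
    intro p hp
    have := mul_le_mul_of_nonneg_left hp hs
    linarith
  obtain ⟨v1, hv1, e1⟩ := hr p1 (key p1 hp1A)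
  obtain ⟨v2, hv2, e2⟩ := hr p2 (key p2 hp2A)
  obtain ⟨v3, hv3, e3⟩ := hr p3 (key p3 hp3A)
  have n1 : √κ * ‖v1‖ < 13 / 25 := by rw [hv1]; exact key p1 hp1A
  have n2 : √κ * ‖v2‖ < 13 / 25 := by rw [hv2]; exact key p2 hp2A
  have n3 : √κ * ‖v3‖ < 13 / 25 := by rw [hv3]; exact key p3 hp3A
  have d12 := hE v1 v2 n1 n2
  have d23 := hE v2 v3 n2 n3
  have d31 := hE v3 v1 n3 n1
  rw [e1, e2] at d12
  rw [e2, e3] at d23
  rw [e3, e1] at d31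
  rcases three_vec (hv1.le.trans hp1A) (hv2.le.trans hp2A) (hv3.le.trans hp3A) with k | k | k
  · exact P1_contra hA0 hτ d12 k h12
  · exact P1_contra hA0 hτ d23 k h23
  · exact P1_contra hA0 hτ d31 k h31

end F10S
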