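import Pool.Agent.Lib.MP_f10cd3_gt.S.Area
import Pool.Agent.Lib.MP_f10cd3_gt.S.ExpB
import Pool.Agent.Lib.MP_f10cd3_gt.S.Atl
import Pool.Agent.Lib.MP_f10cd3_gt.S.Plane
import Pool.Agent.Lib.MP_f10cd3_gt.G.Final
import Pool.Agent.Lib.MP_f10cd3_gt.U.Fin

/-! The theorem for surfaces with an atlas of conformal charts. -/

set_option autoImplicit false

namespace F10S

open MPf10cd3 F10G MeasureTheory
open scoped Manifold ContDiff

private theorem f10sZ2_exp {κ : ℝ} (hκ : 0 < κ) {M : Type} [MetricSpace M]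
    {A : Set (PC M)} (hA : IsAtlas κ A) {Γ X : Type} [Group Γ] [MetricSpace X] [MulAction Γ X]
    {π : X → M} (hG : IsGeod X) (hc : IsCover Γ π) : HasExp κ X := by
  obtain ⟨A', hA'⟩ := atlas_lift hc hA
  exact hasExp_of_atlas hκ hG hA'

/-- `M` has smooth triangulations of arbitrarily small mesh by surfaces of genus `g` -/
def HasTri (g : ℕ) {M : Type} [MetricSpace M] (A : Set (PC M)) : Prop :=
  ∀ μ : ℝ, 0 < μ → ∃ (V : Type) (_ : Fintype V) (_ : DecidableEq V) (D : Finset (V × V × V))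
    (τ : Triang D M μ) (ch : V × V × V → PC M) (s : V × V × V → ℂ → ℂ), IsCS D g ∧ STri A τ ch s

/-- a surface of genus different from `1` is not small -/
theorem diam_ge {κ : ℝ} (hκ : 0 < κ) {g : ℕ} (hg : g ≠ 1) {M : Type} [MetricSpace M]
    [CompactSpace M] [Nonempty M] {A : Set (PC M)} (hGM : IsGeod M) (hA : IsAtlas κ A)
    (hs : HasTri g A) : 1 / (2 * √κ) ≤ Metric.diam (Set.univ : Set M) := by
  by_contra hcon
  push Not at hcon
  obtain ⟨Γ, X, i1, i2, i3, π, _, _, hG, hc⟩ := F10U.exists_cover hGM hA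
  have hexp : HasExp κ X := f10sZ2_exp hκ hA hG hc
  obtain ⟨V, j1, j2, D, τ, ch, s, hD, hS⟩ := hs 1 one_pos
  letI : MeasurableSpace M := borel M
  haveI : BorelSpace M := ⟨rfl⟩
  have hsq : 0 < √κ := Real.sqrt_pos.2 hκ
  set d : ℝ := Metric.diam (Set.univ : Set M) with hd
  have hd0 : 0 ≤ d := Metric.diam_nonneg
  have h1 : √κ * d < 1 / 2 := by
    rw [lt_div_iff₀ (by positivity)] at hcon
    linarith
  have h2 := haus_small hκ hc hexp (D := d) (by linarith) (fun p q =>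
    Metric.dist_le_diam_of_mem isCompact_univ.isBounded (Set.mem_univ p) (Set.mem_univ q))
  have h3 := gb_area hA hD hS hκ (a := 9 / 4 * Real.pi * d ^ 2) (by positivity) h2
  have h4 : κ * d ^ 2 < 1 / 4 := by
    have h5 : κ * d ^ 2 = (√κ * d) ^ 2 := by
      rw [mul_pow, Real.sq_sqrt hκ.le]
    rw [h5]
    have h6 : 0 ≤ √κ * d := by positivity
    nlinarith
  have h7 : |(2 : ℝ) - 2 * g| < 1 := by
    have h8 : Real.pi * |(2 : ℝ) - 2 * g| < Real.pi * 1 := by
      calc Real.pi * |(2 : ℝ) - 2 * g| ≤ κ * (9 / 4 * Real.pi * d ^ 2) := h3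
        _ = Real.pi * (9 / 4 * (κ * d ^ 2)) := by ring
        _ < Real.pi * 1 := by
          apply mul_lt_mul_of_pos_left _ Real.pi_pos
          linarith
    exact lt_of_mul_lt_mul_left h8 Real.pi_pos.le
  have h9 : |(2 : ℤ) - 2 * g| < 1 := by
    have : ((|(2 : ℤ) - 2 * g| : ℤ) : ℝ) < 1 := by push_cast; exact h7
    exact_mod_cast this
  rw [Int.abs_lt_one_iff] at h9
  apply hg
  omega

/-- Gromov-Hausdorff distance of surfaces of different genus with `|K| ≤ κ` -/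
theorem gh_core {κ : ℝ} (hκ : 0 < κ) {g g' : ℕ} (hg : g ≠ g') {M M' : Type} [MetricSpace M]
    [CompactSpace M] [Nonempty M] [MetricSpace M'] [CompactSpace M'] [Nonempty M']
    {A : Set (PC M)} {A' : Set (PC M')} (hG : IsGeod M) (hA : IsAtlas κ A) (hs : HasTri g A)
    (hG' : IsGeod M') (hA' : IsAtlas κ A') (hs' : HasTri g' A') :
    1 / √κ ≤ 200000 * GromovHausdorff.ghDist M M' := by
  have hsq : 0 < √κ := Real.sqrt_pos.2 hκ
  have hnt : ∀ {N : Type} [MetricSpace N] [CompactSpace N] [Nonempty N] {B : Set (PC N)} {k : ℕ},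
      IsGeod N → IsAtlas κ B → HasTri k B → IsSurfaceNT κ k N := by
    intro N _ _ _ B k hGN hB hsN
    obtain ⟨Γ, X, i1, i2, i3, π, hne, hsc, hG, hc⟩ := F10U.exists_cover hGN hB
    refine ⟨?_, Γ, X, i1, i2, i3, π, ⟨hne, hsc⟩, hG, hc,
      noThree_of_exp hκ (f10sZ2_exp hκ hB hG hc)⟩
    intro μ hμ
    obtain ⟨V, j1, j2, D, τ, ch, s, hD, _⟩ := hsN μ hμ
    exact ⟨V, j1, j2, D, hD, ⟨τ⟩⟩
  have key := final_nt hκ hg (hnt hG hA hs) (hnt hG' hA' hs')
  have h1 : 1 / (2 * √κ) ≤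
      max (Metric.diam (Set.univ : Set M)) (Metric.diam (Set.univ : Set M')) := by
    by_cases hg1 : g = 1
    · have hg' : g' ≠ 1 := fun hh => hg (by rw [hg1, hh])
      exact (diam_ge hκ hg' hG' hA' hs').trans (le_max_right _ _)
    · exact (diam_ge hκ hg1 hG hA hs).trans (le_max_left _ _)
  have h2 : 1 / (2 * √κ) = (1 / √κ) / 2 := by field_simp
  have h3 : 0 < 1 / √κ := by positivity
  have h4 : (1 / √κ) / 2 ≤ min (1 / √κ)
      (max (Metric.diam (Set.univ : Set M)) (Metric.diam (Set.univ : Set M'))) := by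
    refine le_min (by linarith) ?_
    rw [← h2]; exact h1
  linarith

end F10S
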