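import Pool.Agent.Lib.MP_f10cd3_gt.S.GB0

/-! Rows A1 - A5: the angles at a vertex of a smooth triangulation add up to `2π`. -/

set_option autoImplicit false

namespace F10S

section A1

open MPf10cd3 F10G

/-- Row A1. The darts with first vertex `a` in cyclic order: `(a, b, c)` is followed by
`(a, c, d)` (`rot`, `opp`, unique by `uniq`); this is an injective map of a finite set and by `link`
there is only one orbit. -/
theorem star_cycle {V : Type} [Fintype V] [DecidableEq V] {D : Finset (V × V × V)} {g : ℕ}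
    (hD : IsCS D g) (a : V) : ∃ (n : ℕ) (t : ℕ → V × V × V), 0 < n ∧
      (∀ i, t i ∈ D ∧ (t i).1 = a) ∧ (∀ i, (t (i + 1)).2.1 = (t i).2.2) ∧ t n = t 0 ∧
      (∀ i < n, ∀ j < n, t i = t j → i = j) ∧
      ∀ f : V × V × V → ℝ, ∑ s ∈ D with s.1 = a, f s = ∑ i ∈ Finset.range n, f (t i) := by
  classical
  let σ : V → V := fun b => if h : ∃ c, (a, b, c) ∈ D then h.choose else b
  have hσ : ∀ b c, (a, b, c) ∈ D → σ b = c := by
    intro b c h
    have h' : ∃ c, (a, b, c) ∈ D := ⟨c, h⟩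
    have e : σ b = h'.choose := dif_pos h'
    rw [e]
    exact hD.uniq _ _ _ _ h'.choose_spec h
  have hnext : ∀ b c, (a, b, c) ∈ D → ∃ d, (a, c, d) ∈ D := by
    intro b c h
    exact hD.opp _ _ _ (hD.rot _ _ _ (hD.rot _ _ _ h))
  obtain ⟨b0, c0, h0⟩ := hD.vert a
  have hit : ∀ i, (a, σ^[i] b0, σ^[i + 1] b0) ∈ D := by
    intro i
    induction i with
    | zero =>
      have := hσ _ _ h0
      simpa [this] using h0
    | succ i ih =>
      obtain ⟨d, hd⟩ := hnext _ _ ih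
      have e := hσ _ _ hd
      rw [Function.iterate_succ_apply' σ (i + 1), e]
      exact hd
  have hreach : ∀ u v, Relation.ReflTransGen (fun u v => (a, u, v) ∈ D) u v →
      ∃ k, σ^[k] u = v := by
    intro u v h
    induction h with
    | refl => exact ⟨0, rfl⟩
    | tail _ hbc ih =>
      obtain ⟨k, hk⟩ := ih
      refine ⟨k + 1, ?_⟩
      rw [Function.iterate_succ_apply', hk]
      exact hσ _ _ hbc
  have hper : b0 ∈ Function.periodicPts σ := by
    have h1 : ∃ c, (a, σ b0, c) ∈ D := ⟨_, hit 1⟩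
    obtain ⟨k, hk⟩ := hreach _ _ (hD.link a (σ b0) b0 h1 ⟨c0, h0⟩)
    refine ⟨k + 1, Nat.succ_pos k, ?_⟩
    show σ^[k + 1] b0 = b0
    rw [Function.iterate_succ_apply]
    exact hk
  have hn : 0 < Function.minimalPeriod σ b0 := Function.minimalPeriod_pos_of_mem_periodicPts hper
  have hinj : ∀ i < Function.minimalPeriod σ b0, ∀ j < Function.minimalPeriod σ b0,
      (a, σ^[i] b0, σ^[i + 1] b0) = (a, σ^[j] b0, σ^[j + 1] b0) → i = j := by
    intro i hi j hj h
    have h1 : σ^[i] b0 = σ^[j] b0 := (Prod.mk.inj (Prod.mk.inj h).2).1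
    exact Function.iterate_injOn_Iio_minimalPeriod hi hj h1
  refine ⟨Function.minimalPeriod σ b0, fun i => (a, σ^[i] b0, σ^[i + 1] b0), hn,
    fun i => ⟨hit i, rfl⟩, fun i => rfl, ?_, hinj, ?_⟩
  · have e1 : σ^[Function.minimalPeriod σ b0] b0 = b0 := Function.isPeriodicPt_minimalPeriod σ b0
    show (a, σ^[Function.minimalPeriod σ b0] b0, σ^[Function.minimalPeriod σ b0 + 1] b0) = _
    rw [Function.iterate_succ_apply', e1]
    rfl
  · intro f
    have himg : (D.filter fun s => s.1 = a) =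
        (Finset.range (Function.minimalPeriod σ b0)).image
          (fun i => (a, σ^[i] b0, σ^[i + 1] b0)) := by
      ext s
      rw [Finset.mem_filter, Finset.mem_image]
      constructor
      · rintro ⟨hs, hsa⟩
        obtain ⟨x, b, c⟩ := s
        have hsa : x = a := hsa
        subst hsa
        obtain ⟨k, hk⟩ := hreach _ _ (hD.link x b0 b ⟨c0, h0⟩ ⟨c, hs⟩)
        refine ⟨k % Function.minimalPeriod σ b0, Finset.mem_range.2 (Nat.mod_lt _ hn), ?_⟩
        have e : σ^[k % Function.minimalPeriod σ b0] b0 = b := by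
          rw [Function.iterate_mod_minimalPeriod_eq, hk]
        rw [Function.iterate_succ_apply', e, hσ _ _ hs]
      · rintro ⟨i, _, rfl⟩
        exact ⟨hit i, rfl⟩
    rw [himg, Finset.sum_image]
    intro i hi j hj h
    exact hinj i (Finset.mem_range.1 (Finset.mem_coe.1 hi)) j (Finset.mem_range.1 (Finset.mem_coe.1 hj)) h

end A1

section A3

open scoped ContDiff

/-- Row A3. Let `G` be a local diffeomorphism at `0` with derivative `L`, `v` in the open first
quadrant: the points `G 0 + r L v`, `r > 0` small, are values of `G` at points `z` of the open first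
quadrant near `0` (inverse function theorem, `z = r v + o(r)`). -/
theorem sector {G : ℂ → ℂ} (hG : ContDiffAt ℝ 1 G 0) (hinj : ∀ v : ℂ, fderiv ℝ G 0 v = 0 → v = 0)
    {v : ℂ} (hv : 0 < v.re) (hv' : 0 < v.im) {N : Set ℂ} (hN : N ∈ nhds (0 : ℂ)) :
    ∀ᶠ r : ℝ in nhdsWithin 0 (Set.Ioi 0), ∃ z ∈ N, 0 < z.re ∧ 0 < z.im ∧ z.re + z.im < 1 ∧
      G z = G 0 + (r : ℂ) * fderiv ℝ G 0 v := by
  have hinj' : Function.Injective (fderiv ℝ G 0 : ℂ →ₗ[ℝ] ℂ) := by
    rw [← LinearMap.ker_eq_bot, LinearMap.ker_eq_bot']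
    exact hinj
  obtain ⟨L, hL⟩ : ∃ L : ℂ ≃L[ℝ] ℂ, (L : ℂ →L[ℝ] ℂ) = fderiv ℝ G 0 := by
    refine ⟨(LinearEquiv.ofInjectiveEndo (fderiv ℝ G 0 : ℂ →ₗ[ℝ] ℂ)
      hinj').toContinuousLinearEquiv, ?_⟩
    ext x
    all_goals rfl
  have hs : HasStrictFDerivAt G (L : ℂ →L[ℝ] ℂ) 0 := by
    rw [hL]
    exact hG.hasStrictFDerivAt one_ne_zero
  -- the local inverse
  set H : ℂ → ℂ := hs.localInverse G L 0 with hH
  have hH0 : H (G 0) = 0 := hs.localInverse_apply_image
  have hHd : HasStrictFDerivAt H (L.symm : ℂ →L[ℝ] ℂ) (G 0) := hs.to_localInverse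
  have hHr : ∀ᶠ w in nhds (G 0), G (H w) = w := hs.eventually_right_inverse
  -- the curve
  have hc : HasDerivAt (fun r : ℝ => G 0 + (r : ℂ) * L v) (L v) 0 := by
    have h1 : HasDerivAt (fun r : ℝ => (r : ℂ) * L v) ((1 : ℂ) * L v) 0 :=
      (Complex.ofRealCLM.hasDerivAt (x := (0 : ℝ))).mul_const (L v)
    have h2 := h1.const_add (G 0)
    rw [one_mul] at h2
    exact h2
  have hc0 : G 0 + ((0 : ℝ) : ℂ) * L v = G 0 := by simp
  have hγ : HasDerivAt (fun r : ℝ => H (G 0 + (r : ℂ) * L v)) v 0 := by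
    have h1 : HasFDerivAt H (L.symm : ℂ →L[ℝ] ℂ) (G 0 + ((0 : ℝ) : ℂ) * L v) := by
      rw [hc0]
      exact hHd.hasFDerivAt
    have h2 := h1.comp_hasDerivAt (0 : ℝ) hc
    simp only [ContinuousLinearEquiv.coe_coe, ContinuousLinearEquiv.symm_apply_apply] at h2
    exact h2
  have hγ0 : H (G 0 + ((0 : ℝ) : ℂ) * L v) = 0 := by rw [hc0, hH0]
  have hslope := hγ.tendsto_slope_zero_right
  simp only [zero_add] at hslope
  rw [hγ0] at hslope
  simp only [sub_zero] at hslope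
  have hcc : Filter.Tendsto (fun r : ℝ => H (G 0 + (r : ℂ) * L v)) (nhdsWithin 0 (Set.Ioi 0))
      (nhds 0) := by
    have h1 := hγ.continuousAt.tendsto
    simp only [hγ0] at h1
    exact h1.mono_left nhdsWithin_le_nhds
  have hcw : Filter.Tendsto (fun r : ℝ => G 0 + (r : ℂ) * L v) (nhdsWithin 0 (Set.Ioi 0))
      (nhds (G 0)) := by
    have h1 := hc.continuousAt.tendsto
    simp only [hc0] at h1
    exact h1.mono_left nhdsWithin_le_nhds
  have e1 := (Complex.continuous_re.tendsto v).comp hslope |>.eventually_const_lt hv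
  have e2 := (Complex.continuous_im.tendsto v).comp hslope |>.eventually_const_lt hv'
  have e3 : ∀ᶠ r : ℝ in nhdsWithin 0 (Set.Ioi 0), H (G 0 + (r : ℂ) * L v) ∈ N := hcc hN
  have e4 : ∀ᶠ r : ℝ in nhdsWithin 0 (Set.Ioi 0), (H (G 0 + (r : ℂ) * L v)).re +
      (H (G 0 + (r : ℂ) * L v)).im < 1 := by
    have h1 : Filter.Tendsto (fun z : ℂ => z.re + z.im) (nhds 0) (nhds (0 : ℝ)) :=
      (Complex.continuous_re.add Complex.continuous_im).tendsto' 0 0 (by simp)
    exact (h1.comp hcc).eventually_lt_const one_pos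
  have e5 : ∀ᶠ r : ℝ in nhdsWithin 0 (Set.Ioi 0), G (H (G 0 + (r : ℂ) * L v)) =
      G 0 + (r : ℂ) * L v := hcw.eventually hHr
  have e6 : ∀ᶠ r : ℝ in nhdsWithin 0 (Set.Ioi 0), (0 : ℝ) < r := eventually_mem_nhdsWithin
  have hLv : fderiv ℝ G 0 v = L v := by rw [← hL]; rfl
  filter_upwards [e1, e2, e3, e4, e5, e6] with r h1 h2 h3 h4 h5 h6
  refine ⟨H (G 0 + (r : ℂ) * L v), h3, ?_, ?_, h4, ?_⟩
  · simp only [Function.comp_apply, Complex.smul_re, smul_eq_mul] at h1
    exact (pos_iff_pos_of_mul_pos h1).mp (inv_pos.mpr h6)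
  · simp only [Function.comp_apply, Complex.smul_im, smul_eq_mul] at h2
    exact (pos_iff_pos_of_mul_pos h2).mp (inv_pos.mpr h6)
  · rw [h5, hLv]

end A3

section A4

private theorem A4_sec {P Q : ℂ} (hP : P ≠ 0) (hQ : 0 < (Q / P).im) {φ : ℝ} (h1 : 0 < φ)
    (h2 : φ < Complex.arg (Q / P)) :
    ∃ x y : ℝ, 0 < x ∧ 0 < y ∧ (x : ℂ) * P + y * Q = P * Complex.exp (φ * Complex.I) := by
  set q := Q / P with hq
  have hq0 : q ≠ 0 := by
    intro e
    rw [e] at hQ
    simp at hQ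
  have hρ : 0 < ‖q‖ := norm_pos_iff.2 hq0
  have hlt : Complex.arg q < Real.pi := Complex.arg_lt_pi_iff.2 (Or.inr hQ.ne')
  have hs : 0 < Real.sin (Complex.arg q) :=
    Real.sin_pos_of_pos_of_lt_pi (h1.trans h2) hlt
  have hs1 : 0 < Real.sin (Complex.arg q - φ) :=
    Real.sin_pos_of_pos_of_lt_pi (by linarith) (by linarith)
  have hs2 : 0 < Real.sin φ := Real.sin_pos_of_pos_of_lt_pi h1 (by linarith)
  refine ⟨Real.sin (Complex.arg q - φ) / Real.sin (Complex.arg q),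
    Real.sin φ / (‖q‖ * Real.sin (Complex.arg q)), by positivity, by positivity, ?_⟩
  have hQP : Q = P * q := by
    rw [hq]
    field_simp
  have hre : q.re = ‖q‖ * Real.cos (Complex.arg q) := (Complex.norm_mul_cos_arg q).symm
  have him : q.im = ‖q‖ * Real.sin (Complex.arg q) := (Complex.norm_mul_sin_arg q).symm
  have key : ((Real.sin (Complex.arg q - φ) / Real.sin (Complex.arg q) : ℝ) : ℂ) +
      ((Real.sin φ / (‖q‖ * Real.sin (Complex.arg q)) : ℝ) : ℂ) * q =
      Complex.exp (φ * Complex.I) := by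
    apply Complex.ext
    · rw [Complex.add_re, Complex.re_ofReal_mul, Complex.ofReal_re, Complex.exp_ofReal_mul_I_re,
        hre, Real.sin_sub]
      field_simp
      ring
    · rw [Complex.add_im, Complex.im_ofReal_mul, Complex.ofReal_im, Complex.exp_ofReal_mul_I_im,
        him]
      field_simp
      ring
  rw [← key, hQP]
  ring

private theorem A4_pol {T : ℕ → ℂ} (h0 : ∀ i, T i ≠ 0) (j : ℕ) :
    T j = ((‖T j‖ / ‖T 0‖ : ℝ) : ℂ) * (T 0 * Complex.exp (((∑ i ∈ Finset.range j,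
      Complex.arg (T (i + 1) / T i) : ℝ) : ℂ) * Complex.I)) := by
  induction j with
  | zero =>
    have : ‖T 0‖ ≠ 0 := norm_ne_zero_iff.2 (h0 0)
    simp [div_self this]
  | succ j ih =>
    have hj : ‖T j‖ ≠ 0 := norm_ne_zero_iff.2 (h0 j)
    have hz : ‖T 0‖ ≠ 0 := norm_ne_zero_iff.2 (h0 0)
    have e1 : T (j + 1) = T j * (T (j + 1) / T j) := by
      field_simp [h0 j]
    have e2 := Complex.norm_mul_exp_arg_mul_I (T (j + 1) / T j)
    rw [norm_div] at e2
    have e3 : T (j + 1) = (((‖T j‖ / ‖T 0‖ : ℝ) : ℂ) * (T 0 * Complex.exp (((∑ i ∈ Finset.range j,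
      Complex.arg (T (i + 1) / T i) : ℝ) : ℂ) * Complex.I))) *
        (((‖T (j + 1)‖ / ‖T j‖ : ℝ) : ℂ) *
          Complex.exp ((Complex.arg (T (j + 1) / T j) : ℂ) * Complex.I)) := by
      rw [← ih, e2]
      exact e1
    have e4 : (‖T (j + 1)‖ / ‖T 0‖ : ℝ) = (‖T j‖ / ‖T 0‖) * (‖T (j + 1)‖ / ‖T j‖) := by
      field_simp
    rw [Finset.sum_range_succ, e4, Complex.ofReal_add, add_mul, Complex.exp_add,
      Complex.ofReal_mul]
    refine e3.trans ?_
    ring

theorem angle_cycle {n : ℕ} (hn : 0 < n) {T : ℕ → ℂ} (h0 : ∀ i, T i ≠ 0)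
    (him : ∀ i < n, 0 < (T (i + 1) / T i).im) (hc : T n = T 0)
    (hdis : ∀ i < n, ∀ j < n, i ≠ j → ¬ ∃ x y x' y' : ℝ, 0 < x ∧ 0 < y ∧ 0 < x' ∧ 0 < y' ∧
      (x : ℂ) * T i + y * T (i + 1) = x' * T j + y' * T (j + 1)) :
    ∑ i ∈ Finset.range n, Complex.arg (T (i + 1) / T i) = 2 * Real.pi := by
  have hpi := Real.pi_pos
  have harg : ∀ i < n, 0 < Complex.arg (T (i + 1) / T i) ∧
      Complex.arg (T (i + 1) / T i) < Real.pi := by
    intro i hi
    have h1 := him i hi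
    refine ⟨?_, Complex.arg_lt_pi_iff.2 (Or.inr h1.ne')⟩
    have h2 : 0 ≤ Complex.arg (T (i + 1) / T i) := Complex.arg_nonneg_iff.2 h1.le
    refine lt_of_le_of_ne h2 fun e => ?_
    have := (Complex.arg_eq_zero_iff.1 e.symm).2
    exact h1.ne' this
  set σ : ℕ → ℝ := fun j => ∑ i ∈ Finset.range j, Complex.arg (T (i + 1) / T i) with hσ
  have hsucc : ∀ j, σ (j + 1) = σ j + Complex.arg (T (j + 1) / T j) := by
    intro j
    simp only [hσ]
    rw [Finset.sum_range_succ]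
  have hs0 : σ 0 = 0 := by simp [hσ]
  have hpol : ∀ j, T j = ((‖T j‖ / ‖T 0‖ : ℝ) : ℂ) * (T 0 * Complex.exp ((σ j : ℂ) *
      Complex.I)) := fun j => A4_pol h0 j
  have hz : ‖T 0‖ ≠ 0 := norm_ne_zero_iff.2 (h0 0)
  have hexp : Complex.exp ((σ n : ℂ) * Complex.I) = 1 := by
    have h1 := hpol n
    rw [hc, div_self hz, Complex.ofReal_one, one_mul] at h1
    have h2 : T 0 * 1 = T 0 * Complex.exp ((σ n : ℂ) * Complex.I) := by
      rw [mul_one]
      exact h1
    exact (mul_left_cancel₀ (h0 0) h2).symm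
  obtain ⟨k, hk⟩ := Complex.exp_eq_one_iff.1 hexp
  have hk' : σ n = k * (2 * Real.pi) := by
    have h1 : ((σ n : ℂ) * Complex.I) = (((k : ℝ) * (2 * Real.pi) : ℝ) : ℂ) * Complex.I := by
      rw [hk]
      push_cast
      ring
    have h2 := mul_right_cancel₀ Complex.I_ne_zero h1
    exact_mod_cast h2
  have hpos : 0 < σ n := by
    apply Finset.sum_pos
    · intro i hi
      exact (harg i (Finset.mem_range.1 hi)).1
    · exact ⟨0, Finset.mem_range.2 hn⟩
  have hk1 : 1 ≤ k := by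
    by_contra hcon
    have h1 : k ≤ 0 := by omega
    have h2 : (k : ℝ) ≤ 0 := by exact_mod_cast h1
    nlinarith
  have hk2 : k ≤ 1 := by
    by_contra hcon
    have h1 : 2 ≤ k := by omega
    have h2 : (2 : ℝ) ≤ k := by exact_mod_cast h1
    have hbig : 2 * Real.pi < σ n := by
      rw [hk']
      nlinarith
    classical
    have hex : ∃ j, 2 * Real.pi < σ j := ⟨n, hbig⟩
    obtain ⟨m, hm, hmin⟩ : ∃ m, 2 * Real.pi < σ m ∧ ∀ j < m, σ j ≤ 2 * Real.pi :=
      ⟨Nat.find hex, Nat.find_spec hex, fun j hj => not_lt.1 (Nat.find_min hex hj)⟩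
    have hmn : m ≤ n := by
      by_contra hcon2
      have := hmin n (by omega)
      linarith
    obtain ⟨j, rfl⟩ : ∃ j, m = j + 1 := by
      refine ⟨m - 1, ?_⟩
      have : m ≠ 0 := by
        rintro rfl
        rw [hs0] at hm
        linarith
      omega
    have hjn : j < n := by omega
    have hσj := hmin j (by omega)
    have hj0 : j ≠ 0 := by
      rintro rfl
      have h3 := hsucc 0
      have h4 := (harg 0 hn).2
      rw [hs0] at h3
      linarith
    obtain ⟨δ, hδ0, hδ1, hδ2⟩ : ∃ δ : ℝ, 0 < δ ∧ δ < Complex.arg (T (0 + 1) / T 0) ∧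
        2 * Real.pi + δ < σ (j + 1) := by
      have h5 := (harg 0 hn).1
      refine ⟨min (Complex.arg (T (0 + 1) / T 0)) (σ (j + 1) - 2 * Real.pi) / 2, ?_, ?_, ?_⟩
      · have : 0 < min (Complex.arg (T (0 + 1) / T 0)) (σ (j + 1) - 2 * Real.pi) :=
          lt_min h5 (by linarith)
        linarith
      · have := min_le_left (Complex.arg (T (0 + 1) / T 0)) (σ (j + 1) - 2 * Real.pi)
        linarith
      · have := min_le_right (Complex.arg (T (0 + 1) / T 0)) (σ (j + 1) - 2 * Real.pi)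
        linarith
    obtain ⟨x, y, hx, hy, hxy⟩ := A4_sec (h0 0) (him 0 hn) hδ0 hδ1
    have h6 := hsucc j
    obtain ⟨x', y', hx', hy', hxy'⟩ := A4_sec (h0 j) (him j hjn)
      (φ := 2 * Real.pi + δ - σ j) (by linarith) (by linarith)
    have hρ : 0 < ‖T 0‖ / ‖T j‖ := by
      have h7 : 0 < ‖T j‖ := norm_pos_iff.2 (h0 j)
      have h8 : 0 < ‖T 0‖ := norm_pos_iff.2 (h0 0)
      positivity
    apply hdis 0 hn j hjn (fun e => hj0 e.symm)
    refine ⟨x, y, ‖T 0‖ / ‖T j‖ * x', ‖T 0‖ / ‖T j‖ * y', hx, hy, by positivity, by positivity, ?_⟩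
    rw [hxy]
    have h9 : ((‖T 0‖ / ‖T j‖ * x' : ℝ) : ℂ) * T j + ((‖T 0‖ / ‖T j‖ * y' : ℝ) : ℂ) * T (j + 1) =
        ((‖T 0‖ / ‖T j‖ : ℝ) : ℂ) * ((x' : ℂ) * T j + (y' : ℂ) * T (j + 1)) := by
      push_cast
      ring
    rw [h9, hxy']
    have hTj : ‖T j‖ ≠ 0 := norm_ne_zero_iff.2 (h0 j)
    have h10 : ((‖T 0‖ / ‖T j‖ : ℝ) : ℂ) * T j = T 0 * Complex.exp ((σ j : ℂ) * Complex.I) := by
      have h11 : ((‖T 0‖ / ‖T j‖ : ℝ) : ℂ) * ((‖T j‖ / ‖T 0‖ : ℝ) : ℂ) = 1 := by
        rw [← Complex.ofReal_mul]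
        have : ‖T 0‖ / ‖T j‖ * (‖T j‖ / ‖T 0‖) = 1 := by field_simp
        rw [this, Complex.ofReal_one]
      calc ((‖T 0‖ / ‖T j‖ : ℝ) : ℂ) * T j = ((‖T 0‖ / ‖T j‖ : ℝ) : ℂ) *
            (((‖T j‖ / ‖T 0‖ : ℝ) : ℂ) * (T 0 * Complex.exp ((σ j : ℂ) * Complex.I))) := by
              rw [← hpol j]
        _ = (((‖T 0‖ / ‖T j‖ : ℝ) : ℂ) * ((‖T j‖ / ‖T 0‖ : ℝ) : ℂ)) *
            (T 0 * Complex.exp ((σ j : ℂ) * Complex.I)) := by ring
        _ = _ := by rw [h11, one_mul]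
    rw [← mul_assoc, h10, mul_assoc, ← Complex.exp_add]
    have h12 : (σ j : ℂ) * Complex.I + ((2 * Real.pi + δ - σ j : ℝ) : ℂ) * Complex.I =
        (δ : ℂ) * Complex.I + 2 * Real.pi * Complex.I := by
      push_cast
      ring
    rw [h12, Complex.exp_add, Complex.exp_two_pi_mul_I, mul_one]
  have hk3 : k = 1 := by omega
  rw [hk3] at hk'
  rw [Int.cast_one, one_mul] at hk'
  exact hk'

end A4

section A2a

open MPf10cd3 F10G
open scoped ContDiff

/-- two vectors `a`, `b` with `Im (conj a * b) > 0` are linearly independent over `ℝ` -/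
private theorem A2a_indep {a b : ℂ} (h : 0 < ((starRingEnd ℂ) a * b).im) {x y : ℝ}
    (h0 : (x : ℂ) * a + (y : ℂ) * b = 0) : x = 0 ∧ y = 0 := by
  have hre : x * a.re + y * b.re = 0 := by
    have h1 := congrArg Complex.re h0
    simpa using h1
  have him : x * a.im + y * b.im = 0 := by
    have h1 := congrArg Complex.im h0
    simpa using h1
  have hd : 0 < a.re * b.im - a.im * b.re := by
    have h1 : ((starRingEnd ℂ) a * b).im = a.re * b.im - a.im * b.re := by
      simp [Complex.mul_im]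
      ring
    rwa [h1] at h
  constructor
  · have h2 : x * (a.re * b.im - a.im * b.re) = 0 := by
      linear_combination b.im * hre - b.re * him
    rcases mul_eq_zero.mp h2 with h3 | h3
    · exact h3
    · exact absurd h3 hd.ne'
  · have h2 : y * (a.re * b.im - a.im * b.re) = 0 := by
      linear_combination a.re * him - a.im * hre
    rcases mul_eq_zero.mp h2 with h3 | h3
    · exact h3
    · exact absurd h3 hd.ne'

private theorem A2a_inj (L : ℂ →L[ℝ] ℂ)
    (h : 0 < ((starRingEnd ℂ) (L 1) * L Complex.I).im) (v : ℂ) (hv : L v = 0) : v = 0 := by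
  have h1 : v = v.re • (1 : ℂ) + v.im • Complex.I := by
    apply Complex.ext <;> simp
  have h2 : (v.re : ℂ) * L 1 + (v.im : ℂ) * L Complex.I = 0 := by
    have h3 : L v = v.re • L 1 + v.im • L Complex.I := by
      conv_lhs => rw [h1]
      rw [map_add, map_smul, map_smul]
    rw [h3] at hv
    simpa only [Complex.real_smul] using hv
  obtain ⟨h4, h5⟩ := A2a_indep h h2
  exact Complex.ext h4 h5

variable {M : Type} [MetricSpace M] {κ : ℝ} {A : Set (PC M)}
  {V : Type} [Fintype V] [DecidableEq V] {D : Finset (V × V × V)} {g : ℕ} {μ : ℝ}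
  {τ : Triang D M μ} {ch : V × V × V → PC M} {s : V × V × V → ℂ → ℂ}

/-- Row A2a. The parametrisation of the dart `t` near its first vertex in the chart `c0`:
`G = F ∘ s t`, `F` from `trans`, `l = F'` -/
theorem dart_tangent (hA : IsAtlas κ A) (hT : STri A τ ch s) {c0 : PC M} (hc0 : c0 ∈ A) {w0 : ℂ}
    (hw0 : w0 ∈ c0.U) {t : V × V × V} (ht : t ∈ D) (h : (ch t).φ (s t 0) = c0.φ w0) :
    ∃ (G : ℂ → ℂ) (l : ℂ), l ≠ 0 ∧ G 0 = w0 ∧ ContDiffAt ℝ 1 G 0 ∧
      (∀ v, fderiv ℝ G 0 v = l * fderiv ℝ (s t) 0 v) ∧ (∀ v, fderiv ℝ G 0 v = 0 → v = 0) ∧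
      ∀ᶠ z in nhds (0 : ℂ), z ∈ stdT → G z ∈ c0.U ∧ c0.φ (G z) = (ch t).φ (s t z) := by
  have h0T : (0 : ℂ) ∈ stdT := by
    simp [stdT]
  obtain ⟨F, hFz, hFa, hF⟩ := trans hA (hT.hch t ht) hc0 (hT.mem t ht 0 h0T) hw0 h
  have hs : ContDiff ℝ 5 (s t) := hT.smooth t ht
  have hF0 := hF.self_of_nhds
  have hd : HasDerivAt F (deriv F (s t 0)) (s t 0) := hF0.2.2.2.1.hasDerivAt
  have hl : deriv F (s t 0) ≠ 0 := hF0.2.2.2.2.1
  have hsd : HasFDerivAt (s t) (fderiv ℝ (s t) 0) 0 :=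
    ((hs.contDiffAt).differentiableAt (by simp)).hasFDerivAt
  have hcomp : HasFDerivAt (fun z => F (s t z))
      (((ContinuousLinearMap.toSpanSingleton ℂ (deriv F (s t 0))).restrictScalars ℝ).comp
        (fderiv ℝ (s t) 0)) 0 :=
    (hd.hasFDerivAt.restrictScalars ℝ).comp (0 : ℂ) hsd
  have hval : ∀ v, fderiv ℝ (fun z => F (s t z)) 0 v =
      deriv F (s t 0) * fderiv ℝ (s t) 0 v := by
    intro v
    rw [hcomp.fderiv]
    simp [mul_comm]
  refine ⟨fun z => F (s t z), deriv F (s t 0), hl, hFz, ?_, hval, ?_, ?_⟩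
  · have h1 : ContDiffAt ℝ 1 F (s t 0) := (hFa.contDiffAt (n := 1)).restrict_scalars ℝ
    exact h1.comp (0 : ℂ) (hs.contDiffAt.of_le (by simp))
  · intro v hv
    rw [hval v] at hv
    have h1 : fderiv ℝ (s t) 0 v = 0 := (mul_eq_zero.mp hv).resolve_left hl
    exact A2a_inj (fderiv ℝ (s t) 0) (hT.orient t ht 0 h0T) v h1
  · have hcont : Filter.Tendsto (s t) (nhds 0) (nhds (s t 0)) := hs.continuous.continuousAt
    filter_upwards [hcont.eventually hF] with z hz _
    exact ⟨hz.2.1, hz.2.2.1⟩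

end A2a

section A2b

open MPf10cd3 F10G
open scoped ContDiff

variable {M : Type} [MetricSpace M] {κ : ℝ} {A : Set (PC M)}
  {V : Type} [Fintype V] [DecidableEq V] {D : Finset (V × V × V)} {g : ℕ} {μ : ℝ}
  {τ : Triang D M μ} {ch : V × V × V → PC M} {s : V × V × V → ℂ → ℂ}

private theorem A2b_tendsto (w : ℂ) :
    Filter.Tendsto (fun y : ℝ => y • w) (nhdsWithin 0 (Set.Ici 0)) (nhds 0) := by
  have h1 : Continuous (fun y : ℝ => y • w) := by fun_prop
  have h2 := h1.tendsto 0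
  simp only [zero_smul] at h2
  exact h2.mono_left nhdsWithin_le_nhds

/-- Row A2b. the common edge of consecutive darts `(a, b, c)`, `(a, c, d)`:
`G' y = G (i y)` for small `y ≥ 0` (both points have the barycentric coordinates `1 - y` at `a`,
`y` at `c`), one sided derivatives -/
theorem dart_edge (hA : IsAtlas κ A) (hD : IsCS D g) (hT : STri A τ ch s) {c0 : PC M}
    (hc0 : c0 ∈ A) {t t' : V × V × V} (ht : t ∈ D) (ht' : t' ∈ D) (h1 : t'.1 = t.1)
    (h2 : t'.2.1 = t.2.2) {G G' : ℂ → ℂ} (hG : DifferentiableAt ℝ G 0)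
    (hG' : DifferentiableAt ℝ G' 0)
    (h : ∀ᶠ z in nhds (0 : ℂ), z ∈ stdT → G z ∈ c0.U ∧ c0.φ (G z) = (ch t).φ (s t z))
    (h' : ∀ᶠ z in nhds (0 : ℂ), z ∈ stdT → G' z ∈ c0.U ∧ c0.φ (G' z) = (ch t').φ (s t' z)) :
    fderiv ℝ G' 0 1 = fderiv ℝ G 0 Complex.I := by
  have key : ∀ᶠ y : ℝ in nhdsWithin 0 (Set.Ici 0),
      G' (y • (1 : ℂ)) = id (G (0 + y • Complex.I)) := by
    have h5 : ∀ᶠ y : ℝ in nhdsWithin 0 (Set.Ici 0), y < 1 :=
      nhdsWithin_le_nhds (Iio_mem_nhds one_pos)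
    filter_upwards [(A2b_tendsto 1).eventually h', (A2b_tendsto Complex.I).eventually h, h5,
      self_mem_nhdsWithin] with y e1 e2 y1 y0
    simp only [Set.mem_Ici] at y0
    have m1 : y • (1 : ℂ) ∈ stdT := by
      simp only [stdT, Set.mem_setOf_eq, Complex.real_smul, mul_one, Complex.ofReal_re,
        Complex.ofReal_im, add_zero]
      exact ⟨y0, le_rfl, y1.le⟩
    have m2 : y • Complex.I ∈ stdT := by
      simp only [stdT, Set.mem_setOf_eq, Complex.real_smul, Complex.re_ofReal_mul,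
        Complex.im_ofReal_mul, Complex.I_re, Complex.I_im, mul_zero, mul_one, zero_add]
      exact ⟨le_rfl, y0, y1.le⟩
    obtain ⟨u1, p1⟩ := e1 m1
    obtain ⟨u2, p2⟩ := e2 m2
    rw [zero_add, id]
    refine (hA.pc c0 hc0).inj u1 u2 ?_
    rw [p1, p2]
    refine hT.phi_eq ht' ht m1 m2 fun v => ?_
    rw [h1, h2]
    simp
  have h6 := B4_line (s1 := G) (s2 := G') (F := id) (a := 0) (v := Complex.I) (h := 1) (l := 1)
    hG hG' (hasDerivAt_id _) key
  rw [h6, one_mul]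

end A2b

section A5

open MPf10cd3 F10G
open scoped ContDiff

variable {M : Type} [MetricSpace M] {κ : ℝ} {A : Set (PC M)}
  {V : Type} [Fintype V] [DecidableEq V] {D : Finset (V × V × V)} {g : ℕ} {μ : ℝ}
  {τ : Triang D M μ} {ch : V × V × V → PC M} {s : V × V × V → ℂ → ℂ}

private theorem A5_zero_mem : (0 : ℂ) ∈ stdT := by
  refine ⟨?_, ?_, ?_⟩ <;> simp

/-- the first vertex of the dart `d` -/
private theorem A5_vertex (hT : STri A τ ch s) {d d' : V × V × V} (hd : d ∈ D) (hd' : d' ∈ D)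
    (h : d.1 = d'.1) : (ch d).φ (s d 0) = (ch d').φ (s d' 0) := by
  refine τ.inj (funext fun v => ?_)
  rw [hT.lam d hd 0 A5_zero_mem v, hT.lam d' hd' 0 A5_zero_mem v, h]
  simp

private theorem A5_lin (f : ℂ →L[ℝ] ℂ) (x y : ℝ) :
    f ((x : ℂ) + (y : ℂ) * Complex.I) = (x : ℂ) * f 1 + (y : ℂ) * f Complex.I := by
  have h1 : ((x : ℂ) + (y : ℂ) * Complex.I) = x • (1 : ℂ) + y • Complex.I := by
    simp [Complex.real_smul]
  rw [h1, map_add, map_smul, map_smul, Complex.real_smul, Complex.real_smul]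

/-- the two descriptions of a point of the interior of a triangle -/
private theorem A5_bary (hD : IsCS D g) {a b c b' c' : V} (h : (a, b, c) ∈ D) (h' : (a, b', c') ∈ D)
    {p q r p' q' r' : ℝ} (hq : 0 < q) (hr : 0 < r)
    (he : ∀ v, (if v = a then p else 0) + (if v = b then q else 0) + (if v = c then r else 0) =
      (if v = a then p' else 0) + (if v = b' then q' else 0) + (if v = c' then r' else 0)) :
    b = b' ∧ c = c' := by
  have hab : a ≠ b := hD.ne a b c h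
  have hbc : b ≠ c := hD.ne b c a (hD.rot a b c h)
  have hca : c ≠ a := hD.ne c a b (hD.rot b c a (hD.rot a b c h))
  have hab' : a ≠ b' := hD.ne a b' c' h'
  have hbc' : b' ≠ c' := hD.ne b' c' a (hD.rot a b' c' h')
  have hca' : c' ≠ a := hD.ne c' a b' (hD.rot b' c' a (hD.rot a b' c' h'))
  have h1 : b = b' ∨ b = c' := by
    by_contra hcon
    push Not at hcon
    have := he b
    rw [if_neg hab.symm, if_pos rfl, if_neg hbc, if_neg hab.symm, if_neg hcon.1,
      if_neg hcon.2] at this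
    linarith
  rcases h1 with h1 | h1
  · subst h1
    exact ⟨rfl, hD.uniq a b c c' h h'⟩
  · exfalso
    have h2 : c = b' := by
      by_contra hcon
      have := he c
      rw [if_neg hca, if_neg hbc.symm, if_pos rfl, if_neg hca, if_neg hcon,
        if_neg (by rw [← h1]; exact hbc.symm)] at this
      linarith
    subst h1 h2
    -- now `(a, b, c)` and `(a, c, b)` are in `D`
    have h3 := hD.rot _ _ _ (hD.rot _ _ _ h')
    exact hD.simp _ _ _ h h3

/-- Row A5. `c0 = ch (t 0)`, `T i` = the derivative of the parametrisation of `t i` in the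
direction `1`, `dart_edge`: `T (i+1)` = the derivative in the direction `i`.  If the open sectors
of `t i` and `t j` have a common direction, `sector` gives a point in both open triangles, so
`t i = t j` (barycentric coordinates; `(a,b,c)` and `(a,c,b)` are not both in `D` by `simp`). -/
theorem angle_sum (hA : IsAtlas κ A) (hD : IsCS D g) (hT : STri A τ ch s) (a : V) :
    ∑ t ∈ D with t.1 = a,
      Complex.arg (fderiv ℝ (s t) 0 Complex.I / fderiv ℝ (s t) 0 1) = 2 * Real.pi := by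
  obtain ⟨n, t, hn, ht, hnext, hcyc, hinj, hsum⟩ := star_cycle hD a
  rw [hsum (fun t => Complex.arg (fderiv ℝ (s t) 0 Complex.I / fderiv ℝ (s t) 0 1))]
  set c0 := ch (t 0) with hc0d
  have hc0 : c0 ∈ A := hT.hch _ (ht 0).1
  set w0 := s (t 0) 0 with hw0d
  have hw0 : w0 ∈ c0.U := hT.mem _ (ht 0).1 0 A5_zero_mem
  have key : ∀ d : V × V × V, ∃ (G : ℂ → ℂ) (l : ℂ), d ∈ D → d.1 = a → l ≠ 0 ∧ G 0 = w0 ∧
      ContDiffAt ℝ 1 G 0 ∧ (∀ v, fderiv ℝ G 0 v = l * fderiv ℝ (s d) 0 v) ∧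
      (∀ v, fderiv ℝ G 0 v = 0 → v = 0) ∧
      ∀ᶠ z in nhds (0 : ℂ), z ∈ stdT → G z ∈ c0.U ∧ c0.φ (G z) = (ch d).φ (s d z) := by
    intro d
    by_cases hd : d ∈ D ∧ d.1 = a
    · obtain ⟨G, l, h⟩ := dart_tangent hA hT hc0 hw0 hd.1
        (A5_vertex hT hd.1 (ht 0).1 (by rw [hd.2, (ht 0).2]))
      exact ⟨G, l, fun _ _ => h⟩
    · exact ⟨0, 0, fun h1 h2 => absurd ⟨h1, h2⟩ hd⟩
  choose G l hGl using key
  have hG : ∀ i, l (t i) ≠ 0 ∧ G (t i) 0 = w0 ∧
      ContDiffAt ℝ 1 (G (t i)) 0 ∧ (∀ v, fderiv ℝ (G (t i)) 0 v = l (t i) * fderiv ℝ (s (t i)) 0 v) ∧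
      (∀ v, fderiv ℝ (G (t i)) 0 v = 0 → v = 0) ∧
      ∀ᶠ z in nhds (0 : ℂ), z ∈ stdT → G (t i) z ∈ c0.U ∧ c0.φ (G (t i) z) = (ch (t i)).φ (s (t i) z) :=
    fun i => hGl (t i) (ht i).1 (ht i).2
  have hedge : ∀ i, fderiv ℝ (G (t (i + 1))) 0 1 = fderiv ℝ (G (t i)) 0 Complex.I := fun i =>
    dart_edge hA hD hT hc0 (ht i).1 (ht (i + 1)).1 (by rw [(ht i).2, (ht (i + 1)).2]) (hnext i)
      ((hG i).2.2.1.differentiableAt one_ne_zero) ((hG (i + 1)).2.2.1.differentiableAt one_ne_zero)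
      (hG i).2.2.2.2.2 (hG (i + 1)).2.2.2.2.2
  have hquot : ∀ i, fderiv ℝ (G (t (i + 1))) 0 1 / fderiv ℝ (G (t i)) 0 1 =
      fderiv ℝ (s (t i)) 0 Complex.I / fderiv ℝ (s (t i)) 0 1 := by
    intro i
    rw [hedge i, (hG i).2.2.2.1, (hG i).2.2.2.1, mul_div_mul_left _ _ (hG i).1]
  have hne : ∀ i, fderiv ℝ (G (t i)) 0 1 ≠ 0 := fun i h =>
    one_ne_zero ((hG i).2.2.2.2.1 1 h)
  have hmain := angle_cycle hn (T := fun i => fderiv ℝ (G (t i)) 0 1) hne ?_ ?_ ?_
  · rw [← hmain]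
    refine Finset.sum_congr rfl fun i _ => ?_
    rw [hquot i]
  · intro i _
    rw [hquot i]
    have ho := hT.orient (t i) (ht i).1 0 A5_zero_mem
    set p := fderiv ℝ (s (t i)) 0 1
    set q := fderiv ℝ (s (t i)) 0 Complex.I
    have hp : p ≠ 0 := by
      intro hp
      rw [hp] at ho
      simp at ho
    have hns : 0 < Complex.normSq p := Complex.normSq_pos.2 hp
    rw [Complex.div_im]
    simp only [Complex.mul_im, Complex.conj_re, Complex.conj_im] at ho
    have : q.im * p.re / Complex.normSq p - q.re * p.im / Complex.normSq p =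
        (p.re * q.im + -p.im * q.re) / Complex.normSq p := by ring
    rw [this]
    exact div_pos ho hns
  · rw [hcyc]
  · rintro i hi j hj hij ⟨x, y, x', y', hx, hy, hx', hy', he⟩
    rw [hedge i, hedge j, ← A5_lin, ← A5_lin] at he
    have s1 := sector (hG i).2.2.1 (hG i).2.2.2.2.1 (v := (x : ℂ) + (y : ℂ) * Complex.I)
      (by simpa using hx) (by simpa using hy) (hG i).2.2.2.2.2
    have s2 := sector (hG j).2.2.1 (hG j).2.2.2.2.1 (v := (x' : ℂ) + (y' : ℂ) * Complex.I)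
      (by simpa using hx') (by simpa using hy') (hG j).2.2.2.2.2
    obtain ⟨r, ⟨z, hz, z1, z2, z3, z4⟩, z', hz', z1', z2', z3', z4'⟩ := (s1.and s2).exists
    have hzT : z ∈ stdT := ⟨z1.le, z2.le, z3.le⟩
    have hzT' : z' ∈ stdT := ⟨z1'.le, z2'.le, z3'.le⟩
    have e1 := (hz hzT).2
    have e2 := (hz' hzT').2
    rw [z4, (hG i).2.1, he] at e1
    rw [z4', (hG j).2.1] at e2
    have e3 : (ch (t i)).φ (s (t i) z) = (ch (t j)).φ (s (t j) z') := by rw [← e1, e2]
    have e4 : ∀ v, (if v = a then 1 - z.re - z.im else 0) + (if v = (t i).2.1 then z.re else 0) +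
        (if v = (t i).2.2 then z.im else 0) = (if v = a then 1 - z'.re - z'.im else 0) +
        (if v = (t j).2.1 then z'.re else 0) + (if v = (t j).2.2 then z'.im else 0) := by
      intro v
      have f1 := hT.lam (t i) (ht i).1 z hzT v
      have f2 := hT.lam (t j) (ht j).1 z' hzT' v
      rw [(ht i).2] at f1
      rw [(ht j).2] at f2
      rw [← f1, ← f2, e3]
    have g1 : (a, (t i).2.1, (t i).2.2) ∈ D := by
      have := (ht i).1
      rw [← (ht i).2]; exact this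
    have g2 : (a, (t j).2.1, (t j).2.2) ∈ D := by
      have := (ht j).1
      rw [← (ht j).2]; exact this
    obtain ⟨b1, b2⟩ := A5_bary hD g1 g2 z1 z2 e4
    refine hij (hinj i hi j hj ?_)
    exact Prod.ext (by rw [(ht i).2, (ht j).2]) (Prod.ext b1 b2)

end A5

end F10S
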