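import Pool.Agent.Lib.MP_f10cd3_gt.S.Angle

/-! Row B5: Gauss-Bonnet for a smooth triangulation. -/

set_option autoImplicit false

namespace F10S

open MPf10cd3 F10G MeasureTheory
open scoped ContDiff

variable {M : Type} [MetricSpace M] {κ : ℝ} {A : Set (PC M)}
  {V : Type} [Fintype V] [DecidableEq V] {D : Finset (V × V × V)} {g : ℕ} {μ : ℝ}
  {τ : Triang D M μ} {ch : V × V × V → PC M} {s : V × V × V → ℂ → ℂ}

theorem B5_edge_sum (hA : IsAtlas κ A) (hD : IsCS D g) (hT : STri A τ ch s) :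
    ∑ t ∈ D, edgeK ch s t = 0 := by
  classical
  have hopp : ∀ t : V × V × V, ∃ d, t ∈ D → (t.2.1, t.1, d) ∈ D := by
    intro t
    by_cases ht : t ∈ D
    · obtain ⟨d, hd⟩ := hD.opp t.1 t.2.1 t.2.2 ht
      exact ⟨d, fun _ => hd⟩
    · exact ⟨t.1, fun h => absurd h ht⟩
  choose d hd using hopp
  refine Finset.sum_involution (fun t _ => (t.2.1, t.1, d t)) ?_ ?_ ?_ ?_
  · intro t ht
    have h := edge_opp hA hD hT (a := t.1) (b := t.2.1) (c := t.2.2) ht (hd t ht)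
    have e : edgeK ch s (t.1, t.2.1, t.2.2) = edgeK ch s t := rfl
    rw [e] at h
    linarith
  · intro t ht _ h
    exact hD.ne t.1 t.2.1 t.2.2 ht (congrArg Prod.fst h).symm
  · intro t ht
    exact hd t ht
  · intro t ht
    have h1 := hd _ (hd t ht)
    have h2 : d (t.2.1, t.1, d t) = t.2.2 := hD.uniq t.1 t.2.1 _ _ h1 ht
    show (t.1, t.2.1, d (t.2.1, t.1, d t)) = t
    rw [h2]

theorem B5_rot (hD : IsCS D g) (f : V × V × V → ℝ) :
    ∑ t ∈ D, f (t.2.1, t.2.2, t.1) = ∑ t ∈ D, f t := by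
  refine Finset.sum_nbij' (fun t => (t.2.1, t.2.2, t.1)) (fun t => (t.2.2, t.1, t.2.1))
    ?_ ?_ ?_ ?_ ?_
  · intro t ht
    exact hD.rot _ _ _ ht
  · intro t ht
    exact hD.rot _ _ _ (hD.rot _ _ _ ht)
  · intro t _
    rfl
  · intro t _
    rfl
  · intro t _
    rfl

theorem B5_rot2 (hD : IsCS D g) (f : V × V × V → ℝ) :
    ∑ t ∈ D, f (t.2.2, t.1, t.2.1) = ∑ t ∈ D, f t := by
  rw [← B5_rot hD (fun t => f t), ← B5_rot hD (fun t => f (t.2.1, t.2.2, t.1))]

/-- Row B5. Sum of `local_gb` over `D`. -/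
theorem gauss_bonnet (hA : IsAtlas κ A) (hD : IsCS D g) (hT : STri A τ ch s) :
    ∑ t ∈ D, ∫ z in stdT, lap (ch t).u (s t z) *
        ((starRingEnd ℂ) (fderiv ℝ (s t) z 1) * fderiv ℝ (s t) z Complex.I).im =
      Real.pi * D.card - 6 * Real.pi * Fintype.card V := by
  set θ : V × V × V → ℝ := fun t =>
    Complex.arg (fderiv ℝ (s t) 0 Complex.I / fderiv ℝ (s t) 0 1) with hθ
  have key : ∀ t ∈ D, ∫ z in stdT, lap (ch t).u (s t z) *
        ((starRingEnd ℂ) (fderiv ℝ (s t) z 1) * fderiv ℝ (s t) z Complex.I).im =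
      edgeK ch s t + edgeK ch s (t.2.1, t.2.2, t.1) + edgeK ch s (t.2.2, t.1, t.2.1) -
        (θ t + θ (t.2.1, t.2.2, t.1) + θ (t.2.2, t.1, t.2.1) - Real.pi) := by
    intro t ht
    have hpc := hA.pc _ (hT.hch t ht)
    have hloc := local_gb (u := (ch t).u) (hT.smooth t ht)
      (fun z hz => hpc.smooth.contDiffAt (hpc.isOpen.mem_nhds (hT.mem t ht z hz)))
      (fun z hz => hT.orient t ht z hz)
    have e2 := edge2 hA hD hT (a := t.1) (b := t.2.1) (c := t.2.2) ht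
    have e3 := edge3 hA hD hT (a := t.1) (b := t.2.1) (c := t.2.2) ht
    have c1 := corner1 hA hD hT (a := t.1) (b := t.2.1) (c := t.2.2) ht
    have c2 := corner2 hA hD hT (a := t.1) (b := t.2.1) (c := t.2.2) ht
    have et : (t.1, t.2.1, t.2.2) = t := rfl
    rw [et] at e2 e3 c1 c2
    rw [hloc, e2, e3, c1, c2]
    simp only [hθ]
    unfold edgeK
    ring
  have hang : ∑ t ∈ D, θ t = 2 * Real.pi * Fintype.card V := by
    rw [← Finset.sum_fiberwise D (fun t => t.1) θ]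
    simp only [hθ, angle_sum hA hD hT]
    rw [Finset.sum_const, Finset.card_univ, nsmul_eq_mul]
    ring
  rw [Finset.sum_congr rfl key, Finset.sum_sub_distrib, Finset.sum_add_distrib,
    Finset.sum_add_distrib, Finset.sum_sub_distrib, Finset.sum_add_distrib,
    Finset.sum_add_distrib, B5_rot hD (edgeK ch s), B5_rot2 hD (edgeK ch s), B5_rot hD θ,
    B5_rot2 hD θ, B5_edge_sum hA hD hT, hang, Finset.sum_const, nsmul_eq_mul]
  ring

end F10S
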