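import Pool.Agent.Lib.MP_f10cd3_gt.S.Haus
import Pool.Agent.Lib.MP_f10cd3_gt.S.GB

/-! Rows B6, B7: area. -/

set_option autoImplicit false

namespace F10S

open MPf10cd3 F10G MeasureTheory
open scoped ContDiff

variable {M : Type} [MetricSpace M] [MeasurableSpace M] [BorelSpace M] {κ : ℝ} {A : Set (PC M)}

/-- local form of `area_le` -/
theorem B6a_loc {c : PC M} (hc : IsPC κ c) {z0 : ℂ} (hz0 : z0 ∈ c.U) :
    ∃ η : ℝ, 0 < η ∧ ∀ P : Set ℂ, MeasurableSet P → P ⊆ c.U → P ⊆ Metric.ball z0 η →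
      ∫⁻ z in P, ENNReal.ofReal (Real.exp (2 * c.u z)) ≤
        2 * Measure.hausdorffMeasure 2 (c.φ '' P) := by
  have he : 0 < Real.exp (c.u z0) := Real.exp_pos _
  obtain ⟨η1, hη1, h1⟩ := hc.metric z0 hz0 (Real.exp (c.u z0) / 10) (by positivity)
  have hcu : ContinuousAt c.u z0 :=
    hc.smooth.continuousOn.continuousAt (hc.isOpen.mem_nhds hz0)
  have hce : ContinuousAt (fun z => Real.exp (2 * c.u z)) z0 :=
    Real.continuous_exp.continuousAt.comp (continuousAt_const.mul hcu)
  have hlt : Real.exp (2 * c.u z0) < 11 / 10 * Real.exp (2 * c.u z0) := by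
    have := Real.exp_pos (2 * c.u z0)
    linarith
  have hev : ∀ᶠ z in nhds z0, Real.exp (2 * c.u z) < 11 / 10 * Real.exp (2 * c.u z0) :=
    hce.eventually (eventually_lt_nhds hlt)
  obtain ⟨η2, hη2, h2⟩ := Metric.eventually_nhds_iff_ball.mp hev
  refine ⟨min η1 η2, lt_min hη1 hη2, fun P hPm hPU hPb => ?_⟩
  set k : ℝ := 10 / 9 * (Real.exp (c.u z0))⁻¹ with hk
  have hk0 : 0 ≤ k := by positivity
  have step1 : ∫⁻ z in P, ENNReal.ofReal (Real.exp (2 * c.u z)) ≤
      ENNReal.ofReal (11 / 10 * Real.exp (2 * c.u z0)) * volume P := by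
    calc ∫⁻ z in P, ENNReal.ofReal (Real.exp (2 * c.u z)) ≤
          ∫⁻ _ in P, ENNReal.ofReal (11 / 10 * Real.exp (2 * c.u z0)) := by
          refine setLIntegral_mono' hPm fun z hz => ENNReal.ofReal_le_ofReal ?_
          exact (h2 z (Metric.ball_subset_ball (min_le_right _ _) (hPb hz))).le
      _ = _ := by rw [setLIntegral_const]
  have hleft : Set.LeftInvOn (Function.invFunOn c.φ c.U) c.φ c.U := hc.inj.leftInvOn_invFunOn
  have step2 : LipschitzOnWith (Real.toNNReal k) (Function.invFunOn c.φ c.U) (c.φ '' P) := by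
    refine LipschitzOnWith.of_dist_le_mul ?_
    rintro _ ⟨z, hz, rfl⟩ _ ⟨w, hw, rfl⟩
    rw [hleft (hPU hz), hleft (hPU hw), Real.coe_toNNReal k hk0, dist_eq_norm]
    have hzb : ‖z - z0‖ < η1 := by
      rw [← dist_eq_norm]
      exact lt_of_lt_of_le (hPb hz) (min_le_left _ _)
    have hwb : ‖w - z0‖ < η1 := by
      rw [← dist_eq_norm]
      exact lt_of_lt_of_le (hPb hw) (min_le_left _ _)
    have h3 := (abs_le.mp (h1 z (hPU hz) w (hPU hw) hzb hwb)).1
    have h4 : Real.exp (c.u z0) * ‖z - w‖ ≤ 10 / 9 * dist (c.φ z) (c.φ w) := by linarith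
    calc ‖z - w‖ = (Real.exp (c.u z0))⁻¹ * (Real.exp (c.u z0) * ‖z - w‖) := by
          rw [← mul_assoc, inv_mul_cancel₀ he.ne', one_mul]
      _ ≤ (Real.exp (c.u z0))⁻¹ * (10 / 9 * dist (c.φ z) (c.φ w)) :=
          mul_le_mul_of_nonneg_left h4 (by positivity)
      _ = k * dist (c.φ z) (c.φ w) := by rw [hk]; ring
  have himg : Function.invFunOn c.φ c.U '' (c.φ '' P) = P := by
    rw [Set.image_image]
    have : Set.EqOn (fun z => Function.invFunOn c.φ c.U (c.φ z)) id P :=
      fun z hz => hleft (hPU hz)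
    rw [this.image_eq, Set.image_id]
  have step3 := step2.hausdorffMeasure_image_le (d := 2) (by norm_num)
  rw [himg] at step3
  have hK : ((Real.toNNReal k : NNReal) : ENNReal) ^ (2 : ℝ) = ENNReal.ofReal (k ^ 2) := by
    rw [ENNReal.rpow_two, ENNReal.ofReal_pow hk0]
    rfl
  rw [hK] at step3
  calc ∫⁻ z in P, ENNReal.ofReal (Real.exp (2 * c.u z)) ≤
        ENNReal.ofReal (11 / 10 * Real.exp (2 * c.u z0)) * volume P := step1
    _ ≤ ENNReal.ofReal (11 / 10 * Real.exp (2 * c.u z0)) *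
        (ENNReal.ofReal (k ^ 2) * Measure.hausdorffMeasure 2 (c.φ '' P)) :=
        mul_le_mul_right ((vol_le_haus P).trans step3) _
    _ = ENNReal.ofReal (11 / 10 * Real.exp (2 * c.u z0) * k ^ 2) *
        Measure.hausdorffMeasure 2 (c.φ '' P) := by
        rw [← mul_assoc, ← ENNReal.ofReal_mul (by positivity)]
    _ ≤ 2 * Measure.hausdorffMeasure 2 (c.φ '' P) := by
        refine mul_le_mul_left ?_ _
        have h5 : 11 / 10 * Real.exp (2 * c.u z0) * k ^ 2 ≤ 2 := by
          have h6 : Real.exp (2 * c.u z0) = Real.exp (c.u z0) ^ 2 := by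
            rw [← Real.exp_nat_mul]
            norm_num
          rw [h6, hk]
          have h7 : 11 / 10 * Real.exp (c.u z0) ^ 2 * (10 / 9 * (Real.exp (c.u z0))⁻¹) ^ 2 =
              110 / 81 := by
            field_simp
            norm_num
          rw [h7]
          norm_num
        calc ENNReal.ofReal (11 / 10 * Real.exp (2 * c.u z0) * k ^ 2) ≤ ENNReal.ofReal 2 :=
              ENNReal.ofReal_le_ofReal h5
          _ = 2 := by simp

/-- Row B6a. Every point of `U` has a neighbourhood on which the inverse of `φ` is Lipschitz with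
constant `(1 + ε) e^{-u(z0)}` and `e^{2u} ≤ (1 + ε) e^{2 u(z0)}`; `vol_le_haus`; countable
decomposition of `W` into such pieces. -/
theorem area_le {c : PC M} (hc : IsPC κ c) {W : Set ℂ} (hW : W ⊆ c.U) (hm : MeasurableSet W) :
    ∫⁻ z in W, ENNReal.ofReal (Real.exp (2 * c.u z)) ≤
      2 * Measure.hausdorffMeasure 2 (c.φ '' W) := by
  classical
  rcases W.eq_empty_or_nonempty with hemp | hne
  · subst hemp
    simp
  have hloc : ∀ z0 : ℂ, ∃ η : ℝ, 0 < η ∧ (z0 ∈ c.U → ∀ P : Set ℂ, MeasurableSet P → P ⊆ c.U →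
      P ⊆ Metric.ball z0 η → ∫⁻ z in P, ENNReal.ofReal (Real.exp (2 * c.u z)) ≤
        2 * Measure.hausdorffMeasure 2 (c.φ '' P)) := by
    intro z0
    by_cases h : z0 ∈ c.U
    · obtain ⟨η, h1, h2⟩ := B6a_loc hc h
      exact ⟨η, h1, fun _ => h2⟩
    · exact ⟨1, one_pos, fun h' => absurd h' h⟩
  choose η hη hηP using hloc
  obtain ⟨t, htW, htc, hcov⟩ := TopologicalSpace.countable_cover_nhdsWithin (s := W)
    (f := fun z => Metric.ball z (η z))
    (fun z _ => mem_nhdsWithin_of_mem_nhds (Metric.ball_mem_nhds z (hη z)))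
  have htne : t.Nonempty := by
    obtain ⟨z, hz⟩ := hne
    obtain ⟨x, hx, _⟩ := Set.mem_iUnion₂.mp (hcov hz)
    exact ⟨x, hx⟩
  obtain ⟨f, hf⟩ := htc.exists_eq_range htne
  have hfW : ∀ n, f n ∈ W := fun n => htW (by rw [hf]; exact Set.mem_range_self n)
  set B : ℕ → Set ℂ := fun n => Metric.ball (f n) (η (f n)) with hB
  have hBm : ∀ n, MeasurableSet (B n) := fun n => measurableSet_ball
  set P : ℕ → Set ℂ := fun n => W ∩ disjointed B n with hP
  have hPm : ∀ n, MeasurableSet (P n) := fun n => hm.inter (MeasurableSet.disjointed hBm n)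
  have hPW : ∀ n, P n ⊆ W := fun n => Set.inter_subset_left
  have hPd : Pairwise (Function.onFun Disjoint P) := by
    intro i j hij
    exact (disjoint_disjointed B hij).mono Set.inter_subset_right Set.inter_subset_right
  have hPU : ⋃ n, P n = W := by
    rw [hP, ← Set.inter_iUnion, iUnion_disjointed]
    refine Set.inter_eq_left.mpr fun z hz => ?_
    obtain ⟨x, hx, hzx⟩ := Set.mem_iUnion₂.mp (hcov hz)
    rw [hf] at hx
    obtain ⟨n, rfl⟩ := hx
    exact Set.mem_iUnion.mpr ⟨n, hzx⟩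
  have hpiece : ∀ n, ∫⁻ z in P n, ENNReal.ofReal (Real.exp (2 * c.u z)) ≤
      2 * Measure.hausdorffMeasure 2 (c.φ '' P n) := by
    intro n
    refine hηP (f n) (hW (hfW n)) (P n) (hPm n) ((hPW n).trans hW) ?_
    exact Set.inter_subset_right.trans (disjointed_subset B n)
  have himgm : ∀ n, MeasurableSet (c.φ '' P n) := fun n =>
    (hPm n).image_of_continuousOn_injOn (hc.cont.mono ((hPW n).trans hW))
      (hc.inj.mono ((hPW n).trans hW))
  have himgd : Pairwise (Function.onFun Disjoint fun n => c.φ '' P n) := by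
    intro i j hij
    rw [Function.onFun, Set.disjoint_left]
    rintro _ ⟨z, hz, rfl⟩ ⟨w, hw, hwz⟩
    have : w = z := hc.inj (hW (hPW j hw)) (hW (hPW i hz)) hwz
    subst this
    exact Set.disjoint_left.mp (hPd hij) hz hw
  calc ∫⁻ z in W, ENNReal.ofReal (Real.exp (2 * c.u z)) =
        ∫⁻ z in ⋃ n, P n, ENNReal.ofReal (Real.exp (2 * c.u z)) := by rw [hPU]
    _ = ∑' n, ∫⁻ z in P n, ENNReal.ofReal (Real.exp (2 * c.u z)) :=
        lintegral_iUnion hPm hPd _
    _ ≤ ∑' n, 2 * Measure.hausdorffMeasure 2 (c.φ '' P n) := ENNReal.tsum_le_tsum hpiece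
    _ = 2 * Measure.hausdorffMeasure 2 (⋃ n, c.φ '' P n) := by
        rw [ENNReal.tsum_mul_left, measure_iUnion himgd himgm]
    _ = 2 * Measure.hausdorffMeasure 2 (c.φ '' W) := by
        rw [← Set.image_iUnion, hPU]

variable {V : Type} [Fintype V] [DecidableEq V] {D : Finset (V × V × V)} {g : ℕ} {μ : ℝ}
  {τ : Triang D M μ} {ch : V × V × V → PC M} {s : V × V × V → ℂ → ℂ}

private theorem B6b_det (L : ℂ →L[ℝ] ℂ) :
    L.det = ((starRingEnd ℂ) (L 1) * L Complex.I).im := by
  have h1 : L.det = LinearMap.det (L : ℂ →ₗ[ℝ] ℂ) := rfl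
  rw [h1, ← LinearMap.det_toMatrix Complex.basisOneI, Matrix.det_fin_two]
  simp only [LinearMap.toMatrix_apply, Complex.coe_basisOneI,
    Complex.coe_basisOneI_repr]
  simp only [Matrix.cons_val_zero, Matrix.cons_val_one, ContinuousLinearMap.coe_coe,
    Complex.mul_im, Complex.conj_re, Complex.conj_im]
  ring

private theorem B6b_convex : Convex ℝ stdT := by
  intro z hz w hw a b ha hb hab
  obtain ⟨z1, z2, z3⟩ := hz
  obtain ⟨w1, w2, w3⟩ := hw
  have h1 : (a • z + b • w).re = a * z.re + b * w.re := by simp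
  have h2 : (a • z + b • w).im = a * z.im + b * w.im := by simp
  refine ⟨?_, ?_, ?_⟩
  · rw [h1]; positivity
  · rw [h2]; positivity
  · rw [h1, h2]
    nlinarith

private theorem B6b_interior {z : ℂ} (hz : z ∈ interior stdT) :
    0 < z.re ∧ 0 < z.im ∧ z.re + z.im < 1 := by
  obtain ⟨ε, hε, hb⟩ := Metric.mem_nhds_iff.mp (mem_interior_iff_mem_nhds.mp hz)
  have hsm : ∀ h : ℂ, ‖h‖ = ε / 2 → z + h ∈ stdT := by
    intro h hh
    apply hb
    rw [Metric.mem_ball, dist_eq_norm, add_sub_cancel_left, hh]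
    linarith
  have n1 : ‖((-(ε / 2) : ℝ) : ℂ)‖ = ε / 2 := by
    rw [Complex.norm_real, Real.norm_eq_abs, abs_neg, abs_of_pos (by linarith)]
  have n2 : ‖((-(ε / 2) : ℝ) : ℂ) * Complex.I‖ = ε / 2 := by
    rw [norm_mul, Complex.norm_I, mul_one, n1]
  have n3 : ‖((ε / 2 : ℝ) : ℂ)‖ = ε / 2 := by
    rw [Complex.norm_real, Real.norm_eq_abs, abs_of_pos (by linarith)]
  have a1 := (hsm _ n1).1
  have a2 := (hsm _ n2).2.1
  have a3 := (hsm _ n3).2.2
  simp only [Complex.add_re, Complex.add_im, Complex.ofReal_re, Complex.ofReal_im,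
    Complex.mul_im, Complex.I_re, Complex.I_im, mul_one, mul_zero, add_zero] at a1 a2 a3
  refine ⟨by linarith, by linarith, by linarith⟩

/-- Row B6b. change of variables (`s t` is injective on the interior of the triangle, the
determinant of the derivative is `Im (conj s_x * s_y)`) -/
theorem tri_area (hA : IsAtlas κ A) (hD : IsCS D g) (hT : STri A τ ch s) {t : V × V × V}
    (ht : t ∈ D) :
    ∫⁻ z in stdT, ENNReal.ofReal (Real.exp (2 * (ch t).u (s t z)) *
        ((starRingEnd ℂ) (fderiv ℝ (s t) z 1) * fderiv ℝ (s t) z Complex.I).im) ≤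
      2 * Measure.hausdorffMeasure 2
        {y : M | 0 < τ.lam y t.1 ∧ 0 < τ.lam y t.2.1 ∧ 0 < τ.lam y t.2.2} := by
  obtain ⟨a, b, c⟩ := t
  have hab : a ≠ b := hD.ne a b c ht
  have hbc : b ≠ c := hD.ne b c a (hD.rot a b c ht)
  have hca : c ≠ a := hD.ne c a b (hD.rot b c a (hD.rot a b c ht))
  have hsm : ContDiff ℝ 5 (s (a, b, c)) := hT.smooth _ ht
  have hdiff : Differentiable ℝ (s (a, b, c)) := hsm.differentiable (by simp)
  have hint : interior stdT ⊆ stdT := interior_subset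
  have hlam : ∀ z ∈ stdT, ∀ v, τ.lam ((ch (a, b, c)).φ (s (a, b, c) z)) v =
      (if v = a then 1 - z.re - z.im else 0) + (if v = b then z.re else 0) +
        (if v = c then z.im else 0) := hT.lam _ ht
  have hinj : Set.InjOn (s (a, b, c)) (interior stdT) := by
    intro z hz w hw hzw
    have h1 := hlam z (hint hz) b
    have h2 := hlam w (hint hw) b
    have h3 := hlam z (hint hz) c
    have h4 := hlam w (hint hw) c
    rw [hzw] at h1 h3
    rw [h1] at h2
    rw [h3] at h4
    rw [if_neg hab.symm, if_pos rfl, if_neg hbc, if_neg hab.symm, if_pos rfl, if_neg hbc] at h2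
    rw [if_neg hca, if_neg hbc.symm, if_pos rfl, if_neg hca, if_neg hbc.symm, if_pos rfl] at h4
    exact Complex.ext (by linarith) (by linarith)
  have hmeas : MeasurableSet (s (a, b, c) '' interior stdT) :=
    isOpen_interior.measurableSet.image_of_continuousOn_injOn hsm.continuous.continuousOn hinj
  have hsub : s (a, b, c) '' interior stdT ⊆ (ch (a, b, c)).U := by
    rintro _ ⟨z, hz, rfl⟩
    exact hT.mem _ ht z (hint hz)
  have hae : interior stdT =ᵐ[volume] stdT :=
    interior_ae_eq_of_null_frontier (B6b_convex.addHaar_frontier volume)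
  rw [← setLIntegral_congr hae]
  have h1 : ∫⁻ z in interior stdT, ENNReal.ofReal (Real.exp (2 * (ch (a, b, c)).u (s (a, b, c) z)) *
        ((starRingEnd ℂ) (fderiv ℝ (s (a, b, c)) z 1) *
          fderiv ℝ (s (a, b, c)) z Complex.I).im) =
      ∫⁻ z in interior stdT, ENNReal.ofReal |(fderiv ℝ (s (a, b, c)) z).det| *
        ENNReal.ofReal (Real.exp (2 * (ch (a, b, c)).u (s (a, b, c) z))) := by
    refine setLIntegral_congr_fun isOpen_interior.measurableSet fun z hz => ?_
    have hpos := hT.orient _ ht z (hint hz)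
    show ENNReal.ofReal _ = ENNReal.ofReal _ * ENNReal.ofReal _
    rw [B6b_det, abs_of_pos hpos, ← ENNReal.ofReal_mul hpos.le, mul_comm]
  rw [h1, ← lintegral_image_eq_lintegral_abs_det_fderiv_mul volume isOpen_interior.measurableSet
    (fun z _ => (hdiff z).hasFDerivAt.hasFDerivWithinAt) hinj
    (fun w => ENNReal.ofReal (Real.exp (2 * (ch (a, b, c)).u w)))]
  refine (area_le (hA.pc _ (hT.hch _ ht)) hsub hmeas).trans ?_
  refine mul_le_mul_right (measure_mono ?_) 2
  rintro _ ⟨_, ⟨z, hz, rfl⟩, rfl⟩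
  obtain ⟨p1, p2, p3⟩ := B6b_interior hz
  refine ⟨?_, ?_, ?_⟩
  · show 0 < τ.lam _ a
    rw [hlam z (hint hz) a, if_pos rfl, if_neg hab, if_neg hca.symm]
    linarith
  · show 0 < τ.lam _ b
    rw [hlam z (hint hz) b, if_neg hab.symm, if_pos rfl, if_neg hbc]
    linarith
  · show 0 < τ.lam _ c
    rw [hlam z (hint hz) c, if_neg hca, if_neg hbc.symm, if_pos rfl]
    linarith

/-- the triangles which contain a point in the interior -/
theorem B7_rot (hD : IsCS D g) {a b c x y z : V} (h : (a, b, c) ∈ D) (h' : (x, y, z) ∈ D)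
    (hx : x = a ∨ x = b ∨ x = c) (hy : y = a ∨ y = b ∨ y = c) (hz : z = a ∨ z = b ∨ z = c) :
    (x, y, z) = (a, b, c) ∨ (x, y, z) = (b, c, a) ∨ (x, y, z) = (c, a, b) := by
  have h1 := hD.rot _ _ _ h
  have h2 := hD.rot _ _ _ h1
  have n1 := hD.ne _ _ _ h
  have n2 := hD.ne _ _ _ h1
  have n3 := hD.ne _ _ _ h2
  have h1' := hD.rot _ _ _ h'
  have h2' := hD.rot _ _ _ h1'
  have m1 := hD.ne _ _ _ h'
  have m2 := hD.ne _ _ _ h1'
  have m3 := hD.ne _ _ _ h2'
  have s1 := hD.simp _ _ _ h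
  have s2 := hD.simp _ _ _ h1
  have s3 := hD.simp _ _ _ h2
  rcases hx with rfl | rfl | rfl
  · rcases hy with rfl | rfl | rfl
    · exact absurd rfl m1
    · rcases hz with rfl | rfl | rfl
      · exact absurd rfl m3
      · exact absurd rfl m2
      · left; rfl
    · rcases hz with rfl | rfl | rfl
      · exact absurd rfl m3
      · exact absurd h' s3
      · exact absurd rfl m2
  · rcases hy with rfl | rfl | rfl
    · rcases hz with rfl | rfl | rfl
      · exact absurd rfl m2
      · exact absurd rfl m3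
      · exact absurd h' s1
    · exact absurd rfl m1
    · rcases hz with rfl | rfl | rfl
      · right; left; rfl
      · exact absurd rfl m3
      · exact absurd rfl m2
  · rcases hy with rfl | rfl | rfl
    · rcases hz with rfl | rfl | rfl
      · exact absurd rfl m2
      · right; right; rfl
      · exact absurd rfl m3
    · rcases hz with rfl | rfl | rfl
      · exact absurd h' s2
      · exact absurd rfl m2
      · exact absurd rfl m3
    · exact absurd rfl m1

omit [MeasurableSpace M] [BorelSpace M] in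
/-- every point is in at most three of the open triangles -/
theorem B7_card (hD : IsCS D g) (τ : Triang D M μ) (y : M)
    (F : Finset (V × V × V)) (hF : ∀ t ∈ F, t ∈ D ∧ 0 < τ.lam y t.1 ∧ 0 < τ.lam y t.2.1 ∧
      0 < τ.lam y t.2.2) : F.card ≤ 3 := by
  rcases F.eq_empty_or_nonempty with rfl | ⟨⟨a, b, c⟩, ht0⟩
  · simp
  · obtain ⟨h, ha, hb, hc⟩ := hF _ ht0
    simp only at ha hb hc
    have h1 := hD.rot _ _ _ h
    have h2 := hD.rot _ _ _ h1
    have n1 := hD.ne _ _ _ h
    have n2 := hD.ne _ _ _ h1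
    have n3 := hD.ne _ _ _ h2
    obtain ⟨a', b', c', -, hs⟩ := τ.supp y
    have hsub : ({a, b, c} : Finset V) ⊆ {a', b', c'} := by
      intro v hv
      have hv' : v = a ∨ v = b ∨ v = c := by simpa using hv
      have : v = a' ∨ v = b' ∨ v = c' := by
        apply hs
        rcases hv' with rfl | rfl | rfl
        · exact ha.ne'
        · exact hb.ne'
        · exact hc.ne'
      simpa using this
    have hcard : ({a, b, c} : Finset V).card = 3 :=
      Finset.card_eq_three.2 ⟨a, b, c, n1, fun e => n3 e.symm, n2, rfl⟩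
    have heq : ({a, b, c} : Finset V) = {a', b', c'} :=
      Finset.eq_of_subset_of_card_le hsub (by rw [hcard]; exact Finset.card_le_three)
    have hmem : ∀ v, 0 < τ.lam y v → v = a ∨ v = b ∨ v = c := by
      intro v hv
      have h3 : v ∈ ({a', b', c'} : Finset V) := by simpa using hs v hv.ne'
      rw [← heq] at h3
      simpa using h3
    have hF' : F ⊆ {(a, b, c), (b, c, a), (c, a, b)} := by
      rintro ⟨x, y', z⟩ ht
      obtain ⟨g1, g2, g3, g4⟩ := hF _ ht
      have := B7_rot hD h g1 (hmem _ g2) (hmem _ g3) (hmem _ g4)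
      simpa using this
    exact (Finset.card_le_card hF').trans Finset.card_le_three

theorem B7_sum (hD : IsCS D g) (τ : Triang D M μ) (ν : Measure M) :
    ∑ t ∈ D, ν {y : M | 0 < τ.lam y t.1 ∧ 0 < τ.lam y t.2.1 ∧ 0 < τ.lam y t.2.2} ≤
      3 * ν Set.univ := by
  classical
  have hm : ∀ t : V × V × V, MeasurableSet
      {y : M | 0 < τ.lam y t.1 ∧ 0 < τ.lam y t.2.1 ∧ 0 < τ.lam y t.2.2} := by
    intro t
    apply IsOpen.measurableSet
    exact (isOpen_lt continuous_const (τ.cont t.1)).inter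
      ((isOpen_lt continuous_const (τ.cont t.2.1)).inter
        (isOpen_lt continuous_const (τ.cont t.2.2)))
  have h1 : ∀ t ∈ D, ν {y : M | 0 < τ.lam y t.1 ∧ 0 < τ.lam y t.2.1 ∧ 0 < τ.lam y t.2.2} =
      ∫⁻ y, Set.indicator {y : M | 0 < τ.lam y t.1 ∧ 0 < τ.lam y t.2.1 ∧ 0 < τ.lam y t.2.2}
        (fun _ => (1 : ENNReal)) y ∂ν := by
    intro t _
    rw [lintegral_indicator (hm t)]
    simp
  rw [Finset.sum_congr rfl h1, ← lintegral_finsetSum]
  · have h2 : ∀ y, ∑ t ∈ D, Set.indicator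
        {y : M | 0 < τ.lam y t.1 ∧ 0 < τ.lam y t.2.1 ∧ 0 < τ.lam y t.2.2}
        (fun _ => (1 : ENNReal)) y ≤ 3 := by
      intro y
      have h3 : ∑ t ∈ D, Set.indicator
          {y : M | 0 < τ.lam y t.1 ∧ 0 < τ.lam y t.2.1 ∧ 0 < τ.lam y t.2.2}
          (fun _ => (1 : ENNReal)) y =
          ((D.filter fun t => 0 < τ.lam y t.1 ∧ 0 < τ.lam y t.2.1 ∧ 0 < τ.lam y t.2.2).card :
            ENNReal) := by
        rw [Finset.card_filter]
        push_cast
        refine Finset.sum_congr rfl fun t _ => ?_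
        simp only [Set.indicator_apply, Set.mem_ofPred_eq]
      rw [h3]
      have h4 := B7_card hD τ y
        (D.filter fun t => 0 < τ.lam y t.1 ∧ 0 < τ.lam y t.2.1 ∧ 0 < τ.lam y t.2.2)
        (fun t ht => by simpa using Finset.mem_filter.1 ht)
      exact_mod_cast h4
    calc _ ≤ ∫⁻ _ : M, (3 : ENNReal) ∂ν := lintegral_mono h2
      _ = 3 * ν Set.univ := by rw [lintegral_const]
  · intro t _
    exact measurable_const.indicator (hm t)

theorem B7_meas : MeasurableSet stdT := by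
  have : IsClosed stdT := by
    have h1 : IsClosed {z : ℂ | 0 ≤ z.re} := isClosed_le continuous_const Complex.continuous_re
    have h2 : IsClosed {z : ℂ | 0 ≤ z.im} := isClosed_le continuous_const Complex.continuous_im
    have h3 : IsClosed {z : ℂ | z.re + z.im ≤ 1} :=
      isClosed_le (Complex.continuous_re.add Complex.continuous_im) continuous_const
    exact h1.inter (h2.inter h3)
  exact this.measurableSet

/-- Row B7. `gauss_bonnet`, `|Δu| ≤ κ e^{2u}`, `tri_area`; every point is in at most three of the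
sets `{0 < lam t.1, 0 < lam t.2.1, 0 < lam t.2.2}`; `|D| / 6 = |V| - (2 - 2g)`. -/
theorem gb_area (hA : IsAtlas κ A) (hD : IsCS D g) (hT : STri A τ ch s) (hκ : 0 < κ)
    {a : ℝ} (ha : 0 ≤ a) (hM : Measure.hausdorffMeasure 2 (Set.univ : Set M) ≤ ENNReal.ofReal a) :
    Real.pi * |(2 : ℝ) - 2 * g| ≤ κ * a := by
  have hgb := gauss_bonnet hA hD hT
  have heu : (Fintype.card V : ℝ) - D.card / 2 + D.card / 3 = 2 - 2 * g := by
    have h' : (((Fintype.card V : ℚ) - D.card / 2 + D.card / 3 : ℚ) : ℝ) =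
        ((2 - 2 * g : ℚ) : ℝ) := by rw [hD.euler]
    push_cast at h'
    exact h'
  set I : V × V × V → ℝ := fun t => ∫ z in stdT, lap (ch t).u (s t z) *
        ((starRingEnd ℂ) (fderiv ℝ (s t) z 1) * fderiv ℝ (s t) z Complex.I).im with hI
  have hsum : ∑ t ∈ D, I t = -(6 * Real.pi * (2 - 2 * g)) := by
    rw [hgb, ← heu]
    ring
  have h1 : ∀ t ∈ D, ‖I t‖ₑ ≤ ENNReal.ofReal κ * (2 * Measure.hausdorffMeasure 2
      {y : M | 0 < τ.lam y t.1 ∧ 0 < τ.lam y t.2.1 ∧ 0 < τ.lam y t.2.2}) := by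
    intro t ht
    calc ‖I t‖ₑ ≤ ∫⁻ z in stdT, ‖lap (ch t).u (s t z) *
        ((starRingEnd ℂ) (fderiv ℝ (s t) z 1) * fderiv ℝ (s t) z Complex.I).im‖ₑ :=
          enorm_integral_le_lintegral_enorm _
      _ ≤ ∫⁻ z in stdT, ENNReal.ofReal κ * ENNReal.ofReal (Real.exp (2 * (ch t).u (s t z)) *
        ((starRingEnd ℂ) (fderiv ℝ (s t) z 1) * fderiv ℝ (s t) z Complex.I).im) := by
          refine setLIntegral_mono' B7_meas fun z hz => ?_
          have hc := (hA.pc _ (hT.hch t ht)).curv _ (hT.mem t ht z hz)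
          have ho := hT.orient t ht z hz
          rw [← ENNReal.ofReal_mul hκ.le, ← ofReal_norm, Real.norm_eq_abs, abs_mul,
            abs_of_pos ho]
          apply ENNReal.ofReal_le_ofReal
          rw [← mul_assoc]
          exact mul_le_mul_of_nonneg_right hc ho.le
      _ = ENNReal.ofReal κ * ∫⁻ z in stdT, ENNReal.ofReal (Real.exp (2 * (ch t).u (s t z)) *
        ((starRingEnd ℂ) (fderiv ℝ (s t) z 1) * fderiv ℝ (s t) z Complex.I).im) :=
          lintegral_const_mul' _ _ ENNReal.ofReal_ne_top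
      _ ≤ _ := by
          gcongr
          exact tri_area hA hD hT ht
  have h2 : ‖∑ t ∈ D, I t‖ₑ ≤ ENNReal.ofReal (6 * (κ * a)) := by
    calc ‖∑ t ∈ D, I t‖ₑ ≤ ∑ t ∈ D, ‖I t‖ₑ := enorm_sum_le _ _
      _ ≤ ∑ t ∈ D, ENNReal.ofReal κ * (2 * Measure.hausdorffMeasure 2
          {y : M | 0 < τ.lam y t.1 ∧ 0 < τ.lam y t.2.1 ∧ 0 < τ.lam y t.2.2}) :=
          Finset.sum_le_sum h1
      _ = ENNReal.ofReal κ * (2 * ∑ t ∈ D, Measure.hausdorffMeasure 2
          {y : M | 0 < τ.lam y t.1 ∧ 0 < τ.lam y t.2.1 ∧ 0 < τ.lam y t.2.2}) := by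
          rw [Finset.mul_sum, Finset.mul_sum]
      _ ≤ ENNReal.ofReal κ * (2 * (3 * ENNReal.ofReal a)) := by
          gcongr
          exact (B7_sum hD τ _).trans (by gcongr)
      _ = ENNReal.ofReal (6 * (κ * a)) := by
          rw [show (6 : ℝ) * (κ * a) = κ * (2 * (3 * a)) by ring, ENNReal.ofReal_mul hκ.le,
            ENNReal.ofReal_mul (by norm_num), ENNReal.ofReal_mul (by norm_num)]
          norm_num
  rw [← ofReal_norm, ENNReal.ofReal_le_ofReal_iff (by positivity), hsum,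
    Real.norm_eq_abs, abs_neg, abs_mul, abs_of_pos (by positivity)] at h2
  linarith

end F10S
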