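import Pool.Agent.Lib.MP_f10cd3_gt.G.Defs

/-!
# Closed Riemannian surfaces with `|K| ≤ κ` in conformal charts: definitions
-/

set_option autoImplicit false

namespace F10S

open MPf10cd3 F10G
open scoped Manifold ContDiff

/-! ### Definitions used in the final statement -/

/-- the Laplacian `u_xx + u_yy` -/
noncomputable def lap (u : ℂ → ℝ) (z : ℂ) : ℝ :=
  fderiv ℝ (fun w => fderiv ℝ u w 1) z 1 +
    fderiv ℝ (fun w => fderiv ℝ u w Complex.I) z Complex.I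

/-- In every chart of the Riemann surface `M` the distance is infinitesimally `e^u |dz|` with a
smooth function `u`, and `|Δu| ≤ κ e^{2u}`, that is, the Gauss curvature `K = -e^{-2u} Δu` satisfies
`|K| ≤ κ`. -/
def IsConfMetric (κ : ℝ) (M : Type) [MetricSpace M] [ChartedSpace ℂ M] : Prop :=
  ∀ e ∈ atlas ℂ M, ∃ u : ℂ → ℝ, ContDiffOn ℝ ∞ u e.target ∧
    (∀ z0 ∈ e.target, ∀ ε : ℝ, 0 < ε → ∃ η : ℝ, 0 < η ∧ ∀ z ∈ e.target, ∀ w ∈ e.target,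
      ‖z - z0‖ < η → ‖w - z0‖ < η →
        |dist (e.symm z) (e.symm w) - Real.exp (u z0) * ‖z - w‖| ≤ ε * ‖z - w‖) ∧
    ∀ z ∈ e.target, |lap u z| ≤ κ * Real.exp (2 * u z)

/-- the standard triangle with vertices `0`, `1`, `i` -/
def stdT : Set ℂ := {z | 0 ≤ z.re ∧ 0 ≤ z.im ∧ z.re + z.im ≤ 1}

/-- the triangulation is smooth: in a chart every closed triangle is the image of the standard
triangle under a smooth orientation preserving immersion which is affine in the barycentric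
coordinates -/
structure SmoothTri {V : Type} [Fintype V] [DecidableEq V] {D : Finset (V × V × V)} {M : Type}
    [MetricSpace M] [ChartedSpace ℂ M] {μ : ℝ} (τ : Triang D M μ) where
  ch : V × V × V → OpenPartialHomeomorph M ℂ
  s : V × V × V → ℂ → ℂ
  hch : ∀ t ∈ D, ch t ∈ atlas ℂ M
  smooth : ∀ t ∈ D, ContDiff ℝ ∞ (s t)
  mem : ∀ t ∈ D, ∀ z ∈ stdT, s t z ∈ (ch t).target
  lam : ∀ t ∈ D, ∀ z ∈ stdT, ∀ v, τ.lam ((ch t).symm (s t z)) v =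
    (if v = t.1 then 1 - z.re - z.im else 0) + (if v = t.2.1 then z.re else 0) +
      (if v = t.2.2 then z.im else 0)
  orient : ∀ t ∈ D, ∀ z ∈ stdT, 0 < ((starRingEnd ℂ) (fderiv ℝ (s t) z 1) *
    fderiv ℝ (s t) z Complex.I).im

/-- `M` is a closed connected oriented smooth surface of genus `g`: it has smooth triangulations of
arbitrarily small mesh by closed connected oriented combinatorial surfaces of genus `g`. -/
def IsSmoothSurface (g : ℕ) (M : Type) [MetricSpace M] [ChartedSpace ℂ M] : Prop :=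
  ∀ μ : ℝ, 0 < μ → ∃ (V : Type) (_ : Fintype V) (_ : DecidableEq V) (D : Finset (V × V × V))
    (τ : Triang D M μ), IsCS D g ∧ Nonempty (SmoothTri τ)

/-! ### Definitions for the proof -/

/-- `∂u/∂z = (u_x - i u_y) / 2` -/
noncomputable def uz (u : ℂ → ℝ) (z : ℂ) : ℂ :=
  ((fderiv ℝ u z 1 : ℝ) - (fderiv ℝ u z Complex.I : ℝ) * Complex.I) / 2

/-- the geodesic vector field `(z, p) ↦ (p, -2 u_z p²)` of the metric `e^u |dz|` -/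
noncomputable def geoF (u : ℂ → ℝ) (ξ : ℂ × ℂ) : ℂ × ℂ := (ξ.2, -2 * uz u ξ.1 * ξ.2 ^ 2)

/-- a parametrised chart: a domain `U`, a map `φ` and the logarithm `u` of the conformal factor
(here of class `C⁵`) -/
structure PC (Y : Type) where
  U : Set ℂ
  φ : ℂ → Y
  u : ℂ → ℝ

structure IsPC (κ : ℝ) {Y : Type} [MetricSpace Y] (c : PC Y) : Prop where
  isOpen : IsOpen c.U
  smooth : ContDiffOn ℝ 5 c.u c.U
  inj : Set.InjOn c.φ c.U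
  cont : ContinuousOn c.φ c.U
  opn : ∀ W : Set ℂ, W ⊆ c.U → IsOpen W → IsOpen (c.φ '' W)
  metric : ∀ z0 ∈ c.U, ∀ ε : ℝ, 0 < ε → ∃ η : ℝ, 0 < η ∧ ∀ z ∈ c.U, ∀ w ∈ c.U,
    ‖z - z0‖ < η → ‖w - z0‖ < η →
      |dist (c.φ z) (c.φ w) - Real.exp (c.u z0) * ‖z - w‖| ≤ ε * ‖z - w‖
  curv : ∀ z ∈ c.U, |lap c.u z| ≤ κ * Real.exp (2 * c.u z)

/-- an atlas of parametrised charts with holomorphic changes of charts -/
structure IsAtlas (κ : ℝ) {Y : Type} [MetricSpace Y] (A : Set (PC Y)) : Prop where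
  pc : ∀ c ∈ A, IsPC κ c
  compat : ∀ c ∈ A, ∀ c' ∈ A, ∀ z ∈ c.U, ∀ z' ∈ c'.U, c.φ z = c'.φ z' → ∃ F : ℂ → ℂ, F z = z' ∧
    ∀ᶠ w in nhds z, DifferentiableAt ℂ F w ∧ F w ∈ c'.U ∧ c'.φ (F w) = c.φ w
  unif : ∃ ρ : ℝ, 0 < ρ ∧ ∃ B : ℝ, ∀ y : Y, ∃ c ∈ A, ∃ z : ℂ, c.φ z = y ∧
    Metric.closedBall z ρ ⊆ c.U ∧ ∀ w ∈ Metric.closedBall z ρ, |c.u w| ≤ B

variable {Y : Type} [MetricSpace Y]

/-- `ζ = (z, p)` represents the curve `γ` near `t` in the chart `c`, is a geodesic, and has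
speed `σ` -/
def Dat (c : PC Y) (σ : ℝ) (γ : ℝ → Y) (t : ℝ) (ζ : ℝ → ℂ × ℂ) : Prop :=
  ∀ᶠ s in nhds t, (ζ s).1 ∈ c.U ∧ c.φ (ζ s).1 = γ s ∧ HasDerivAt ζ (geoF c.u (ζ s)) s ∧
    Real.exp (c.u (ζ s).1) * ‖(ζ s).2‖ = σ

/-- `γ` is a geodesic of speed `σ` near `t` -/
def GeoAt (A : Set (PC Y)) (σ : ℝ) (γ : ℝ → Y) (t : ℝ) : Prop :=
  ∃ c ∈ A, ∃ ζ : ℝ → ℂ × ℂ, Dat c σ γ t ζ

/-- `ζ` represents the family of curves `γ` near `(t, v)` in the chart `c` -/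
def FDat (c : PC Y) (γ : ℝ → ℂ → Y) (t : ℝ) (v : ℂ) (ζ : ℝ → ℂ → ℂ × ℂ) : Prop :=
  ContDiffAt ℝ 1 (fun q : ℝ × ℂ => ζ q.1 q.2) (t, v) ∧ ∀ᶠ q : ℝ × ℂ in nhds (t, v),
    (ζ q.1 q.2).1 ∈ c.U ∧ c.φ (ζ q.1 q.2).1 = γ q.1 q.2 ∧
      HasDerivAt (fun s => ζ s q.2) (geoF c.u (ζ q.1 q.2)) q.1 ∧
        Real.exp (c.u (ζ q.1 q.2).1) * ‖(ζ q.1 q.2).2‖ = ‖q.2‖

/-- `γ t v` is a family of geodesics of speed `‖v‖`, continuously differentiable near `(t, v)` -/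
def GoodAt (A : Set (PC Y)) (γ : ℝ → ℂ → Y) (t : ℝ) (v : ℂ) : Prop :=
  ∃ c ∈ A, ∃ ζ : ℝ → ℂ → ℂ × ℂ, FDat c γ t v ζ

/-- the family starts at `x` with velocity `v` (for all `v` near `v0`) -/
def InitAt (A : Set (PC Y)) (γ : ℝ → ℂ → Y) (x : Y) (v0 : ℂ) : Prop :=
  ∃ c ∈ A, ∃ z0 ∈ c.U, c.φ z0 = x ∧ ∃ ζ : ℝ → ℂ → ℂ × ℂ, FDat c γ 0 v0 ζ ∧
    ∀ᶠ v in nhds v0, ζ 0 v = (z0, (Real.exp (-c.u z0) : ℝ) * v)

/-- the properties of the exponential map at the scale where it is nonsingular -/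
structure IsExpMap (A : Set (PC Y)) (x : Y) (S : ℝ) (E : ℂ → Y) : Prop where
  zero : E 0 = x
  loc : ∀ v0 : ℂ, ‖v0‖ < S → ∃ c ∈ A, ∃ Z : ℂ → ℂ, ContDiffAt ℝ 1 Z v0 ∧ ∀ᶠ v in nhds v0,
    Z v ∈ c.U ∧ c.φ (Z v) = E v ∧
      (∀ h : ℂ, Real.exp (c.u (Z v)) * ‖fderiv ℝ Z v h‖ ≤ 21 / 20 * ‖h‖) ∧
      Real.exp (c.u (Z v)) * ‖fderiv ℝ Z v v‖ ≤ ‖v‖ ∧
      (∀ h : ℂ, |(h * (starRingEnd ℂ) v).re| ≤
        ‖v‖ * (Real.exp (c.u (Z v)) * ‖fderiv ℝ Z v h‖)) ∧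
      ∀ h : ℂ, 4 / 5 * ‖h‖ ≤ Real.exp (c.u (Z v)) * ‖fderiv ℝ Z v h‖

/-- around every point there is a map of the disc of radius `0.52 / √κ` which is `1.05`-Lipschitz
and reaches every point `y` with `|v| = d(x, y)` -/
def HasExp (κ : ℝ) (Y : Type) [MetricSpace Y] : Prop :=
  ∀ x : Y, ∃ E : ℂ → Y,
    (∀ v w : ℂ, √κ * ‖v‖ < 13 / 25 → √κ * ‖w‖ < 13 / 25 → dist (E v) (E w) ≤ 21 / 20 * ‖v - w‖) ∧
    ∀ y : Y, √κ * dist x y < 13 / 25 → ∃ v : ℂ, ‖v‖ = dist x y ∧ E v = y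

/-- `SmoothTri` in terms of parametrised charts -/
structure STri {V : Type} [Fintype V] [DecidableEq V] {D : Finset (V × V × V)} {M : Type}
    [MetricSpace M] {μ : ℝ} (A : Set (PC M)) (τ : Triang D M μ) (ch : V × V × V → PC M)
    (s : V × V × V → ℂ → ℂ) : Prop where
  hch : ∀ t ∈ D, ch t ∈ A
  smooth : ∀ t ∈ D, ContDiff ℝ 5 (s t)
  mem : ∀ t ∈ D, ∀ z ∈ stdT, s t z ∈ (ch t).U
  lam : ∀ t ∈ D, ∀ z ∈ stdT, ∀ v, τ.lam ((ch t).φ (s t z)) v =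
    (if v = t.1 then 1 - z.re - z.im else 0) + (if v = t.2.1 then z.re else 0) +
      (if v = t.2.2 then z.im else 0)
  orient : ∀ t ∈ D, ∀ z ∈ stdT, 0 < ((starRingEnd ℂ) (fderiv ℝ (s t) z 1) *
    fderiv ℝ (s t) z Complex.I).im

/-- geodesic curvature of the curve `γ` (times the length element) in the metric `e^u |dz|` -/
noncomputable def kap (u : ℂ → ℝ) (γ : ℝ → ℂ) (x : ℝ) : ℝ :=
  (deriv (deriv γ) x / deriv γ x + 2 * uz u (γ x) * deriv γ x).im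

/-- total geodesic curvature of the first edge of the dart `t` -/
noncomputable def edgeK {V : Type} {M : Type} (ch : V × V × V → PC M) (s : V × V × V → ℂ → ℂ)
    (t : V × V × V) : ℝ :=
  ∫ x in (0 : ℝ)..1, kap (ch t).u (fun x : ℝ => s t x) x

end F10S
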