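import Pool.Agent.Lib.MP_f10cd3_gt.S.Core

/-! Row Z2: the theorem. -/

set_option autoImplicit false

namespace F10S

open MPf10cd3 F10G MeasureTheory
open scoped Manifold ContDiff

/-- `SmoothTri` gives `STri` -/
theorem exists_stri {M : Type} [MetricSpace M] [ChartedSpace ℂ M] {A : Set (PC M)}
    (hA : ∀ e ∈ atlas ℂ M, ∃ c ∈ A, c.U = e.target ∧ ∀ z, c.φ z = e.symm z) {V : Type} [Fintype V]
    [DecidableEq V] {D : Finset (V × V × V)} {μ : ℝ} {τ : Triang D M μ} (h : SmoothTri τ)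
    [Nonempty M] : ∃ (ch : V × V × V → PC M) (s : V × V × V → ℂ → ℂ), STri A τ ch s := by
  classical
  have hex : ∀ t : V × V × V, ∃ c : PC M, t ∈ D → c ∈ A ∧ c.U = (h.ch t).target ∧
      ∀ z, c.φ z = (h.ch t).symm z := by
    intro t
    by_cases ht : t ∈ D
    · obtain ⟨c, hc, hU, hφ⟩ := hA (h.ch t) (h.hch t ht)
      exact ⟨c, fun _ => ⟨hc, hU, hφ⟩⟩
    · exact ⟨⟨∅, fun _ => Classical.arbitrary M, fun _ => 0⟩, fun h' => absurd h' ht⟩
  choose ch hch using hex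
  refine ⟨ch, h.s, ?_⟩
  exact
    { hch := fun t ht => (hch t ht).1
      smooth := fun t ht => (h.smooth t ht).of_le (WithTop.coe_le_coe.mpr le_top)
      mem := fun t ht z hz => by
        rw [(hch t ht).2.1]; exact h.mem t ht z hz
      lam := fun t ht z hz v => by
        rw [(hch t ht).2.2]; exact h.lam t ht z hz v
      orient := h.orient }

/-- Gromov-Hausdorff distance of surfaces of different genus with `|K| ≤ κ` -/
theorem gh_ge {κ : ℝ} (hκ : 0 < κ) {g g' : ℕ} (hg : g ≠ g') {M M' : Type} [MetricSpace M]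
    [CompactSpace M] [Nonempty M] [ChartedSpace ℂ M] [IsManifold 𝓘(ℂ, ℂ) 1 M] [MetricSpace M']
    [CompactSpace M'] [Nonempty M'] [ChartedSpace ℂ M'] [IsManifold 𝓘(ℂ, ℂ) 1 M']
    (hG : IsGeod M) (h : IsConfMetric κ M) (hs : IsSmoothSurface g M)
    (hG' : IsGeod M') (h' : IsConfMetric κ M') (hs' : IsSmoothSurface g' M') :
    1 / √κ ≤ 200000 * GromovHausdorff.ghDist M M' := by
  have hnt : ∀ {N : Type} [MetricSpace N] [CompactSpace N] [Nonempty N] [ChartedSpace ℂ N]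
      [IsManifold 𝓘(ℂ, ℂ) 1 N] {k : ℕ}, IsConfMetric κ N → IsSmoothSurface k N →
      ∃ B : Set (PC N), IsAtlas κ B ∧ HasTri k B := by
    intro N _ _ _ _ _ k hN hsN
    obtain ⟨B, hB, hBt⟩ := exists_atlas hN
    refine ⟨B, hB, ?_⟩
    intro μ hμ
    obtain ⟨V, j1, j2, D, τ, hD, ⟨hT⟩⟩ := hsN μ hμ
    obtain ⟨ch, s, hS⟩ := exists_stri hBt hT
    exact ⟨V, j1, j2, D, τ, ch, s, hD, hS⟩
  obtain ⟨B, hB, hT⟩ := hnt h hs
  obtain ⟨B', hB', hT'⟩ := hnt h' hs'
  exact gh_core hκ hg hG hB hT hG' hB' hT'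

end F10S
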