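import Pool.Agent.Lib.MP_f10cd3_gt.S.Wirt

/-! Row TR1: changes of charts. -/

set_option autoImplicit false

namespace F10S

open MPf10cd3 F10G
open scoped ContDiff Topology

variable {Y : Type} [MetricSpace Y] {κ : ℝ} {A : Set (PC Y)}

theorem TR1_ratio {c : PC Y} (hc : IsPC κ c) {G : ℂ → ℂ} {w0 G' : ℂ} (hG : HasDerivAt G G' w0)
    (hU : G w0 ∈ c.U) :
    Filter.Tendsto (fun w => dist (c.φ (G w)) (c.φ (G w0)) / ‖w - w0‖) (𝓝[≠] w0)
      (𝓝 (Real.exp (c.u (G w0)) * ‖G'‖)) := by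
  have h1 : Filter.Tendsto (fun w => ‖G w - G w0‖ / ‖w - w0‖) (𝓝[≠] w0) (𝓝 ‖G'‖) := by
    have h2 := (hasDerivAt_iff_tendsto_slope.mp hG).norm
    refine h2.congr fun w => ?_
    rw [slope_def_field, norm_div]
  have h3 : Filter.Tendsto (fun w => dist (c.φ (G w)) (c.φ (G w0)) / ‖w - w0‖ -
      Real.exp (c.u (G w0)) * (‖G w - G w0‖ / ‖w - w0‖)) (𝓝[≠] w0) (𝓝 0) := by
    rw [Metric.tendsto_nhds]
    intro ε hε
    have hpos : 0 < ‖G'‖ + 1 := by positivity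
    obtain ⟨η, hη, hm⟩ := hc.metric (G w0) hU (ε / (2 * (‖G'‖ + 1))) (by positivity)
    have hcont : Filter.Tendsto G (𝓝[≠] w0) (𝓝 (G w0)) :=
      hG.continuousAt.tendsto.mono_left nhdsWithin_le_nhds
    have e1 : ∀ᶠ w in 𝓝[≠] w0, G w ∈ c.U := hcont.eventually (hc.isOpen.mem_nhds hU)
    have e2 : ∀ᶠ w in 𝓝[≠] w0, ‖G w - G w0‖ < η := by
      have := hcont.eventually (Metric.ball_mem_nhds (G w0) hη)
      filter_upwards [this] with w hw
      rwa [dist_eq_norm] at hw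
    have e3 : ∀ᶠ w in 𝓝[≠] w0, ‖G w - G w0‖ / ‖w - w0‖ < ‖G'‖ + 1 :=
      h1.eventually (gt_mem_nhds (by linarith))
    have e4 : ∀ᶠ w in 𝓝[≠] w0, w ≠ w0 := self_mem_nhdsWithin
    filter_upwards [e1, e2, e3, e4] with w a1 a2 a3 a4
    have hn : 0 < ‖w - w0‖ := norm_pos_iff.mpr (sub_ne_zero.mpr a4)
    have a5 := hm (G w) a1 (G w0) hU a2 (by rw [sub_self, norm_zero]; exact hη)
    rw [Real.dist_eq, sub_zero]
    have a6 : dist (c.φ (G w)) (c.φ (G w0)) / ‖w - w0‖ -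
        Real.exp (c.u (G w0)) * (‖G w - G w0‖ / ‖w - w0‖) =
        (dist (c.φ (G w)) (c.φ (G w0)) - Real.exp (c.u (G w0)) * ‖G w - G w0‖) / ‖w - w0‖ := by
      field_simp
    rw [a6, abs_div, abs_of_pos hn]
    calc |dist (c.φ (G w)) (c.φ (G w0)) - Real.exp (c.u (G w0)) * ‖G w - G w0‖| / ‖w - w0‖
        ≤ ε / (2 * (‖G'‖ + 1)) * ‖G w - G w0‖ / ‖w - w0‖ :=
          div_le_div_of_nonneg_right a5 hn.le
      _ = ε / (2 * (‖G'‖ + 1)) * (‖G w - G w0‖ / ‖w - w0‖) := by ring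
      _ ≤ ε / (2 * (‖G'‖ + 1)) * (‖G'‖ + 1) := by gcongr
      _ = ε / 2 := by field_simp
      _ < ε := by linarith
  have h4 := h3.add (h1.const_mul (Real.exp (c.u (G w0))))
  simpa using h4

theorem TR1_log {g : ℂ → ℂ} {w g' : ℂ} (hg : HasDerivAt g g' w) (h0 : g w ≠ 0) :
    HasFDerivAt (fun v => Real.log ‖g v‖)
      (Complex.reCLM.comp ((ContinuousLinearMap.toSpanSingleton ℂ (g' / g w)).restrictScalars ℝ))
      w := by
  have h1 : HasDerivAt (fun v => Complex.log (g v / g w)) (g' / g w) w := by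
    have h2 : HasDerivAt (fun v => g v / g w) (g' / g w) w := hg.div_const _
    have h3 : g w / g w ∈ Complex.slitPlane := by rw [div_self h0]; exact Complex.one_mem_slitPlane
    have h4 := h2.clog h3
    rwa [div_self h0, div_one] at h4
  have h5 : HasFDerivAt (fun v => Real.log ‖g w‖ + (Complex.log (g v / g w)).re)
      (Complex.reCLM.comp ((ContinuousLinearMap.toSpanSingleton ℂ (g' / g w)).restrictScalars ℝ))
      w := by
    have h6 := (Complex.reCLM.hasFDerivAt (x := Complex.log (g w / g w))).comp w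
      (h1.hasFDerivAt.restrictScalars ℝ)
    exact h6.const_add _
  refine h5.congr_of_eventuallyEq ?_
  filter_upwards [hg.continuousAt.eventually_ne h0] with v hv
  rw [Complex.log_re, norm_div, Real.log_div (norm_ne_zero_iff.mpr hv) (norm_ne_zero_iff.mpr h0)]
  ring

/-- Row TR1. `e^{u(w)} = e^{u'(F w)} |F'(w)|` from the metric condition in both charts (the map
`c.φ` is locally bi-Lipschitz), so `F' ≠ 0`; then differentiate. -/
theorem trans (hA : IsAtlas κ A) {c c' : PC Y} (hc : c ∈ A) (hc' : c' ∈ A) {z z' : ℂ}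
    (hz : z ∈ c.U) (hz' : z' ∈ c'.U) (h : c.φ z = c'.φ z') : ∃ F : ℂ → ℂ, F z = z' ∧
      AnalyticAt ℂ F z ∧
      ∀ᶠ w in nhds z, w ∈ c.U ∧ F w ∈ c'.U ∧ c'.φ (F w) = c.φ w ∧ DifferentiableAt ℂ F w ∧
        deriv F w ≠ 0 ∧ c.u w = c'.u (F w) + Real.log ‖deriv F w‖ ∧
        2 * uz c.u w = 2 * uz c'.u (F w) * deriv F w + deriv (deriv F) w / deriv F w := by
  have pc := hA.pc c hc
  have pc' := hA.pc c' hc'
  obtain ⟨F, hF, hE⟩ := hA.compat c hc c' hc' z hz z' hz' h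
  refine ⟨F, hF, ?_, ?_⟩
  · rw [Complex.analyticAt_iff_eventually_differentiableAt]
    filter_upwards [hE] with w hw using hw.1
  have hE2 : ∀ᶠ w in nhds z, w ∈ c.U ∧ DifferentiableAt ℂ F w ∧ F w ∈ c'.U ∧
      c'.φ (F w) = c.φ w := by
    filter_upwards [hE, pc.isOpen.mem_nhds hz] with w h1 h2 using ⟨h2, h1⟩
  -- the relation of the conformal factors at a point with a good neighbourhood
  have key : ∀ w : ℂ, (∀ᶠ v in nhds w, v ∈ c.U ∧ DifferentiableAt ℂ F v ∧ F v ∈ c'.U ∧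
      c'.φ (F v) = c.φ v) → deriv F w ≠ 0 ∧ c.u w = c'.u (F w) + Real.log ‖deriv F w‖ := by
    intro w hw
    obtain ⟨b1, b2, b3, b4⟩ := hw.self_of_nhds
    have t1 := TR1_ratio pc (hasDerivAt_id w) (by exact b1)
    have t2 := TR1_ratio pc' b2.hasDerivAt b3
    have t3 : Filter.Tendsto (fun v => dist (c'.φ (F v)) (c'.φ (F w)) / ‖v - w‖) (𝓝[≠] w)
        (𝓝 (Real.exp (c.u (id w)) * ‖(1 : ℂ)‖)) := by
      refine t1.congr' ?_
      filter_upwards [hw.filter_mono nhdsWithin_le_nhds] with v hv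
      rw [hv.2.2.2, b4]
      rfl
    have t4 := tendsto_nhds_unique t3 t2
    rw [norm_one, mul_one, id] at t4
    have t5 : deriv F w ≠ 0 := by
      intro h0
      rw [h0, norm_zero, mul_zero] at t4
      exact (Real.exp_pos _).ne' t4
    refine ⟨t5, ?_⟩
    have t6 := congrArg Real.log t4
    rwa [Real.log_exp, Real.log_mul (Real.exp_pos _).ne' (norm_ne_zero_iff.mpr t5),
      Real.log_exp] at t6
  filter_upwards [hE2.eventually_nhds] with w hw
  obtain ⟨b1, b2, b3, b4⟩ := hw.self_of_nhds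
  obtain ⟨k1, k2⟩ := key w hw
  refine ⟨b1, b3, b4, b2, k1, k2, ?_⟩
  -- differentiate the relation at `w`
  have hev : c.u =ᶠ[nhds w] fun v => c'.u (F v) + Real.log ‖deriv F v‖ := by
    filter_upwards [hw.eventually_nhds] with v hv using (key v hv).2
  have hdu : DifferentiableAt ℝ c.u w :=
    (pc.smooth.contDiffAt (pc.isOpen.mem_nhds b1)).differentiableAt (by simp)
  have hdu' : DifferentiableAt ℝ c'.u (F w) :=
    (pc'.smooth.contDiffAt (pc'.isOpen.mem_nhds b3)).differentiableAt (by simp)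
  have hdF : DifferentiableAt ℂ (deriv F) w := by
    have han : AnalyticAt ℂ F w := by
      rw [Complex.analyticAt_iff_eventually_differentiableAt]
      filter_upwards [hw] with v hv using hv.2.1
    exact han.deriv.differentiableAt
  have d1 : HasFDerivAt (fun v => c'.u (F v))
      ((fderiv ℝ c'.u (F w)).comp
        ((ContinuousLinearMap.toSpanSingleton ℂ (deriv F w)).restrictScalars ℝ)) w :=
    hdu'.hasFDerivAt.comp w (b2.hasDerivAt.hasFDerivAt.restrictScalars ℝ)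
  have d2 := TR1_log hdF.hasDerivAt k1
  have d3 := (d1.add d2).congr_of_eventuallyEq hev
  have d4 : ∀ k : ℂ, (2 * uz c.u w * k).re =
      ((2 * uz c'.u (F w) * deriv F w + deriv (deriv F) w / deriv F w) * k).re := by
    intro k
    rw [← du_eq hdu k, d3.fderiv]
    have d5 := du_eq hdu' (k * deriv F w)
    simp only [add_apply, ContinuousLinearMap.comp_apply,
      ContinuousLinearMap.coe_restrictScalars', ContinuousLinearMap.toSpanSingleton_apply,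
      smul_eq_mul, Complex.reCLM_apply]
    rw [d5, ← Complex.add_re]
    congr 1
    ring
  have d6 := d4 1
  have d7 := d4 Complex.I
  rw [mul_one, mul_one] at d6
  rw [Complex.mul_I_re, Complex.mul_I_re] at d7
  exact Complex.ext d6 (neg_injective d7)

private theorem TR2_fst {ζ : ℝ → ℂ × ℂ} {w : ℂ × ℂ} {s : ℝ} (h : HasDerivAt ζ w s) :
    HasDerivAt (fun r => (ζ r).1) w.1 s :=
  (ContinuousLinearMap.fst ℝ ℂ ℂ).hasFDerivAt.comp_hasDerivAt s h

private theorem TR2_snd {ζ : ℝ → ℂ × ℂ} {w : ℂ × ℂ} {s : ℝ} (h : HasDerivAt ζ w s) :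
    HasDerivAt (fun r => (ζ r).2) w.2 s :=
  (ContinuousLinearMap.snd ℝ ℂ ℂ).hasFDerivAt.comp_hasDerivAt s h

/-- the pointwise computation -/
private theorem TR2_deriv {u u' : ℂ → ℝ} {F : ℂ → ℂ} {ζ : ℝ → ℂ × ℂ} {s : ℝ}
    (hF : AnalyticAt ℂ F (ζ s).1) (hne : deriv F (ζ s).1 ≠ 0)
    (hu : 2 * uz u (ζ s).1 = 2 * uz u' (F (ζ s).1) * deriv F (ζ s).1 +
      deriv (deriv F) (ζ s).1 / deriv F (ζ s).1)
    (hζ : HasDerivAt ζ (geoF u (ζ s)) s) :
    HasDerivAt (fun r => (F (ζ r).1, deriv F (ζ r).1 * (ζ r).2))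
      (geoF u' (F (ζ s).1, deriv F (ζ s).1 * (ζ s).2)) s := by
  have h1 : HasDerivAt (fun r => (ζ r).1) (ζ s).2 s := TR2_fst hζ
  have h2 : HasDerivAt (fun r => (ζ r).2) (-2 * uz u (ζ s).1 * (ζ s).2 ^ 2) s := TR2_snd hζ
  have hd : HasDerivAt F (deriv F (ζ s).1) (ζ s).1 := hF.differentiableAt.hasDerivAt
  have hdd : HasDerivAt (deriv F) (deriv (deriv F) (ζ s).1) (ζ s).1 :=
    hF.deriv.differentiableAt.hasDerivAt
  have e1 : HasDerivAt (fun r => F (ζ r).1) (deriv F (ζ s).1 * (ζ s).2) s :=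
    hd.comp s h1
  have e2 : HasDerivAt (fun r => deriv F (ζ r).1) (deriv (deriv F) (ζ s).1 * (ζ s).2) s :=
    HasDerivAt.comp (h₂ := deriv F) s hdd h1
  have e3 := e2.mul h2
  have e4 := e1.prodMk e3
  refine e4.congr_deriv ?_
  unfold geoF
  refine Prod.ext rfl ?_
  change deriv (deriv F) (ζ s).1 * (ζ s).2 * (ζ s).2 +
    deriv F (ζ s).1 * (-2 * uz u (ζ s).1 * (ζ s).2 ^ 2) =
      -2 * uz u' (F (ζ s).1) * (deriv F (ζ s).1 * (ζ s).2) ^ 2
  have e5 : deriv (deriv F) (ζ s).1 = 2 * uz u (ζ s).1 * deriv F (ζ s).1 -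
      2 * uz u' (F (ζ s).1) * deriv F (ζ s).1 ^ 2 := by
    have e6 : 2 * uz u (ζ s).1 * deriv F (ζ s).1 =
        2 * uz u' (F (ζ s).1) * deriv F (ζ s).1 ^ 2 + deriv (deriv F) (ζ s).1 := by
      rw [hu]
      field_simp
    rw [e6]
    ring
  rw [e5]
  ring

private theorem TR2_speed {a b : ℝ} {d p : ℂ} (hd : d ≠ 0) (h : a = b + Real.log ‖d‖) :
    Real.exp b * ‖d * p‖ = Real.exp a * ‖p‖ := by
  rw [h, Real.exp_add, Real.exp_log (norm_pos_iff.mpr hd), norm_mul]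
  ring

/-- Row TR2. `Ψ (w, p) = (F w, F'(w) p)` maps geodesics to geodesics (and families to families). -/
theorem conj_map (hA : IsAtlas κ A) {c c' : PC Y} (hc : c ∈ A) (hc' : c' ∈ A) {z z' : ℂ}
    (hz : z ∈ c.U) (hz' : z' ∈ c'.U) (h : c.φ z = c'.φ z') : ∃ (Ψ : ℂ × ℂ → ℂ × ℂ) (l : ℂ),
      l ≠ 0 ∧ (∀ p : ℂ, Ψ (z, p) = (z', l * p)) ∧
      (∀ (σ : ℝ) (γ : ℝ → Y) (t : ℝ) (ζ : ℝ → ℂ × ℂ), (ζ t).1 = z → Dat c σ γ t ζ →
        Dat c' σ γ t (fun s => Ψ (ζ s))) ∧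
      ∀ (γ : ℝ → ℂ → Y) (t : ℝ) (v : ℂ) (ζ : ℝ → ℂ → ℂ × ℂ), (ζ t v).1 = z →
        FDat c γ t v ζ → FDat c' γ t v (fun s w => Ψ (ζ s w)) := by
  obtain ⟨F, hFz, hFan, hF⟩ := trans hA hc hc' hz hz' h
  have hF2 : ∀ᶠ w in nhds z, AnalyticAt ℂ F w := hFan.eventually_analyticAt
  have hall := hF.and hF2
  refine ⟨fun ξ => (F ξ.1, deriv F ξ.1 * ξ.2), deriv F z, ?_, ?_, ?_, ?_⟩
  · exact (hF.self_of_nhds).2.2.2.2.1
  · intro p
    simp only [hFz]
  · intro σ γ t ζ hζ hD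
    have hcont : ContinuousAt (fun s => (ζ s).1) t :=
      (TR2_fst (hD.self_of_nhds.2.2.1)).continuousAt
    have hev : ∀ᶠ s in nhds t, ((ζ s).1 ∈ c.U ∧ F (ζ s).1 ∈ c'.U ∧
        c'.φ (F (ζ s).1) = c.φ (ζ s).1 ∧ DifferentiableAt ℂ F (ζ s).1 ∧
        deriv F (ζ s).1 ≠ 0 ∧ c.u (ζ s).1 = c'.u (F (ζ s).1) + Real.log ‖deriv F (ζ s).1‖ ∧
        2 * uz c.u (ζ s).1 = 2 * uz c'.u (F (ζ s).1) * deriv F (ζ s).1 +
          deriv (deriv F) (ζ s).1 / deriv F (ζ s).1) ∧ AnalyticAt ℂ F (ζ s).1 := by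
      have ht : Filter.Tendsto (fun s => (ζ s).1) (nhds t) (nhds z) := by
        have := hcont.tendsto
        rwa [hζ] at this
      exact ht.eventually hall
    filter_upwards [hD, hev] with s hs hs'
    obtain ⟨-, a2, a3, a4⟩ := hs
    obtain ⟨⟨-, b2, b3, -, b5, b6, b7⟩, b8⟩ := hs'
    refine ⟨b2, b3.trans a2, TR2_deriv b8 b5 b7 a3, ?_⟩
    rw [TR2_speed b5 b6]
    exact a4
  · intro γ t v ζ hζ hD
    obtain ⟨hC, hD⟩ := hD
    have hcont : ContinuousAt (fun q : ℝ × ℂ => (ζ q.1 q.2).1) (t, v) :=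
      continuous_fst.continuousAt.comp hC.continuousAt
    have hev : ∀ᶠ q : ℝ × ℂ in nhds (t, v), ((ζ q.1 q.2).1 ∈ c.U ∧ F (ζ q.1 q.2).1 ∈ c'.U ∧
        c'.φ (F (ζ q.1 q.2).1) = c.φ (ζ q.1 q.2).1 ∧ DifferentiableAt ℂ F (ζ q.1 q.2).1 ∧
        deriv F (ζ q.1 q.2).1 ≠ 0 ∧
        c.u (ζ q.1 q.2).1 = c'.u (F (ζ q.1 q.2).1) + Real.log ‖deriv F (ζ q.1 q.2).1‖ ∧
        2 * uz c.u (ζ q.1 q.2).1 = 2 * uz c'.u (F (ζ q.1 q.2).1) * deriv F (ζ q.1 q.2).1 +
          deriv (deriv F) (ζ q.1 q.2).1 / deriv F (ζ q.1 q.2).1) ∧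
        AnalyticAt ℂ F (ζ q.1 q.2).1 := by
      have ht : Filter.Tendsto (fun q : ℝ × ℂ => (ζ q.1 q.2).1) (nhds (t, v)) (nhds z) := by
        have := hcont.tendsto
        simp only [hζ] at this
        exact this
      exact ht.eventually hall
    refine ⟨?_, ?_⟩
    · have hF1 : ContDiffAt ℝ 1 F z := (hFan.contDiffAt (n := 1)).restrict_scalars ℝ
      have hF2 : ContDiffAt ℝ 1 (deriv F) z := (hFan.deriv.contDiffAt (n := 1)).restrict_scalars ℝ
      have hz1 : ContDiffAt ℝ 1 (fun q : ℝ × ℂ => (ζ q.1 q.2).1) (t, v) :=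
        contDiff_fst.contDiffAt.comp _ hC
      have hz2 : ContDiffAt ℝ 1 (fun q : ℝ × ℂ => (ζ q.1 q.2).2) (t, v) :=
        contDiff_snd.contDiffAt.comp _ hC
      have g1 : ContDiffAt ℝ 1 (fun q : ℝ × ℂ => F (ζ q.1 q.2).1) (t, v) := by
        refine ContDiffAt.comp (t, v) ?_ hz1
        simpa [hζ] using hF1
      have g2 : ContDiffAt ℝ 1 (fun q : ℝ × ℂ => deriv F (ζ q.1 q.2).1) (t, v) := by
        refine ContDiffAt.comp (g := deriv F) (t, v) ?_ hz1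
        simpa [hζ] using hF2
      exact g1.prodMk (g2.mul hz2)
    · filter_upwards [hD, hev] with q hs hs'
      obtain ⟨-, a2, a3, a4⟩ := hs
      obtain ⟨⟨-, b2, b3, -, b5, b6, b7⟩, b8⟩ := hs'
      refine ⟨b2, b3.trans a2, TR2_deriv (ζ := fun s => ζ s q.2) b8 b5 b7 a3, ?_⟩
      have := TR2_speed (p := (ζ q.1 q.2).2) b5 b6
      exact this.trans a4

/-- Row TR2. The quotient `(dz/dv h) / z'` does not depend on the chart: near `(t, v)` the `z` of
the second chart is `F` of the `z` of the first one; differentiate in `v` and in `t`. -/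
theorem W_inv (hA : IsAtlas κ A) {c c' : PC Y} (hc : c ∈ A) (hc' : c' ∈ A)
    {γ : ℝ → ℂ → Y} {t : ℝ} {v : ℂ} {ζ ζ' : ℝ → ℂ → ℂ × ℂ} (h : FDat c γ t v ζ)
    (h' : FDat c' γ t v ζ') (k : ℂ) :
    (fderiv ℝ (ζ t) v k).1 / (ζ t v).2 = (fderiv ℝ (ζ' t) v k).1 / (ζ' t v).2 := by
  obtain ⟨hC, hD⟩ := h
  obtain ⟨hC', hD'⟩ := h'
  obtain ⟨p1, p2, p3, -⟩ := hD.self_of_nhds
  obtain ⟨p1', p2', p3', -⟩ := hD'.self_of_nhds
  simp only at p1 p2 p3 p1' p2' p3'
  obtain ⟨F, hFz, hFan, hF⟩ := trans hA hc hc' p1 p1' (p2.trans p2'.symm)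
  have hcont : ContinuousAt (fun q : ℝ × ℂ => (ζ q.1 q.2).1) (t, v) :=
    continuous_fst.continuousAt.comp hC.continuousAt
  have hev := hcont.tendsto.eventually hF
  have hinj := (hA.pc c' hc').inj
  have heq : ∀ᶠ q : ℝ × ℂ in nhds (t, v), (ζ' q.1 q.2).1 = F (ζ q.1 q.2).1 := by
    filter_upwards [hD, hD', hev] with q a b e
    exact hinj b.1 e.2.1 (b.2.1.trans (e.2.2.1.trans a.2.1).symm)
  -- differentiability of the slices
  have hd : DifferentiableAt ℝ (ζ t) v := by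
    have h1 : DifferentiableAt ℝ (fun q : ℝ × ℂ => ζ q.1 q.2) (t, v) :=
      hC.differentiableAt one_ne_zero
    exact h1.comp v ((differentiableAt_const t).prodMk differentiableAt_id)
  have hd' : DifferentiableAt ℝ (ζ' t) v := by
    have h1 : DifferentiableAt ℝ (fun q : ℝ × ℂ => ζ' q.1 q.2) (t, v) :=
      hC'.differentiableAt one_ne_zero
    exact h1.comp v ((differentiableAt_const t).prodMk differentiableAt_id)
  have hne : deriv F (ζ t v).1 ≠ 0 := (hF.self_of_nhds).2.2.2.2.1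
  have hFd : HasDerivAt F (deriv F (ζ t v).1) (ζ t v).1 := hFan.differentiableAt.hasDerivAt
  -- in v
  have e1 : (fderiv ℝ (ζ' t) v k).1 = deriv F (ζ t v).1 * (fderiv ℝ (ζ t) v k).1 := by
    have a1 : HasFDerivAt (fun w => (ζ t w).1)
        ((ContinuousLinearMap.fst ℝ ℂ ℂ).comp (fderiv ℝ (ζ t) v)) v := hd.hasFDerivAt.fst
    have a2 : HasFDerivAt (fun w => (ζ' t w).1)
        ((ContinuousLinearMap.fst ℝ ℂ ℂ).comp (fderiv ℝ (ζ' t) v)) v := hd'.hasFDerivAt.fst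
    have a3 := HasFDerivAt.comp (g := F) v (hFd.hasFDerivAt.restrictScalars ℝ) a1
    have a4 : ∀ᶠ w in nhds v, (ζ' t w).1 = F (ζ t w).1 := by
      have hc : ContinuousAt (fun w : ℂ => (t, w)) v := by fun_prop
      exact hc.tendsto.eventually heq
    have a5 := a2.unique (a3.congr_of_eventuallyEq a4)
    have a6 := congrArg (fun L => L k) a5
    simp only [ContinuousLinearMap.comp_apply, ContinuousLinearMap.coe_fst'] at a6
    rw [a6]
    simp [mul_comm]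
  have e2 : (ζ' t v).2 = deriv F (ζ t v).1 * (ζ t v).2 := by
    have a1 : HasDerivAt (fun s => (ζ s v).1) (ζ t v).2 t := TR2_fst p3
    have a2 : HasDerivAt (fun s => (ζ' s v).1) (ζ' t v).2 t := TR2_fst p3'
    have a3 : HasDerivAt (fun s => F (ζ s v).1) (deriv F (ζ t v).1 * (ζ t v).2) t :=
      hFd.comp t a1
    have a4 : ∀ᶠ s in nhds t, (ζ' s v).1 = F (ζ s v).1 := by
      have hc : ContinuousAt (fun s : ℝ => (s, v)) t := by fun_prop
      exact hc.tendsto.eventually heq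
    exact a2.unique (a3.congr_of_eventuallyEq a4)
  rw [e1, e2, mul_div_mul_left _ _ hne]

end F10S
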