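import Pool.Agent.Lib.MP_f10cd3_gt.S.Ode
import Pool.Agent.Lib.MP_f10cd3_gt.S.Trans

/-! Row F1: the geodesic flow in a chart. -/

set_option autoImplicit false

namespace F10S

open MPf10cd3 F10G
open scoped ContDiff

variable {Y : Type} [MetricSpace Y] {κ : ℝ} {A : Set (PC Y)}

/-- Row F1. Multiply `geoF c.u` by a smooth cut-off function which is `1` near
`‖z - z0‖ ≤ 3ρ/4`, `‖p‖ ≤ P e^B` and has compact support in `‖z - z0‖ < ρ`; `exists_flow_c1`.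
As long as the solution stays there the speed is constant, so it moves by at most
`|t| P e^B ≤ ρ/4`. -/
theorem chart_flow {c : PC Y} (hc : IsPC κ c) {z0 : ℂ} {ρ B P : ℝ} (hρ : 0 < ρ) (hP : 0 ≤ P)
    (hsub : Metric.closedBall z0 ρ ⊆ c.U) (hB : ∀ w ∈ Metric.closedBall z0 ρ, |c.u w| ≤ B) :
    ∃ Φ : ℝ → ℂ × ℂ → ℂ × ℂ, ContDiff ℝ 1 (fun q : ℝ × (ℂ × ℂ) => Φ q.1 q.2) ∧
      (∀ ξ, Φ 0 ξ = ξ) ∧ ∀ ξ : ℂ × ℂ, ‖ξ.1 - z0‖ ≤ ρ / 2 → Real.exp (c.u ξ.1) * ‖ξ.2‖ ≤ P →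
        ∀ t : ℝ, |t| * (P * Real.exp B) ≤ ρ / 4 → ‖(Φ t ξ).1 - z0‖ < ρ ∧
          HasDerivAt (fun s => Φ s ξ) (geoF c.u (Φ t ξ)) t ∧
          Real.exp (c.u (Φ t ξ).1) * ‖(Φ t ξ).2‖ = Real.exp (c.u ξ.1) * ‖ξ.2‖ := by
  set Q : ℝ := P * Real.exp B with hQ
  have hQ0 : 0 ≤ Q := by positivity
  let b1 : ContDiffBump z0 := ⟨7 * ρ / 8, 15 * ρ / 16, by positivity, by linarith⟩
  let b2 : ContDiffBump (0 : ℂ) := ⟨Q + 1, Q + 2, by positivity, by linarith⟩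
  let F : ℂ × ℂ → ℂ × ℂ := fun ξ => (b1 ξ.1 * b2 ξ.2) • geoF c.u ξ
  have hFc : ContDiff ℝ 2 F := by
    rw [contDiff_iff_contDiffAt]
    intro ξ
    by_cases hξ : ξ.1 ∈ Metric.ball z0 ρ
    · have h1 : ContDiffAt ℝ 2 (geoF c.u) ξ := by
        have h2 := geoF_smooth hc.isOpen hc.smooth
        have h3 : (c.U ×ˢ Set.univ : Set (ℂ × ℂ)) ∈ nhds ξ :=
          (hc.isOpen.prod isOpen_univ).mem_nhds ⟨hsub (Metric.ball_subset_closedBall hξ), trivial⟩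
        exact (h2.contDiffAt h3).of_le (by norm_num)
      have h4 : ContDiffAt ℝ 2 (fun ξ : ℂ × ℂ => b1 ξ.1 * b2 ξ.2) ξ :=
        ((b1.contDiff (n := 2)).comp contDiff_fst).contDiffAt.mul
          ((b2.contDiff (n := 2)).comp contDiff_snd).contDiffAt
      exact h4.smul h1
    · have h5 : ∀ᶠ η : ℂ × ℂ in nhds ξ, F η = 0 := by
        have h6 : {w : ℂ | 15 * ρ / 16 < dist w z0} ∈ nhds ξ.1 := by
          refine (isOpen_lt continuous_const (continuous_id.dist continuous_const)).mem_nhds ?_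
          rw [Metric.mem_ball, not_lt] at hξ
          change 15 * ρ / 16 < dist ξ.1 z0
          linarith
        filter_upwards [continuous_fst.continuousAt.preimage_mem_nhds h6] with η hη
        have h7 : b1 η.1 = 0 := b1.zero_of_le_dist (le_of_lt hη)
        change (b1 η.1 * b2 η.2) • geoF c.u η = 0
        rw [h7, zero_mul, zero_smul]
      exact contDiffAt_const.congr_of_eventuallyEq h5
  have hFs : HasCompactSupport F := by
    refine HasCompactSupport.of_support_subset_isCompact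
      (K := Metric.closedBall z0 (15 * ρ / 16) ×ˢ Metric.closedBall (0 : ℂ) (Q + 2))
      ((isCompact_closedBall _ _).prod (isCompact_closedBall _ _)) ?_
    intro ξ hξ
    rw [Function.mem_support] at hξ
    refine ⟨?_, ?_⟩
    · by_contra h
      rw [Metric.mem_closedBall, not_le] at h
      apply hξ
      change (b1 ξ.1 * b2 ξ.2) • geoF c.u ξ = 0
      rw [b1.zero_of_le_dist h.le, zero_mul, zero_smul]
    · by_contra h
      rw [Metric.mem_closedBall, not_le] at h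
      apply hξ
      change (b1 ξ.1 * b2 ξ.2) • geoF c.u ξ = 0
      rw [b2.zero_of_le_dist h.le, mul_zero, zero_smul]
  obtain ⟨Φ, h0, hd, hC1⟩ := exists_flow_c1 hFc hFs
  refine ⟨Φ, hC1, h0, ?_⟩
  intro ξ hξ1 hξ2 t ht
  -- the region where the vector field is the geodesic one
  let D1 : Set (ℂ × ℂ) := {η | ‖η.1 - z0‖ < 7 * ρ / 8 ∧ ‖η.2‖ < Q + 1}
  let D2 : Set (ℂ × ℂ) := {η | ‖η.1 - z0‖ ≤ 3 * ρ / 4 ∧ ‖η.2‖ ≤ Q}
  have hD1 : IsOpen D1 :=
    (isOpen_lt (continuous_fst.sub continuous_const).norm continuous_const).inter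
      (isOpen_lt continuous_snd.norm continuous_const)
  have hD2 : IsClosed D2 :=
    (isClosed_le (continuous_fst.sub continuous_const).norm continuous_const).inter
      (isClosed_le continuous_snd.norm continuous_const)
  have hD21 : D2 ⊆ D1 := by
    rintro η ⟨h1, h2⟩
    exact ⟨by linarith, by linarith⟩
  have hFD : ∀ η ∈ D1, F η = geoF c.u η := by
    rintro η ⟨h1, h2⟩
    change (b1 η.1 * b2 η.2) • geoF c.u η = geoF c.u η
    rw [b1.one_of_mem_closedBall (by rw [mem_closedBall_iff_norm]; exact h1.le),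
      b2.one_of_mem_closedBall (by rw [mem_closedBall_zero_iff]; exact h2.le), one_mul, one_smul]
  have hclB : ∀ η : ℂ × ℂ, ‖η.1 - z0‖ < ρ → η.1 ∈ Metric.closedBall z0 ρ := by
    intro η h
    rw [mem_closedBall_iff_norm]; exact h.le
  -- bound on the second component
  have hsp : ∀ η : ℂ × ℂ, ‖η.1 - z0‖ < ρ → Real.exp (c.u η.1) * ‖η.2‖ ≤ P → ‖η.2‖ ≤ Q := by
    intro η h1 h2
    have h3 : -B ≤ c.u η.1 := (abs_le.mp (hB _ (hclB η h1))).1
    have h4 : Real.exp (-B) * ‖η.2‖ ≤ P :=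
      (mul_le_mul_of_nonneg_right (Real.exp_le_exp.mpr h3) (norm_nonneg _)).trans h2
    have h5 : Real.exp B * (Real.exp (-B) * ‖η.2‖) ≤ Real.exp B * P :=
      mul_le_mul_of_nonneg_left h4 (Real.exp_pos B).le
    rw [← mul_assoc, ← Real.exp_add, add_neg_cancel, Real.exp_zero, one_mul] at h5
    rw [hQ, mul_comm]
    exact h5
  have hξρ : ‖ξ.1 - z0‖ < ρ := by linarith
  have hξQ : ‖ξ.2‖ ≤ Q := hsp ξ hξρ hξ2
  have hξD : ξ ∈ D2 := ⟨by linarith, hξQ⟩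
  have hcont : Continuous fun s => Φ s ξ := continuous_iff_continuousAt.mpr fun s =>
    (hd s ξ).continuousAt
  let Z : ℝ → ℂ × ℂ := fun s => Φ (s * t) ξ
  have hZc : Continuous Z := hcont.comp (continuous_id.mul continuous_const)
  have hZ0 : Z 0 = ξ := by change Φ (0 * t) ξ = ξ; rw [zero_mul, h0]
  have hZd : ∀ s, HasDerivAt Z (t • F (Z s)) s := by
    intro s
    have h1 : HasDerivAt (fun s : ℝ => s * t) t s := by
      simpa using (hasDerivAt_id s).mul_const t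
    exact (hd (s * t) ξ).scomp s h1
  -- on an interval where the curve stays in `D1`
  have hL : ∀ a b : ℝ, a < 0 → 0 < b → (∀ s ∈ Set.Ioo a b, Z s ∈ D1) → ∀ s ∈ Set.Ioo a b,
      Real.exp (c.u (Z s).1) * ‖(Z s).2‖ = Real.exp (c.u ξ.1) * ‖ξ.2‖ ∧
        (0 ≤ s → s ≤ 1 → Z s ∈ D2) := by
    intro a b ha hb hab
    have hD1ρ : ∀ s ∈ Set.Ioo a b, ‖(Z s).1 - z0‖ < ρ := fun s hs => by
      have := (hab s hs).1
      linarith
    have hspeed : ∀ s ∈ Set.Ioo a b,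
        Real.exp (c.u (Z s).1) * ‖(Z s).2‖ = Real.exp (c.u ξ.1) * ‖ξ.2‖ := by
      intro s hs
      rcases eq_or_ne t 0 with rfl | ht0
      · have : Z s = ξ := by change Φ (s * 0) ξ = ξ; rw [mul_zero, h0]
        rw [this]
      · have hζ : ∀ r ∈ Set.Ioo a b, ((Z r).1, (t : ℂ) * (Z r).2).1 ∈ c.U ∧
            HasDerivAt (fun r => ((Z r).1, (t : ℂ) * (Z r).2))
              (geoF c.u ((Z r).1, (t : ℂ) * (Z r).2)) r := by
          intro r hr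
          refine ⟨hsub (hclB _ (hD1ρ r hr)), ?_⟩
          have h1 := hZd r
          rw [hFD _ (hab r hr)] at h1
          have h2 : HasDerivAt (fun r => (Z r).1) (t • (Z r).2) r := h1.fst
          have h3 : HasDerivAt (fun r => (Z r).2) (t • (-2 * uz c.u (Z r).1 * (Z r).2 ^ 2)) r :=
            h1.snd
          have h4 := h2.prodMk (h3.const_mul (t : ℂ))
          refine h4.congr_deriv ?_
          unfold geoF
          refine Prod.ext ?_ ?_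
          · simp [Complex.real_smul]
          · simp only [Complex.real_smul]
            ring
        have h5 := speed_const hc.isOpen hc.smooth hζ hs (t := 0) ⟨ha, hb⟩
        simp only [norm_mul, hZ0] at h5
        have h6 : ‖(t : ℂ)‖ ≠ 0 := by
          rw [Ne, norm_eq_zero]
          exact_mod_cast ht0
        have h7 : ‖(t : ℂ)‖ * (Real.exp (c.u (Z s).1) * ‖(Z s).2‖) =
            ‖(t : ℂ)‖ * (Real.exp (c.u ξ.1) * ‖ξ.2‖) := by linarith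
        exact mul_left_cancel₀ h6 h7
    have hnorm : ∀ s ∈ Set.Ioo a b, ‖(Z s).2‖ ≤ Q := fun s hs =>
      hsp _ (hD1ρ s hs) (by rw [hspeed s hs]; exact hξ2)
    intro s hs
    refine ⟨hspeed s hs, fun hs0 hs1 => ⟨?_, hnorm s hs⟩⟩
    have h1 := norm_image_sub_le_of_norm_deriv_le_segment' (f := fun r => (Z r).1)
      (f' := fun r => t • (Z r).2) (a := 0) (b := s) (C := |t| * Q) ?_ ?_ s ⟨hs0, le_rfl⟩
    · simp only [hZ0] at h1
      have h2 : |t| * Q * (s - 0) ≤ ρ / 4 := by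
        rw [sub_zero]
        have : 0 ≤ |t| * Q := by positivity
        nlinarith
      have h3 : (Z s).1 - z0 = ((Z s).1 - ξ.1) + (ξ.1 - z0) := by ring
      rw [h3]
      refine (norm_add_le _ _).trans ?_
      linarith
    · intro r hr
      have hr' : r ∈ Set.Ioo a b := ⟨ha.trans_le hr.1, hr.2.trans_lt hs.2⟩
      have h1 := hZd r
      rw [hFD _ (hab r hr')] at h1
      have h2 : HasDerivAt (fun r => (Z r).1) (t • (Z r).2) r := h1.fst
      exact h2.hasDerivWithinAt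
    · intro r hr
      have hr' : r ∈ Set.Ioo a b := ⟨ha.trans_le hr.1, hr.2.trans hs.2⟩
      rw [norm_smul, Real.norm_eq_abs]
      exact mul_le_mul_of_nonneg_left (hnorm r hr') (abs_nonneg t)
  -- a larger interval
  have hN : ∀ r : ℝ, 0 ≤ r → (∀ s ∈ Set.Icc 0 r, Z s ∈ D2) → ∃ δ : ℝ, 0 < δ ∧
      ∀ s ∈ Set.Ioo (-δ) (r + δ), Z s ∈ D1 := by
    intro r hr h
    have hO : IsOpen (Z ⁻¹' D1) := hD1.preimage hZc
    obtain ⟨δ1, hδ1, h1⟩ := Metric.isOpen_iff.mp hO 0 (hD21 (h 0 ⟨le_rfl, hr⟩))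
    obtain ⟨δ2, hδ2, h2⟩ := Metric.isOpen_iff.mp hO r (hD21 (h r ⟨hr, le_rfl⟩))
    refine ⟨min δ1 δ2, lt_min hδ1 hδ2, ?_⟩
    rintro s ⟨hs1, hs2⟩
    rcases lt_or_ge s 0 with h3 | h3
    · apply h1
      rw [Metric.mem_ball, Real.dist_eq, sub_zero, abs_of_neg h3]
      have := min_le_left δ1 δ2
      linarith
    · rcases le_or_gt s r with h4 | h4
      · exact hD21 (h s ⟨h3, h4⟩)
      · apply h2
        rw [Metric.mem_ball, Real.dist_eq, abs_of_pos (by linarith)]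
        have := min_le_right δ1 δ2
        linarith
  have hall : Set.Icc (0 : ℝ) 1 ⊆ Z ⁻¹' D2 := by
    refine IsClosed.Icc_subset_of_forall_mem_nhdsGT_of_Icc_subset
      ((hD2.preimage hZc).inter isClosed_Icc) ?_ ?_
    · rw [Set.mem_preimage, hZ0]; exact hξD
    · rintro r ⟨hr1, hr2⟩ hr3
      obtain ⟨δ, hδ, h1⟩ := hN r hr1 fun s hs => hr3 hs
      have h2 := hL (-δ) (r + δ) (by linarith) (by linarith) h1
      have h3 : Set.Ioo r (min (r + δ) 1) ∈ nhdsWithin r (Set.Ioi r) :=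
        Ioo_mem_nhdsGT (lt_min (by linarith) hr2)
      filter_upwards [h3] with s hs
      have h4 : s < r + δ := hs.2.trans_le (min_le_left _ _)
      have h5 : s < 1 := hs.2.trans_le (min_le_right _ _)
      exact (h2 s ⟨by linarith [hs.1], h4⟩).2 (by linarith [hs.1]) h5.le
  obtain ⟨δ, hδ, h1⟩ := hN 1 zero_le_one fun s hs => hall hs
  have h2 := hL (-δ) (1 + δ) (by linarith) (by linarith) h1 1 ⟨by linarith, by linarith⟩
  have hZ1 : Z 1 = Φ t ξ := by change Φ (1 * t) ξ = Φ t ξ; rw [one_mul]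
  have h3 : Z 1 ∈ D2 := hall ⟨zero_le_one, le_rfl⟩
  rw [hZ1] at h2 h3
  refine ⟨by linarith [h3.1], ?_, h2.1⟩
  rw [← hFD _ (hD21 h3)]
  exact hd t ξ

private theorem f10sEC2a_uz {u : ℂ → ℝ} {z : ℂ} (h : ContDiffAt ℝ 5 u z) :
    ContDiffAt ℝ 1 (uz u) z := by
  have h1 : ContDiffAt ℝ 1 (fderiv ℝ u) z := h.fderiv_right (by norm_num)
  have h2 : ContDiffAt ℝ 1 (fun w => fderiv ℝ u w 1) z := h1.clm_apply contDiffAt_const
  have h3 : ContDiffAt ℝ 1 (fun w => fderiv ℝ u w Complex.I) z := h1.clm_apply contDiffAt_const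
  have h4 : ContDiffAt ℝ 1 (fun w => ((fderiv ℝ u w 1 : ℝ) : ℂ)) z :=
    Complex.ofRealCLM.contDiff.contDiffAt.comp z h2
  have h5 : ContDiffAt ℝ 1 (fun w => ((fderiv ℝ u w Complex.I : ℝ) : ℂ)) z :=
    Complex.ofRealCLM.contDiff.contDiffAt.comp z h3
  exact (h4.sub (h5.mul contDiffAt_const)).div_const 2

private theorem f10sEC2a_geoF {u : ℂ → ℝ} {ξ : ℂ × ℂ} (h : ContDiffAt ℝ 5 u ξ.1) :
    ContDiffAt ℝ 1 (geoF u) ξ := by
  have h1 : ContDiffAt ℝ 1 (fun ζ : ℂ × ℂ => uz u ζ.1) ξ :=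
    (f10sEC2a_uz h).comp ξ contDiffAt_fst
  exact contDiffAt_snd.prodMk ((contDiffAt_const.mul h1).mul (contDiffAt_snd.pow 2))

/-- Row EC2. local uniqueness in a chart -/
theorem dat_unique {c : PC Y} (hc : IsPC κ c) {σ σ' : ℝ} {γ γ' : ℝ → Y} {t : ℝ}
    {ζ ζ' : ℝ → ℂ × ℂ} (h : Dat c σ γ t ζ) (h' : Dat c σ' γ' t ζ') (he : ζ t = ζ' t) :
    ∀ᶠ s in nhds t, ζ s = ζ' s := by
  have hU : (ζ t).1 ∈ c.U := h.self_of_nhds.1
  have hsm : ContDiffAt ℝ 5 c.u (ζ t).1 := hc.smooth.contDiffAt (hc.isOpen.mem_nhds hU)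
  obtain ⟨K, s, hs, hL⟩ := (f10sEC2a_geoF hsm).exists_lipschitzOnWith
  have hcont : ContinuousAt ζ t := h.self_of_nhds.2.2.1.continuousAt
  have hcont' : ContinuousAt ζ' t := h'.self_of_nhds.2.2.1.continuousAt
  have e1 : ∀ᶠ r in nhds t, ζ r ∈ s := hcont.eventually_mem hs
  have e2 : ∀ᶠ r in nhds t, ζ' r ∈ s := hcont'.eventually_mem (by rw [← he]; exact hs)
  exact ODE_solution_unique_of_eventually (v := fun _ => geoF c.u) (s := fun _ => s)
    (Filter.Eventually.of_forall fun _ => hL)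
    (by filter_upwards [h, e1] with r hr hr'; exact ⟨hr.2.2.1, hr'⟩)
    (by filter_upwards [h', e2] with r hr hr'; exact ⟨hr.2.2.1, hr'⟩) he

private theorem EC2b_cont {c : PC Y} (hc : IsPC κ c) {σ : ℝ} {γ : ℝ → Y} {t : ℝ}
    {ζ : ℝ → ℂ × ℂ} (h : Dat c σ γ t ζ) : ContinuousAt γ t := by
  have h0 := h.self_of_nhds
  have h1 : ContinuousAt ζ t := h0.2.2.1.continuousAt
  have h2 : ContinuousAt (fun s => (ζ s).1) t := h1.fst
  have h3 : ContinuousAt c.φ (ζ t).1 :=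
    hc.cont.continuousAt (hc.isOpen.mem_nhds h0.1)
  have h4 : ContinuousAt (fun s => c.φ (ζ s).1) t :=
    ContinuousAt.comp (f := fun s => (ζ s).1) (g := c.φ) h3 h2
  refine h4.congr ?_
  filter_upwards [h] with s hs
  exact hs.2.1

private theorem EC2b_state {c : PC Y} (hc : IsPC κ c) {σ σ' : ℝ} {γ γ' : ℝ → Y} {t : ℝ}
    {ζ ξ : ℝ → ℂ × ℂ} (h : Dat c σ γ t ζ) (h' : Dat c σ' γ' t ξ)
    (he : ∀ᶠ s in nhds t, γ s = γ' s) : ζ t = ξ t := by
  have h1 : ∀ᶠ s in nhds t, (ζ s).1 = (ξ s).1 := by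
    filter_upwards [h, h', he] with s hs hs' hes
    refine hc.inj hs.1 hs'.1 ?_
    rw [hs.2.1, hs'.2.1, hes]
  have d1 : HasDerivAt (fun s => (ζ s).1) (ζ t).2 t := by
    have := (hasFDerivAt_fst (𝕜 := ℝ) (E := ℂ) (F := ℂ) (p := ζ t)).comp_hasDerivAt t
      h.self_of_nhds.2.2.1
    exact this
  have d2 : HasDerivAt (fun s => (ξ s).1) (ξ t).2 t := by
    have := (hasFDerivAt_fst (𝕜 := ℝ) (E := ℂ) (F := ℂ) (p := ξ t)).comp_hasDerivAt t
      h'.self_of_nhds.2.2.1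
    exact this
  have h2 : (ζ t).2 = (ξ t).2 := (d1.congr_of_eventuallyEq
    (Filter.EventuallyEq.symm h1)).unique d2
  exact Prod.ext h1.self_of_nhds h2

private theorem EC2b_congr {c : PC Y} {σ : ℝ} {γ : ℝ → Y} {t : ℝ}
    {ζ ξ : ℝ → ℂ × ℂ} (h : Dat c σ γ t ξ) (he : ∀ᶠ s in nhds t, ζ s = ξ s) : Dat c σ γ t ζ := by
  unfold Dat at *
  filter_upwards [h, he, he.eventually_nhds] with s hs hes hes'
  rw [hes]
  exact ⟨hs.1, hs.2.1, hs.2.2.1.congr_of_eventuallyEq hes', hs.2.2.2⟩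

/-- Row EC2. Two geodesics with the same state (in some chart) at one point have the same state
everywhere: the set of these points is open (`dat_unique`) and closed (`conj_map`, limits). -/
theorem geo_unique (hA : IsAtlas κ A) {σ : ℝ} {γ γ' : ℝ → Y} {a b : ℝ}
    (h : ∀ t ∈ Set.Icc a b, GeoAt A σ γ t) (h' : ∀ t ∈ Set.Icc a b, GeoAt A σ γ' t) {t0 : ℝ}
    (ht0 : t0 ∈ Set.Icc a b) (h0 : ∃ c ∈ A, ∃ ζ, Dat c σ γ t0 ζ ∧ Dat c σ γ' t0 ζ) :
    ∀ t ∈ Set.Icc a b, ∃ c ∈ A, ∃ ζ, Dat c σ γ t ζ ∧ Dat c σ γ' t ζ := by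
  set u : Set ℝ := {t | ∃ c ∈ A, ∃ ζ, Dat c σ γ t ζ ∧ Dat c σ γ' t ζ} with hu
  have hopen : IsOpen u := by
    rw [isOpen_iff_eventually]
    rintro t ⟨c, hc, ζ, h1, h2⟩
    have k1 : ∀ᶠ s in nhds t, Dat c σ γ s ζ := Filter.Eventually.eventually_nhds h1
    have k2 : ∀ᶠ s in nhds t, Dat c σ γ' s ζ := Filter.Eventually.eventually_nhds h2
    filter_upwards [k1, k2] with s hs1 hs2
    exact ⟨c, hc, ζ, hs1, hs2⟩
  have hsub : Set.Icc a b ⊆ u := by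
    refine isPreconnected_Icc.subset_of_closure_inter_subset hopen ⟨t0, ht0, h0⟩ ?_
    rintro t ⟨htc, htI⟩
    have hfreq : ∃ᶠ s in nhds t, s ∈ u := mem_closure_iff_frequently.1 htc
    -- the curves agree near the points of `u`
    have hag : ∀ s ∈ u, ∀ᶠ x in nhds s, γ x = γ' x := by
      rintro s ⟨c, _, ζ, h1, h2⟩
      filter_upwards [h1, h2] with x hx1 hx2
      rw [← hx1.2.1, hx2.2.1]
    obtain ⟨c, hc, ζ, hζ⟩ := h t htI
    obtain ⟨c', hc', ζ', hζ'⟩ := h' t htI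
    have cont1 : ContinuousAt γ t := EC2b_cont (hA.pc c hc) hζ
    have cont2 : ContinuousAt γ' t := EC2b_cont (hA.pc c' hc') hζ'
    have hval : γ t = γ' t := by
      by_contra hne
      have := (cont1.prodMk cont2).eventually
        (isOpen_ne_fun continuous_fst continuous_snd |>.mem_nhds hne)
      obtain ⟨s, hs, hsu⟩ := (hfreq.and_eventually this).exists
      exact hsu (hag s hs).self_of_nhds
    have e1 := hζ.self_of_nhds
    have e2 := hζ'.self_of_nhds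
    obtain ⟨Ψ, l, _, _, hΨ, _⟩ := conj_map hA hc' hc e2.1 e1.1
      (by rw [e2.2.1, e1.2.1, hval])
    have hξ : Dat c σ γ' t (fun s => Ψ (ζ' s)) := hΨ σ γ' t ζ' rfl hζ'
    set ξ : ℝ → ℂ × ℂ := fun s => Ψ (ζ' s) with hξdef
    have hst : ζ t = ξ t := by
      by_contra hne
      have c1 : ContinuousAt ζ t := e1.2.2.1.continuousAt
      have c2 : ContinuousAt ξ t := hξ.self_of_nhds.2.2.1.continuousAt
      have hev := (c1.prodMk c2).eventually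
        (isOpen_ne_fun continuous_fst continuous_snd |>.mem_nhds hne)
      have k1 : ∀ᶠ s in nhds t, Dat c σ γ s ζ := Filter.Eventually.eventually_nhds hζ
      have k2 : ∀ᶠ s in nhds t, Dat c σ γ' s ξ := Filter.Eventually.eventually_nhds hξ
      obtain ⟨s, hs, hs1, hs2, hs3⟩ :=
        (hfreq.and_eventually (hev.and (k1.and k2))).exists
      exact hs1 (EC2b_state (hA.pc c hc) hs2 hs3 (hag s hs))
    have heq := dat_unique (hA.pc c hc) hζ hξ hst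
    exact ⟨c, hc, ζ, hζ, EC2b_congr hξ heq⟩
  exact fun t ht => hsub ht

omit [MetricSpace Y] in
theorem EC1a_congr {σ : ℝ} {γ γ' : ℝ → Y} {t : ℝ} (h : GeoAt A σ γ t) (he : γ' =ᶠ[nhds t] γ) :
    GeoAt A σ γ' t := by
  obtain ⟨c, hc, ζ, hζ⟩ := h
  refine ⟨c, hc, ζ, ?_⟩
  unfold Dat at hζ ⊢
  filter_upwards [hζ, he] with s h1 h2
  exact ⟨h1.1, by rw [h1.2.1, h2], h1.2.2⟩

/-- Row EC1. extension of a geodesic by a uniform time: `conj_map` to a chart of `hA.unif` at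
`γ b`, `chart_flow`, `dat_unique`; `γ'` is `γ` up to `b`. -/
theorem geo_extend (hA : IsAtlas κ A) {σ : ℝ} (hσ : 0 ≤ σ) : ∃ τ : ℝ, 0 < τ ∧
    ∀ (a b : ℝ) (γ : ℝ → Y), a ≤ b → (∀ t ∈ Set.Icc a b, GeoAt A σ γ t) →
      ∃ γ' : ℝ → Y, (∀ t ∈ Set.Icc a (b + τ), GeoAt A σ γ' t) ∧
        ∀ t ∈ Set.Icc a b, γ' =ᶠ[nhds t] γ := by
  obtain ⟨ρ, hρ, B, hunif⟩ := hA.unif
  have hq : 0 < σ * Real.exp B + 1 := by positivity
  refine ⟨ρ / (8 * (σ * Real.exp B + 1)), by positivity, ?_⟩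
  set τ := ρ / (8 * (σ * Real.exp B + 1)) with hτ
  have hτpos : 0 < τ := by positivity
  have hsmall : ∀ t : ℝ, |t| < 2 * τ → |t| * (σ * Real.exp B) ≤ ρ / 4 := by
    intro t ht
    have h1 : |t| * (σ * Real.exp B) ≤ (2 * τ) * (σ * Real.exp B + 1) := by
      have h2 : 0 ≤ σ * Real.exp B := by positivity
      exact mul_le_mul ht.le (by linarith) h2 (by positivity)
    have h3 : (2 * τ) * (σ * Real.exp B + 1) = ρ / 4 := by
      rw [hτ]
      field_simp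
      ring
    linarith
  intro a b γ hab hgeo
  obtain ⟨c₁, hc₁, ζ₁, hζ₁⟩ := hgeo b ⟨hab, le_refl b⟩
  obtain ⟨c, hc, z, hcz, hball, hBu⟩ := hunif (γ b)
  have h1 := hζ₁.self_of_nhds
  have hzU : z ∈ c.U := hball (Metric.mem_closedBall_self hρ.le)
  obtain ⟨Ψ, l, -, hΨ, hΨD, -⟩ := conj_map hA hc₁ hc h1.1 hzU (by rw [h1.2.1, hcz])
  have hζ : Dat c σ γ b (fun s => Ψ (ζ₁ s)) := hΨD σ γ b ζ₁ rfl hζ₁
  have hξ1 : (Ψ (ζ₁ b)).1 = z := by
    have : ζ₁ b = ((ζ₁ b).1, (ζ₁ b).2) := rfl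
    rw [this, hΨ]
  have h2 := hζ.self_of_nhds
  obtain ⟨Φ, -, hΦ0, hΦ⟩ := chart_flow (hA.pc c hc) hρ hσ hball hBu
  have hflow := hΦ (Ψ (ζ₁ b)) (by rw [hξ1, sub_self, norm_zero]; positivity) h2.2.2.2.le
  set ζ' : ℝ → ℂ × ℂ := fun s => Φ (s - b) (Ψ (ζ₁ b)) with hζ'
  set γ'' : ℝ → Y := fun s => c.φ (ζ' s).1 with hγ''
  have hDat : ∀ t : ℝ, |t - b| < 2 * τ → Dat c σ γ'' t ζ' := by
    intro t ht
    have hev : ∀ᶠ s in nhds t, |s - b| < 2 * τ :=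
      (continuous_abs.comp (continuous_id.sub continuous_const)).continuousAt.eventually
        (gt_mem_nhds ht)
    unfold Dat
    filter_upwards [hev] with s hs
    obtain ⟨h3, h4, h5⟩ := hflow (s - b) (hsmall _ hs)
    refine ⟨hball (Metric.mem_closedBall.2 (by rw [dist_eq_norm]; exact h3.le)), rfl, ?_, ?_⟩
    · exact HasDerivAt.comp_sub_const s b h4
    · rw [h5]
      exact h2.2.2.2
  have heq : γ'' =ᶠ[nhds b] γ := by
    have h3 := dat_unique (hA.pc c hc) hζ (hDat b (by simp; positivity)) (by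
      rw [hζ']
      simp only [sub_self]
      rw [hΦ0])
    filter_upwards [h3, hζ] with s hs hs'
    rw [hγ'']
    simp only
    rw [← hs]
    exact hs'.2.1
  classical
  set γ' : ℝ → Y := fun s => if s ≤ b then γ s else γ'' s with hγ'
  have hleft : ∀ t ∈ Set.Icc a b, γ' =ᶠ[nhds t] γ := by
    intro t ht
    rcases ht.2.lt_or_eq with h | h
    · filter_upwards [gt_mem_nhds h] with s hs
      rw [hγ']
      simp only
      rw [if_pos hs.le]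
    · subst h
      filter_upwards [heq] with s hs
      rw [hγ']
      simp only
      split_ifs
      · rfl
      · exact hs
  refine ⟨γ', fun t ht => ?_, hleft⟩
  by_cases htb : t ≤ b
  · exact EC1a_congr (hgeo t ⟨ht.1, htb⟩) (hleft t ⟨ht.1, htb⟩)
  · rw [not_le] at htb
    have h3 : GeoAt A σ γ'' t := by
      refine ⟨c, hc, ζ', hDat t ?_⟩
      rw [abs_of_pos (by linarith)]
      have := ht.2
      linarith
    refine EC1a_congr h3 ?_
    filter_upwards [lt_mem_nhds htb] with s hs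
    rw [hγ']
    simp only
    rw [if_neg (not_le.2 hs)]

/-- Row EC1. time reversal `(z, p) ↦ (z(-s), -p(-s))` -/
theorem geo_rev {σ : ℝ} {γ : ℝ → Y} {t : ℝ} (h : GeoAt A σ γ t) :
    GeoAt A σ (fun s => γ (-s)) (-t) := by
  obtain ⟨c, hc, ζ, hζ⟩ := h
  refine ⟨c, hc, fun s => ((ζ (-s)).1, -(ζ (-s)).2), ?_⟩
  have hneg : Filter.Tendsto (fun s : ℝ => -s) (nhds (-t)) (nhds t) := by
    have : Filter.Tendsto (fun s : ℝ => -s) (nhds (-t)) (nhds (- -t)) :=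
      continuous_neg.tendsto (-t)
    rwa [neg_neg] at this
  unfold Dat at hζ ⊢
  filter_upwards [hneg.eventually hζ] with s hs
  obtain ⟨h1, h2, h3, h4⟩ := hs
  refine ⟨h1, h2, ?_, ?_⟩
  · have h5 : HasDerivAt (fun s => ζ (-s)) (-(geoF c.u (ζ (-s)))) s := by
      have h6 := HasDerivAt.scomp s h3 (hasDerivAt_neg s)
      simpa [Function.comp_def] using h6
    have h7 : HasDerivAt (fun s => (ζ (-s)).1) (-(geoF c.u (ζ (-s)))).1 s :=
      (ContinuousLinearMap.fst ℝ ℂ ℂ).hasFDerivAt.comp_hasDerivAt s h5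
    have h8 : HasDerivAt (fun s => (ζ (-s)).2) (-(geoF c.u (ζ (-s)))).2 s :=
      (ContinuousLinearMap.snd ℝ ℂ ℂ).hasFDerivAt.comp_hasDerivAt s h5
    have h9 := h7.prodMk h8.neg
    have h10 : ((-(geoF c.u (ζ (-s)))).1, -(-(geoF c.u (ζ (-s)))).2) =
        geoF c.u ((ζ (-s)).1, -(ζ (-s)).2) := by
      unfold geoF
      simp
    rw [h10] at h9
    exact h9
  · simpa using h4

omit [MetricSpace Y] in
theorem exists_geo_congr {c : PC Y} {σ : ℝ} {γ γ' : ℝ → Y} {t : ℝ} {ζ : ℝ → ℂ × ℂ}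
    (h : Dat c σ γ t ζ) (he : γ' =ᶠ[nhds t] γ) : Dat c σ γ' t ζ := by
  unfold Dat at h ⊢
  filter_upwards [h, he] with s hs hes
  rw [hes]
  exact hs

theorem exists_geo_ext (hA : IsAtlas κ A) {σ : ℝ} (hσ : 0 ≤ σ) (R : ℝ) {a b : ℝ} {γ : ℝ → Y}
    (hab : a ≤ b) (h : ∀ t ∈ Set.Icc a b, GeoAt A σ γ t) :
    ∃ γ' : ℝ → Y, (∀ t ∈ Set.Icc a R, GeoAt A σ γ' t) ∧ ∀ t ∈ Set.Icc a b, γ' =ᶠ[nhds t] γ := by
  obtain ⟨τ, hτ, hext⟩ := geo_extend hA hσ
  have key : ∀ n : ℕ, ∃ γ' : ℝ → Y, (∀ t ∈ Set.Icc a (b + n * τ), GeoAt A σ γ' t) ∧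
      ∀ t ∈ Set.Icc a b, γ' =ᶠ[nhds t] γ := by
    intro n
    induction n with
    | zero =>
      refine ⟨γ, ?_, fun t _ => Filter.EventuallyEq.rfl⟩
      simpa using h
    | succ n ih =>
      obtain ⟨γ', h1, h2⟩ := ih
      have hn : a ≤ b + n * τ := by
        have : (0 : ℝ) ≤ n * τ := by positivity
        linarith
      obtain ⟨γ'', h3, h4⟩ := hext a (b + n * τ) γ' hn h1
      refine ⟨γ'', ?_, ?_⟩
      · have e : b + ((n + 1 : ℕ) : ℝ) * τ = b + n * τ + τ := by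
          push_cast
          ring
        rw [e]
        exact h3
      · intro t ht
        have ht' : t ∈ Set.Icc a (b + n * τ) := by
          refine ⟨ht.1, ht.2.trans ?_⟩
          have : (0 : ℝ) ≤ n * τ := by positivity
          linarith
        exact (h4 t ht').trans (h2 t ht)
  obtain ⟨n, hn⟩ := exists_nat_ge ((R - b) / τ)
  obtain ⟨γ', h1, h2⟩ := key n
  refine ⟨γ', ?_, h2⟩
  intro t ht
  apply h1 t
  refine ⟨ht.1, ht.2.trans ?_⟩
  rw [div_le_iff₀ hτ] at hn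
  linarith

/-- Row EC1. existence of a geodesic with given initial values, on `[-2, 2]` -/
theorem exists_geo (hA : IsAtlas κ A) {c : PC Y} (hc : c ∈ A) {z0 : ℂ} (hz : z0 ∈ c.U) (p0 : ℂ) :
    ∃ (γ : ℝ → Y) (ζ : ℝ → ℂ × ℂ),
      (∀ t ∈ Set.Icc (-2 : ℝ) 2, GeoAt A (Real.exp (c.u z0) * ‖p0‖) γ t) ∧
      Dat c (Real.exp (c.u z0) * ‖p0‖) γ 0 ζ ∧ ζ 0 = (z0, p0) := by
  have hpc := hA.pc c hc
  set σ : ℝ := Real.exp (c.u z0) * ‖p0‖ with hσdef
  have hσ : 0 ≤ σ := by positivity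
  obtain ⟨ρ, hρ, hsub⟩ : ∃ ρ : ℝ, 0 < ρ ∧ Metric.closedBall z0 ρ ⊆ c.U := by
    obtain ⟨r, hr, hr2⟩ := Metric.isOpen_iff.1 hpc.isOpen z0 hz
    refine ⟨r / 2, by positivity, ?_⟩
    exact (Metric.closedBall_subset_ball (by linarith)).trans hr2
  obtain ⟨B, hB⟩ : ∃ B : ℝ, ∀ w ∈ Metric.closedBall z0 ρ, |c.u w| ≤ B := by
    have hcont : ContinuousOn (fun w => c.u w) (Metric.closedBall z0 ρ) :=
      hpc.smooth.continuousOn.mono hsub
    obtain ⟨B, hB⟩ := (isCompact_closedBall z0 ρ).exists_bound_of_continuousOn hcont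
    exact ⟨B, fun w hw => by simpa using hB w hw⟩
  obtain ⟨Φ, -, hΦ0, hΦ⟩ := chart_flow hpc hρ hσ hsub hB
  have hC : 0 ≤ σ * Real.exp B := by positivity
  set δ : ℝ := ρ / (4 * (σ * Real.exp B + 1)) with hδdef
  have hδ : 0 < δ := by positivity
  have hδt : ∀ t : ℝ, |t| < δ → |t| * (σ * Real.exp B) ≤ ρ / 4 := by
    intro t ht
    have h1 : |t| * (σ * Real.exp B) ≤ δ * (σ * Real.exp B + 1) := by
      apply mul_le_mul ht.le (by linarith) hC hδ.le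
    have h2 : δ * (σ * Real.exp B + 1) = ρ / 4 := by
      rw [hδdef]
      field_simp
    linarith
  have hloc := hΦ (z0, p0) (by simp; positivity) le_rfl
  set ζ : ℝ → ℂ × ℂ := fun t => Φ t (z0, p0) with hζdef
  have hζ0 : ζ 0 = (z0, p0) := hΦ0 _
  set γ0 : ℝ → Y := fun t => c.φ (ζ t).1 with hγ0
  have hDat : ∀ t : ℝ, |t| < δ → Dat c σ γ0 t ζ := by
    intro t ht
    have hU : {s : ℝ | |s| < δ} ∈ nhds t := (isOpen_lt continuous_abs continuous_const).mem_nhds ht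
    unfold Dat
    filter_upwards [hU] with s hs
    obtain ⟨k1, k2, k3⟩ := hloc s (hδt s hs)
    refine ⟨hsub ?_, rfl, k2, k3⟩
    rw [Metric.mem_closedBall, dist_eq_norm]
    exact k1.le
  have hg0 : ∀ t ∈ Set.Icc (-(δ / 2)) (δ / 2), GeoAt A σ γ0 t := by
    intro t ht
    refine ⟨c, hc, ζ, hDat t ?_⟩
    rw [abs_lt]
    constructor <;> linarith [ht.1, ht.2]
  obtain ⟨γ1, hg1, he1⟩ := exists_geo_ext hA hσ 2 (by linarith) hg0
  have hg1r : ∀ t ∈ Set.Icc (-2 : ℝ) (δ / 2), GeoAt A σ (fun s => γ1 (-s)) t := by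
    intro t ht
    have := geo_rev (hg1 (-t) ⟨by linarith [ht.2], by linarith [ht.1]⟩)
    rwa [neg_neg] at this
  obtain ⟨γ2, hg2, he2⟩ := exists_geo_ext hA hσ 2 (by linarith) hg1r
  refine ⟨fun s => γ2 (-s), ζ, ?_, ?_, hζ0⟩
  · intro t ht
    have := geo_rev (hg2 (-t) ⟨by linarith [ht.2], by linarith [ht.1]⟩)
    rwa [neg_neg] at this
  · apply exists_geo_congr (hDat 0 (by simpa using hδ))
    have k1 : γ1 =ᶠ[nhds 0] γ0 := he1 0 ⟨by linarith, by linarith⟩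
    have k2 : γ2 =ᶠ[nhds 0] (fun s => γ1 (-s)) := he2 0 ⟨by linarith, by linarith⟩
    have hneg : Filter.Tendsto (fun s : ℝ => -s) (nhds 0) (nhds 0) := by
      have : Filter.Tendsto (fun s : ℝ => -s) (nhds 0) (nhds (-0)) := continuous_neg.tendsto 0
      rwa [neg_zero] at this
    filter_upwards [hneg.eventually k2, k1] with s h1 h2
    rw [h1, neg_neg, h2]

omit [MetricSpace Y] in
/-- a family of geodesics at `(t0, v)` for `v` near `v0` -/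
private theorem good_step_fdat {c : PC Y} {γ : ℝ → ℂ → Y} {t0 : ℝ} {v0 : ℂ}
    {ζ : ℝ → ℂ → ℂ × ℂ} (h : FDat c γ t0 v0 ζ) :
    ∀ᶠ v in nhds v0, Dat c ‖v‖ (fun s => γ s v) t0 (fun s => ζ s v) := by
  have h1 := h.2.eventually_nhds
  have hT : Filter.Tendsto (fun v : ℂ => ((t0, v) : ℝ × ℂ)) (nhds v0) (nhds (t0, v0)) :=
    (Continuous.prodMk_right t0).tendsto v0
  filter_upwards [hT.eventually h1] with v hv
  have hS : Filter.Tendsto (fun s : ℝ => ((s, v) : ℝ × ℂ)) (nhds t0) (nhds (t0, v)) :=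
    (Continuous.prodMk_left v).tendsto t0
  exact hS.eventually hv

/-- Row EC3a. If the family is `C¹` at `(t0, v0)` it is `C¹` at `(t, v0)`, `t0 ≤ t ≤ t0 + τ`:
`conj_map` to a chart of `hA.unif` at `γ t0 v0`; for `v` near `v0` the geodesics
`φ (Φ (t - t0) (ζ t0 v))` (`chart_flow`) and `γ t v` agree by `geo_unique`. -/
theorem good_step (hA : IsAtlas κ A) (S : ℝ) : ∃ τ : ℝ, 0 < τ ∧ ∀ γ : ℝ → ℂ → Y,
    (∀ v : ℂ, ‖v‖ < S → ∀ t ∈ Set.Icc (-2 : ℝ) 2, GeoAt A ‖v‖ (fun s => γ s v) t) →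
    ∀ v0 : ℂ, ‖v0‖ < S → ∀ t0 ∈ Set.Icc (0 : ℝ) 1, GoodAt A γ t0 v0 →
      ∀ t : ℝ, t0 ≤ t → t ≤ t0 + τ → t ≤ 1 → GoodAt A γ t v0 := by
  obtain ⟨ρ, hρ, B, hun⟩ := hA.unif
  set P : ℝ := |S| with hP
  have hP0 : 0 ≤ P := abs_nonneg S
  set q : ℝ := P * Real.exp B with hq
  have hq0 : 0 ≤ q := mul_nonneg hP0 (Real.exp_pos B).le
  set τ1 : ℝ := min (ρ / 4 / (q + 1)) 1 with hτ1
  have hτ1pos : 0 < τ1 := lt_min (by positivity) one_pos
  have hτ1le : τ1 ≤ 1 := min_le_right _ _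
  have hτ1q : τ1 * q ≤ ρ / 4 := by
    have h1 : τ1 ≤ ρ / 4 / (q + 1) := min_le_left _ _
    calc τ1 * q ≤ (ρ / 4 / (q + 1)) * q := mul_le_mul_of_nonneg_right h1 hq0
      _ ≤ (ρ / 4 / (q + 1)) * (q + 1) := by
        apply mul_le_mul_of_nonneg_left (by linarith) (by positivity)
      _ = ρ / 4 := by field_simp
  refine ⟨τ1 / 4, by positivity, ?_⟩
  intro γ hγ v0 hv0 t0 ht0 hgood t ht0t htτ _
  obtain ⟨c, hc, ζ, hζ⟩ := hgood
  obtain ⟨hz1, hz2, -, -⟩ := hζ.2.self_of_nhds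
  obtain ⟨c', hc', z', hz', hsub, hB⟩ := hun (γ t0 v0)
  have hz'U : z' ∈ c'.U := hsub (Metric.mem_closedBall_self hρ.le)
  have hzz : c.φ (ζ t0 v0).1 = c'.φ z' := by rw [hz']; exact hz2
  obtain ⟨Ψ, l, -, hΨ, -, hΨF⟩ := conj_map hA hc hc' hz1 hz'U hzz
  have hF := hΨF γ t0 v0 ζ rfl hζ
  set ζ' : ℝ → ℂ → ℂ × ℂ := fun s w => Ψ (ζ s w) with hζ'
  have hζ'0 : (ζ' t0 v0).1 = z' := by
    have h1 : ζ' t0 v0 = (z', l * (ζ t0 v0).2) := hΨ (ζ t0 v0).2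
    rw [h1]
  obtain ⟨Φ, hΦc, hΦ0, hΦ⟩ := chart_flow (hA.pc c' hc') hρ hP0 hsub hB
  have hT : Filter.Tendsto (fun v : ℂ => ((t0, v) : ℝ × ℂ)) (nhds v0) (nhds (t0, v0)) :=
    (Continuous.prodMk_right t0).tendsto v0
  -- smoothness of the initial values
  have hini : ContDiffAt ℝ 1 (fun v : ℂ => ζ' t0 v) v0 := by
    have h1 : ContDiffAt ℝ 1 (fun v : ℂ => ((t0, v) : ℝ × ℂ)) v0 :=
      contDiffAt_const.prodMk contDiffAt_id
    exact ContDiffAt.comp v0 (g := fun q : ℝ × ℂ => ζ' q.1 q.2) hF.1 h1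
  have hnear : ∀ᶠ v in nhds v0, ‖(ζ' t0 v).1 - z'‖ < ρ / 2 := by
    have h1 : Filter.Tendsto (fun v : ℂ => ‖(ζ' t0 v).1 - z'‖) (nhds v0)
        (nhds ‖(ζ' t0 v0).1 - z'‖) :=
      ((continuous_fst.continuousAt.comp hini.continuousAt).sub continuousAt_const).norm
    rw [hζ'0, sub_self, norm_zero] at h1
    exact h1.eventually_lt_const (by positivity)
  have hSev : ∀ᶠ v : ℂ in nhds v0, ‖v‖ < S :=
    (continuous_norm.tendsto v0).eventually_lt_const hv0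
  have hdat := good_step_fdat hF
  -- the geodesics in the new chart
  have hnew : ∀ v : ℂ, ‖v‖ < S → ‖(ζ' t0 v).1 - z'‖ < ρ / 2 →
      Dat c' ‖v‖ (fun s => γ s v) t0 (fun s => ζ' s v) →
      ∀ s : ℝ, |s - t0| < τ1 → ‖(Φ (s - t0) (ζ' t0 v)).1 - z'‖ < ρ ∧
        HasDerivAt (fun s' => Φ (s' - t0) (ζ' t0 v)) (geoF c'.u (Φ (s - t0) (ζ' t0 v))) s ∧
        Real.exp (c'.u (Φ (s - t0) (ζ' t0 v)).1) * ‖(Φ (s - t0) (ζ' t0 v)).2‖ = ‖v‖ := by
    intro v hvS hvn hvd s hs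
    have hsp : Real.exp (c'.u (ζ' t0 v).1) * ‖(ζ' t0 v).2‖ = ‖v‖ := hvd.self_of_nhds.2.2.2
    have hle : Real.exp (c'.u (ζ' t0 v).1) * ‖(ζ' t0 v).2‖ ≤ P := by
      rw [hsp]
      exact hvS.le.trans (le_abs_self S)
    have hts : |s - t0| * (P * Real.exp B) ≤ ρ / 4 :=
      (mul_le_mul_of_nonneg_right hs.le hq0).trans hτ1q
    obtain ⟨h1, h2, h3⟩ := hΦ (ζ' t0 v) hvn.le hle (s - t0) hts
    refine ⟨h1, ?_, h3.trans hsp⟩
    have h4 := h2.scomp s ((hasDerivAt_id s).sub_const t0)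
    simpa [Function.comp_def] using h4
  have hnewDat : ∀ v : ℂ, ‖v‖ < S → ‖(ζ' t0 v).1 - z'‖ < ρ / 2 →
      Dat c' ‖v‖ (fun s => γ s v) t0 (fun s => ζ' s v) →
      ∀ s : ℝ, |s - t0| < τ1 → Dat c' ‖v‖ (fun s => c'.φ (Φ (s - t0) (ζ' t0 v)).1) s
        (fun s => Φ (s - t0) (ζ' t0 v)) := by
    intro v hvS hvn hvd s hs
    have hop : ∀ᶠ s' in nhds s, |s' - t0| < τ1 := by
      have : Filter.Tendsto (fun s' : ℝ => |s' - t0|) (nhds s) (nhds |s - t0|) :=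
        ((continuous_id.sub continuous_const).abs).tendsto s
      exact this.eventually_lt_const hs
    filter_upwards [hop] with s' hs'
    obtain ⟨h1, h2, h3⟩ := hnew v hvS hvn hvd s' hs'
    exact ⟨hsub (by rw [Metric.mem_closedBall, dist_eq_norm]; exact h1.le), rfl, h2, h3⟩
  have hagree : ∀ v : ℂ, ‖v‖ < S → ‖(ζ' t0 v).1 - z'‖ < ρ / 2 →
      Dat c' ‖v‖ (fun s => γ s v) t0 (fun s => ζ' s v) →
      ∀ s : ℝ, |s - t0| < τ1 → c'.φ (Φ (s - t0) (ζ' t0 v)).1 = γ s v := by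
    intro v hvS hvn hvd s hs
    set b : ℝ := |s - t0| with hb
    have hb0 : 0 ≤ b := abs_nonneg _
    have hin : ∀ r ∈ Set.Icc (t0 - b) (t0 + b), |r - t0| < τ1 := by
      intro r hr
      refine lt_of_le_of_lt ?_ hs
      rw [abs_le]
      exact ⟨by linarith [hr.1], by linarith [hr.2]⟩
    have g1 : ∀ r ∈ Set.Icc (t0 - b) (t0 + b), GeoAt A ‖v‖ (fun s => γ s v) r := by
      intro r hr
      refine hγ v hvS r ⟨?_, ?_⟩
      · linarith [hr.1, ht0.1]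
      · linarith [hr.2, ht0.2]
    have g2 : ∀ r ∈ Set.Icc (t0 - b) (t0 + b),
        GeoAt A ‖v‖ (fun s => c'.φ (Φ (s - t0) (ζ' t0 v)).1) r := fun r hr =>
      ⟨c', hc', _, hnewDat v hvS hvn hvd r (hin r hr)⟩
    have ht0b : t0 ∈ Set.Icc (t0 - b) (t0 + b) := ⟨by linarith, by linarith⟩
    have hd0 := hnewDat v hvS hvn hvd t0 (by simpa using hτ1pos)
    have heq : ∀ᶠ r in nhds t0, ζ' r v = Φ (r - t0) (ζ' t0 v) :=
      dat_unique (hA.pc c' hc') hvd hd0 (by simp [hΦ0])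
    have hd1 : Dat c' ‖v‖ (fun s => γ s v) t0 (fun s => Φ (s - t0) (ζ' t0 v)) := by
      filter_upwards [hvd, hd0, heq] with r h1 h2 h3
      refine ⟨h2.1, ?_, h2.2.2.1, h2.2.2.2⟩
      have h4 := h1.2.1
      rw [← h3]
      exact h4
    obtain ⟨c2, -, ζ2, e1, e2⟩ := geo_unique hA g1 g2 ht0b ⟨c', hc', _, hd1, hd0⟩ s
      ⟨by have := neg_abs_le (s - t0); linarith, by have := le_abs_self (s - t0); linarith⟩
    exact e2.self_of_nhds.2.1.symm.trans e1.self_of_nhds.2.1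
  refine ⟨c', hc', fun s v => Φ (s - t0) (ζ' t0 v), ?_, ?_⟩
  · have h1 : ContDiffAt ℝ 1 (fun q : ℝ × ℂ => ((q.1 - t0, ζ' t0 q.2) : ℝ × (ℂ × ℂ))) (t, v0) := by
      refine (contDiffAt_fst.sub contDiffAt_const).prodMk ?_
      exact ContDiffAt.comp (t, v0) (g := fun v : ℂ => ζ' t0 v) (f := Prod.snd) hini contDiffAt_snd
    exact (hΦc.contDiffAt (x := (t - t0, ζ' t0 v0))).comp (t, v0) h1
  · have hs : ∀ᶠ s in nhds t, |s - t0| < τ1 := by
      have h1 : Filter.Tendsto (fun s' : ℝ => |s' - t0|) (nhds t) (nhds |t - t0|) :=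
        ((continuous_id.sub continuous_const).abs).tendsto t
      refine h1.eventually_lt_const ?_
      rw [abs_of_nonneg (by linarith)]
      linarith
    filter_upwards [hs.prod_nhds ((hSev.and hnear).and hdat)] with q hq'
    obtain ⟨hq1, ⟨hq2, hq3⟩, hq4⟩ := hq'
    obtain ⟨h1, h2, h3⟩ := hnew q.2 hq2 hq3 hq4 q.1 hq1
    exact ⟨hsub (by rw [Metric.mem_closedBall, dist_eq_norm]; exact h1.le),
      hagree q.2 hq2 hq3 hq4 q.1 hq1, h2, h3⟩

private theorem EC3b_bound {c : PC Y} (hc : IsPC κ c) {z0 : ℂ} (hz : z0 ∈ c.U) :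
    ∃ ρ : ℝ, 0 < ρ ∧ Metric.closedBall z0 ρ ⊆ c.U ∧
      ∃ B : ℝ, ∀ w ∈ Metric.closedBall z0 ρ, |c.u w| ≤ B := by
  obtain ⟨ρ, hρ, hsub⟩ := Metric.nhds_basis_closedBall.mem_iff.1 (hc.isOpen.mem_nhds hz)
  refine ⟨ρ, hρ, hsub, ?_⟩
  have hcont : ContinuousOn c.u (Metric.closedBall z0 ρ) := (hc.smooth.continuousOn).mono hsub
  obtain ⟨B, hB⟩ := (isCompact_closedBall z0 ρ).exists_bound_of_continuousOn hcont
  exact ⟨B, fun w hw => by simpa [Real.norm_eq_abs] using hB w hw⟩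

theorem good_init (hA : IsAtlas κ A) {S : ℝ} {c : PC Y} (hc : c ∈ A) {z0 : ℂ} (hz : z0 ∈ c.U)
    {γ : ℝ → ℂ → Y}
    (h : ∀ v : ℂ, ‖v‖ < S → ∀ t ∈ Set.Icc (-2 : ℝ) 2, GeoAt A ‖v‖ (fun s => γ s v) t)
    (h0 : ∀ v : ℂ, ‖v‖ < S → ∃ ζ : ℝ → ℂ × ℂ, Dat c ‖v‖ (fun s => γ s v) 0 ζ ∧
      ζ 0 = (z0, (Real.exp (-c.u z0) : ℝ) * v)) :
    ∀ v : ℂ, ‖v‖ < S → GoodAt A γ 0 v ∧ InitAt A γ (c.φ z0) v := by
  intro v hv
  have hpc := hA.pc c hc
  have hS : 0 < S := lt_of_le_of_lt (norm_nonneg v) hv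
  obtain ⟨ρ, hρ, hsub, B, hB⟩ := EC3b_bound hpc hz
  obtain ⟨Φ, hΦ, hΦ0, hfl⟩ := chart_flow (P := S) hpc hρ hS.le hsub hB
  have hK : 0 < S * Real.exp B := mul_pos hS (Real.exp_pos B)
  obtain ⟨δ, hδ, hδ2, hδK⟩ : ∃ δ : ℝ, 0 < δ ∧ δ ≤ 2 ∧ 2 * δ * (S * Real.exp B) ≤ ρ / 4 := by
    refine ⟨min 2 (ρ / 8 / (S * Real.exp B)), lt_min (by norm_num) (by positivity),
      min_le_left _ _, ?_⟩
    have h1 : min 2 (ρ / 8 / (S * Real.exp B)) ≤ ρ / 8 / (S * Real.exp B) := min_le_right _ _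
    have h2 : min 2 (ρ / 8 / (S * Real.exp B)) * (S * Real.exp B) ≤ ρ / 8 := by
      calc _ ≤ (ρ / 8 / (S * Real.exp B)) * (S * Real.exp B) :=
            mul_le_mul_of_nonneg_right h1 hK.le
        _ = ρ / 8 := by field_simp
    linarith
  -- the initial state
  let ξ : ℂ → ℂ × ℂ := fun w => (z0, ((Real.exp (-c.u z0) : ℝ) : ℂ) * w)
  have hξ : ContDiff ℝ 1 ξ := by
    refine contDiff_const.prodMk ?_
    exact contDiff_const.mul contDiff_id
  have hspeed : ∀ w : ℂ, Real.exp (c.u (ξ w).1) * ‖(ξ w).2‖ = ‖w‖ := by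
    intro w
    simp only [ξ, norm_mul, Complex.norm_real, Real.norm_eq_abs, abs_of_pos (Real.exp_pos _)]
    rw [← mul_assoc, ← Real.exp_add]
    simp
  -- properties of the flow
  have hfl2 : ∀ w : ℂ, ‖w‖ < S → ∀ t : ℝ, |t| < 2 * δ →
      (Φ t (ξ w)).1 ∈ c.U ∧ HasDerivAt (fun s => Φ s (ξ w)) (geoF c.u (Φ t (ξ w))) t ∧
        Real.exp (c.u (Φ t (ξ w)).1) * ‖(Φ t (ξ w)).2‖ = ‖w‖ := by
    intro w hw t ht
    have h1 : |t| * (S * Real.exp B) ≤ ρ / 4 :=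
      (mul_le_mul_of_nonneg_right ht.le hK.le).trans hδK
    obtain ⟨ha, hb, hd⟩ := hfl (ξ w) (by simp [ξ]; positivity) (by rw [hspeed]; exact hw.le) t h1
    refine ⟨hsub ?_, hb, by rw [hd, hspeed]⟩
    rw [Metric.mem_closedBall, dist_eq_norm]
    exact ha.le
  have hdat : ∀ w : ℂ, ‖w‖ < S → ∀ t : ℝ, |t| < 2 * δ →
      Dat c ‖w‖ (fun s => c.φ (Φ s (ξ w)).1) t (fun s => Φ s (ξ w)) := by
    intro w hw t ht
    have ho : ∀ᶠ s : ℝ in nhds t, |s| < 2 * δ :=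
      (continuous_abs.tendsto t).eventually (gt_mem_nhds ht)
    filter_upwards [ho] with s hs
    obtain ⟨ha, hb, hd⟩ := hfl2 w hw s hs
    exact ⟨ha, rfl, hb, hd⟩
  have heq : ∀ w : ℂ, ‖w‖ < S → ∀ t : ℝ, |t| ≤ δ → c.φ (Φ t (ξ w)).1 = γ t w := by
    intro w hw t ht
    have hIcc : t ∈ Set.Icc (-δ) δ := abs_le.1 ht
    obtain ⟨ζ0, hζ0, hζ00⟩ := h0 w hw
    have hd0 := hdat w hw 0 (by simp; exact hδ)
    have hev := dat_unique hpc hζ0 hd0 (by rw [hζ00, hΦ0])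
    have hD : Dat c ‖w‖ (fun s => γ s w) 0 (fun s => Φ s (ξ w)) := by
      filter_upwards [hev, hζ0, hd0] with s h1 h2 h3
      refine ⟨h3.1, ?_, h3.2.2.1, h3.2.2.2⟩
      have := h2.2.1
      rw [h1] at this
      exact this
    obtain ⟨c', hc', ζ', h1, h2⟩ := geo_unique (σ := ‖w‖) (γ := fun s => γ s w)
      (γ' := fun s => c.φ (Φ s (ξ w)).1) (a := -δ) (b := δ) (t0 := 0) hA
      (fun t ht => h w hw t ⟨by linarith [ht.1], by linarith [ht.2]⟩)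
      (fun t ht => ⟨c, hc, _, hdat w hw t (by
        have : |t| ≤ δ := abs_le.2 ht
        linarith)⟩) ⟨by linarith, hδ.le⟩ ⟨c, hc, _, hD, hd0⟩ t hIcc
    have e1 := h1.self_of_nhds.2.1
    have e2 := h2.self_of_nhds.2.1
    exact e2.symm.trans e1
  have hF : FDat c γ 0 v (fun s w => Φ s (ξ w)) := by
    refine ⟨?_, ?_⟩
    · have : ContDiff ℝ 1 (fun q : ℝ × ℂ => Φ q.1 (ξ q.2)) :=
        hΦ.comp (contDiff_fst.prodMk (hξ.comp contDiff_snd))
      exact this.contDiffAt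
    · have o1 : ∀ᶠ q : ℝ × ℂ in nhds ((0 : ℝ), v), |q.1| < δ :=
        ((continuous_abs.comp continuous_fst).tendsto ((0 : ℝ), v)).eventually
          (gt_mem_nhds (by simpa using hδ))
      have o2 : ∀ᶠ q : ℝ × ℂ in nhds ((0 : ℝ), v), ‖q.2‖ < S :=
        ((continuous_norm.comp continuous_snd).tendsto ((0 : ℝ), v)).eventually
          (gt_mem_nhds hv)
      filter_upwards [o1, o2] with q h1 h2
      obtain ⟨ha, hb, hd⟩ := hfl2 q.2 h2 q.1 (by linarith)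
      exact ⟨ha, heq q.2 h2 q.1 h1.le, hb, hd⟩
  refine ⟨⟨c, hc, _, hF⟩, ⟨c, hc, z0, hz, rfl, _, hF, ?_⟩⟩
  filter_upwards with w
  exact hΦ0 (ξ w)

theorem exists_flow (hA : IsAtlas κ A) (x : Y) (S : ℝ) : ∃ γ : ℝ → ℂ → Y,
    (∀ v : ℂ, ‖v‖ < S → ∀ t ∈ Set.Icc (0 : ℝ) 1, GoodAt A γ t v) ∧
    ∀ v : ℂ, ‖v‖ < S → InitAt A γ x v := by
  obtain ⟨ρ, hρ, B, hunif⟩ := hA.unif
  obtain ⟨c, hc, z0, hz0, hsub, -⟩ := hunif x
  have hz : z0 ∈ c.U := hsub (Metric.mem_closedBall_self hρ.le)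
  have hspeed : ∀ v : ℂ, Real.exp (c.u z0) * ‖((Real.exp (-c.u z0) : ℝ) : ℂ) * v‖ = ‖v‖ := by
    intro w
    simp only [norm_mul, Complex.norm_real, Real.norm_eq_abs, abs_of_pos (Real.exp_pos _)]
    rw [← mul_assoc, ← Real.exp_add]
    simp
  have hex : ∀ v : ℂ, ∃ (γ : ℝ → Y) (ζ : ℝ → ℂ × ℂ),
      (∀ t ∈ Set.Icc (-2 : ℝ) 2, GeoAt A ‖v‖ γ t) ∧ Dat c ‖v‖ γ 0 ζ ∧
        ζ 0 = (z0, ((Real.exp (-c.u z0) : ℝ) : ℂ) * v) := by
    intro v
    obtain ⟨γ, ζ, h1, h2, h3⟩ := exists_geo hA hc hz (((Real.exp (-c.u z0) : ℝ) : ℂ) * v)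
    rw [hspeed] at h1 h2
    exact ⟨γ, ζ, h1, h2, h3⟩
  choose γ ζ h1 h2 h3 using hex
  obtain ⟨τ, hτ, hstep⟩ := good_step hA S
  have hinit := good_init (S := S) (γ := fun s v => γ v s) hA hc hz (fun v _ => h1 v)
    (fun v _ => ⟨ζ v, h2 v, h3 v⟩)
  refine ⟨fun s v => γ v s, ?_, fun v hv => ?_⟩
  · intro v hv
    have key : ∀ n : ℕ, ∀ t ∈ Set.Icc (0 : ℝ) 1, t ≤ n * τ →
        GoodAt A (fun s v => γ v s) t v := by
      intro n
      induction n with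
      | zero =>
        intro t ht hn
        have : t = 0 := le_antisymm (by simpa using hn) ht.1
        rw [this]
        exact (hinit v hv).1
      | succ n ih =>
        intro t ht hn
        by_cases hle : t ≤ n * τ
        · exact ih t ht hle
        · push Not at hle
          have hn0 : (0 : ℝ) ≤ n * τ := by positivity
          have hI : (n : ℝ) * τ ∈ Set.Icc (0 : ℝ) 1 := ⟨hn0, hle.le.trans ht.2⟩
          refine hstep _ (fun w _ => h1 w) v hv _ hI (ih _ hI le_rfl) t hle.le ?_ ht.2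
          push_cast at hn
          linarith
    intro t ht
    obtain ⟨n, hn⟩ := exists_nat_ge (1 / τ)
    refine key n t ht (ht.2.trans ?_)
    rw [div_le_iff₀ hτ] at hn
    exact hn
  · rw [← hz0]
    exact (hinit v hv).2

end F10S
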