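import Pool.Agent.Lib.MP_f10cd3_gt.S.Green
import Pool.Agent.Lib.MP_f10cd3_gt.S.Trans

/-! Row B3a: the geodesic curvature does not depend on the chart. -/

set_option autoImplicit false

namespace F10S

open MPf10cd3 F10G MeasureTheory
open scoped ContDiff

variable {M : Type} [MetricSpace M] {κ : ℝ} {A : Set (PC M)}

/-- Row B3. `γ' = F ∘ γ`: `γ''' / γ'' ...`: `(F∘γ)''/(F∘γ)' = γ''/γ' + (F''/F') γ'`, `trans` -/
theorem kap_trans (hA : IsAtlas κ A) {c c' : PC M} (hc : c ∈ A) (hc' : c' ∈ A) {γ γ' : ℝ → ℂ}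
    {x : ℝ} (hγ : ContDiffAt ℝ 2 γ x) (hγ' : ContDiffAt ℝ 2 γ' x) (hd : deriv γ x ≠ 0)
    (h : ∀ᶠ y in nhds x, γ y ∈ c.U ∧ γ' y ∈ c'.U ∧ c.φ (γ y) = c'.φ (γ' y)) :
    kap c'.u γ' x = kap c.u γ x := by
  have h0 := h.self_of_nhds
  obtain ⟨F, hFz, hFa, hF⟩ := trans hA hc hc' h0.1 h0.2.1 h0.2.2
  have hcont : Filter.Tendsto γ (nhds x) (nhds (γ x)) := hγ.continuousAt
  have hF' := hcont.eventually hF
  have heq : ∀ᶠ y in nhds x, γ' y = F (γ y) := by
    filter_upwards [h, hF'] with y hy hy'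
    exact (hA.pc c' hc').inj hy.2.1 hy'.2.1 (by rw [← hy.2.2, ← hy'.2.2.1])
  have hdiff : ∀ᶠ y in nhds x, DifferentiableAt ℝ γ y := by
    have h1 := hγ.eventually (by simp)
    filter_upwards [h1] with y hy
    exact hy.differentiableAt (by norm_num)
  have hderiv : ∀ᶠ y in nhds x, deriv γ' y = deriv F (γ y) * deriv γ y := by
    filter_upwards [heq.eventually_nhds, hdiff, hF'] with y hy hy2 hy3
    have h1 : HasDerivAt (fun t => F (γ t)) (deriv F (γ y) * deriv γ y) y := by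
      have h2 := (hy3.2.2.2.1).hasDerivAt
      have h3 := h2.comp_of_eq y hy2.hasDerivAt rfl
      exact h3
    exact (h1.congr_of_eventuallyEq hy).deriv
  have hF2 : HasDerivAt (deriv F) (deriv (deriv F) (γ x)) (γ x) :=
    hFa.deriv.differentiableAt.hasDerivAt
  have hγ2 : HasDerivAt (deriv γ) (deriv (deriv γ) x) x := by
    have h1 : ContDiffAt ℝ 1 (deriv γ) x := by
      have h2 : ContDiffAt ℝ (1 + 1) γ x := by norm_num; exact hγ
      exact h2.derivWithin (by norm_num)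
    exact (h1.differentiableAt (by norm_num)).hasDerivAt
  have hxd : HasDerivAt γ (deriv γ x) x := hdiff.self_of_nhds.hasDerivAt
  have hdd : deriv (deriv γ') x = deriv (deriv F) (γ x) * deriv γ x * deriv γ x +
      deriv F (γ x) * deriv (deriv γ) x := by
    have h1 : HasDerivAt (fun y => deriv F (γ y) * deriv γ y)
        (deriv (deriv F) (γ x) * deriv γ x * deriv γ x +
      deriv F (γ x) * deriv (deriv γ) x) x := by
      have h2 : HasDerivAt (fun y => deriv F (γ y)) (deriv (deriv F) (γ x) * deriv γ x) x :=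
        hF2.comp_of_eq x hxd rfl
      exact h2.mul hγ2
    exact (h1.congr_of_eventuallyEq hderiv).deriv
  have hx := hF.self_of_nhds
  obtain ⟨_, _, _, _, hne, _, huz⟩ := hx
  have e1 : deriv γ' x = deriv F (γ x) * deriv γ x := hderiv.self_of_nhds
  have e2 : γ' x = F (γ x) := heq.self_of_nhds
  unfold kap
  congr 1
  rw [huz, hdd, e1, e2]
  field_simp
  ring

/-- Row B3 -/
theorem kap_rev (u : ℂ → ℝ) (γ : ℝ → ℂ) (x : ℝ) :
    kap u (fun y => γ (1 - y)) x = -kap u γ (1 - x) := by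
  have h1 : deriv (fun y => γ (1 - y)) = fun y => -deriv γ (1 - y) := by
    funext y
    exact deriv_comp_const_sub γ 1 y
  have h2 : deriv (deriv (fun y => γ (1 - y))) x = deriv (deriv γ) (1 - x) := by
    rw [h1]
    have h3 : deriv (fun y => -deriv γ (1 - y)) x = -deriv (fun y => deriv γ (1 - y)) x :=
      deriv.fun_neg
    rw [h3, deriv_comp_const_sub (deriv γ) 1 x, neg_neg]
  unfold kap
  rw [h2, h1, ← Complex.neg_im]
  congr 1
  simp only [div_neg, mul_neg]
  ring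

theorem B4_line {s1 s2 F : ℂ → ℂ} {a v h l : ℂ} (hs1 : DifferentiableAt ℝ s1 a)
    (hs2 : DifferentiableAt ℝ s2 0) (hF : HasDerivAt F l (s1 a))
    (he : ∀ᶠ t : ℝ in nhdsWithin 0 (Set.Ici 0), s2 (t • h) = F (s1 (a + t • v))) :
    fderiv ℝ s2 0 h = l * fderiv ℝ s1 a v := by
  have h1 : HasDerivAt (fun t : ℝ => s2 (t • h)) (fderiv ℝ s2 0 h) 0 := by
    have e1 : HasDerivAt (fun t : ℝ => t • h) h 0 := by
      simpa using (hasDerivAt_id (0 : ℝ)).smul_const h
    have e2 : HasFDerivAt s2 (fderiv ℝ s2 0) ((fun t : ℝ => t • h) 0) := by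
      simpa using hs2.hasFDerivAt
    exact e2.comp_hasDerivAt (0 : ℝ) e1
  have h2 : HasDerivAt (fun t : ℝ => F (s1 (a + t • v))) (l * fderiv ℝ s1 a v) 0 := by
    have e1 : HasDerivAt (fun t : ℝ => a + t • v) v 0 := by
      simpa using ((hasDerivAt_id (0 : ℝ)).smul_const v).const_add a
    have e2 : HasFDerivAt s1 (fderiv ℝ s1 a) ((fun t : ℝ => a + t • v) 0) := by
      simpa using hs1.hasFDerivAt
    have e3 : HasDerivAt (fun t : ℝ => s1 (a + t • v)) (fderiv ℝ s1 a v) 0 :=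
      e2.comp_hasDerivAt (0 : ℝ) e1
    exact hF.comp_of_eq (0 : ℝ) e3 (by simp)
  have h3 := h2.hasDerivWithinAt (s := Set.Ici 0)
  have h4 := h3.congr_of_eventuallyEq he (by simpa using he.self_of_nhdsWithin (Set.mem_Ici.2 le_rfl))
  exact (uniqueDiffWithinAt_Ici (0 : ℝ)).eq_deriv _ h1.hasDerivWithinAt h4

theorem B4_chart (hA : IsAtlas κ A) {c1 c2 : PC M} (h1 : c1 ∈ A) (h2 : c2 ∈ A) {s1 s2 : ℂ → ℂ}
    (hs1 : ContDiff ℝ 5 s1) (hs2 : ContDiff ℝ 5 s2) (hm1 : ∀ z ∈ stdT, s1 z ∈ c1.U)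
    (hm2 : ∀ z ∈ stdT, s2 z ∈ c2.U) {R : ℂ → ℂ} {a v w : ℂ} (hR : ∀ z ∈ stdT, R z ∈ stdT)
    (hv : ∀ t : ℝ, R (t • (1 : ℂ)) = a + t • v) (hw : ∀ t : ℝ, R (t • Complex.I) = a + t • w)
    (he : ∀ z ∈ stdT, c1.φ (s1 (R z)) = c2.φ (s2 z)) :
    ∃ l : ℂ, l ≠ 0 ∧ fderiv ℝ s2 0 1 = l * fderiv ℝ s1 a v ∧
      fderiv ℝ s2 0 Complex.I = l * fderiv ℝ s1 a w := by
  have h0 : (0 : ℂ) ∈ stdT := by simp [stdT]
  have hR0 : R 0 = a := by simpa using hv 0
  have ha : a ∈ stdT := hR0 ▸ hR 0 h0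
  have he0 := he 0 h0
  rw [hR0] at he0
  obtain ⟨F, hFz, hFa, hF⟩ := trans hA h1 h2 (hm1 a ha) (hm2 0 h0) he0
  have hx := hF.self_of_nhds
  obtain ⟨_, _, _, hdF, hne, _, _⟩ := hx
  refine ⟨deriv F (s1 a), hne, ?_, ?_⟩
  · refine B4_line (hs1.differentiable (by simp) a) (hs2.differentiable (by simp) 0)
      hdF.hasDerivAt ?_
    have hc : Filter.Tendsto (fun t : ℝ => s1 (a + t • v)) (nhdsWithin 0 (Set.Ici 0))
        (nhds (s1 a)) := by
      have h3 : Continuous (fun t : ℝ => s1 (a + t • v)) := by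
        have := hs1.continuous
        fun_prop
      have h4 := h3.tendsto 0
      simp only [zero_smul, add_zero] at h4
      exact h4.mono_left nhdsWithin_le_nhds
    have h5 : ∀ᶠ t : ℝ in nhdsWithin 0 (Set.Ici 0), t < 1 :=
      nhdsWithin_le_nhds (Iio_mem_nhds one_pos)
    filter_upwards [hc.eventually hF, h5, self_mem_nhdsWithin] with t ht ht1 ht0
    have hmem : t • (1 : ℂ) ∈ stdT := by
      simp only [Set.mem_Ici] at ht0
      simp only [stdT, Set.mem_setOf_eq, Complex.real_smul, mul_one, Complex.ofReal_re,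
        Complex.ofReal_im, add_zero]
      exact ⟨ht0, le_rfl, ht1.le⟩
    have h6 := he _ hmem
    rw [hv t] at h6
    exact (hA.pc c2 h2).inj (hm2 _ hmem) ht.2.1 (by rw [← h6, ht.2.2.1])
  · refine B4_line (hs1.differentiable (by simp) a) (hs2.differentiable (by simp) 0)
      hdF.hasDerivAt ?_
    have hc : Filter.Tendsto (fun t : ℝ => s1 (a + t • w)) (nhdsWithin 0 (Set.Ici 0))
        (nhds (s1 a)) := by
      have h3 : Continuous (fun t : ℝ => s1 (a + t • w)) := by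
        have := hs1.continuous
        fun_prop
      have h4 := h3.tendsto 0
      simp only [zero_smul, add_zero] at h4
      exact h4.mono_left nhdsWithin_le_nhds
    have h5 : ∀ᶠ t : ℝ in nhdsWithin 0 (Set.Ici 0), t < 1 :=
      nhdsWithin_le_nhds (Iio_mem_nhds one_pos)
    filter_upwards [hc.eventually hF, h5, self_mem_nhdsWithin] with t ht ht1 ht0
    have hmem : t • Complex.I ∈ stdT := by
      simp only [Set.mem_Ici] at ht0
      simp only [stdT, Set.mem_setOf_eq, Complex.real_smul, Complex.re_ofReal_mul,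
        Complex.im_ofReal_mul, Complex.I_re, Complex.I_im, mul_zero, mul_one, zero_add]
      exact ⟨le_rfl, ht0, ht1.le⟩
    have h6 := he _ hmem
    rw [hw t] at h6
    exact (hA.pc c2 h2).inj (hm2 _ hmem) ht.2.1 (by rw [← h6, ht.2.2.1])

/-- `kap_trans`, integrated -/
theorem kap_int_trans (hA : IsAtlas κ A) {c c' : PC M} (hc : c ∈ A) (hc' : c' ∈ A) {γ γ' : ℝ → ℂ}
    (hγ : ContDiff ℝ 2 γ) (hγ' : ContDiff ℝ 2 γ') (hd : ∀ x ∈ Set.Ioo (0 : ℝ) 1, deriv γ x ≠ 0)
    (h : ∀ x ∈ Set.Ioo (0 : ℝ) 1, γ x ∈ c.U ∧ γ' x ∈ c'.U ∧ c.φ (γ x) = c'.φ (γ' x)) :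
    ∫ x in (0 : ℝ)..1, kap c.u γ x = ∫ x in (0 : ℝ)..1, kap c'.u γ' x := by
  apply intervalIntegral.integral_congr_ae
  have h1 : ∀ᵐ x : ℝ, x ≠ 1 := by
    rw [ae_iff]
    simp
  filter_upwards [h1] with x hx1 hx
  rw [Set.uIoc_of_le zero_le_one] at hx
  have hx' : x ∈ Set.Ioo (0 : ℝ) 1 := ⟨hx.1, lt_of_le_of_ne hx.2 hx1⟩
  refine (kap_trans hA hc hc' hγ.contDiffAt hγ'.contDiffAt (hd x hx') ?_).symm
  filter_upwards [isOpen_Ioo.mem_nhds hx'] with y hy
  exact h y hy

/-- `kap_rev`, integrated -/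
theorem kap_int_rev (u : ℂ → ℝ) (γ : ℝ → ℂ) :
    ∫ x in (0 : ℝ)..1, kap u (fun y => γ (1 - y)) x = -∫ x in (0 : ℝ)..1, kap u γ x := by
  have h : ∀ x : ℝ, kap u (fun y => γ (1 - y)) x = (fun y => -kap u γ y) (1 - x) :=
    fun x => kap_rev u γ x
  simp_rw [h]
  rw [intervalIntegral.integral_comp_sub_left (fun y => -kap u γ y) 1]
  simp

variable {V : Type} [Fintype V] [DecidableEq V] {D : Finset (V × V × V)} {g : ℕ} {μ : ℝ}
  {τ : Triang D M μ} {ch : V × V × V → PC M} {s : V × V × V → ℂ → ℂ}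

theorem STri.one_ne (hT : STri A τ ch s) {t : V × V × V} (ht : t ∈ D) {z : ℂ} (hz : z ∈ stdT) :
    fderiv ℝ (s t) z 1 ≠ 0 := by
  intro h
  have := hT.orient t ht z hz
  rw [h] at this
  simp at this

theorem STri.I_ne (hT : STri A τ ch s) {t : V × V × V} (ht : t ∈ D) {z : ℂ} (hz : z ∈ stdT) :
    fderiv ℝ (s t) z Complex.I ≠ 0 := by
  intro h
  have := hT.orient t ht z hz
  rw [h] at this
  simp at this

theorem STri.sub_ne (hT : STri A τ ch s) {t : V × V × V} (ht : t ∈ D) {z : ℂ} (hz : z ∈ stdT) :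
    fderiv ℝ (s t) z (Complex.I - 1) ≠ 0 := by
  intro h
  have := hT.orient t ht z hz
  rw [map_sub, sub_eq_zero] at h
  rw [h] at this
  simp [mul_comm] at this

/-- the derivative of `s` along a line -/
theorem STri.deriv_line (hT : STri A τ ch s) {t : V × V × V} (ht : t ∈ D) {l : ℝ → ℂ} {d : ℂ}
    {x : ℝ} (hl : HasDerivAt l d x) :
    deriv (fun y : ℝ => s t (l y)) x = fderiv ℝ (s t) (l x) d := by
  have h1 : HasFDerivAt (s t) (fderiv ℝ (s t) (l x)) (l x) :=
    ((hT.smooth t ht).differentiable (by simp)).differentiableAt.hasFDerivAt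
  exact (h1.comp_hasDerivAt x hl).deriv

theorem STri.contDiff_line (hT : STri A τ ch s) {t : V × V × V} (ht : t ∈ D) {l : ℝ → ℂ}
    (hl : ContDiff ℝ 2 l) : ContDiff ℝ 2 (fun y : ℝ => s t (l y)) :=
  ContDiff.comp (g := s t) ((hT.smooth t ht).of_le (by norm_num)) hl

theorem STri.phi_eq (hT : STri A τ ch s) {t t' : V × V × V} (ht : t ∈ D) (ht' : t' ∈ D)
    {z z' : ℂ} (hz : z ∈ stdT) (hz' : z' ∈ stdT)
    (h : ∀ v : V, (if v = t.1 then 1 - z.re - z.im else 0) + (if v = t.2.1 then z.re else 0) +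
        (if v = t.2.2 then z.im else 0) =
      (if v = t'.1 then 1 - z'.re - z'.im else 0) + (if v = t'.2.1 then z'.re else 0) +
        (if v = t'.2.2 then z'.im else 0)) :
    (ch t).φ (s t z) = (ch t').φ (s t' z') := by
  apply τ.inj
  funext v
  rw [hT.lam t ht z hz v, hT.lam t' ht' z' hz' v]
  exact h v

theorem mem_l1 {x : ℝ} (hx : x ∈ Set.Ioo (0 : ℝ) 1) : (x : ℂ) ∈ stdT := by
  refine ⟨by simpa using hx.1.le, by simp, by simpa using hx.2.le⟩

theorem mem_l1' {x : ℝ} (hx : x ∈ Set.Ioo (0 : ℝ) 1) : ((1 - x : ℝ) : ℂ) ∈ stdT := by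
  refine ⟨by simpa using hx.2.le, by simp, by simpa using hx.1.le⟩

theorem mem_l2 {x : ℝ} (hx : x ∈ Set.Ioo (0 : ℝ) 1) : (1 - x + x * Complex.I : ℂ) ∈ stdT := by
  refine ⟨by simpa using hx.2.le, by simpa using hx.1.le, by simp⟩

theorem mem_l3 {x : ℝ} (hx : x ∈ Set.Ioo (0 : ℝ) 1) : (x * Complex.I : ℂ) ∈ stdT := by
  refine ⟨by simp, by simpa using hx.1.le, by simpa using hx.2.le⟩

theorem hasDerivAt_l1 (x : ℝ) : HasDerivAt (fun y : ℝ => (y : ℂ)) 1 x := by
  simpa using (hasDerivAt_id x).ofReal_comp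

theorem hasDerivAt_l2 (x : ℝ) :
    HasDerivAt (fun y : ℝ => (1 - y + y * Complex.I : ℂ)) (Complex.I - 1) x := by
  have h := hasDerivAt_l1 x
  have h2 := ((h.const_sub (1 : ℂ)).add (h.mul_const Complex.I))
  refine h2.congr_deriv ?_
  ring

theorem hasDerivAt_l3 (x : ℝ) :
    HasDerivAt (fun y : ℝ => (y * Complex.I : ℂ)) Complex.I x := by
  have h := (hasDerivAt_l1 x).mul_const Complex.I
  simpa using h

theorem contDiff_l1 : ContDiff ℝ 2 (fun y : ℝ => (y : ℂ)) := Complex.ofRealCLM.contDiff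

theorem contDiff_l1' : ContDiff ℝ 2 (fun y : ℝ => ((1 - y : ℝ) : ℂ)) :=
  Complex.ofRealCLM.contDiff.comp (contDiff_const.sub contDiff_id)

theorem contDiff_l2 : ContDiff ℝ 2 (fun y : ℝ => (1 - y + y * Complex.I : ℂ)) :=
  (contDiff_const.sub contDiff_l1).add (contDiff_l1.mul contDiff_const)

theorem contDiff_l3 : ContDiff ℝ 2 (fun y : ℝ => (y * Complex.I : ℂ)) :=
  contDiff_l1.mul contDiff_const

/-- Row B3. the second edge of `(a, b, c)` is the first edge of `(b, c, a)` -/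
theorem edge2 (hA : IsAtlas κ A) (hD : IsCS D g) (hT : STri A τ ch s) {a b c : V}
    (h : (a, b, c) ∈ D) :
    ∫ y in (0 : ℝ)..1, kap (ch (a, b, c)).u (fun y : ℝ => s (a, b, c) (1 - y + y * Complex.I)) y =
      edgeK ch s (b, c, a) := by
  have h' := hD.rot a b c h
  have h'' := hD.rot b c a h'
  have hab := hD.ne a b c h
  have hbc := hD.ne b c a h'
  have hca := hD.ne c a b h''
  unfold edgeK
  refine kap_int_trans hA (hT.hch _ h) (hT.hch _ h') (hT.contDiff_line h contDiff_l2)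
    (hT.contDiff_line h' contDiff_l1) ?_ ?_
  · intro x hx
    rw [hT.deriv_line h (hasDerivAt_l2 x)]
    exact hT.sub_ne h (mem_l2 hx)
  · intro x hx
    refine ⟨hT.mem _ h _ (mem_l2 hx), hT.mem _ h' _ (mem_l1 hx),
      hT.phi_eq h h' (mem_l2 hx) (mem_l1 hx) ?_⟩
    intro v
    by_cases hva : v = a
    · subst hva
      simp [hab, hca.symm]
    · by_cases hvb : v = b
      · subst hvb
        simp [hbc, hva]
      · simp [hva, hvb]

/-- Row B3. the third edge of `(a, b, c)`, reversed, is the first edge of `(c, a, b)` -/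
theorem edge3 (hA : IsAtlas κ A) (hD : IsCS D g) (hT : STri A τ ch s) {a b c : V}
    (h : (a, b, c) ∈ D) :
    ∫ y in (0 : ℝ)..1, kap (ch (a, b, c)).u (fun y : ℝ => s (a, b, c) (y * Complex.I)) y =
      -edgeK ch s (c, a, b) := by
  have h' := hD.rot a b c h
  have h'' := hD.rot b c a h'
  have hab := hD.ne a b c h
  have hbc := hD.ne b c a h'
  have hca := hD.ne c a b h''
  unfold edgeK
  rw [← kap_int_rev]
  refine kap_int_trans hA (hT.hch _ h) (hT.hch _ h'') (hT.contDiff_line h contDiff_l3)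
    (hT.contDiff_line h'' contDiff_l1') ?_ ?_
  · intro x hx
    rw [hT.deriv_line h (hasDerivAt_l3 x)]
    exact hT.I_ne h (mem_l3 hx)
  · intro x hx
    refine ⟨hT.mem _ h _ (mem_l3 hx), hT.mem _ h'' _ (mem_l1' hx),
      hT.phi_eq h h'' (mem_l3 hx) (mem_l1' hx) ?_⟩
    intro v
    by_cases hva : v = a
    · subst hva
      simp [hab, hca.symm]
    · by_cases hvc : v = c
      · subst hvc
        simp [hva, hbc.symm]
      · simp [hva, hvc]

/-- Row B3. opposite darts -/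
theorem edge_opp (hA : IsAtlas κ A) (hD : IsCS D g) (hT : STri A τ ch s) {a b c d : V}
    (h : (a, b, c) ∈ D) (h' : (b, a, d) ∈ D) :
    edgeK ch s (a, b, c) = -edgeK ch s (b, a, d) := by
  have hab := hD.ne a b c h
  unfold edgeK
  rw [← kap_int_rev]
  refine kap_int_trans hA (hT.hch _ h) (hT.hch _ h') (hT.contDiff_line h contDiff_l1)
    (hT.contDiff_line h' contDiff_l1') ?_ ?_
  · intro x hx
    rw [hT.deriv_line h (hasDerivAt_l1 x)]
    exact hT.one_ne h (mem_l1 hx)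
  · intro x hx
    refine ⟨hT.mem _ h _ (mem_l1 hx), hT.mem _ h' _ (mem_l1' hx),
      hT.phi_eq h h' (mem_l1 hx) (mem_l1' hx) ?_⟩
    intro v
    by_cases hva : v = a
    · subst hva
      simp [hab]
    · by_cases hvb : v = b
      · subst hvb
        simp [hva]
      · simp [hva, hvb]

/-- Row B4. The angle at the second vertex; `s (b,c,a) (y) = F (s (a,b,c) (1 - y + i y))` and
`s (b,c,a) (i y) = F (s (a,b,c) (1 - y))` for `0 ≤ y ≤ 1`: one sided derivatives at `y = 0`. -/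
theorem corner1 (hA : IsAtlas κ A) (hD : IsCS D g) (hT : STri A τ ch s) {a b c : V}
    (h : (a, b, c) ∈ D) :
    -fderiv ℝ (s (a, b, c)) 1 1 /
      (fderiv ℝ (s (a, b, c)) 1 Complex.I - fderiv ℝ (s (a, b, c)) 1 1) =
    fderiv ℝ (s (b, c, a)) 0 Complex.I / fderiv ℝ (s (b, c, a)) 0 1 := by
  have h' : (b, c, a) ∈ D := hD.rot _ _ _ h
  obtain ⟨l, hl, e1, e2⟩ := B4_chart hA (hT.hch _ h) (hT.hch _ h') (hT.smooth _ h)
    (hT.smooth _ h') (hT.mem _ h) (hT.mem _ h')
    (R := fun z : ℂ => (1 - z.re - z.im : ℝ) + (z.re : ℝ) * Complex.I) (a := 1)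
    (v := Complex.I - 1) (w := -1) (by
      intro z hz
      simp only [stdT, Set.mem_setOf_eq] at hz ⊢
      simp only [Complex.add_re, Complex.ofReal_re, Complex.re_ofReal_mul, Complex.I_re,
        Complex.add_im, Complex.ofReal_im, Complex.im_ofReal_mul, Complex.I_im]
      refine ⟨?_, ?_, ?_⟩ <;> linarith [hz.1, hz.2.1, hz.2.2]) (by
      intro t
      simp
      ring) (by
      intro t
      simp
      ring) (by
      intro z hz
      apply τ.inj
      funext x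
      have hz2 : (((1 - z.re - z.im : ℝ) + (z.re : ℝ) * Complex.I : ℂ)) ∈ stdT := by
        simp only [stdT, Set.mem_setOf_eq] at hz ⊢
        simp only [Complex.add_re, Complex.ofReal_re, Complex.re_ofReal_mul, Complex.I_re,
          Complex.add_im, Complex.ofReal_im, Complex.im_ofReal_mul, Complex.I_im]
        refine ⟨?_, ?_, ?_⟩ <;> linarith [hz.1, hz.2.1, hz.2.2]
      rw [hT.lam _ h _ hz2, hT.lam _ h' _ hz]
      simp only [Complex.add_re, Complex.ofReal_re, Complex.re_ofReal_mul, Complex.I_re,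
        Complex.add_im, Complex.ofReal_im, Complex.im_ofReal_mul, Complex.I_im]
      split_ifs <;> ring)
  rw [e1, e2, mul_div_mul_left _ _ hl]
  simp only [map_neg, map_sub]
  
/-- Row B4. The angle at the third vertex; `s (c,a,b) (y) = F (s (a,b,c) (i (1 - y)))` and
`s (c,a,b) (i y) = F (s (a,b,c) (y + i (1 - y)))`. -/
theorem corner2 (hA : IsAtlas κ A) (hD : IsCS D g) (hT : STri A τ ch s) {a b c : V}
    (h : (a, b, c) ∈ D) :
    (fderiv ℝ (s (a, b, c)) Complex.I Complex.I - fderiv ℝ (s (a, b, c)) Complex.I 1) /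
      fderiv ℝ (s (a, b, c)) Complex.I Complex.I =
    fderiv ℝ (s (c, a, b)) 0 Complex.I / fderiv ℝ (s (c, a, b)) 0 1 := by
  have h' : (c, a, b) ∈ D := hD.rot _ _ _ (hD.rot _ _ _ h)
  obtain ⟨l, hl, e1, e2⟩ := B4_chart hA (hT.hch _ h) (hT.hch _ h') (hT.smooth _ h)
    (hT.smooth _ h') (hT.mem _ h) (hT.mem _ h')
    (R := fun z : ℂ => (z.im : ℝ) + (1 - z.re - z.im : ℝ) * Complex.I) (a := Complex.I)
    (v := -Complex.I) (w := 1 - Complex.I) (by
      intro z hz
      simp only [stdT, Set.mem_setOf_eq] at hz ⊢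
      simp only [Complex.add_re, Complex.ofReal_re, Complex.re_ofReal_mul, Complex.I_re,
        Complex.add_im, Complex.ofReal_im, Complex.im_ofReal_mul, Complex.I_im]
      refine ⟨?_, ?_, ?_⟩ <;> linarith [hz.1, hz.2.1, hz.2.2]) (by
      intro t
      simp
      ring) (by
      intro t
      simp
      ring) (by
      intro z hz
      apply τ.inj
      funext x
      have hz2 : (((z.im : ℝ) + (1 - z.re - z.im : ℝ) * Complex.I : ℂ)) ∈ stdT := by
        simp only [stdT, Set.mem_setOf_eq] at hz ⊢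
        simp only [Complex.add_re, Complex.ofReal_re, Complex.re_ofReal_mul, Complex.I_re,
          Complex.add_im, Complex.ofReal_im, Complex.im_ofReal_mul, Complex.I_im]
        refine ⟨?_, ?_, ?_⟩ <;> linarith [hz.1, hz.2.1, hz.2.2]
      rw [hT.lam _ h _ hz2, hT.lam _ h' _ hz]
      simp only [Complex.add_re, Complex.ofReal_re, Complex.re_ofReal_mul, Complex.I_re,
        Complex.add_im, Complex.ofReal_im, Complex.im_ofReal_mul, Complex.I_im]
      split_ifs <;> ring)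
  rw [e1, e2, mul_div_mul_left _ _ hl]
  simp only [map_neg, map_sub]
  rw [div_neg, ← neg_div, neg_sub]

end F10S
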