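import Pool.Agent.Lib.MP_f10cd3_gt.S.Wirt

/-! Rows B1, B2: Green's formula for the standard triangle and the Gauss-Bonnet formula for a
smooth triangle. -/

set_option autoImplicit false

namespace F10S

open MPf10cd3 F10G MeasureTheory
open scoped ContDiff

theorem B1_closed : IsClosed stdT := by
  have h : stdT = {z : ℂ | 0 ≤ z.re} ∩ {z : ℂ | 0 ≤ z.im} ∩ {z : ℂ | z.re + z.im ≤ 1} := by
    ext z; simp [stdT, and_assoc]
  rw [h]
  exact ((isClosed_le continuous_const Complex.continuous_re).inter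
    (isClosed_le continuous_const Complex.continuous_im)).inter
    (isClosed_le (Complex.continuous_re.add Complex.continuous_im) continuous_const)

theorem B1_compact : IsCompact stdT := by
  refine Metric.isCompact_of_isClosed_isBounded B1_closed ?_
  rw [isBounded_iff_forall_norm_le]
  refine ⟨2, fun z hz => ?_⟩
  obtain ⟨h1, h2, h3⟩ := hz
  have := Complex.norm_le_abs_re_add_abs_im z
  rw [abs_of_nonneg h1, abs_of_nonneg h2] at this
  linarith

theorem B1_inner {f : ℝ → ℝ} {a : ℝ} (ha : 0 ≤ a) :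
    ∫ y : ℝ, (Set.Icc 0 a).indicator f y = ∫ y in (0 : ℝ)..a, f y := by
  rw [integral_indicator measurableSet_Icc, integral_Icc_eq_integral_Ioc,
    intervalIntegral.integral_of_le ha]

theorem B1_mp {f : ℂ → ℝ} : ∫ z : ℂ, f z = ∫ p : ℝ × ℝ, f ⟨p.1, p.2⟩ := by
  have h := (Complex.volume_preserving_equiv_real_prod.symm).integral_comp' f
  rw [← h]
  rfl

theorem B1_fub {g : ℂ → ℝ} (hg : ContinuousOn g stdT) :
    (∫ z in stdT, g z = ∫ x in (0 : ℝ)..1, ∫ y in (0 : ℝ)..(1 - x), g ⟨x, y⟩) ∧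
    (∫ z in stdT, g z = ∫ y in (0 : ℝ)..1, ∫ x in (0 : ℝ)..(1 - y), g ⟨x, y⟩) := by
  have hint : IntegrableOn g stdT := hg.integrableOn_compact B1_compact
  have hind : Integrable (stdT.indicator g) := (integrable_indicator_iff B1_closed.measurableSet).2 hint
  have hprod : Integrable (fun p : ℝ × ℝ => stdT.indicator g ⟨p.1, p.2⟩) (volume.prod volume) := by
    have h := (Complex.volume_preserving_equiv_real_prod.symm).integrable_comp_emb
      (MeasurableEquiv.measurableEmbedding _) (g := stdT.indicator g)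
    exact h.2 hind
  have h0 : ∫ z in stdT, g z = ∫ p : ℝ × ℝ, stdT.indicator g ⟨p.1, p.2⟩ := by
    rw [← integral_indicator B1_closed.measurableSet, B1_mp]
  constructor
  · rw [h0, Measure.volume_eq_prod, integral_prod _ hprod, ← B1_inner zero_le_one]
    congr 1
    ext x
    by_cases hx : x ∈ Set.Icc (0 : ℝ) 1
    · rw [Set.indicator_of_mem hx, ← B1_inner (by linarith [hx.2])]
      congr 1
      ext y
      by_cases hy : y ∈ Set.Icc (0 : ℝ) (1 - x)
      · rw [Set.indicator_of_mem hy, Set.indicator_of_mem]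
        exact ⟨hx.1, hy.1, by have := hy.2; simp only; linarith⟩
      · rw [Set.indicator_of_notMem hy, Set.indicator_of_notMem]
        intro h
        exact hy ⟨h.2.1, by have := h.2.2; simp only at this; linarith⟩
    · rw [Set.indicator_of_notMem hx]
      have : ∀ y : ℝ, stdT.indicator g ⟨x, y⟩ = 0 := fun y => by
        rw [Set.indicator_of_notMem]
        intro h
        exact hx ⟨h.1, by have h1 := h.2.1; have h2 := h.2.2; simp only at h1 h2; linarith⟩
      simp only [this, integral_zero]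
  · rw [h0, Measure.volume_eq_prod, integral_prod_symm _ hprod, ← B1_inner zero_le_one]
    congr 1
    ext y
    by_cases hy : y ∈ Set.Icc (0 : ℝ) 1
    · rw [Set.indicator_of_mem hy, ← B1_inner (by linarith [hy.2])]
      congr 1
      ext x
      by_cases hx : x ∈ Set.Icc (0 : ℝ) (1 - y)
      · rw [Set.indicator_of_mem hx, Set.indicator_of_mem]
        exact ⟨hx.1, hy.1, by have := hx.2; simp only; linarith⟩
      · rw [Set.indicator_of_notMem hx, Set.indicator_of_notMem]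
        intro h
        exact hx ⟨h.1, by have := h.2.2; simp only at this; linarith⟩
    · rw [Set.indicator_of_notMem hy]
      have : ∀ x : ℝ, stdT.indicator g ⟨x, y⟩ = 0 := fun x => by
        rw [Set.indicator_of_notMem]
        intro h
        exact hy ⟨h.2.1, by have h1 := h.1; have h2 := h.2.2; simp only at h1 h2; linarith⟩
      simp only [this, integral_zero]

theorem B1_cont {P : ℂ → ℝ} (hP : ∀ z ∈ stdT, ContDiffAt ℝ 1 P z) (v : ℂ) :
    ContinuousOn (fun z => fderiv ℝ P z v) stdT := by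
  intro z hz
  have h := (hP z hz).fderiv_right (m := 0) (by norm_num)
  have h2 : ContinuousAt (fun z => fderiv ℝ P z v) z :=
    (h.continuousAt).clm_apply continuousAt_const
  exact h2.continuousWithinAt

theorem B1_mk (x y : ℝ) : (⟨x, y⟩ : ℂ) = x + y * Complex.I := by
  apply Complex.ext <;> simp

theorem B1_x {Q : ℂ → ℝ} (hQ : ∀ z ∈ stdT, ContDiffAt ℝ 1 Q z) {y : ℝ} (hy : y ∈ Set.Icc (0 : ℝ) 1) :
    ∫ x in (0 : ℝ)..(1 - y), fderiv ℝ Q ⟨x, y⟩ 1 =
      Q (1 - y + y * Complex.I) - Q (y * Complex.I) := by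
  have hmem : ∀ x ∈ Set.uIcc (0 : ℝ) (1 - y), (⟨x, y⟩ : ℂ) ∈ stdT := by
    intro x hx
    rw [Set.uIcc_of_le (by linarith [hy.2])] at hx
    exact ⟨hx.1, hy.1, by have := hx.2; simp only; linarith⟩
  have hd : ∀ x ∈ Set.uIcc (0 : ℝ) (1 - y),
      HasDerivAt (fun x : ℝ => Q ⟨x, y⟩) (fderiv ℝ Q ⟨x, y⟩ 1) x := by
    intro x hx
    have h1 : HasFDerivAt Q (fderiv ℝ Q ⟨x, y⟩) ⟨x, y⟩ :=
      ((hQ _ (hmem x hx)).differentiableAt (by norm_num)).hasFDerivAt
    have h2 : HasDerivAt (fun x : ℝ => (⟨x, y⟩ : ℂ)) 1 x := by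
      simp only [B1_mk]
      exact (Complex.ofRealCLM.hasDerivAt (x := x)).add_const _
    exact h1.comp_hasDerivAt x h2
  have hcont : ContinuousOn (fun x : ℝ => fderiv ℝ Q ⟨x, y⟩ 1) (Set.uIcc (0 : ℝ) (1 - y)) := by
    refine (B1_cont hQ 1).comp ?_ hmem
    simp only [B1_mk]
    fun_prop
  rw [intervalIntegral.integral_eq_sub_of_hasDerivAt hd hcont.intervalIntegrable]
  simp only [B1_mk]
  push_cast
  simp

theorem B1_y {P : ℂ → ℝ} (hP : ∀ z ∈ stdT, ContDiffAt ℝ 1 P z) {x : ℝ} (hx : x ∈ Set.Icc (0 : ℝ) 1) :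
    ∫ y in (0 : ℝ)..(1 - x), fderiv ℝ P ⟨x, y⟩ Complex.I =
      P (x + (1 - x) * Complex.I) - P x := by
  have hmem : ∀ y ∈ Set.uIcc (0 : ℝ) (1 - x), (⟨x, y⟩ : ℂ) ∈ stdT := by
    intro y hy
    rw [Set.uIcc_of_le (by linarith [hx.2])] at hy
    exact ⟨hx.1, hy.1, by have := hy.2; simp only; linarith⟩
  have hd : ∀ y ∈ Set.uIcc (0 : ℝ) (1 - x),
      HasDerivAt (fun y : ℝ => P ⟨x, y⟩) (fderiv ℝ P ⟨x, y⟩ Complex.I) y := by
    intro y hy
    have h1 : HasFDerivAt P (fderiv ℝ P ⟨x, y⟩) ⟨x, y⟩ :=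
      ((hP _ (hmem y hy)).differentiableAt (by norm_num)).hasFDerivAt
    have h2 : HasDerivAt (fun y : ℝ => (⟨x, y⟩ : ℂ)) Complex.I y := by
      simp only [B1_mk]
      have h3 : HasDerivAt (fun y : ℝ => ((y : ℂ) * Complex.I)) (1 * Complex.I) y :=
        (Complex.ofRealCLM.hasDerivAt (x := y)).mul_const _
      rw [one_mul] at h3
      exact h3.const_add _
    exact h1.comp_hasDerivAt y h2
  have hcont : ContinuousOn (fun y : ℝ => fderiv ℝ P ⟨x, y⟩ Complex.I)
      (Set.uIcc (0 : ℝ) (1 - x)) := by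
    refine (B1_cont hP Complex.I).comp ?_ hmem
    have hh : Continuous (fun y : ℝ => (⟨x, y⟩ : ℂ)) := by
      have e : (fun y : ℝ => (⟨x, y⟩ : ℂ)) = fun y : ℝ => (x : ℂ) + y * Complex.I := by
        ext y; exact B1_mk x y
      rw [e]
      fun_prop
    exact hh.continuousOn
  rw [intervalIntegral.integral_eq_sub_of_hasDerivAt hd hcont.intervalIntegrable]
  simp only [B1_mk]
  push_cast
  simp

/-- Row B1. Fubini in both orders (`Complex.measurableEquivRealProd`, volume preserving) and the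
fundamental theorem of calculus. -/
theorem green {P Q : ℂ → ℝ} (hP : ∀ z ∈ stdT, ContDiffAt ℝ 1 P z)
    (hQ : ∀ z ∈ stdT, ContDiffAt ℝ 1 Q z) :
    ∫ z in stdT, (fderiv ℝ Q z 1 - fderiv ℝ P z Complex.I) =
      (∫ x in (0 : ℝ)..1, P (x : ℂ)) +
        (∫ y in (0 : ℝ)..1, (Q (1 - y + y * Complex.I) - P (1 - y + y * Complex.I))) -
          ∫ y in (0 : ℝ)..1, Q (y * Complex.I) := by
  have hPc : ContinuousOn P stdT := fun z hz => (hP z hz).continuousAt.continuousWithinAt
  have hQc : ContinuousOn Q stdT := fun z hz => (hQ z hz).continuousAt.continuousWithinAt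
  have i1 : IntegrableOn (fun z => fderiv ℝ Q z 1) stdT :=
    (B1_cont hQ 1).integrableOn_compact B1_compact
  have i2 : IntegrableOn (fun z => fderiv ℝ P z Complex.I) stdT :=
    (B1_cont hP Complex.I).integrableOn_compact B1_compact
  have hu : Set.uIcc (0 : ℝ) 1 = Set.Icc 0 1 := Set.uIcc_of_le zero_le_one
  -- continuity along the three edges
  have e1 : ContinuousOn (fun x : ℝ => P (x : ℂ)) (Set.uIcc 0 1) := by
    refine hPc.comp (by fun_prop) ?_
    intro x hx
    rw [hu] at hx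
    exact ⟨by simpa using hx.1, by simp, by simpa using hx.2⟩
  have m2 : ∀ y ∈ Set.uIcc (0 : ℝ) 1, (1 - (y : ℂ) + y * Complex.I) ∈ stdT := by
    intro y hy
    rw [hu] at hy
    refine ⟨?_, ?_, ?_⟩
    · simp; linarith [hy.2]
    · simp; exact hy.1
    · simp
  have e2 : ContinuousOn (fun y : ℝ => P (1 - y + y * Complex.I)) (Set.uIcc 0 1) :=
    hPc.comp (by fun_prop) m2
  have e3 : ContinuousOn (fun y : ℝ => Q (1 - y + y * Complex.I)) (Set.uIcc 0 1) :=
    hQc.comp (by fun_prop) m2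
  have e4 : ContinuousOn (fun y : ℝ => Q (y * Complex.I)) (Set.uIcc 0 1) := by
    refine hQc.comp (by fun_prop) ?_
    intro y hy
    rw [hu] at hy
    refine ⟨by simp, by simpa using hy.1, by simpa using hy.2⟩
  have e5 : ContinuousOn (fun x : ℝ => P (x + (1 - x) * Complex.I)) (Set.uIcc 0 1) := by
    refine hPc.comp (by fun_prop) ?_
    intro x hx
    rw [hu] at hx
    refine ⟨?_, ?_, ?_⟩
    · simpa using hx.1
    · simpa using hx.2
    · simp
  have q1 : ∫ z in stdT, fderiv ℝ Q z 1 =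
      (∫ y in (0 : ℝ)..1, Q (1 - y + y * Complex.I)) - ∫ y in (0 : ℝ)..1, Q (y * Complex.I) := by
    rw [(B1_fub (B1_cont hQ 1)).2, ← intervalIntegral.integral_sub e3.intervalIntegrable
      e4.intervalIntegrable]
    refine intervalIntegral.integral_congr fun y hy => ?_
    rw [hu] at hy
    exact B1_x hQ hy
  have q2 : ∫ z in stdT, fderiv ℝ P z Complex.I =
      (∫ x in (0 : ℝ)..1, P (x + (1 - x) * Complex.I)) - ∫ x in (0 : ℝ)..1, P (x : ℂ) := by
    rw [(B1_fub (B1_cont hP Complex.I)).1, ← intervalIntegral.integral_sub e5.intervalIntegrable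
      e1.intervalIntegrable]
    refine intervalIntegral.integral_congr fun x hx => ?_
    rw [hu] at hx
    exact B1_y hP hx
  have q3 : ∫ x in (0 : ℝ)..1, P (x + (1 - x) * Complex.I) =
      ∫ y in (0 : ℝ)..1, P (1 - y + y * Complex.I) := by
    have h := intervalIntegral.integral_comp_sub_left (a := (0 : ℝ)) (b := 1)
      (fun x : ℝ => P (x + (1 - x) * Complex.I)) 1
    simp only [sub_zero, sub_self] at h
    rw [← h]
    refine intervalIntegral.integral_congr fun y _ => ?_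
    congr 1
    push_cast
    ring
  rw [integral_sub i1 i2, q1, q2, q3, intervalIntegral.integral_sub e3.intervalIntegrable
    e2.intervalIntegrable]
  ring

private theorem b2_aff {E : Type*} [NormedAddCommGroup E] [NormedSpace ℝ E] {F : ℂ → E} {p h : ℂ}
    {t : ℝ} (hF : DifferentiableAt ℝ F (p + t * h)) :
    HasDerivAt (fun t : ℝ => F (p + t * h)) (fderiv ℝ F (p + t * h) h) t := by
  have h1 : HasDerivAt (fun t : ℝ => p + (t : ℂ) * h) h t := by
    have := (Complex.ofRealCLM.hasDerivAt (x := t)).mul_const h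
    simpa using this.const_add p
  exact hF.hasFDerivAt.comp_hasDerivAt t h1

private theorem b2_line {E : Type*} [NormedAddCommGroup E] [NormedSpace ℝ E] {F : ℂ → E} {z h : ℂ}
    (hF : DifferentiableAt ℝ F z) :
    HasDerivAt (fun t : ℝ => F (z + t * h)) (fderiv ℝ F z h) 0 := by
  have h0 : z + ((0 : ℝ) : ℂ) * h = z := by simp
  have h1 : DifferentiableAt ℝ F (z + ((0 : ℝ) : ℂ) * h) := by rw [h0]; exact hF
  have h2 := b2_aff h1
  rw [h0] at h2
  exact h2

private theorem b2_sym {F : ℂ → ℂ} (hF : ContDiff ℝ 2 F) (z : ℂ) :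
    fderiv ℝ (fun w => fderiv ℝ F w Complex.I) z 1 =
      fderiv ℝ (fun w => fderiv ℝ F w 1) z Complex.I := by
  have h1 : ContDiffAt ℝ 2 F z := hF.contDiffAt
  have h2 : IsSymmSndFDerivAt ℝ F z := h1.isSymmSndFDerivAt (by simp)
  have h3 : DifferentiableAt ℝ (fderiv ℝ F) z :=
    (h1.fderiv_right (m := 1) (by norm_num)).differentiableAt (by norm_num)
  have h4 : ∀ v w : ℂ, fderiv ℝ (fun x => fderiv ℝ F x v) z w = fderiv ℝ (fderiv ℝ F) z w v := by
    intro v w
    rw [fderiv_clm_apply h3 (differentiableAt_const v)]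
    simp
  rw [h4, h4]
  exact h2 1 Complex.I

private theorem b2_dsm {s : ℂ → ℂ} (hs : ContDiff ℝ 5 s) (h : ℂ) :
    ContDiff ℝ 4 (fun z => fderiv ℝ s z h) :=
  (hs.fderiv_right (m := 4) (by norm_num)).clm_apply contDiff_const

private theorem b2_dsm2 {s : ℂ → ℂ} (hs : ContDiff ℝ 4 s) (h : ℂ) :
    ContDiff ℝ 3 (fun z => fderiv ℝ s z h) :=
  (hs.fderiv_right (m := 3) (by norm_num)).clm_apply contDiff_const

private theorem b2_uz {u : ℂ → ℝ} {z : ℂ} (hu : ContDiffAt ℝ 5 u z) : ContDiffAt ℝ 1 (uz u) z := by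
  have h0 : ContDiffAt ℝ 2 u z := hu.of_le (by norm_num)
  have h1 : ContDiffAt ℝ 1 (fderiv ℝ u) z := h0.fderiv_right (m := 1) (by norm_num)
  have h2 : ∀ h : ℂ, ContDiffAt ℝ 1 (fun w => ((fderiv ℝ u w h : ℝ) : ℂ)) z := fun h =>
    Complex.ofRealCLM.contDiff.contDiffAt.comp z (h1.clm_apply contDiffAt_const)
  unfold uz
  exact ((h2 1).sub ((h2 Complex.I).mul contDiffAt_const)).div_const 2

/-- the connection form -/
private noncomputable def b2_om (u : ℂ → ℝ) (s : ℂ → ℂ) (h z : ℂ) : ℝ :=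
  (fderiv ℝ (fun w => fderiv ℝ s w 1) z h * (fderiv ℝ s z 1)⁻¹ +
    2 * uz u (s z) * fderiv ℝ s z h).im

private theorem b2_omc {u : ℂ → ℝ} {s : ℂ → ℂ} (hs : ContDiff ℝ 5 s) {z h : ℂ}
    (hu : ContDiffAt ℝ 5 u (s z)) (hA : fderiv ℝ s z 1 ≠ 0) :
    ContDiffAt ℝ 1 (fun w => fderiv ℝ (fun w => fderiv ℝ s w 1) w h * (fderiv ℝ s w 1)⁻¹ +
      2 * uz u (s w) * fderiv ℝ s w h) z := by
  have h1 : ∀ h : ℂ, ContDiffAt ℝ 1 (fun z => fderiv ℝ s z h) z := fun h =>
    (b2_dsm hs h).contDiffAt.of_le (by norm_num)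
  have h2 : ContDiffAt ℝ 1 (fun w => fderiv ℝ (fun w => fderiv ℝ s w 1) w h) z :=
    (b2_dsm2 (b2_dsm hs 1) h).contDiffAt.of_le (by norm_num)
  have h3 : ContDiffAt ℝ 1 (fun w => uz u (s w)) z :=
    (b2_uz hu).comp z (hs.contDiffAt.of_le (by norm_num))
  exact (h2.mul ((h1 1).inv hA)).add ((contDiffAt_const.mul h3).mul (h1 h))

private theorem b2_oms {u : ℂ → ℝ} {s : ℂ → ℂ} (hs : ContDiff ℝ 5 s) {z h : ℂ}
    (hu : ContDiffAt ℝ 5 u (s z)) (hA : fderiv ℝ s z 1 ≠ 0) :
    ContDiffAt ℝ 1 (b2_om u s h) z :=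
  Complex.imCLM.contDiff.contDiffAt.comp z (b2_omc hs hu hA)

/-- the curvature of the connection form -/
private theorem b2_curl {u : ℂ → ℝ} {s : ℂ → ℂ} (hs : ContDiff ℝ 5 s) {z : ℂ}
    (hu : ContDiffAt ℝ 5 u (s z)) (hA : fderiv ℝ s z 1 ≠ 0) :
    fderiv ℝ (b2_om u s Complex.I) z 1 - fderiv ℝ (b2_om u s 1) z Complex.I =
      lap u (s z) * ((starRingEnd ℂ) (fderiv ℝ s z 1) * fderiv ℝ s z Complex.I).im := by
  have hd1 : ∀ h : ℂ, DifferentiableAt ℝ (fun z => fderiv ℝ s z h) z := fun h =>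
    (b2_dsm hs h).contDiffAt.differentiableAt (by simp)
  have hd2 : ∀ h : ℂ, DifferentiableAt ℝ (fun w => fderiv ℝ (fun w => fderiv ℝ s w 1) w h) z :=
    fun h => (b2_dsm2 (b2_dsm hs 1) h).contDiffAt.differentiableAt (by simp)
  have hu2 : ContDiffAt ℝ 2 u (s z) := hu.of_le (by norm_num)
  obtain ⟨hduz, a, ha⟩ := uz_fderiv hu2
  have hsd : DifferentiableAt ℝ s z := hs.contDiffAt.differentiableAt (by simp)
  have huzs : ∀ h : ℂ, HasDerivAt (fun t : ℝ => uz u (s (z + t * h)))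
      (fderiv ℝ (uz u) (s z) (fderiv ℝ s z h)) 0 := by
    intro h
    have h1 := b2_line (F := fun w => uz u (s w)) (z := z) (h := h)
      (DifferentiableAt.comp z hduz hsd)
    have h2 : fderiv ℝ (fun w => uz u (s w)) z h = fderiv ℝ (uz u) (s z) (fderiv ℝ s z h) := by
      have := fderiv_comp z hduz hsd
      have h3 : (fun w => uz u (s w)) = uz u ∘ s := rfl
      rw [h3, this]
      rfl
    rw [h2] at h1
    exact h1
  have key : ∀ h v : ℂ, fderiv ℝ (b2_om u s h) z v =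
      ((fderiv ℝ (fun w => fderiv ℝ (fun w => fderiv ℝ s w 1) w h) z v * (fderiv ℝ s z 1)⁻¹ +
        fderiv ℝ (fun w => fderiv ℝ s w 1) z h *
          (-fderiv ℝ (fun w => fderiv ℝ s w 1) z v / (fderiv ℝ s z 1) ^ 2)) +
        (2 * fderiv ℝ (uz u) (s z) (fderiv ℝ s z v) * fderiv ℝ s z h +
          2 * uz u (s z) * fderiv ℝ (fun w => fderiv ℝ s w h) z v)).im := by
    intro h v
    have e1 := b2_line (z := z) (h := v) (hd2 h)
    have e2 := b2_line (z := z) (h := v) (hd1 1)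
    have e3 := b2_line (z := z) (h := v) (hd1 h)
    have e4 := huzs v
    have hA' : fderiv ℝ s (z + ((0 : ℝ) : ℂ) * v) 1 ≠ 0 := by simpa using hA
    have e5 := (e1.mul (e2.inv hA')).add ((e4.const_mul 2).mul e3)
    have e6 := Complex.imCLM.hasFDerivAt.comp_hasDerivAt (0 : ℝ) e5
    have e7 := b2_line (z := z) (h := v)
      ((b2_oms (h := h) hs hu hA).differentiableAt (by norm_num))
    have e8 := e7.unique e6
    rw [e8]
    simp
  have hs1 := b2_sym (hs.of_le (by norm_num)) z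
  have hs2 := b2_sym ((b2_dsm hs 1).of_le (by norm_num)) z
  rw [key, key, hs1, hs2, ha, ha, ← Complex.sub_im]
  set A := fderiv ℝ s z 1 with hAd
  set B := fderiv ℝ s z Complex.I with hBd
  have hfin : ∀ (A1 A2 X c : ℂ) (L : ℝ), A ≠ 0 →
      ((X * A⁻¹ + A2 * (-A1 / A ^ 2)) +
        (2 * (a * A + ((L / 4 : ℝ) : ℂ) * (starRingEnd ℂ) A) * B + c) -
        ((X * A⁻¹ + A1 * (-A2 / A ^ 2)) +
          (2 * (a * B + ((L / 4 : ℝ) : ℂ) * (starRingEnd ℂ) B) * A + c))).im =
        L * ((starRingEnd ℂ) A * B).im := by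
    intro A1 A2 X c L _
    have h1 : ((X * A⁻¹ + A2 * (-A1 / A ^ 2)) +
        (2 * (a * A + ((L / 4 : ℝ) : ℂ) * (starRingEnd ℂ) A) * B + c) -
        ((X * A⁻¹ + A1 * (-A2 / A ^ 2)) +
          (2 * (a * B + ((L / 4 : ℝ) : ℂ) * (starRingEnd ℂ) B) * A + c))) =
        ((L / 2 : ℝ) : ℂ) * ((starRingEnd ℂ) A * B - (starRingEnd ℂ) B * A) := by
      push_cast
      ring
    rw [h1, Complex.im_ofReal_mul]
    simp
    ring
  exact hfin _ _ _ _ _ hA

/-- the geodesic curvature of an affine segment -/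
private theorem b2_kap {u : ℂ → ℝ} {s : ℂ → ℂ} (hs : ContDiff ℝ 5 s) (p h : ℂ) (t : ℝ) :
    kap u (fun t : ℝ => s (p + t * h)) t =
      (fderiv ℝ (fun w => fderiv ℝ s w h) (p + t * h) h / fderiv ℝ s (p + t * h) h +
        2 * uz u (s (p + t * h)) * fderiv ℝ s (p + t * h) h).im := by
  have h1 : deriv (fun t : ℝ => s (p + t * h)) = fun t : ℝ => fderiv ℝ s (p + t * h) h := by
    funext t
    exact (b2_aff (hs.contDiffAt.differentiableAt (by simp))).deriv
  have h2 : deriv (fun t : ℝ => fderiv ℝ s (p + t * h) h) t =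
      fderiv ℝ (fun w => fderiv ℝ s w h) (p + t * h) h :=
    (b2_aff (F := fun w => fderiv ℝ s w h)
      ((b2_dsm hs h).contDiffAt.differentiableAt (by simp))).deriv
  unfold kap
  rw [h1, h2]

/-- the total geodesic curvature of an edge -/
private theorem b2_edge {u : ℂ → ℝ} {s : ℂ → ℂ} (hs : ContDiff ℝ 5 s) (p h : ℂ)
    (hu : ∀ t ∈ Set.Icc (0 : ℝ) 1, ContDiffAt ℝ 5 u (s (p + t * h)))
    (hA : ∀ t ∈ Set.Icc (0 : ℝ) 1, fderiv ℝ s (p + t * h) 1 ≠ 0)
    (hD : ∀ t ∈ Set.Icc (0 : ℝ) 1,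
      fderiv ℝ s (p + t * h) h / fderiv ℝ s (p + t * h) 1 ∈ Complex.slitPlane) :
    ∫ t in (0 : ℝ)..1, kap u (fun t : ℝ => s (p + t * h)) t =
      (∫ t in (0 : ℝ)..1, b2_om u s h (p + t * h)) +
        (Complex.arg (fderiv ℝ s (p + h) h / fderiv ℝ s (p + h) 1) -
          Complex.arg (fderiv ℝ s p h / fderiv ℝ s p 1)) := by
  have hu01 : Set.uIcc (0 : ℝ) 1 = Set.Icc 0 1 := Set.uIcc_of_le zero_le_one
  have hDh : ∀ t ∈ Set.Icc (0 : ℝ) 1, fderiv ℝ s (p + t * h) h ≠ 0 := by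
    intro t ht h0
    have := hD t ht
    rw [h0, zero_div] at this
    exact Complex.zero_notMem_slitPlane this
  have hline : Continuous fun t : ℝ => p + (t : ℂ) * h := by fun_prop
  have hc1 : ∀ v : ℂ, Continuous fun t : ℝ => fderiv ℝ s (p + t * h) v := fun v =>
    (b2_dsm hs v).continuous.comp hline
  have hc2 : ∀ v : ℂ, Continuous fun t : ℝ => fderiv ℝ (fun w => fderiv ℝ s w v) (p + t * h) h :=
    fun v => (b2_dsm2 (b2_dsm hs v) h).continuous.comp hline
  have hc3 : ContinuousOn (fun t : ℝ => uz u (s (p + t * h))) (Set.Icc 0 1) := by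
    intro t ht
    have h1 : ContinuousAt (uz u) (s (p + t * h)) := (b2_uz (hu t ht)).continuousAt
    have h2 : ContinuousAt (fun t : ℝ => s (p + t * h)) t :=
      (hs.continuous.comp hline).continuousAt
    exact (ContinuousAt.comp (g := uz u) (f := fun t : ℝ => s (p + t * h)) h1 h2).continuousWithinAt
  have hk : ContinuousOn (fun t : ℝ => kap u (fun t : ℝ => s (p + t * h)) t) (Set.Icc 0 1) := by
    have h1 : (fun t : ℝ => kap u (fun t : ℝ => s (p + t * h)) t) = fun t : ℝ =>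
        (fderiv ℝ (fun w => fderiv ℝ s w h) (p + t * h) h / fderiv ℝ s (p + t * h) h +
          2 * uz u (s (p + t * h)) * fderiv ℝ s (p + t * h) h).im := by
      funext t
      exact b2_kap hs p h t
    rw [h1]
    refine Complex.continuous_im.comp_continuousOn ?_
    exact ((hc2 h).continuousOn.div (hc1 h).continuousOn hDh).add
      ((continuousOn_const.mul hc3).mul (hc1 h).continuousOn)
  have ho : ContinuousOn (fun t : ℝ => b2_om u s h (p + t * h)) (Set.Icc 0 1) := by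
    unfold b2_om
    refine Complex.continuous_im.comp_continuousOn ?_
    exact ((hc2 1).continuousOn.mul ((hc1 1).continuousOn.inv₀ hA)).add
      ((continuousOn_const.mul hc3).mul (hc1 h).continuousOn)
  have hik : IntervalIntegrable (fun t : ℝ => kap u (fun t : ℝ => s (p + t * h)) t) volume 0 1 :=
    ContinuousOn.intervalIntegrable (by rw [hu01]; exact hk)
  have hio : IntervalIntegrable (fun t : ℝ => b2_om u s h (p + t * h)) volume 0 1 :=
    ContinuousOn.intervalIntegrable (by rw [hu01]; exact ho)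
  have hder : ∀ t ∈ Set.uIcc (0 : ℝ) 1, HasDerivAt
      (fun t : ℝ => (Complex.log (fderiv ℝ s (p + t * h) h / fderiv ℝ s (p + t * h) 1)).im)
      (kap u (fun t : ℝ => s (p + t * h)) t - b2_om u s h (p + t * h)) t := by
    intro t ht
    rw [hu01] at ht
    have e1 : HasDerivAt (fun t : ℝ => fderiv ℝ s (p + t * h) h)
        (fderiv ℝ (fun w => fderiv ℝ s w h) (p + t * h) h) t :=
      b2_aff (F := fun w => fderiv ℝ s w h)
        ((b2_dsm hs h).contDiffAt.differentiableAt (by simp))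
    have e2 : HasDerivAt (fun t : ℝ => fderiv ℝ s (p + t * h) 1)
        (fderiv ℝ (fun w => fderiv ℝ s w 1) (p + t * h) h) t :=
      b2_aff (F := fun w => fderiv ℝ s w 1)
        ((b2_dsm hs 1).contDiffAt.differentiableAt (by simp))
    have e3 := (e1.div e2 (hA t ht)).clog_real (hD t ht)
    have e4 := Complex.imCLM.hasFDerivAt.comp_hasDerivAt t e3
    have hA' := hA t ht
    have hD' := hDh t ht
    refine HasDerivAt.congr_deriv e4 ?_
    rw [b2_kap hs p h t]
    unfold b2_om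
    rw [← Complex.sub_im]
    show (_ : ℂ).im = _
    congr 1
    simp only [Pi.div_apply]
    field_simp
    ring
  have hint := intervalIntegral.integral_eq_sub_of_hasDerivAt hder (hik.sub hio)
  rw [intervalIntegral.integral_sub hik hio] at hint
  simp only [Complex.log_im, Complex.ofReal_one, one_mul, Complex.ofReal_zero, zero_mul,
    add_zero] at hint
  linarith

private theorem b2_arg {w1 w2 w3 w4 : ℂ} (h2 : 0 < w2.im) (h3 : 0 < w3.im) (h4 : 0 < w4.im) :
    Complex.arg w3 - Complex.arg w4 - (Complex.arg w2 - Complex.arg w1) =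
      Complex.arg w1 + Complex.arg (-w4⁻¹) + Complex.arg (w3 / w2) - Real.pi := by
  have hne : ∀ w : ℂ, 0 < w.im → w ≠ 0 := by
    intro w hw h0
    rw [h0] at hw
    simp at hw
  have hlt : ∀ w : ℂ, 0 < w.im → Complex.arg w < Real.pi := fun w hw =>
    Complex.arg_lt_pi_iff.2 (Or.inr hw.ne')
  have hinv : ∀ w : ℂ, 0 < w.im → Complex.arg w⁻¹ = -Complex.arg w := by
    intro w hw
    rw [Complex.arg_inv, if_neg (hlt w hw).ne]
  have e1 : Complex.arg (-w4⁻¹) = -Complex.arg w4 + Real.pi := by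
    rw [Complex.arg_neg_eq_arg_add_pi_of_im_neg, hinv w4 h4]
    rw [Complex.inv_im]
    have := Complex.normSq_pos.2 (hne w4 h4)
    rw [neg_div]
    exact neg_neg_of_pos (div_pos h4 this)
  have e2 : Complex.arg (w3 / w2) = Complex.arg w3 - Complex.arg w2 := by
    rw [div_eq_mul_inv, (Complex.arg_mul_eq_add_arg_iff (hne w3 h3) (inv_ne_zero (hne w2 h2))).2,
      hinv w2 h2, sub_eq_add_neg]
    rw [hinv w2 h2]
    have a1 : 0 ≤ Complex.arg w3 := Complex.arg_nonneg_iff.2 h3.le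
    have a2 : 0 ≤ Complex.arg w2 := Complex.arg_nonneg_iff.2 h2.le
    have a3 := hlt w3 h3
    have a4 := hlt w2 h2
    constructor <;> linarith
  rw [e1, e2]
  ring

private theorem b2_meas : MeasurableSet stdT := by
  have h : IsClosed stdT := by
    have h1 : IsClosed {z : ℂ | 0 ≤ z.re} := isClosed_le continuous_const Complex.continuous_re
    have h2 : IsClosed {z : ℂ | 0 ≤ z.im} := isClosed_le continuous_const Complex.continuous_im
    have h3 : IsClosed {z : ℂ | z.re + z.im ≤ 1} :=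
      isClosed_le (Complex.continuous_re.add Complex.continuous_im) continuous_const
    exact h1.inter (h2.inter h3)
  exact h.measurableSet

/-- Row B2. `A = s_x`, `B = s_y`, `P = Im (A_x / A + 2 u_z(s) A)`, `Q = Im (A_y / A + 2 u_z(s) B)`:
`Q_x - P_y = Δu(s) Im (conj A * B)`.  Then `green`; on the second edge
`kap = Q - P + d/dy arg ((B - A) / A)`, on the third edge `kap = Q + d/dy arg (B / A)`
(`B/A` and `(B-A)/A` are in the upper half plane). -/
theorem local_gb {u : ℂ → ℝ} {s : ℂ → ℂ} (hs : ContDiff ℝ 5 s)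
    (hu : ∀ z ∈ stdT, ContDiffAt ℝ 5 u (s z))
    (ho : ∀ z ∈ stdT, 0 < ((starRingEnd ℂ) (fderiv ℝ s z 1) * fderiv ℝ s z Complex.I).im) :
    ∫ z in stdT, lap u (s z) *
        ((starRingEnd ℂ) (fderiv ℝ s z 1) * fderiv ℝ s z Complex.I).im =
      (∫ x in (0 : ℝ)..1, kap u (fun x : ℝ => s x) x) +
        (∫ y in (0 : ℝ)..1, kap u (fun y : ℝ => s (1 - y + y * Complex.I)) y) -
        (∫ y in (0 : ℝ)..1, kap u (fun y : ℝ => s (y * Complex.I)) y) -
        (Complex.arg (fderiv ℝ s 0 Complex.I / fderiv ℝ s 0 1) +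
          Complex.arg (-fderiv ℝ s 1 1 / (fderiv ℝ s 1 Complex.I - fderiv ℝ s 1 1)) +
          Complex.arg ((fderiv ℝ s Complex.I Complex.I - fderiv ℝ s Complex.I 1) /
            fderiv ℝ s Complex.I Complex.I) - Real.pi) := by
  have hA : ∀ z ∈ stdT, fderiv ℝ s z 1 ≠ 0 := by
    intro z hz h0
    have := ho z hz
    rw [h0] at this
    simp at this
  have hBA : ∀ z ∈ stdT, 0 < (fderiv ℝ s z Complex.I / fderiv ℝ s z 1).im := by
    intro z hz
    have h1 : fderiv ℝ s z Complex.I / fderiv ℝ s z 1 =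
        ((starRingEnd ℂ) (fderiv ℝ s z 1) * fderiv ℝ s z Complex.I) *
          (((Complex.normSq (fderiv ℝ s z 1))⁻¹ : ℝ) : ℂ) := by
      rw [div_eq_mul_inv, Complex.inv_def]
      ring
    rw [h1, Complex.im_mul_ofReal]
    exact mul_pos (ho z hz) (inv_pos.2 (Complex.normSq_pos.2 (hA z hz)))
  have hh : ∀ z, fderiv ℝ s z (-1 + Complex.I) = fderiv ℝ s z Complex.I - fderiv ℝ s z 1 := by
    intro z
    rw [map_add, map_neg]
    ring
  have hCA : ∀ z ∈ stdT, 0 < (fderiv ℝ s z (-1 + Complex.I) / fderiv ℝ s z 1).im := by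
    intro z hz
    rw [hh, sub_div, div_self (hA z hz), Complex.sub_im, Complex.one_im, sub_zero]
    exact hBA z hz
  have m1 : ∀ t ∈ Set.Icc (0 : ℝ) 1, (0 : ℂ) + (t : ℂ) * 1 ∈ stdT := by
    intro t ht
    refine ⟨?_, ?_, ?_⟩ <;> simp [ht.1, ht.2]
  have m2 : ∀ t ∈ Set.Icc (0 : ℝ) 1, (1 : ℂ) + (t : ℂ) * (-1 + Complex.I) ∈ stdT := by
    intro t ht
    refine ⟨?_, ?_, ?_⟩ <;> simp [ht.1, ht.2]
  have m3 : ∀ t ∈ Set.Icc (0 : ℝ) 1, (0 : ℂ) + (t : ℂ) * Complex.I ∈ stdT := by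
    intro t ht
    refine ⟨?_, ?_, ?_⟩ <;> simp [ht.1, ht.2]
  have hslit : ∀ w : ℂ, 0 < w.im → w ∈ Complex.slitPlane := fun w hw =>
    Complex.mem_slitPlane_iff.2 (Or.inr hw.ne')
  have E1 := b2_edge (u := u) hs 0 1 (fun t ht => hu _ (m1 t ht)) (fun t ht => hA _ (m1 t ht))
    (fun t ht => by
      rw [div_self (hA _ (m1 t ht))]
      exact Complex.one_mem_slitPlane)
  have E2 := b2_edge (u := u) hs 1 (-1 + Complex.I) (fun t ht => hu _ (m2 t ht))
    (fun t ht => hA _ (m2 t ht)) (fun t ht => hslit _ (hCA _ (m2 t ht)))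
  have E3 := b2_edge (u := u) hs 0 Complex.I (fun t ht => hu _ (m3 t ht))
    (fun t ht => hA _ (m3 t ht)) (fun t ht => hslit _ (hBA _ (m3 t ht)))
  have hG := green (P := b2_om u s 1) (Q := b2_om u s Complex.I)
    (fun z hz => b2_oms hs (hu z hz) (hA z hz)) (fun z hz => b2_oms hs (hu z hz) (hA z hz))
  have hL : ∫ z in stdT, lap u (s z) *
        ((starRingEnd ℂ) (fderiv ℝ s z 1) * fderiv ℝ s z Complex.I).im =
      ∫ z in stdT, (fderiv ℝ (b2_om u s Complex.I) z 1 -
        fderiv ℝ (b2_om u s 1) z Complex.I) :=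
    setIntegral_congr_fun b2_meas (fun z hz => (b2_curl hs (hu z hz) (hA z hz)).symm)
  have hom : ∀ z, b2_om u s (-1 + Complex.I) z = b2_om u s Complex.I z - b2_om u s 1 z := by
    intro z
    unfold b2_om
    rw [← Complex.sub_im]
    congr 1
    rw [hh, map_add, map_neg]
    ring
  have c1 : ∀ t : ℝ, (0 : ℂ) + (t : ℂ) * 1 = t := fun t => by ring
  have c2 : ∀ t : ℝ, (1 : ℂ) + (t : ℂ) * (-1 + Complex.I) = 1 - t + t * Complex.I :=
    fun t => by ring
  have c3 : ∀ t : ℝ, (0 : ℂ) + (t : ℂ) * Complex.I = t * Complex.I := fun t => by ring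
  have z1 : (0 : ℂ) ∈ stdT := by
    have := m1 0 (by simp)
    simpa using this
  have z2 : (1 : ℂ) ∈ stdT := by
    have := m1 1 (by simp)
    simpa using this
  have z3 : Complex.I ∈ stdT := by
    have := m3 1 (by simp)
    simpa using this
  have c4 : (1 : ℂ) + (-1 + Complex.I) = Complex.I := by ring
  simp only [c1, zero_add, div_self (hA 0 z1), div_self (hA 1 z2), sub_self, add_zero] at E1
  simp only [c2, c4, hom] at E2
  simp only [c3, zero_add] at E3
  have hk := b2_arg (w1 := fderiv ℝ s 0 Complex.I / fderiv ℝ s 0 1)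
    (w2 := fderiv ℝ s Complex.I Complex.I / fderiv ℝ s Complex.I 1)
    (w3 := fderiv ℝ s Complex.I (-1 + Complex.I) / fderiv ℝ s Complex.I 1)
    (w4 := fderiv ℝ s 1 (-1 + Complex.I) / fderiv ℝ s 1 1)
    (hBA _ z3) (hCA _ z3) (hCA _ z2)
  have k1 : -(fderiv ℝ s 1 (-1 + Complex.I) / fderiv ℝ s 1 1)⁻¹ =
      -fderiv ℝ s 1 1 / (fderiv ℝ s 1 Complex.I - fderiv ℝ s 1 1) := by
    rw [hh, inv_div, neg_div]
  have k2 : fderiv ℝ s Complex.I (-1 + Complex.I) / fderiv ℝ s Complex.I 1 /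
      (fderiv ℝ s Complex.I Complex.I / fderiv ℝ s Complex.I 1) =
      (fderiv ℝ s Complex.I Complex.I - fderiv ℝ s Complex.I 1) /
        fderiv ℝ s Complex.I Complex.I := by
    rw [hh, div_div_div_cancel_right₀ (hA _ z3)]
  rw [k1, k2] at hk
  rw [hL, hG, E1, E2, E3]
  linarith

end F10S
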