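import Pool.Agent.Lib.MP_f10cd3_gt.S.Defs

/-! Row P2: the Hausdorff measure of a small surface. -/

set_option autoImplicit false

namespace F10S

open MPf10cd3 F10G MeasureTheory

lemma Haus_vol_image (S : Set ℂ) :
    volume (Complex.equivRealProd '' S) = volume S := by
  have h := Complex.volume_preserving_equiv_real_prod.measure_preimage_equiv
    (Complex.equivRealProd '' S)
  rw [← h]
  congr 1
  ext z
  constructor
  · rintro ⟨w, hw, he⟩
    have : w = z := Complex.equivRealProd.injective he
    rw [← this]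
    exact hw
  · intro hz
    exact ⟨z, hz, rfl⟩

/-- the identity from `ℂ` to `ℝ × ℝ` with the maximum norm is `1`-Lipschitz, its inverse is
`√2`-Lipschitz; `hausdorffMeasure_prod_real` -/
theorem vol_le_haus (S : Set ℂ) : volume S ≤ Measure.hausdorffMeasure 2 S := by
  rw [← Haus_vol_image S, ← hausdorffMeasure_prod_real]
  have h := Complex.lipschitz_equivRealProd.hausdorffMeasure_image_le (d := 2) (by norm_num) S
  simpa using h

theorem haus_le_vol (S : Set ℂ) : Measure.hausdorffMeasure 2 S ≤ 2 * volume S := by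
  have h := Complex.antilipschitz_equivRealProd.hausdorffMeasure_preimage_le (d := 2)
    (by norm_num) (Complex.equivRealProd '' S)
  rw [Set.preimage_image_eq _ Complex.equivRealProd.injective, hausdorffMeasure_prod_real,
    Haus_vol_image] at h
  have h2 : ((NNReal.sqrt 2 : NNReal) : ENNReal) ^ (2 : ℝ) = 2 := by
    rw [← ENNReal.coe_rpow_of_nonneg _ (by norm_num)]
    have : (NNReal.sqrt 2) ^ (2 : ℝ) = 2 := by
      rw [show (2 : ℝ) = ((2 : ℕ) : ℝ) by norm_num, NNReal.rpow_natCast, NNReal.sq_sqrt]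
    rw [this]
    norm_num
  rwa [h2] at h

variable {Γ X M : Type} [Group Γ] [MetricSpace X] [MulAction Γ X] [MetricSpace M] {π : X → M}

/-- `M` is the image of the disc of radius `D` under `π ∘ E`, which is `21/20`-Lipschitz -/
theorem haus_small [MeasurableSpace M] [BorelSpace M] {κ : ℝ} (hκ : 0 < κ) (hc : IsCover Γ π)
    (h : HasExp κ X) {D : ℝ} (hD : √κ * D < 13 / 25) (hd : ∀ p q : M, dist p q ≤ D) :
    Measure.hausdorffMeasure 2 (Set.univ : Set M) ≤ ENNReal.ofReal (9 / 4 * Real.pi * D ^ 2) := by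
  rcases isEmpty_or_nonempty M with hM | hM
  · rw [Set.univ_eq_empty_iff.2 hM, measure_empty]
    exact bot_le
  · obtain ⟨p0⟩ := hM
    obtain ⟨x, hx⟩ := hc.surj p0
    have hD0 : 0 ≤ D := by
      have := hd p0 p0
      rwa [dist_self] at this
    obtain ⟨E, hE1, hE2⟩ := h x
    have hs : 0 < √κ := Real.sqrt_pos.2 hκ
    have hball : ∀ v : ℂ, v ∈ Metric.closedBall (0 : ℂ) D → √κ * ‖v‖ < 13 / 25 := by
      intro v hv
      rw [mem_closedBall_zero_iff] at hv
      exact lt_of_le_of_lt (mul_le_mul_of_nonneg_left hv hs.le) hD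
    have hL : LipschitzOnWith (21 / 20) (fun v => π (E v)) (Metric.closedBall (0 : ℂ) D) := by
      apply LipschitzOnWith.of_dist_le_mul
      intro v hv w hw
      have e1 := hE1 v w (hball v hv) (hball w hw)
      have e2 := hc.le (E v) (E w)
      rw [dist_eq_norm]
      refine (e2.trans e1).trans (le_of_eq ?_)
      push_cast
      ring
    have hsub : (Set.univ : Set M) ⊆ (fun v => π (E v)) '' Metric.closedBall (0 : ℂ) D := by
      intro q _
      obtain ⟨y0, hy0⟩ := hc.surj q
      obtain ⟨γ, hγ⟩ := hc.lift x y0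
      have e1 : dist x (γ • y0) ≤ D := by
        rw [hγ]
        exact hd _ _
      obtain ⟨v, hv, hEv⟩ := hE2 (γ • y0) (lt_of_le_of_lt (mul_le_mul_of_nonneg_left e1 hs.le) hD)
      refine ⟨v, ?_, ?_⟩
      · rw [mem_closedBall_zero_iff, hv]
        exact e1
      · change π (E v) = q
        rw [hEv, hc.inv, hy0]
    have h1 := hL.hausdorffMeasure_image_le (d := 2) (by norm_num)
    have h2 := haus_le_vol (Metric.closedBall (0 : ℂ) D)
    rw [Complex.volume_closedBall] at h2
    have h3 : ((21 / 20 : NNReal) : ENNReal) ^ (2 : ℝ) = ENNReal.ofReal (441 / 400) := by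
      rw [← ENNReal.coe_rpow_of_nonneg _ (by norm_num), ENNReal.ofReal]
      congr 1
      rw [show (2 : ℝ) = ((2 : ℕ) : ℝ) by norm_num, NNReal.rpow_natCast]
      apply NNReal.eq
      rw [Real.coe_toNNReal _ (by norm_num)]
      push_cast
      norm_num
    have h4 : (ENNReal.ofReal D ^ 2 * (NNReal.pi : ENNReal)) = ENNReal.ofReal (D ^ 2 * Real.pi) := by
      rw [ENNReal.ofReal_mul (by positivity), ENNReal.ofReal_pow hD0]
      congr 1
      rw [ENNReal.ofReal]
      congr 1
      apply NNReal.eq
      rw [Real.coe_toNNReal _ Real.pi_pos.le]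
      rfl
    calc Measure.hausdorffMeasure 2 (Set.univ : Set M)
        ≤ Measure.hausdorffMeasure 2 ((fun v => π (E v)) '' Metric.closedBall (0 : ℂ) D) :=
          measure_mono hsub
      _ ≤ ((21 / 20 : NNReal) : ENNReal) ^ (2 : ℝ) *
          Measure.hausdorffMeasure 2 (Metric.closedBall (0 : ℂ) D) := h1
      _ ≤ ENNReal.ofReal (441 / 400) * (2 * ENNReal.ofReal (D ^ 2 * Real.pi)) := by
          rw [h3, ← h4]
          gcongr
      _ = ENNReal.ofReal (441 / 400 * (2 * (D ^ 2 * Real.pi))) := by
          rw [ENNReal.ofReal_mul (by norm_num : (0 : ℝ) ≤ 441 / 400),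
            ENNReal.ofReal_mul (by norm_num : (0 : ℝ) ≤ 2)]
          norm_num
      _ ≤ ENNReal.ofReal (9 / 4 * Real.pi * D ^ 2) := by
          apply ENNReal.ofReal_le_ofReal
          have : 0 ≤ D ^ 2 * Real.pi := by positivity
          nlinarith

end F10S
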