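import Pool.Agent.Lib.MP_f10cd3_gt.S.Defs

/-! Row Lip: a curve with metric speed at most `K` at every point. -/

set_option autoImplicit false

namespace F10S

open MPf10cd3 F10G

variable {Y : Type} [MetricSpace Y]

/-- the same for a real function, one sided -/
private theorem f10sLIP_le {g : ℝ → ℝ} {K : ℝ} (hg : ContinuousOn g (Set.Icc 0 1))
    (h : ∀ t ∈ Set.Ico (0 : ℝ) 1, ∀ ε : ℝ, 0 < ε → ∃ η : ℝ, 0 < η ∧ ∀ s ∈ Set.Icc (0 : ℝ) 1,
      t < s → s < t + η → g s ≤ g t + (K + ε) * (s - t)) : g 1 ≤ g 0 + K := by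
  have key := image_le_of_liminf_slope_right_le_deriv_boundary (f := g) (a := 0) (b := 1)
    (B := fun x => g 0 + K * x) (B' := fun _ => K) hg (by simp) (by fun_prop) (by
      intro x _
      have h1 : HasDerivAt (fun x : ℝ => g 0 + K * x) (K * 1) x :=
        ((hasDerivAt_id x).const_mul K).const_add (g 0)
      rw [mul_one] at h1
      exact h1.hasDerivWithinAt) (by
      intro t ht r hr
      obtain ⟨η, hη, hs⟩ := h t ht ((r - K) / 2) (by linarith)
      refine Filter.Eventually.frequently ?_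
      have hpos : 0 < min η (1 - t) := lt_min hη (by linarith [ht.2])
      have hev : ∀ᶠ s in nhdsWithin t (Set.Ioi t), s ∈ Set.Ioo t (t + min η (1 - t)) :=
        Ioo_mem_nhdsGT (by linarith)
      filter_upwards [hev] with s hs1
      have h1 : s < t + η := lt_of_lt_of_le hs1.2 (by linarith [min_le_left η (1 - t)])
      have h2 : s ≤ 1 := by
        have := min_le_right η (1 - t)
        linarith [hs1.2]
      have h3 := hs s ⟨by linarith [ht.1, hs1.1], h2⟩ hs1.1 h1
      have h4 : 0 < s - t := by linarith [hs1.1]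
      rw [slope_def_field, div_lt_iff₀ h4]
      nlinarith)
  have := key (x := 1) ⟨by norm_num, le_rfl⟩
  simpa using this

/-- Let `C > K`, `b ∈ [0,1]` the supremum of the `t` with `dist (f 0) (f s) ≤ C s` on `[0, t]`. -/
theorem lip_of_local {f : ℝ → Y} {K : ℝ} (h : ∀ t ∈ Set.Icc (0 : ℝ) 1, ∀ ε : ℝ, 0 < ε →
    ∃ η : ℝ, 0 < η ∧ ∀ s ∈ Set.Icc (0 : ℝ) 1, |s - t| < η → dist (f s) (f t) ≤ (K + ε) * |s - t|) :
    dist (f 0) (f 1) ≤ K := by
  have hcont : ContinuousOn f (Set.Icc 0 1) := by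
    intro t ht
    rw [Metric.continuousWithinAt_iff]
    intro ε hε
    obtain ⟨η, hη, hs⟩ := h t ht 1 one_pos
    refine ⟨min η (ε / (|K + 1| + 1)), lt_min hη (by positivity), ?_⟩
    intro s hs1 hs2
    rw [Real.dist_eq] at hs2
    have h1 := hs s hs1 (lt_of_lt_of_le hs2 (min_le_left _ _))
    have h2 : |s - t| < ε / (|K + 1| + 1) := lt_of_lt_of_le hs2 (min_le_right _ _)
    rw [lt_div_iff₀ (by positivity)] at h2
    have h3 : (K + 1) * |s - t| ≤ |K + 1| * |s - t| :=
      mul_le_mul_of_nonneg_right (le_abs_self _) (abs_nonneg _)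
    nlinarith [abs_nonneg (s - t)]
  have hg : ContinuousOn (fun t => dist (f 0) (f t)) (Set.Icc 0 1) :=
    (continuous_const.dist continuous_id).comp_continuousOn hcont
  have := f10sLIP_le (K := K) hg (by
    intro t ht ε hε
    obtain ⟨η, hη, hs⟩ := h t ⟨ht.1, ht.2.le⟩ ε hε
    refine ⟨η, hη, fun s hs1 hts hsη => ?_⟩
    have h1 : |s - t| = s - t := abs_of_pos (by linarith)
    have h2 := hs s hs1 (by rw [h1]; linarith)
    rw [h1] at h2
    have h3 := dist_triangle (f 0) (f t) (f s)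
    rw [dist_comm (f t) (f s)] at h3
    change dist (f 0) (f s) ≤ dist (f 0) (f t) + (K + ε) * (s - t)
    linarith)
  simpa using this

/-- the same for a real function, one sided: if `g` grows at most with slope `K` to the right of
every point (and is continuous) -/
theorem le_of_local {g : ℝ → ℝ} {K : ℝ} (hg : ContinuousOn g (Set.Icc 0 1))
    (h : ∀ t ∈ Set.Ico (0 : ℝ) 1, ∀ ε : ℝ, 0 < ε → ∃ η : ℝ, 0 < η ∧ ∀ s ∈ Set.Icc (0 : ℝ) 1,
      t < s → s < t + η → g s ≤ g t + (K + ε) * (s - t)) : g 1 ≤ g 0 + K :=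
  f10sLIP_le hg h

/-- a chart is Lipschitz on balls -/
theorem chart_lip {κ : ℝ} {c : PC Y} (hc : IsPC κ c) {z0 : ℂ} {ρ B : ℝ}
    (hsub : Metric.closedBall z0 ρ ⊆ c.U) (hB : ∀ w ∈ Metric.closedBall z0 ρ, |c.u w| ≤ B)
    {z w : ℂ} (hz : z ∈ Metric.closedBall z0 ρ) (hw : w ∈ Metric.closedBall z0 ρ) :
    dist (c.φ z) (c.φ w) ≤ Real.exp B * ‖z - w‖ := by
  have hmem : ∀ t ∈ Set.Icc (0 : ℝ) 1, z + (t : ℂ) * (w - z) ∈ Metric.closedBall z0 ρ := by
    intro t ht
    have h1 := (convex_closedBall z0 ρ).add_smul_sub_mem hz hw ht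
    simpa using h1
  have key := lip_of_local (f := fun t : ℝ => c.φ (z + (t : ℂ) * (w - z)))
    (K := Real.exp B * ‖z - w‖) (by
      intro t ht ε hε
      have hp := hsub (hmem t ht)
      obtain ⟨η, hη, hm⟩ := hc.metric _ hp (ε / (‖z - w‖ + 1)) (by positivity)
      refine ⟨η / (‖z - w‖ + 1), by positivity, ?_⟩
      intro s hs hst
      have hq := hsub (hmem s hs)
      have hdiff : (z + (s : ℂ) * (w - z)) - (z + (t : ℂ) * (w - z)) =
          ((s - t : ℝ) : ℂ) * (w - z) := by push_cast; ring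
      have hnorm : ‖(z + (s : ℂ) * (w - z)) - (z + (t : ℂ) * (w - z))‖ = |s - t| * ‖z - w‖ := by
        rw [hdiff, norm_mul, Complex.norm_real, Real.norm_eq_abs, norm_sub_rev]
      rw [lt_div_iff₀ (by positivity)] at hst
      have h1 : ‖(z + (s : ℂ) * (w - z)) - (z + (t : ℂ) * (w - z))‖ < η := by
        rw [hnorm]
        nlinarith [abs_nonneg (s - t)]
      have h2 := hm _ hq _ hp h1 (by simpa using hη)
      have h3 := (abs_le.1 h2).2
      have h4 : Real.exp (c.u (z + (t : ℂ) * (w - z))) ≤ Real.exp B :=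
        Real.exp_le_exp.2 (le_trans (le_abs_self _) (hB _ (hmem t ht)))
      rw [hnorm] at h3
      have h5 : ε / (‖z - w‖ + 1) * ‖z - w‖ ≤ ε := by
        rw [div_mul_eq_mul_div, div_le_iff₀ (by positivity)]
        nlinarith [norm_nonneg (z - w)]
      have h6 : 0 ≤ |s - t| * ‖z - w‖ := by positivity
      calc dist (c.φ (z + (s : ℂ) * (w - z))) (c.φ (z + (t : ℂ) * (w - z)))
          ≤ Real.exp (c.u (z + (t : ℂ) * (w - z))) * (|s - t| * ‖z - w‖) +
            ε / (‖z - w‖ + 1) * (|s - t| * ‖z - w‖) := by linarith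
        _ ≤ Real.exp B * (|s - t| * ‖z - w‖) + ε / (‖z - w‖ + 1) * (|s - t| * ‖z - w‖) := by
            linarith [mul_le_mul_of_nonneg_right h4 h6]
        _ = Real.exp B * ‖z - w‖ * |s - t| + (ε / (‖z - w‖ + 1) * ‖z - w‖) * |s - t| := by ring
        _ ≤ Real.exp B * ‖z - w‖ * |s - t| + ε * |s - t| := by
            linarith [mul_le_mul_of_nonneg_right h5 (abs_nonneg (s - t))]
        _ = (Real.exp B * ‖z - w‖ + ε) * |s - t| := by ring)
  simpa using key

end F10S
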