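import Mathlib

/-! Row O1: ordinary differential equations (Mathlib only). -/

set_option autoImplicit false

namespace F10S

variable {E : Type} [NormedAddCommGroup E] [NormedSpace ℝ E] [CompleteSpace E]

/-- a bound of an integral over `[0, t]`, `t ≥ 0` -/
private theorem O1_int_pos {h : ℝ → E} {c a t : ℝ} (ha : 0 < a) (ht : 0 ≤ t)
    (hb : ∀ s, |s| ≤ |t| → ‖h s‖ ≤ c * Real.exp (a * |s|)) (hc : 0 ≤ c) :
    ‖∫ s in (0 : ℝ)..t, h s‖ ≤ c / a * Real.exp (a * |t|) := by
  have h1 : ‖∫ s in (0 : ℝ)..t, h s‖ ≤ ∫ s in (0 : ℝ)..t, c * Real.exp (a * s) := by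
    refine intervalIntegral.norm_integral_le_of_norm_le ht ?_ ?_
    · refine Filter.Eventually.of_forall fun s hs => ?_
      have h2 := hb s (by rw [abs_of_pos hs.1, abs_of_nonneg ht]; exact hs.2)
      rw [abs_of_pos hs.1] at h2
      exact h2
    · exact Continuous.intervalIntegrable (by fun_prop) _ _
  have h3 : ∫ s in (0 : ℝ)..t, c * Real.exp (a * s) =
      c / a * Real.exp (a * t) - c / a * Real.exp (a * 0) := by
    refine intervalIntegral.integral_eq_sub_of_hasDerivAt (f := fun s => c / a * Real.exp (a * s))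
      ?_ ?_
    · intro s _
      have h4 := (((hasDerivAt_id s).const_mul a).exp).const_mul (c / a)
      refine h4.congr_deriv ?_
      simp only [id]
      field_simp
    · exact Continuous.intervalIntegrable (by fun_prop) _ _
  rw [h3] at h1
  rw [abs_of_nonneg ht]
  have h5 : 0 ≤ c / a * Real.exp (a * 0) := by positivity
  linarith

/-- a bound of an integral over `[0, t]` -/
private theorem O1_int {h : ℝ → E} {c a t : ℝ} (ha : 0 < a)
    (hb : ∀ s, |s| ≤ |t| → ‖h s‖ ≤ c * Real.exp (a * |s|)) (hc : 0 ≤ c) :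
    ‖∫ s in (0 : ℝ)..t, h s‖ ≤ c / a * Real.exp (a * |t|) := by
  rcases le_total 0 t with ht | ht
  · exact O1_int_pos ha ht hb hc
  · have h1 := O1_int_pos (h := fun s => h (-s)) (c := c) (a := a) (t := -t) ha (by linarith)
      (by
        intro s hs
        rw [abs_neg] at hs
        have h2 := hb (-s) (by rw [abs_neg]; exact hs)
        rw [abs_neg] at h2
        exact h2) hc
    rw [intervalIntegral.integral_comp_neg (fun s => h s), neg_neg, neg_zero, abs_neg] at h1
    rw [intervalIntegral.integral_symm, norm_neg]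
    exact h1

/-- the Picard iterates -/
private noncomputable def O1_it (f : ℝ → E → E) (x0 : E) : ℕ → ℝ → E
  | 0 => fun _ => x0
  | n + 1 => fun t => x0 + ∫ s in (0 : ℝ)..t, f s (O1_it f x0 n s)

private theorem O1_prim {g : ℝ → E} (hg : Continuous g) (x0 : E) (t : ℝ) :
    HasDerivAt (fun t => x0 + ∫ s in (0 : ℝ)..t, g s) (g t) t :=
  (intervalIntegral.integral_hasDerivAt_right (hg.intervalIntegrable _ _)
    hg.stronglyMeasurable.stronglyMeasurableAtFilter hg.continuousAt).const_add x0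

private theorem O1_cont {f : ℝ → E → E} (hc : Continuous fun q : ℝ × E => f q.1 q.2) (x0 : E) :
    ∀ n, Continuous (O1_it f x0 n) := by
  intro n
  induction n with
  | zero => exact continuous_const
  | succ n ih =>
    have h1 : Continuous fun s => f s (O1_it f x0 n s) := hc.comp (continuous_id.prodMk ih)
    rw [continuous_iff_continuousAt]
    intro t
    exact (O1_prim h1 x0 t).continuousAt

/-- Row O1. global solutions for globally Lipschitz right hand sides: `IsPicardLindelof` on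
`[-T, T]` with a large ball is not enough (the time is short): glue solutions on intervals of the
length `1 / (2K + 2)`, or use a weighted norm. -/
theorem ode_global {f : ℝ → E → E} {K : NNReal} (hL : ∀ t, LipschitzWith K (f t))
    (hc : Continuous fun q : ℝ × E => f q.1 q.2) (x0 : E) :
    ∃ α : ℝ → E, α 0 = x0 ∧ ∀ t, HasDerivAt α (f t (α t)) t := by
  have hK : (0 : ℝ) ≤ K := K.2
  have hcont := O1_cont hc x0
  have hint : ∀ β : ℝ → E, Continuous β → Continuous fun s => f s (β s) :=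
    fun β hβ => hc.comp (continuous_id.prodMk hβ)
  set a : ℝ := 2 * ((K : ℝ) + 1) with ha
  have ha0 : 0 < a := by positivity
  -- the bound on compact intervals
  have hbound : ∀ T : ℝ, 0 ≤ T → ∃ C : ℝ, 0 ≤ C ∧ ∀ n t, |t| ≤ T →
      dist (O1_it f x0 n t) (O1_it f x0 (n + 1) t) ≤ C * (1 / 2) ^ n := by
    intro T hT
    obtain ⟨M, hM⟩ := (isCompact_Icc (a := -T) (b := T)).exists_bound_of_continuousOn
      (f := fun t => O1_it f x0 1 t - O1_it f x0 0 t)
      (((hcont 1).sub (hcont 0)).continuousOn)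
    have hM0 : 0 ≤ M := le_trans (norm_nonneg _) (hM 0 ⟨by linarith, hT⟩)
    have key : ∀ n t, |t| ≤ T → ‖O1_it f x0 (n + 1) t - O1_it f x0 n t‖ ≤
        M * (1 / 2) ^ n * Real.exp (a * |t|) := by
      intro n
      induction n with
      | zero =>
        intro t ht
        have h1 := hM t (abs_le.1 ht)
        have h2 : 1 ≤ Real.exp (a * |t|) := Real.one_le_exp (by positivity)
        rw [pow_zero, mul_one]
        calc ‖O1_it f x0 (0 + 1) t - O1_it f x0 0 t‖ ≤ M * 1 := by rw [mul_one]; exact h1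
          _ ≤ M * Real.exp (a * |t|) := by gcongr
      | succ n ih =>
        intro t ht
        have h1 : O1_it f x0 (n + 1 + 1) t - O1_it f x0 (n + 1) t =
            ∫ s in (0 : ℝ)..t, (f s (O1_it f x0 (n + 1) s) - f s (O1_it f x0 n s)) := by
          rw [intervalIntegral.integral_sub
            ((hint _ (hcont (n + 1))).intervalIntegrable _ _)
            ((hint _ (hcont n)).intervalIntegrable _ _)]
          show (x0 + ∫ s in (0 : ℝ)..t, f s (O1_it f x0 (n + 1) s)) -
            (x0 + ∫ s in (0 : ℝ)..t, f s (O1_it f x0 n s)) = _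
          abel
        rw [h1]
        have h2 := O1_int (h := fun s => f s (O1_it f x0 (n + 1) s) - f s (O1_it f x0 n s))
          (c := K * (M * (1 / 2) ^ n)) (a := a) (t := t) ha0
          (by
            intro s hs
            have h3 := (hL s).dist_le_mul (O1_it f x0 (n + 1) s) (O1_it f x0 n s)
            rw [dist_eq_norm, dist_eq_norm] at h3
            have h4 := ih s (le_trans hs ht)
            calc ‖f s (O1_it f x0 (n + 1) s) - f s (O1_it f x0 n s)‖
                ≤ K * ‖O1_it f x0 (n + 1) s - O1_it f x0 n s‖ := h3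
              _ ≤ K * (M * (1 / 2) ^ n * Real.exp (a * |s|)) := by gcongr
              _ = K * (M * (1 / 2) ^ n) * Real.exp (a * |s|) := by ring)
          (by positivity)
        refine le_trans h2 ?_
        have h5 : K * (M * (1 / 2) ^ n) / a ≤ M * (1 / 2) ^ (n + 1) := by
          rw [div_le_iff₀ ha0, ha]
          have h6 : 0 ≤ M * (1 / 2) ^ n := by positivity
          have h7 : M * (1 / 2) ^ (n + 1) * (2 * ((K : ℝ) + 1)) = M * (1 / 2) ^ n * (K + 1) := by
            rw [pow_succ]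
            ring
          rw [h7]
          nlinarith
        gcongr
    refine ⟨M * Real.exp (a * T), by positivity, ?_⟩
    intro n t ht
    rw [dist_comm, dist_eq_norm]
    refine le_trans (key n t ht) ?_
    have h1 : Real.exp (a * |t|) ≤ Real.exp (a * T) := Real.exp_le_exp.2 (by gcongr)
    calc M * (1 / 2) ^ n * Real.exp (a * |t|) ≤ M * (1 / 2) ^ n * Real.exp (a * T) := by gcongr
      _ = M * Real.exp (a * T) * (1 / 2) ^ n := by ring
  -- the limit
  have hlim : ∀ t, ∃ y, Filter.Tendsto (fun n => O1_it f x0 n t) Filter.atTop (nhds y) := by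
    intro t
    obtain ⟨C, _, hC⟩ := hbound |t| (abs_nonneg t)
    exact cauchySeq_tendsto_of_complete
      (cauchySeq_of_le_geometric (1 / 2) C (by norm_num) fun n => hC n t le_rfl)
  choose α hα using hlim
  have hunif : ∀ T : ℝ, 0 ≤ T → ∃ C : ℝ, 0 ≤ C ∧ ∀ n t, |t| ≤ T →
      dist (O1_it f x0 n t) (α t) ≤ C * (1 / 2) ^ n := by
    intro T hT
    obtain ⟨C, hC0, hC⟩ := hbound T hT
    refine ⟨2 * C, by positivity, ?_⟩
    intro n t ht
    have h1 := dist_le_of_le_geometric_of_tendsto (1 / 2) C (by norm_num) (fun n => hC n t ht)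
      (hα t) n
    refine le_trans h1 (le_of_eq ?_)
    ring
  have hpow : ∀ C : ℝ, Filter.Tendsto (fun n : ℕ => C * (1 / 2 : ℝ) ^ n) Filter.atTop (nhds 0) := by
    intro C
    have h1 := (tendsto_pow_atTop_nhds_zero_of_lt_one (r := (1 / 2 : ℝ)) (by norm_num)
      (by norm_num)).const_mul C
    rwa [mul_zero] at h1
  have hαc : Continuous α := by
    rw [continuous_iff_continuousAt]
    intro t
    refine continuousAt_of_locally_uniform_approx_of_continuousAt ?_
    intro u hu
    obtain ⟨ε, hε, hεu⟩ := Metric.mem_uniformity_dist.1 hu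
    obtain ⟨C, hC0, hC⟩ := hunif (|t| + 1) (by positivity)
    obtain ⟨n, hn⟩ := ((hpow C).eventually (gt_mem_nhds hε)).exists
    refine ⟨Metric.ball t 1, Metric.ball_mem_nhds t one_pos, O1_it f x0 n,
      (hcont n).continuousAt, ?_⟩
    intro y hy
    refine hεu ?_
    rw [dist_comm]
    refine lt_of_le_of_lt (hC n y ?_) hn
    have h1 : |y - t| < 1 := by rwa [Metric.mem_ball, Real.dist_eq] at hy
    have h2 : |y| ≤ |t| + |y - t| := by
      have := abs_add_le t (y - t)
      rwa [add_sub_cancel] at this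
    linarith
  have hfix : ∀ t, α t = x0 + ∫ s in (0 : ℝ)..t, f s (α s) := by
    intro t
    obtain ⟨C, hC0, hC⟩ := hunif |t| (abs_nonneg t)
    have h1 : Filter.Tendsto (fun n => O1_it f x0 (n + 1) t) Filter.atTop (nhds (α t)) :=
      (hα t).comp (Filter.tendsto_add_atTop_nat 1)
    refine tendsto_nhds_unique h1 ?_
    rw [tendsto_iff_dist_tendsto_zero]
    refine squeeze_zero (fun _ => dist_nonneg) ?_ (hpow (K * C * |t|))
    intro n
    rw [dist_eq_norm]
    have h2 : O1_it f x0 (n + 1) t - (x0 + ∫ s in (0 : ℝ)..t, f s (α s)) =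
        ∫ s in (0 : ℝ)..t, (f s (O1_it f x0 n s) - f s (α s)) := by
      rw [intervalIntegral.integral_sub
        ((hint _ (hcont n)).intervalIntegrable _ _)
        ((hint _ hαc).intervalIntegrable _ _)]
      show (x0 + ∫ s in (0 : ℝ)..t, f s (O1_it f x0 n s)) - (x0 + ∫ s in (0 : ℝ)..t, f s (α s)) = _
      abel
    rw [h2]
    have h3 := intervalIntegral.norm_integral_le_of_norm_le_const (a := 0) (b := t)
      (C := K * (C * (1 / 2) ^ n)) (f := fun s => f s (O1_it f x0 n s) - f s (α s))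
      (by
        intro s hs
        have h4 := (hL s).dist_le_mul (O1_it f x0 n s) (α s)
        rw [dist_eq_norm] at h4
        have h5 : |s| ≤ |t| := by
          rcases le_total 0 t with h6 | h6
          · rw [Set.uIoc_of_le h6] at hs
            rw [abs_of_pos hs.1, abs_of_nonneg h6]
            exact hs.2
          · rw [Set.uIoc_of_ge h6] at hs
            rw [abs_of_nonpos hs.2, abs_of_nonpos h6]
            linarith [hs.1]
        calc ‖f s (O1_it f x0 n s) - f s (α s)‖ ≤ K * dist (O1_it f x0 n s) (α s) := h4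
          _ ≤ K * (C * (1 / 2) ^ n) := by
            gcongr
            exact hC n s h5)
    rw [sub_zero] at h3
    refine le_trans h3 (le_of_eq ?_)
    ring
  refine ⟨α, ?_, ?_⟩
  · rw [hfix 0, intervalIntegral.integral_same, add_zero]
  · intro t
    have h1 := O1_prim (hint α hαc) x0 t
    have h2 : α = fun t => x0 + ∫ s in (0 : ℝ)..t, f s (α s) := funext hfix
    rw [← h2] at h1
    exact h1

/-! Row O2: the flow of a compactly supported `C²` vector field is `C¹`. -/

/-- Gronwall on `[-T, T]` -/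
private theorem O2_gron {G : Type*} [NormedAddCommGroup G] [NormedSpace ℝ G] {g g' : ℝ → G}
    {K δ ε T : ℝ} (hK : 0 ≤ K) (hδ : 0 ≤ δ) (hε : 0 ≤ ε) (hg : ∀ t, HasDerivAt g (g' t) t)
    (h0 : ‖g 0‖ ≤ δ) (hb : ∀ t, |t| ≤ T → ‖g' t‖ ≤ K * ‖g t‖ + ε) (t : ℝ) (ht : |t| ≤ T) :
    ‖g t‖ ≤ (δ + ε) * Real.exp ((K + 1) * T) := by
  have hT : 0 ≤ T := (abs_nonneg t).trans ht
  have hK1 : K + 1 ≠ 0 := by positivity
  have main : ∀ s, 0 ≤ s → s ≤ T → gronwallBound δ (K + 1) ε (s - 0) ≤
      (δ + ε) * Real.exp ((K + 1) * T) := by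
    intro s hs hsT
    rw [gronwallBound_of_K_ne_0 hK1, sub_zero]
    have e1 : Real.exp ((K + 1) * s) ≤ Real.exp ((K + 1) * T) :=
      Real.exp_le_exp.2 (mul_le_mul_of_nonneg_left hsT (by positivity))
    have e2 : 1 ≤ Real.exp ((K + 1) * s) := Real.one_le_exp (by positivity)
    have e3 : ε / (K + 1) ≤ ε := div_le_self hε (by linarith)
    have e4 : 0 ≤ ε / (K + 1) := by positivity
    have e5 : ε / (K + 1) * (Real.exp ((K + 1) * s) - 1) ≤ ε * Real.exp ((K + 1) * T) := by
      calc ε / (K + 1) * (Real.exp ((K + 1) * s) - 1) ≤ ε * (Real.exp ((K + 1) * s) - 1) :=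
            mul_le_mul_of_nonneg_right e3 (by linarith)
        _ ≤ ε * Real.exp ((K + 1) * T) := mul_le_mul_of_nonneg_left (by linarith) hε
    have e6 : δ * Real.exp ((K + 1) * s) ≤ δ * Real.exp ((K + 1) * T) :=
      mul_le_mul_of_nonneg_left e1 hδ
    linarith
  have hb1 : ∀ s, |s| ≤ T → ‖g' s‖ ≤ (K + 1) * ‖g s‖ + ε := by
    intro s hs
    have h1 := hb s hs
    have h2 := norm_nonneg (g s)
    linarith
  rcases le_total 0 t with h | h
  · have h1 := norm_le_gronwallBound_of_norm_deriv_right_le (f := g) (f' := g') (δ := δ)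
      (K := K + 1) (ε := ε) (a := 0) (b := T)
      (fun s _ => (hg s).continuousAt.continuousWithinAt)
      (fun s _ => (hg s).hasDerivWithinAt) h0
      (fun s hs => hb1 s (by rw [abs_of_nonneg hs.1]; exact hs.2.le)) t
      ⟨h, by rwa [abs_of_nonneg h] at ht⟩
    exact h1.trans (main t h (by rwa [abs_of_nonneg h] at ht))
  · have hd : ∀ s, HasDerivAt (fun s => g (-s)) (-g' (-s)) s := by
      intro s
      have := (hg (-s)).scomp s (hasDerivAt_neg s)
      exact this.congr_deriv (by simp)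
    have h1 := norm_le_gronwallBound_of_norm_deriv_right_le (f := fun s => g (-s))
      (f' := fun s => -g' (-s)) (δ := δ) (K := K + 1) (ε := ε) (a := 0) (b := T)
      (fun s _ => (hd s).continuousAt.continuousWithinAt)
      (fun s _ => (hd s).hasDerivWithinAt) (by simpa using h0)
      (fun s hs => by
        rw [norm_neg]
        exact hb1 (-s) (by rw [abs_neg, abs_of_nonneg hs.1]; exact hs.2.le)) (-t)
      ⟨by linarith, by rwa [abs_of_nonpos h] at ht⟩
    rw [neg_neg] at h1
    exact h1.trans (main (-t) (by linarith) (by rwa [abs_of_nonpos h] at ht))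

/-- the remainder of the first order expansion -/
private theorem O2_taylor {F : E → E} {L : NNReal} (hF : Differentiable ℝ F)
    (hL : LipschitzWith L (fderiv ℝ F)) (x y : E) :
    ‖F y - F x - fderiv ℝ F x (y - x)‖ ≤ L * ‖y - x‖ * ‖y - x‖ := by
  refine (convex_segment x y).norm_image_sub_le_of_norm_fderiv_le' (𝕜 := ℝ)
    (fun z _ => hF z) (fun z hz => ?_) (left_mem_segment ℝ x y) (right_mem_segment ℝ x y)
  have h1 := hL.dist_le_mul z x
  rw [dist_eq_norm, dist_eq_norm] at h1
  refine h1.trans (mul_le_mul_of_nonneg_left ?_ L.2)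
  obtain ⟨a, b, ha, hb, hab, rfl⟩ := hz
  have h2 : a • x + b • y - x = b • (y - x) := by
    have : a = 1 - b := by linarith
    rw [this]
    module
  rw [h2, norm_smul, Real.norm_of_nonneg hb]
  calc b * ‖y - x‖ ≤ 1 * ‖y - x‖ := mul_le_mul_of_nonneg_right (by linarith) (norm_nonneg _)
    _ = ‖y - x‖ := one_mul _

/-- Row O2. the flow of a compactly supported `C²` vector field is `C¹`.  Existence: `ode_global`;
the derivative `Y` with respect to the initial value is the solution of `Y' = (F' ∘ Φ) Y`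
(`ode_global` in `E →L[ℝ] E`); `‖Φ t (ξ+h) - Φ t ξ - Y h‖ ≤ C ‖h‖²` and continuity of `Y` by
Gronwall (`norm_le_gronwallBound_of_norm_deriv_right_le`). -/
theorem exists_flow_c1 {F : E → E} (hF : ContDiff ℝ 2 F) (hs : HasCompactSupport F) :
    ∃ Φ : ℝ → E → E, (∀ ξ, Φ 0 ξ = ξ) ∧
      (∀ t ξ, HasDerivAt (fun s => Φ s ξ) (F (Φ t ξ)) t) ∧
      ContDiff ℝ 1 (fun q : ℝ × E => Φ q.1 q.2) := by
  have hFd : Differentiable ℝ F := hF.differentiable two_ne_zero
  have hF1 : ContDiff ℝ 1 (fderiv ℝ F) := hF.fderiv_right (by norm_num)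
  have hF1c : Continuous (fderiv ℝ F) := hF1.continuous
  have hs1 : HasCompactSupport (fderiv ℝ F) := hs.fderiv ℝ
  obtain ⟨K0, hK0⟩ := hF1c.bounded_above_of_compact_support hs1
  obtain ⟨L0, hL0⟩ :=
    (hF1.continuous_fderiv one_ne_zero).bounded_above_of_compact_support (hs1.fderiv ℝ)
  have hK00 : 0 ≤ K0 := (norm_nonneg _).trans (hK0 0)
  have hL00 : 0 ≤ L0 := (norm_nonneg _).trans (hL0 0)
  set K : NNReal := ⟨K0, hK00⟩ with hKdef
  set L : NNReal := ⟨L0, hL00⟩ with hLdef
  have hLip : LipschitzWith K F := lipschitzWith_of_nnnorm_fderiv_le (𝕜 := ℝ) hFd hK0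
  have hLip1 : LipschitzWith L (fderiv ℝ F) :=
    lipschitzWith_of_nnnorm_fderiv_le (𝕜 := ℝ) (hF1.differentiable one_ne_zero) hL0
  -- the flow
  have ex : ∀ ξ : E, ∃ α : ℝ → E, α 0 = ξ ∧ ∀ t, HasDerivAt α (F (α t)) t := fun ξ =>
    ode_global (f := fun _ => F) (K := K) (fun _ => hLip) (hF.continuous.comp continuous_snd) ξ
  choose A hA0 hA using ex
  have hAc : ∀ ξ, Continuous (A ξ) := fun ξ =>
    continuous_iff_continuousAt.mpr fun t => (hA ξ t).continuousAt
  -- the derivative
  have exY : ∀ ξ : E, ∃ Y : ℝ → (E →L[ℝ] E), Y 0 = ContinuousLinearMap.id ℝ E ∧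
      ∀ t, HasDerivAt Y ((fderiv ℝ F (A ξ t)).comp (Y t)) t := by
    intro ξ
    refine ode_global (f := fun t Y => (fderiv ℝ F (A ξ t)).comp Y) (K := K) ?_ ?_
      (ContinuousLinearMap.id ℝ E)
    · intro t
      refine LipschitzWith.of_dist_le_mul fun Y Z => ?_
      rw [dist_eq_norm, dist_eq_norm, ← ContinuousLinearMap.comp_sub]
      exact (ContinuousLinearMap.opNorm_comp_le _ _).trans
        (mul_le_mul_of_nonneg_right (hK0 _) (norm_nonneg _))
    · exact (hF1c.comp ((hAc ξ).comp continuous_fst)).clm_comp continuous_snd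
  choose Y hY0 hY using exY
  have hYc : ∀ ξ, Continuous (Y ξ) := fun ξ =>
    continuous_iff_continuousAt.mpr fun t => (hY ξ t).continuousAt
  -- the bounds
  have hnid : ‖ContinuousLinearMap.id ℝ E‖ ≤ 1 := ContinuousLinearMap.norm_id_le
  have b1 : ∀ T t : ℝ, |t| ≤ T → ∀ ξ η : E,
      ‖A η t - A ξ t‖ ≤ ‖η - ξ‖ * Real.exp ((K0 + 1) * T) := by
    intro T t ht ξ η
    have h := O2_gron (g := fun t => A η t - A ξ t) (g' := fun t => F (A η t) - F (A ξ t))
      (K := K0) (δ := ‖η - ξ‖) (ε := 0) (T := T) hK00 (norm_nonneg _) le_rfl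
      (fun t => (hA η t).sub (hA ξ t)) (by rw [hA0, hA0])
      (fun s _ => by
        rw [add_zero]
        have := hLip.dist_le_mul (A η s) (A ξ s)
        rwa [dist_eq_norm, dist_eq_norm] at this) t ht
    rwa [add_zero] at h
  have b2 : ∀ T t : ℝ, |t| ≤ T → ∀ ξ : E, ‖Y ξ t‖ ≤ Real.exp ((K0 + 1) * T) := by
    intro T t ht ξ
    have h := O2_gron (g := Y ξ) (g' := fun t => (fderiv ℝ F (A ξ t)).comp (Y ξ t))
      (K := K0) (δ := 1) (ε := 0) (T := T) hK00 zero_le_one le_rfl (hY ξ)
      (by rw [hY0]; exact hnid)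
      (fun s _ => by
        rw [add_zero]
        exact (ContinuousLinearMap.opNorm_comp_le _ _).trans
          (mul_le_mul_of_nonneg_right (hK0 _) (norm_nonneg _))) t ht
    rwa [add_zero, one_mul] at h
  have b3 : ∀ T t : ℝ, |t| ≤ T → ∀ ξ η : E,
      ‖A η t - A ξ t - Y ξ t (η - ξ)‖ ≤
        L0 * Real.exp ((K0 + 1) * T) ^ 3 * ‖η - ξ‖ * ‖η - ξ‖ := by
    intro T t ht ξ η
    set M := Real.exp ((K0 + 1) * T) with hM
    have hM0 : 0 < M := Real.exp_pos _
    have h := O2_gron (g := fun t => A η t - A ξ t - Y ξ t (η - ξ))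
      (g' := fun t => F (A η t) - F (A ξ t) - (fderiv ℝ F (A ξ t)).comp (Y ξ t) (η - ξ))
      (K := K0) (δ := 0) (ε := L0 * (‖η - ξ‖ * M) * (‖η - ξ‖ * M)) (T := T) hK00 le_rfl
      (by positivity)
      (fun t => ((hA η t).sub (hA ξ t)).sub ((hY ξ t).clm_apply (hasDerivAt_const t (η - ξ)) |>.congr_deriv
        (by simp)))
      (by rw [hA0, hA0, hY0]; simp)
      (fun s hs => by
        have t1 := O2_taylor hFd hLip1 (A ξ s) (A η s)
        have t2 := b1 T s hs ξ η
        have e : F (A η s) - F (A ξ s) - (fderiv ℝ F (A ξ s)).comp (Y ξ s) (η - ξ) =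
            fderiv ℝ F (A ξ s) (A η s - A ξ s - Y ξ s (η - ξ)) +
            (F (A η s) - F (A ξ s) - fderiv ℝ F (A ξ s) (A η s - A ξ s)) := by
          rw [map_sub (fderiv ℝ F (A ξ s)) (A η s - A ξ s)]
          simp only [ContinuousLinearMap.comp_apply]
          abel
        rw [e]
        refine (norm_add_le _ _).trans (add_le_add ?_ ?_)
        · exact (ContinuousLinearMap.le_opNorm _ _).trans
            (mul_le_mul_of_nonneg_right (hK0 _) (norm_nonneg _))
        · refine t1.trans ?_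
          have h0 := norm_nonneg (A η s - A ξ s)
          have hL' : (L : ℝ) = L0 := rfl
          rw [hL']
          gcongr) t ht
    refine h.trans (le_of_eq ?_)
    ring
  have b4 : ∀ T t : ℝ, |t| ≤ T → ∀ ξ η : E,
      ‖Y η t - Y ξ t‖ ≤ L0 * Real.exp ((K0 + 1) * T) ^ 3 * ‖η - ξ‖ := by
    intro T t ht ξ η
    set M := Real.exp ((K0 + 1) * T) with hM
    have hM0 : 0 < M := Real.exp_pos _
    have h := O2_gron (g := fun t => Y η t - Y ξ t)
      (g' := fun t => (fderiv ℝ F (A η t)).comp (Y η t) - (fderiv ℝ F (A ξ t)).comp (Y ξ t))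
      (K := K0) (δ := 0) (ε := L0 * (‖η - ξ‖ * M) * M) (T := T) hK00 le_rfl (by positivity)
      (fun t => (hY η t).sub (hY ξ t)) (by rw [hY0, hY0]; simp)
      (fun s hs => by
        have t1 := hLip1.dist_le_mul (A η s) (A ξ s)
        rw [dist_eq_norm, dist_eq_norm] at t1
        have t2 := b1 T s hs ξ η
        have t3 := b2 T s hs ξ
        have e : (fderiv ℝ F (A η s)).comp (Y η s) - (fderiv ℝ F (A ξ s)).comp (Y ξ s) =
            (fderiv ℝ F (A η s)).comp (Y η s - Y ξ s) +
            (fderiv ℝ F (A η s) - fderiv ℝ F (A ξ s)).comp (Y ξ s) := by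
          rw [ContinuousLinearMap.comp_sub, ContinuousLinearMap.sub_comp]
          abel
        rw [e]
        refine (norm_add_le _ _).trans (add_le_add ?_ ?_)
        · exact (ContinuousLinearMap.opNorm_comp_le _ _).trans
            (mul_le_mul_of_nonneg_right (hK0 _) (norm_nonneg _))
        · refine (ContinuousLinearMap.opNorm_comp_le _ _).trans ?_
          have hL' : (L : ℝ) = L0 := rfl
          rw [hL'] at t1
          have h0 := norm_nonneg (A η s - A ξ s)
          calc ‖fderiv ℝ F (A η s) - fderiv ℝ F (A ξ s)‖ * ‖Y ξ s‖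
              ≤ (L0 * ‖A η s - A ξ s‖) * M := by gcongr
            _ ≤ (L0 * (‖η - ξ‖ * M)) * M := by gcongr) t ht
    refine h.trans (le_of_eq ?_)
    ring
  -- the derivatives in both variables
  have dξ : ∀ t ξ, HasFDerivAt (fun η => A η t) (Y ξ t) ξ := by
    intro t ξ
    rw [hasFDerivAt_iff_isLittleO_nhds_zero]
    set C := L0 * Real.exp ((K0 + 1) * |t|) ^ 3 with hC
    have h1 : (fun h : E => A (ξ + h) t - A ξ t - Y ξ t h) =O[nhds 0] fun h : E => ‖h‖ ^ 2 := by
      refine Asymptotics.IsBigO.of_bound C (Filter.Eventually.of_forall fun h => ?_)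
      have h2 := b3 |t| t le_rfl ξ (ξ + h)
      rw [add_sub_cancel_left] at h2
      refine h2.trans (le_of_eq ?_)
      rw [norm_pow, norm_norm, hC]
      ring
    refine h1.trans_isLittleO ?_
    exact Asymptotics.isLittleO_norm_pow_id one_lt_two
  have cY : Continuous fun q : ℝ × E => Y q.2 q.1 := by
    rw [continuous_iff_continuousAt]
    rintro ⟨t0, ξ0⟩
    unfold ContinuousAt
    rw [tendsto_iff_norm_sub_tendsto_zero]
    set C := L0 * Real.exp ((K0 + 1) * (|t0| + 1)) ^ 3 with hC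
    have hlim : Filter.Tendsto (fun q : ℝ × E => C * ‖q.2 - ξ0‖ + ‖Y ξ0 q.1 - Y ξ0 t0‖)
        (nhds (t0, ξ0)) (nhds 0) := by
      have h1 : Continuous fun q : ℝ × E => C * ‖q.2 - ξ0‖ + ‖Y ξ0 q.1 - Y ξ0 t0‖ :=
        (continuous_const.mul (continuous_snd.sub continuous_const).norm).add
          (((hYc ξ0).comp continuous_fst).sub continuous_const).norm
      have h2 := h1.tendsto (t0, ξ0)
      simpa using h2
    refine squeeze_zero' (Filter.Eventually.of_forall fun _ => norm_nonneg _) ?_ hlim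
    have hev : ∀ᶠ q : ℝ × E in nhds (t0, ξ0), |q.1| < |t0| + 1 := by
      have : Continuous fun q : ℝ × E => |q.1| := continuous_fst.abs
      exact this.continuousAt.eventually_lt_const (by simp)
    filter_upwards [hev] with q hq
    have h3 := b4 (|t0| + 1) q.1 hq.le ξ0 q.2
    calc ‖Y q.2 q.1 - Y ξ0 t0‖ = ‖(Y q.2 q.1 - Y ξ0 q.1) + (Y ξ0 q.1 - Y ξ0 t0)‖ := by
          rw [sub_add_sub_cancel]
      _ ≤ ‖Y q.2 q.1 - Y ξ0 q.1‖ + ‖Y ξ0 q.1 - Y ξ0 t0‖ := norm_add_le _ _
      _ ≤ C * ‖q.2 - ξ0‖ + ‖Y ξ0 q.1 - Y ξ0 t0‖ := by gcongr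
  have cA : Continuous fun q : ℝ × E => A q.2 q.1 := by
    rw [continuous_iff_continuousAt]
    rintro ⟨t0, ξ0⟩
    unfold ContinuousAt
    rw [tendsto_iff_norm_sub_tendsto_zero]
    set C := Real.exp ((K0 + 1) * (|t0| + 1)) with hC
    have hlim : Filter.Tendsto (fun q : ℝ × E => ‖q.2 - ξ0‖ * C + ‖A ξ0 q.1 - A ξ0 t0‖)
        (nhds (t0, ξ0)) (nhds 0) := by
      have h1 : Continuous fun q : ℝ × E => ‖q.2 - ξ0‖ * C + ‖A ξ0 q.1 - A ξ0 t0‖ :=
        ((continuous_snd.sub continuous_const).norm.mul continuous_const).add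
          (((hAc ξ0).comp continuous_fst).sub continuous_const).norm
      have h2 := h1.tendsto (t0, ξ0)
      simpa using h2
    refine squeeze_zero' (Filter.Eventually.of_forall fun _ => norm_nonneg _) ?_ hlim
    have hev : ∀ᶠ q : ℝ × E in nhds (t0, ξ0), |q.1| < |t0| + 1 := by
      have : Continuous fun q : ℝ × E => |q.1| := continuous_fst.abs
      exact this.continuousAt.eventually_lt_const (by simp)
    filter_upwards [hev] with q hq
    have h3 := b1 (|t0| + 1) q.1 hq.le ξ0 q.2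
    calc ‖A q.2 q.1 - A ξ0 t0‖ = ‖(A q.2 q.1 - A ξ0 q.1) + (A ξ0 q.1 - A ξ0 t0)‖ := by
          rw [sub_add_sub_cancel]
      _ ≤ ‖A q.2 q.1 - A ξ0 q.1‖ + ‖A ξ0 q.1 - A ξ0 t0‖ := norm_add_le _ _
      _ ≤ ‖q.2 - ξ0‖ * C + ‖A ξ0 q.1 - A ξ0 t0‖ := by gcongr
  refine ⟨fun t ξ => A ξ t, fun ξ => hA0 ξ, fun t ξ => hA ξ t, ?_⟩
  set D1 : ℝ → E → ℝ →L[ℝ] E := fun t ξ => ContinuousLinearMap.toSpanSingleton ℝ (F (A ξ t))
    with hD1
  set D2 : ℝ → E → E →L[ℝ] E := fun t ξ => Y ξ t with hD2
  have cD1 : Continuous fun q : ℝ × E => D1 q.1 q.2 := by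
    have h1 : Continuous fun q : ℝ × E => F (A q.2 q.1) := hF.continuous.comp cA
    exact (ContinuousLinearMap.toSpanSingletonCLE (𝕜 := ℝ) (E := E)).continuous.comp h1
  have hst : ∀ q : ℝ × E, HasStrictFDerivAt (fun q : ℝ × E => A q.2 q.1)
      ((D1 q.1 q.2).coprod (D2 q.1 q.2)) q := by
    intro q
    exact hasStrictFDerivAt_uncurry_coprod (𝕜 := ℝ) (u := q) (f := fun t ξ => A ξ t) (f₁ := D1)
      (f₂ := D2) (Filter.Eventually.of_forall fun v => (hA v.2 v.1).hasFDerivAt)
      (Filter.Eventually.of_forall fun v => dξ v.1 v.2) cD1.continuousAt cY.continuousAt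
  rw [contDiff_one_iff_fderiv]
  refine ⟨fun q => (hst q).hasFDerivAt.differentiableAt, ?_⟩
  have e : fderiv ℝ (fun q : ℝ × E => A q.2 q.1) =
      fun q : ℝ × E => (D1 q.1 q.2).coprod (D2 q.1 q.2) :=
    funext fun q => (hst q).hasFDerivAt.fderiv
  rw [e]
  have e2 : (fun q : ℝ × E => (D1 q.1 q.2).coprod (D2 q.1 q.2)) = fun q : ℝ × E =>
      (D1 q.1 q.2).comp (ContinuousLinearMap.fst ℝ ℝ E) +
        (D2 q.1 q.2).comp (ContinuousLinearMap.snd ℝ ℝ E) := by
    funext q
    ext v <;> simp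
  rw [e2]
  exact (cD1.clm_comp continuous_const).add (cY.clm_comp continuous_const)

end F10S
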