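import Pool.Agent.Lib.MP_f10cd3_gt.S.Defs

/-! Row W1: calculus with `u_z`. -/

set_option autoImplicit false

namespace F10S

open MPf10cd3 F10G
open scoped ContDiff

private theorem W1_decomp (h : ℂ) : h = h.re • (1 : ℂ) + h.im • Complex.I := by
  apply Complex.ext <;> simp

private theorem W1_lin (L : ℂ →L[ℝ] ℝ) (h : ℂ) : L h = h.re * L 1 + h.im * L Complex.I := by
  conv_lhs => rw [W1_decomp h]
  rw [map_add, map_smul, map_smul, smul_eq_mul, smul_eq_mul]

/-- Row W1 -/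
theorem du_eq {u : ℂ → ℝ} {z : ℂ} (hu : DifferentiableAt ℝ u z) (h : ℂ) :
    fderiv ℝ u z h = (2 * uz u z * h).re := by
  rw [W1_lin]
  have e : 2 * uz u z = (fderiv ℝ u z 1 : ℝ) - (fderiv ℝ u z Complex.I : ℝ) * Complex.I := by
    unfold uz
    ring
  rw [e]
  simp only [Complex.mul_re, Complex.sub_re, Complex.ofReal_re, Complex.sub_im, Complex.ofReal_im,
    Complex.mul_im, Complex.I_re, Complex.I_im]
  ring

private theorem W1_fd {u : ℂ → ℝ} {z : ℂ} (hu : ContDiffAt ℝ 2 u z) :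
    DifferentiableAt ℝ (fderiv ℝ u) z :=
  (hu.fderiv_right (m := 1) (by norm_num)).differentiableAt (by norm_num)

private theorem W1_hd {u : ℂ → ℝ} {z : ℂ} (hu : ContDiffAt ℝ 2 u z) (v : ℂ) :
    HasFDerivAt (fun w => fderiv ℝ u w v) ((fderiv ℝ (fderiv ℝ u) z).flip v) z := by
  have h := (W1_fd hu).hasFDerivAt.clm_apply (hasFDerivAt_const v z)
  refine h.congr_fderiv ?_
  ext w <;> simp

private theorem W1_uz {u : ℂ → ℝ} {z : ℂ} (hu : ContDiffAt ℝ 2 u z) :
    ∃ L : ℂ →L[ℝ] ℂ, HasFDerivAt (uz u) L z ∧ ∀ h : ℂ, L h =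
      (((fderiv ℝ (fderiv ℝ u) z h 1 : ℝ) : ℂ) -
        ((fderiv ℝ (fderiv ℝ u) z h Complex.I : ℝ) : ℂ) * Complex.I) / 2 := by
  have h1 := (Complex.ofRealCLM.hasFDerivAt (x := fderiv ℝ u z 1)).comp z (W1_hd hu 1)
  have h2 := (Complex.ofRealCLM.hasFDerivAt (x := fderiv ℝ u z Complex.I)).comp z
    (W1_hd hu Complex.I)
  have h3 := ((h1.sub (h2.mul_const Complex.I)).mul_const (2⁻¹ : ℂ))
  refine ⟨_, h3, fun h => ?_⟩
  simp [div_eq_mul_inv, mul_comm]

/-- Row W1 : `d(u_z)(h) = u_zz h + (Δu / 4) conj h` -/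
theorem uz_fderiv {u : ℂ → ℝ} {z : ℂ} (hu : ContDiffAt ℝ 2 u z) :
    DifferentiableAt ℝ (uz u) z ∧ ∃ a : ℂ, ∀ h : ℂ,
      fderiv ℝ (uz u) z h = a * h + ((lap u z / 4 : ℝ) : ℂ) * (starRingEnd ℂ) h := by
  obtain ⟨L, hL, hLh⟩ := W1_uz hu
  refine ⟨hL.differentiableAt, ?_⟩
  rw [hL.fderiv]
  have hs : fderiv ℝ (fderiv ℝ u) z Complex.I 1 = fderiv ℝ (fderiv ℝ u) z 1 Complex.I :=
    (hu.isSymmSndFDerivAt (by simp)) Complex.I 1
  have hlap : lap u z = fderiv ℝ (fderiv ℝ u) z 1 1 +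
      fderiv ℝ (fderiv ℝ u) z Complex.I Complex.I := by
    unfold lap
    rw [(W1_hd hu 1).fderiv, (W1_hd hu Complex.I).fderiv]
    rfl
  have hdec : ∀ h v : ℂ, fderiv ℝ (fderiv ℝ u) z h v =
      h.re * fderiv ℝ (fderiv ℝ u) z 1 v + h.im * fderiv ℝ (fderiv ℝ u) z Complex.I v := by
    intro h v
    exact W1_lin ((fderiv ℝ (fderiv ℝ u) z).flip v) h
  set A := fderiv ℝ (fderiv ℝ u) z 1 1 with hA
  set B := fderiv ℝ (fderiv ℝ u) z 1 Complex.I with hB
  set D := fderiv ℝ (fderiv ℝ u) z Complex.I Complex.I with hD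
  refine ⟨(((A - D : ℝ) : ℂ) - 2 * (B : ℂ) * Complex.I) / 4, fun h => ?_⟩
  rw [hLh, hdec h 1, hdec h Complex.I, hs, ← hA, ← hB, ← hD, hlap]
  apply Complex.ext
  · simp
    ring
  · simp
    ring

/-- Row W1 -/
theorem uz_smooth {u : ℂ → ℝ} {U : Set ℂ} (hU : IsOpen U) (hu : ContDiffOn ℝ 5 u U) :
    ContDiffOn ℝ 4 (uz u) U := by
  have h1 : ContDiffOn ℝ 4 (fderiv ℝ u) U := hu.fderiv_of_isOpen hU (by norm_num)
  have h2 : ContDiffOn ℝ 4 (fun w => ((fderiv ℝ u w 1 : ℝ) : ℂ)) U :=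
    Complex.ofRealCLM.contDiff.comp_contDiffOn (h1.clm_apply contDiffOn_const)
  have h3 : ContDiffOn ℝ 4 (fun w => ((fderiv ℝ u w Complex.I : ℝ) : ℂ)) U :=
    Complex.ofRealCLM.contDiff.comp_contDiffOn (h1.clm_apply contDiffOn_const)
  exact (h2.sub (h3.mul contDiffOn_const)).div_const 2

/-- Row W1 -/
theorem geoF_smooth {u : ℂ → ℝ} {U : Set ℂ} (hU : IsOpen U) (hu : ContDiffOn ℝ 5 u U) :
    ContDiffOn ℝ 4 (geoF u) (U ×ˢ Set.univ) := by
  have h1 : ContDiffOn ℝ 4 (fun ξ : ℂ × ℂ => uz u ξ.1) (U ×ˢ Set.univ) :=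
    (uz_smooth hU hu).comp contDiff_fst.contDiffOn fun ξ hξ => hξ.1
  have h2 : ContDiffOn ℝ 4 (fun ξ : ℂ × ℂ => ξ.2) (U ×ˢ Set.univ) := contDiff_snd.contDiffOn
  exact h2.prodMk ((contDiffOn_const.mul h1).mul (h2.pow 2))

/-- Row W1 -/
theorem geoF_fderiv {u : ℂ → ℝ} {z : ℂ} (hu : ContDiffAt ℝ 2 u z) (p y q : ℂ) :
    fderiv ℝ (geoF u) (z, p) (y, q) =
      (q, -2 * fderiv ℝ (uz u) z y * p ^ 2 - 4 * uz u z * p * q) := by
  have h0 : HasFDerivAt (uz u) (fderiv ℝ (uz u) z) z := (uz_fderiv hu).1.hasFDerivAt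
  have h1 : HasFDerivAt (fun ξ : ℂ × ℂ => uz u ξ.1)
      ((fderiv ℝ (uz u) z).comp (ContinuousLinearMap.fst ℝ ℂ ℂ)) (z, p) :=
    HasFDerivAt.comp (z, p) (g := uz u) (f := Prod.fst) h0 hasFDerivAt_fst
  have h2 : HasFDerivAt (fun ξ : ℂ × ℂ => ξ.2) (ContinuousLinearMap.snd ℝ ℂ ℂ) (z, p) :=
    hasFDerivAt_snd
  have h3 := h2.prodMk ((h1.const_mul (-2)).mul (h2.pow 2))
  have h4 : HasFDerivAt (geoF u) _ (z, p) := h3
  rw [h4.fderiv]
  refine Prod.ext rfl ?_
  simp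
  ring

/-- Row W2. `ζ = (z, p)` a geodesic, `η = (y, q)` a solution of the linearised equation:
`W = y/p` has the derivative `V = q/p + 2 u_z y`, and `V' = i Δu |p|² Im W`. -/
theorem jac {u : ℂ → ℝ} {ζ η : ℝ → ℂ × ℂ} {t : ℝ} (hu : ContDiffAt ℝ 2 u (ζ t).1)
    (h1 : HasDerivAt ζ (geoF u (ζ t)) t) (h2 : HasDerivAt η (fderiv ℝ (geoF u) (ζ t) (η t)) t)
    (hp : (ζ t).2 ≠ 0) :
    HasDerivAt (fun s => (η s).1 / (ζ s).2)
      ((η t).2 / (ζ t).2 + 2 * uz u (ζ t).1 * (η t).1) t ∧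
    HasDerivAt (fun s => (η s).2 / (ζ s).2 + 2 * uz u (ζ s).1 * (η s).1)
      (Complex.I * ((lap u (ζ t).1 * ‖(ζ t).2‖ ^ 2 * ((η t).1 / (ζ t).2).im : ℝ) : ℂ)) t := by
  have hg : fderiv ℝ (geoF u) (ζ t) (η t) =
      ((η t).2, -2 * fderiv ℝ (uz u) (ζ t).1 (η t).1 * (ζ t).2 ^ 2 -
        4 * uz u (ζ t).1 * (ζ t).2 * (η t).2) := by
    have := geoF_fderiv hu (ζ t).2 (η t).1 (η t).2
    simpa using this
  rw [hg] at h2
  have hz : HasDerivAt (fun s => (ζ s).1) (ζ t).2 t :=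
    (hasFDerivAt_fst (𝕜 := ℝ) (p := ζ t)).comp_hasDerivAt t h1
  have hpp : HasDerivAt (fun s => (ζ s).2) (-2 * uz u (ζ t).1 * (ζ t).2 ^ 2) t :=
    (hasFDerivAt_snd (𝕜 := ℝ) (p := ζ t)).comp_hasDerivAt t h1
  have hy : HasDerivAt (fun s => (η s).1) (η t).2 t :=
    (hasFDerivAt_fst (𝕜 := ℝ) (p := η t)).comp_hasDerivAt t h2
  have hq : HasDerivAt (fun s => (η s).2)
      (-2 * fderiv ℝ (uz u) (ζ t).1 (η t).1 * (ζ t).2 ^ 2 -
        4 * uz u (ζ t).1 * (ζ t).2 * (η t).2) t :=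
    (hasFDerivAt_snd (𝕜 := ℝ) (p := η t)).comp_hasDerivAt t h2
  obtain ⟨hdu, a, ha⟩ := uz_fderiv hu
  have huz : HasDerivAt (fun s => uz u (ζ s).1) (fderiv ℝ (uz u) (ζ t).1 (ζ t).2) t :=
    HasFDerivAt.comp_hasDerivAt (f := fun s => (ζ s).1) t
      (show HasFDerivAt (uz u) (fderiv ℝ (uz u) (ζ t).1) ((fun s => (ζ s).1) t) from
        hdu.hasFDerivAt) hz
  refine ⟨?_, ?_⟩
  · refine (hy.div hpp hp).congr_deriv ?_
    field_simp
    ring
  · have hV := (hq.div hpp hp).add ((huz.const_mul (2 : ℂ)).mul hy)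
    refine HasDerivAt.congr_deriv hV ?_
    rw [ha, ha]
    set z := (ζ t).1
    set p := (ζ t).2
    set y := (η t).1
    set q := (η t).2
    set w := uz u z
    set L := lap u z
    have e1 : (((L * ‖p‖ ^ 2 * (y / p).im : ℝ)) : ℂ) =
        (L : ℂ) * ((((starRingEnd ℂ) p * y).im : ℝ) : ℂ) := by
      rw [← Complex.ofReal_mul]
      congr 1
      have hn : Complex.normSq p ≠ 0 := by
        simpa [Complex.normSq_eq_zero] using hp
      have hy2 : (y / p).im = ((starRingEnd ℂ) p * y).im / Complex.normSq p := by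
        simp only [Complex.div_im, Complex.mul_im, Complex.conj_re, Complex.conj_im]
        field_simp
        ring
      rw [hy2, ← Complex.normSq_eq_norm_sq]
      field_simp
    rw [e1]
    have e2 : (starRingEnd ℂ) p * y - (starRingEnd ℂ) y * p =
        2 * Complex.I * ((((starRingEnd ℂ) p * y).im : ℝ) : ℂ) := by
      have h3 := Complex.sub_conj ((starRingEnd ℂ) p * y)
      rw [map_mul, Complex.conj_conj] at h3
      rw [mul_comm ((starRingEnd ℂ) y) p, h3]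
      push_cast
      ring
    have e3 : (L : ℂ) / 2 * ((starRingEnd ℂ) p * y - (starRingEnd ℂ) y * p) =
        Complex.I * ((L : ℂ) * ((((starRingEnd ℂ) p * y).im : ℝ) : ℂ)) := by
      rw [e2]
      ring
    rw [← e3]
    push_cast
    field_simp
    ring

/-- Row W2. the speed `e^u |p|` is constant -/
theorem speed_const {u : ℂ → ℝ} {U : Set ℂ} (hU : IsOpen U) (hu : ContDiffOn ℝ 5 u U)
    {ζ : ℝ → ℂ × ℂ} {a b : ℝ} (h : ∀ s ∈ Set.Ioo a b, (ζ s).1 ∈ U ∧
      HasDerivAt ζ (geoF u (ζ s)) s) {s t : ℝ} (hs : s ∈ Set.Ioo a b) (ht : t ∈ Set.Ioo a b) :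
    Real.exp (u (ζ s).1) * ‖(ζ s).2‖ = Real.exp (u (ζ t).1) * ‖(ζ t).2‖ := by
  have key : ∀ r ∈ Set.Ioo a b, HasDerivAt
      (fun r => Real.exp (2 * u (ζ r).1) * ((ζ r).2.re ^ 2 + (ζ r).2.im ^ 2)) 0 r := by
    intro r hr
    obtain ⟨hrU, hd⟩ := h r hr
    have hz : HasDerivAt (fun s => (ζ s).1) (ζ r).2 r :=
      (hasFDerivAt_fst (𝕜 := ℝ) (p := ζ r)).comp_hasDerivAt r hd
    have hpp : HasDerivAt (fun s => (ζ s).2) (-2 * uz u (ζ r).1 * (ζ r).2 ^ 2) r :=
      (hasFDerivAt_snd (𝕜 := ℝ) (p := ζ r)).comp_hasDerivAt r hd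
    have hud : DifferentiableAt ℝ u (ζ r).1 :=
      ((hu.contDiffAt (hU.mem_nhds hrU)).differentiableAt (by simp))
    have hur : HasDerivAt (fun s => u (ζ s).1) (fderiv ℝ u (ζ r).1 (ζ r).2) r :=
      hud.hasFDerivAt.comp_hasDerivAt r hz
    have hre : HasDerivAt (fun s => (ζ s).2.re) (-2 * uz u (ζ r).1 * (ζ r).2 ^ 2).re r :=
      Complex.reCLM.hasFDerivAt.comp_hasDerivAt r hpp
    have him : HasDerivAt (fun s => (ζ s).2.im) (-2 * uz u (ζ r).1 * (ζ r).2 ^ 2).im r :=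
      Complex.imCLM.hasFDerivAt.comp_hasDerivAt r hpp
    have hexp := (hur.const_mul (2 : ℝ)).exp
    refine (hexp.mul ((hre.pow 2).add (him.pow 2))).congr_deriv ?_
    rw [du_eq hud]
    simp only [Complex.mul_re, Complex.mul_im, pow_two, Complex.neg_re, Complex.neg_im,
      Complex.re_ofNat, Complex.im_ofNat]
    simp only [Pi.add_apply, Pi.mul_apply]
    push_cast
    ring
  have hconst : Real.exp (2 * u (ζ s).1) * ((ζ s).2.re ^ 2 + (ζ s).2.im ^ 2) =
      Real.exp (2 * u (ζ t).1) * ((ζ t).2.re ^ 2 + (ζ t).2.im ^ 2) := by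
    refine isOpen_Ioo.is_const_of_deriv_eq_zero (s := Set.Ioo a b) isPreconnected_Ioo
      (f := fun r => Real.exp (2 * u (ζ r).1) * ((ζ r).2.re ^ 2 + (ζ r).2.im ^ 2))
      (fun r hr => (key r hr).differentiableAt.differentiableWithinAt)
      (fun r hr => (key r hr).deriv) hs ht
  have hsq : ∀ r : ℝ, (Real.exp (u (ζ r).1) * ‖(ζ r).2‖) ^ 2 =
      Real.exp (2 * u (ζ r).1) * ((ζ r).2.re ^ 2 + (ζ r).2.im ^ 2) := by
    intro r
    rw [mul_pow, ← Complex.normSq_eq_norm_sq, Complex.normSq_apply, ← Real.exp_nat_mul]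
    push_cast
    ring
  have hfin : (Real.exp (u (ζ s).1) * ‖(ζ s).2‖) ^ 2 =
      (Real.exp (u (ζ t).1) * ‖(ζ t).2‖) ^ 2 := by
    rw [hsq, hsq, hconst]
  exact (sq_eq_sq₀ (by positivity) (by positivity)).1 hfin

/-- the step of the iteration -/
private theorem w3_step {j v k : ℝ → ℝ} {β K0 A : ℝ} (hK0 : 0 ≤ K0)
    (hj : ∀ t ∈ Set.Icc (0 : ℝ) 1, HasDerivAt j (v t) t)
    (hv : ∀ t ∈ Set.Icc (0 : ℝ) 1, HasDerivAt v (k t * j t) t)
    (hk : ∀ t ∈ Set.Icc (0 : ℝ) 1, |k t| ≤ K0) (hj0 : j 0 = 0) (hv0 : v 0 = β)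
    (hA : ∀ t ∈ Set.Icc (0 : ℝ) 1, |j t| ≤ A * t) :
    (∀ t ∈ Set.Icc (0 : ℝ) 1, |v t - β| ≤ K0 * A * t ^ 2 / 2) ∧
      ∀ t ∈ Set.Icc (0 : ℝ) 1, |j t - β * t| ≤ K0 * A * t ^ 3 / 6 := by
  have h1 : ∀ t ∈ Set.Icc (0 : ℝ) 1, |v t - β| ≤ K0 * A * t ^ 2 / 2 := by
    intro t ht
    have := image_norm_le_of_norm_deriv_right_le_deriv_boundary (f := fun s => v s - β)
      (f' := fun s => k s * j s) (a := 0) (b := 1) (B := fun s => K0 * A * s ^ 2 / 2)
      (B' := fun s => K0 * (A * s))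
      (fun s hs => ((hv s hs).continuousAt.sub continuousAt_const).continuousWithinAt)
      (fun s hs => ((hv s (Set.Ico_subset_Icc_self hs)).sub_const β).hasDerivWithinAt)
      (by simp [hv0])
      (fun s => by
        have h := ((hasDerivAt_pow 2 s).const_mul (K0 * A)).div_const 2
        refine h.congr_deriv ?_
        simp
        ring)
      (fun s hs => by
        rw [Real.norm_eq_abs, abs_mul]
        exact mul_le_mul (hk s (Set.Ico_subset_Icc_self hs)) (hA s (Set.Ico_subset_Icc_self hs))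
          (abs_nonneg _) hK0) ht
    exact this
  refine ⟨h1, ?_⟩
  intro t ht
  have := image_norm_le_of_norm_deriv_right_le_deriv_boundary (f := fun s => j s - β * s)
    (f' := fun s => v s - β) (a := 0) (b := 1) (B := fun s => K0 * A * s ^ 3 / 6)
    (B' := fun s => K0 * A * s ^ 2 / 2)
    (fun s hs => ((hj s hs).continuousAt.sub
      (continuousAt_const.mul continuousAt_id)).continuousWithinAt)
    (fun s hs => by
      have h := (hj s (Set.Ico_subset_Icc_self hs)).sub ((hasDerivAt_id s).const_mul β)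
      rw [mul_one] at h
      exact h.hasDerivWithinAt)
    (by simp [hj0])
    (fun s => by
      have h := ((hasDerivAt_pow 3 s).const_mul (K0 * A)).div_const 6
      refine h.congr_deriv ?_
      simp
      ring)
    (fun s hs => h1 s (Set.Ico_subset_Icc_self hs)) ht
  exact this

/-- Row W2. the scalar Jacobi equation on `[0, 1]`: with `j = Im W`, `|j''| ≤ K0 |j|`, `j(0) = 0`,
`j'(0) = b`: `|j| ≤ 1.157 |b|`, so `|j(t)| ≤ |b| (t + 0.157 t²)`, so `|j(1) - b| ≤ 0.05 |b|`. -/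
theorem scalar_jac {W V : ℝ → ℂ} {b : ℂ} {K0 : ℝ} (hK : K0 ≤ 169 / 625)
    (h : ∀ t ∈ Set.Icc (0 : ℝ) 1, HasDerivAt W (V t) t ∧ ∃ k : ℝ, |k| ≤ K0 ∧
      HasDerivAt V (Complex.I * ((k * (W t).im : ℝ) : ℂ)) t) (hW : W 0 = 0) (hV : V 0 = b) :
    (W 1).re = b.re ∧ |(W 1).im| ≤ 21 / 20 * |b.im| ∧ 4 / 5 * |b.im| ≤ |(W 1).im| := by
  have h0 : (0 : ℝ) ∈ Set.Icc (0 : ℝ) 1 := by constructor <;> norm_num
  have h1' : (1 : ℝ) ∈ Set.Icc (0 : ℝ) 1 := by constructor <;> norm_num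
  have hWd : ∀ t ∈ Set.Icc (0 : ℝ) 1, HasDerivAt W (V t) t := fun t ht => (h t ht).1
  have hex : ∀ t : ℝ, ∃ k : ℝ, t ∈ Set.Icc (0 : ℝ) 1 → |k| ≤ K0 ∧
      HasDerivAt V (Complex.I * ((k * (W t).im : ℝ) : ℂ)) t := by
    intro t
    by_cases ht : t ∈ Set.Icc (0 : ℝ) 1
    · obtain ⟨k, hk⟩ := (h t ht).2
      exact ⟨k, fun _ => hk⟩
    · exact ⟨0, fun h => absurd h ht⟩
  choose k hk using hex
  have hK0 : 0 ≤ K0 := (abs_nonneg _).trans (hk 0 h0).1
  constructor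
  · -- the real part
    have hVre : ∀ t ∈ Set.Icc (0 : ℝ) 1, (V t).re = b.re := by
      intro t ht
      have h2 := image_norm_le_of_norm_deriv_right_le_deriv_boundary
        (f := fun s => (V s).re - b.re) (f' := fun s => 0) (a := 0) (b := 1) (B := fun _ => 0)
        (B' := fun _ => 0)
        (fun s hs => by
          have h3 := Complex.reCLM.hasFDerivAt.comp_hasDerivAt s (hk s hs).2
          exact (h3.continuousAt.sub continuousAt_const).continuousWithinAt)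
        (fun s hs => by
          have h3 := (Complex.reCLM.hasFDerivAt.comp_hasDerivAt s
            (hk s (Set.Ico_subset_Icc_self hs)).2).sub_const b.re
          have h4 : Complex.reCLM (Complex.I * ((k s * (W s).im : ℝ) : ℂ)) = 0 := by simp
          rw [h4] at h3
          exact h3.hasDerivWithinAt)
        (by simp [hV]) (fun s => hasDerivAt_const s 0) (fun s _ => by simp) ht
      have h3 : ‖(V t).re - b.re‖ ≤ 0 := h2
      have h4 := norm_le_zero_iff.1 h3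
      linarith
    have h2 := image_norm_le_of_norm_deriv_right_le_deriv_boundary
      (f := fun s => (W s).re - b.re * s) (f' := fun s => (V s).re - b.re) (a := 0) (b := 1)
      (B := fun _ => 0) (B' := fun _ => 0)
      (fun s hs => by
        have h3 := Complex.reCLM.hasFDerivAt.comp_hasDerivAt s (hWd s hs)
        exact (h3.continuousAt.sub (continuousAt_const.mul continuousAt_id)).continuousWithinAt)
      (fun s hs => by
        have h3 := (Complex.reCLM.hasFDerivAt.comp_hasDerivAt s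
          (hWd s (Set.Ico_subset_Icc_self hs))).sub ((hasDerivAt_id s).const_mul b.re)
        rw [mul_one] at h3
        exact h3.hasDerivWithinAt)
      (by simp [hW]) (fun s => hasDerivAt_const s 0)
      (fun s hs => by rw [hVre s (Set.Ico_subset_Icc_self hs)]; simp) h1'
    have h3 : ‖(W 1).re - b.re * 1‖ ≤ 0 := h2
    have h4 := norm_le_zero_iff.1 h3
    linarith
  · -- the imaginary part
    set j : ℝ → ℝ := fun t => (W t).im with hj
    set v : ℝ → ℝ := fun t => (V t).im with hv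
    have hjd : ∀ t ∈ Set.Icc (0 : ℝ) 1, HasDerivAt j (v t) t := fun t ht =>
      Complex.imCLM.hasFDerivAt.comp_hasDerivAt t (hWd t ht)
    have hvd : ∀ t ∈ Set.Icc (0 : ℝ) 1, HasDerivAt v (k t * j t) t := by
      intro t ht
      have h3 := Complex.imCLM.hasFDerivAt.comp_hasDerivAt t (hk t ht).2
      have h4 : Complex.imCLM (Complex.I * ((k t * (W t).im : ℝ) : ℂ)) = k t * j t := by simp [hj]
      rw [h4] at h3
      exact h3
    have hkb : ∀ t ∈ Set.Icc (0 : ℝ) 1, |k t| ≤ K0 := fun t ht => (hk t ht).1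
    have hj0 : j 0 = 0 := by simp [hj, hW]
    have hv0 : v 0 = b.im := by simp [hv, hV]
    have hvc : ContinuousOn v (Set.Icc 0 1) := fun t ht => (hvd t ht).continuousAt.continuousWithinAt
    obtain ⟨t0, ht0, hmax⟩ := isCompact_Icc.exists_isMaxOn ⟨0, h0⟩ hvc.abs
    set A : ℝ := |v t0| with hA
    have hvA : ∀ t ∈ Set.Icc (0 : ℝ) 1, |v t| ≤ A := fun t ht => hmax ht
    have hA0 : 0 ≤ A := abs_nonneg _
    have hjA : ∀ t ∈ Set.Icc (0 : ℝ) 1, |j t| ≤ A * t := by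
      intro t ht
      have := image_norm_le_of_norm_deriv_right_le_deriv_boundary (f := j)
        (f' := v) (a := 0) (b := 1) (B := fun s => A * s) (B' := fun _ => A)
        (fun s hs => (hjd s hs).continuousAt.continuousWithinAt)
        (fun s hs => (hjd s (Set.Ico_subset_Icc_self hs)).hasDerivWithinAt)
        (by simp [hj0])
        (fun s => by
          have h := (hasDerivAt_id s).const_mul A
          rwa [mul_one] at h)
        (fun s hs => hvA s (Set.Ico_subset_Icc_self hs)) ht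
      exact this
    set β : ℝ := b.im with hβ
    have s1 := w3_step hK0 hjd hvd hkb hj0 hv0 hjA
    -- the bound for `A`
    have hA1 : A ≤ |β| + K0 * A / 2 := by
      have h2 := s1.1 t0 ht0
      have h3 : |v t0| ≤ |v t0 - β| + |β| := by
        have := abs_add_le (v t0 - β) β
        rwa [sub_add_cancel] at this
      have h4 : K0 * A * t0 ^ 2 / 2 ≤ K0 * A / 2 := by
        have h5 : t0 ^ 2 ≤ 1 := pow_le_one₀ ht0.1 ht0.2
        have h6 : 0 ≤ K0 * A := mul_nonneg hK0 hA0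
        nlinarith
      rw [← hA] at h3
      linarith
    have hβ0 : 0 ≤ |β| := abs_nonneg β
    have hKA : K0 * A ≤ 169 / 625 * A := mul_le_mul_of_nonneg_right hK hA0
    have hA2 : A ≤ 1250 / 1081 * |β| := by linarith
    set A2 : ℝ := |β| + K0 * A / 6 with hA2d
    have hA20 : 0 ≤ A2 := by
      have : 0 ≤ K0 * A := mul_nonneg hK0 hA0
      linarith
    have hjA2 : ∀ t ∈ Set.Icc (0 : ℝ) 1, |j t| ≤ A2 * t := by
      intro t ht
      have h2 := s1.2 t ht
      have h3 : |j t| ≤ |j t - β * t| + |β * t| := by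
        have := abs_add_le (j t - β * t) (β * t)
        rwa [sub_add_cancel] at this
      rw [abs_mul, abs_of_nonneg ht.1] at h3
      have h4 : K0 * A * t ^ 3 / 6 ≤ K0 * A / 6 * t := by
        have h5 : t ^ 2 ≤ 1 := pow_le_one₀ ht.1 ht.2
        have h6 : 0 ≤ K0 * A := mul_nonneg hK0 hA0
        have h7 : t ^ 3 ≤ t := by
          have := mul_le_mul_of_nonneg_right h5 ht.1
          rw [one_mul] at this
          calc t ^ 3 = t ^ 2 * t := by ring
            _ ≤ t := this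
        have h8 := mul_le_mul_of_nonneg_left h7 h6
        linarith
      rw [hA2d, add_mul]
      linarith
    have s2 := w3_step hK0 hjd hvd hkb hj0 hv0 hjA2
    have h5 := s2.2 1 h1'
    have hA3 : A2 ≤ 527 / 500 * |β| := by
      rw [hA2d]
      linarith
    have h6 : K0 * A2 * 1 ^ 3 / 6 ≤ 1 / 20 * |β| := by
      have h7 : K0 * A2 ≤ 169 / 625 * A2 := mul_le_mul_of_nonneg_right hK hA20
      rw [one_pow, mul_one]
      linarith
    rw [mul_one] at h5
    have h7 : |j 1 - β| ≤ 1 / 20 * |β| := h5.trans h6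
    have h8 : |j 1| ≤ |j 1 - β| + |β| := by
      have := abs_add_le (j 1 - β) β
      rwa [sub_add_cancel] at this
    have h9 : |β| ≤ |j 1 - β| + |j 1| := by
      have := abs_add_le (β - j 1) (j 1)
      rw [sub_add_cancel, abs_sub_comm] at this
      exact this
    show |j 1| ≤ 21 / 20 * |β| ∧ 4 / 5 * |β| ≤ |j 1|
    constructor <;> linarith

end F10S
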